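import Mathlib
import Pool.Agent.W245.EB.Zt

/-!
# The lattices `ℤ + ℤ t`
-/

set_option autoImplicit false

open Filter UpperHalfPlane
open scoped Topology PeriodPair

noncomputable section

namespace Pool.Agent.Y685

open H667R3 Pool.Agent.W245.EB

/-- the lattice `ℤ + ℤ τ` -/
def LL (τ : ℍ) : PeriodPair where
  ω₁ := 1
  ω₂ := (τ : ℂ)
  indep := by
    have hI := τ.im_ne_zero
    rw [LinearIndependent.pair_iff]
    intro s t hst
    have him := congrArg Complex.im hst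
    have hre := congrArg Complex.re hst
    simp at him hre
    have ht : t = 0 := by
      rcases him with h | h
      · exact h
      · exact absurd h hI
    subst ht
    simp at hre
    exact ⟨hre, rfl⟩

/-- the lattice `ℤ + ℤ t`, `Im t > 0` -/
def LC (t : ℂ) : PeriodPair := LL (ofComplex t)

@[simp] lemma LL_ω₁ (τ : ℍ) : (LL τ).ω₁ = 1 := rfl
@[simp] lemma LL_ω₂ (τ : ℍ) : (LL τ).ω₂ = (τ : ℂ) := rfl
@[simp] lemma LC_ω₁ (t : ℂ) : (LC t).ω₁ = 1 := rfl

lemma LC_ω₂ {t : ℂ} (ht : 0 < t.im) : (LC t).ω₂ = t := by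
  unfold LC
  rw [LL_ω₂, ofComplex_apply_of_im_pos ht]

lemma LC_coe (τ : ℍ) : LC (τ : ℂ) = LL τ := by
  unfold LC
  rw [ofComplex_apply]

lemma mem_LC {t z : ℂ} (ht : 0 < t.im) :
    z ∈ (LC t).lattice ↔ ∃ m n : ℤ, (m : ℂ) + n * t = z := by
  rw [PeriodPair.mem_lattice, LC_ω₂ ht]
  simp

/-- the quasi-period of `1` -/
def h1 (t : ℂ) : ℂ := eta (LC t) 1

/-- the quasi-period of `t` -/
def h2 (t : ℂ) : ℂ := eta (LC t) t

/-- Legendre's constant `η₂ - t η₁` (it is `∓ 2 π i`) -/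
def Wc (t : ℂ) : ℂ := h2 t - t * h1 t

/-- the numbers `α, β` with `0 = α + β η₁`, `1 = α t + β η₂` -/
def be (t : ℂ) : ℂ := 1 / Wc t

def al (t : ℂ) : ℂ := -(be t * h1 t)

end Pool.Agent.Y685
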