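import Mathlib

/-!
# Functions of two complex variables: continuous and separately holomorphic
-/

set_option autoImplicit false

open Filter Metric
open scoped Topology Uniformity

noncomputable section

namespace Pool.Agent.Y685.H2

/-- continuous and separately holomorphic near a point -/
def SH (f : ℂ → ℂ → ℂ) (p : ℂ × ℂ) : Prop :=
  ∀ᶠ q : ℂ × ℂ in 𝓝 p, ContinuousAt (fun r : ℂ × ℂ => f r.1 r.2) q ∧
    DifferentiableAt ℂ (fun t => f t q.2) q.1 ∧ DifferentiableAt ℂ (f q.1) q.2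

variable {f g : ℂ → ℂ → ℂ} {p : ℂ × ℂ}

theorem SH.eventually (h : SH f p) : ∀ᶠ q in 𝓝 p, SH f q := eventually_eventually_nhds.2 h

theorem SH.cont (h : SH f p) : ContinuousAt (fun r : ℂ × ℂ => f r.1 r.2) p := h.self_of_nhds.1

theorem SH.d1 (h : SH f p) : DifferentiableAt ℂ (fun t => f t p.2) p.1 := h.self_of_nhds.2.1

theorem SH.d2 (h : SH f p) : DifferentiableAt ℂ (f p.1) p.2 := h.self_of_nhds.2.2

theorem SH.swap (h : SH f p) : SH (fun z t => f t z) p.swap := by
  have hc : Tendsto (Prod.swap : ℂ × ℂ → ℂ × ℂ) (𝓝 p.swap) (𝓝 p) := by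
    have := (continuous_swap (X := ℂ) (Y := ℂ)).tendsto p.swap
    rwa [Prod.swap_swap] at this
  filter_upwards [hc.eventually h] with q hq
  refine ⟨?_, hq.2.2, hq.2.1⟩
  exact ContinuousAt.comp (f := Prod.swap) (g := fun r : ℂ × ℂ => f r.1 r.2) hq.1
    continuous_swap.continuousAt

theorem SH.ball (h : SH f p) : ∃ r > 0, ∀ t ∈ ball p.1 r, ∀ z ∈ ball p.2 r, SH f (t, z) := by
  obtain ⟨r, hr, hb⟩ := Metric.eventually_nhds_iff_ball.1 h.eventually
  refine ⟨r, hr, fun t ht z hz => hb (t, z) ?_⟩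
  rw [← ball_prod_same]
  exact ⟨ht, hz⟩

/-- the derivative in the second variable is continuous -/
theorem SH.cont_d2 (h : SH f p) : ContinuousAt (fun q : ℂ × ℂ => deriv (f q.1) q.2) p := by
  obtain ⟨r, hr, hb⟩ := h.ball
  have hU : IsOpen (Metric.ball p.2 r) := isOpen_ball
  have hlu : TendstoLocallyUniformlyOn (fun t z => f t z) (f p.1) (𝓝 p.1) (Metric.ball p.2 r) := by
    rw [Metric.tendstoLocallyUniformlyOn_iff]
    intro ε hε z hz
    have hc := (hb p.1 (mem_ball_self hr) z hz).cont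
    have h1 := Metric.continuousAt_iff'.1 hc (ε / 2) (half_pos hε)
    rw [nhds_prod_eq] at h1
    obtain ⟨s, hs, t, ht, hst⟩ := Filter.mem_prod_iff.1 h1
    refine ⟨t, mem_nhdsWithin_of_mem_nhds ht, ?_⟩
    filter_upwards [hs] with τ hτ y hy
    have a1 : dist (f τ y) (f p.1 z) < ε / 2 := hst (Set.mk_mem_prod hτ hy)
    have a2 : dist (f p.1 y) (f p.1 z) < ε / 2 := hst (Set.mk_mem_prod (mem_of_mem_nhds hs) hy)
    calc dist (f p.1 y) (f τ y) ≤ dist (f p.1 y) (f p.1 z) + dist (f τ y) (f p.1 z) :=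
          dist_triangle_right _ _ _
      _ < ε := by linarith
  have hdiff : ∀ᶠ t in 𝓝 p.1, DifferentiableOn ℂ (f t) (Metric.ball p.2 r) := by
    filter_upwards [ball_mem_nhds p.1 hr] with t ht z hz
    exact (hb t ht z hz).d2.differentiableWithinAt
  have hd := hlu.deriv hdiff hU
  have hcd : ContinuousWithinAt (deriv (f p.1)) (Metric.ball p.2 r) p.2 := by
    have h1 : DifferentiableOn ℂ (f p.1) (Metric.ball p.2 r) := hdiff.self_of_nhds
    exact ((h1.deriv hU).continuousOn) p.2 (mem_ball_self hr)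
  have key := tendsto_comp_of_locally_uniform_limit_within (p := 𝓝 p)
    (F := fun q : ℂ × ℂ => deriv (f q.1)) (f := deriv (f p.1)) (g := fun q : ℂ × ℂ => q.2)
    (s := Metric.ball p.2 r) (x := p.2) hcd ?_ ?_
  · exact key
  · rw [tendsto_nhdsWithin_iff]
    exact ⟨continuous_snd.tendsto p, continuous_snd.tendsto p |>.eventually
      (ball_mem_nhds p.2 hr)⟩
  · intro u hu
    obtain ⟨t, ht, h2⟩ := hd u hu p.2 (mem_ball_self hr)
    exact ⟨t, ht, (continuous_fst.tendsto p).eventually h2⟩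

theorem SH.cont_d1 (h : SH f p) :
    ContinuousAt (fun q : ℂ × ℂ => deriv (fun t => f t q.2) q.1) p := by
  have h1 := h.swap.cont_d2
  have h2 : ContinuousAt (Prod.swap : ℂ × ℂ → ℂ × ℂ) p := continuous_swap.continuousAt
  exact ContinuousAt.comp (f := Prod.swap) h1 h2

/-- strict differentiability -/
theorem SH.strict (h : SH f p) : HasStrictFDerivAt (fun q : ℂ × ℂ => f q.1 q.2)
    (deriv (fun t => f t p.2) p.1 • ContinuousLinearMap.fst ℂ ℂ ℂ +
      deriv (f p.1) p.2 • ContinuousLinearMap.snd ℂ ℂ ℂ) p := by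
  let f₁ : ℂ → ℂ → ℂ →L[ℂ] ℂ := fun t z =>
    ContinuousLinearMap.toSpanSingleton ℂ (deriv (fun s => f s z) t)
  let f₂ : ℂ → ℂ → ℂ →L[ℂ] ℂ := fun t z => ContinuousLinearMap.toSpanSingleton ℂ (deriv (f t) z)
  have hts : Continuous (fun c : ℂ => ContinuousLinearMap.toSpanSingleton ℂ c) :=
    (ContinuousLinearMap.toSpanSingletonCLE (𝕜 := ℂ) (E := ℂ)).continuous
  have key := hasStrictFDerivAt_uncurry_coprod (u := p) (f := f) (f₁ := f₁) (f₂ := f₂)
    (by
      filter_upwards [h] with v hv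
      exact hv.2.1.hasDerivAt.hasFDerivAt)
    (by
      filter_upwards [h] with v hv
      exact hv.2.2.hasDerivAt.hasFDerivAt)
    (ContinuousAt.comp (g := fun c : ℂ => ContinuousLinearMap.toSpanSingleton ℂ c)
      (f := fun q : ℂ × ℂ => deriv (fun s => f s q.2) q.1) hts.continuousAt h.cont_d1)
    (ContinuousAt.comp (g := fun c : ℂ => ContinuousLinearMap.toSpanSingleton ℂ c)
      (f := fun q : ℂ × ℂ => deriv (f q.1) q.2) hts.continuousAt h.cont_d2)
  refine key.congr_fderiv ?_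
  ext
  · simp [f₁, f₂, Function.HasUncurry.uncurry]
  · simp [f₁, f₂, Function.HasUncurry.uncurry]

/-- the derivative in the first variable is holomorphic in the second variable, and mixed
derivatives agree -/
theorem SH.mixed (h : SH f p) :
    DifferentiableAt ℂ (fun z => deriv (fun s => f s z) p.1) p.2 ∧
      HasDerivAt (fun t => deriv (f t) p.2) (deriv (fun z => deriv (fun s => f s z) p.1) p.2)
        p.1 := by
  obtain ⟨r, hr, hb⟩ := h.ball
  have hU : IsOpen (Metric.ball p.2 r) := isOpen_ball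
  set q : ℂ → ℂ → ℂ := fun t z => (f t z - f p.1 z) / (t - p.1) with hq
  set k : ℂ → ℂ := fun z => deriv (fun s => f s z) p.1 with hk
  have hlu : TendstoLocallyUniformlyOn q k (𝓝[≠] p.1) (Metric.ball p.2 r) := by
    rw [Metric.tendstoLocallyUniformlyOn_iff]
    intro ε hε z hz
    have hst := (hb p.1 (mem_ball_self hr) z hz).strict
    have hcont := (hb p.1 (mem_ball_self hr) z hz).cont_d1
    have h1 := hst.isLittleO.def (c := ε / 4) (by linarith)
    rw [nhds_prod_eq] at h1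
    obtain ⟨s, hs, t, ht, hst'⟩ := Filter.mem_prod_iff.1 h1
    have hst2 : s ∩ t ∈ 𝓝 ((p.1, z) : ℂ × ℂ) := inter_mem hs ht
    rw [nhds_prod_eq] at hst2
    obtain ⟨a, ha, b, hb', hab⟩ := Filter.mem_prod_iff.1 hst2
    have h2 := Metric.continuousAt_iff'.1 hcont (ε / 4) (by linarith)
    rw [nhds_prod_eq] at h2
    obtain ⟨a', ha', b', hb'', hab'⟩ := Filter.mem_prod_iff.1 h2
    refine ⟨b ∩ b', mem_nhdsWithin_of_mem_nhds (inter_mem hb' hb''), ?_⟩
    have ha2 : a ∈ 𝓝[≠] p.1 := mem_nhdsWithin_of_mem_nhds ha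
    filter_upwards [ha2, self_mem_nhdsWithin] with τ hτ hτ0 y hy
    have hτ0 : τ - p.1 ≠ 0 := sub_ne_zero.2 hτ0
    have m1 : ((τ, y) : ℂ × ℂ) ∈ s := (hab (Set.mk_mem_prod hτ hy.1)).1
    have m2 : ((p.1, y) : ℂ × ℂ) ∈ t := (hab (Set.mk_mem_prod (mem_of_mem_nhds ha) hy.1)).2
    have e1 : ‖f τ y - f p.1 y - k z * (τ - p.1)‖ ≤ ε / 4 * ‖τ - p.1‖ := by
      have := hst' (Set.mk_mem_prod m1 m2)
      simp only [Set.mem_setOf_eq] at this
      have hn : ‖((τ, y) : ℂ × ℂ) - (p.1, y)‖ = ‖τ - p.1‖ := by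
        rw [Prod.mk_sub_mk, sub_self, Prod.norm_mk, norm_zero, max_eq_left (norm_nonneg _)]
      rw [hn] at this
      refine le_trans (le_of_eq ?_) this
      congr 2
      simp [hk]
    have e2 : dist (k y) (k z) < ε / 4 := hab' (Set.mk_mem_prod (mem_of_mem_nhds ha') hy.2)
    have e3 : dist (q τ y) (k z) ≤ ε / 4 := by
      rw [dist_eq_norm]
      have : q τ y - k z = (f τ y - f p.1 y - k z * (τ - p.1)) / (τ - p.1) := by
        rw [hq]
        field_simp
      rw [this, norm_div]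
      exact (div_le_iff₀ (norm_pos_iff.2 hτ0)).2 e1
    calc dist (k y) (q τ y) ≤ dist (k y) (k z) + dist (q τ y) (k z) := dist_triangle_right _ _ _
      _ < ε := by linarith
  have hdiff : ∀ᶠ t in 𝓝[≠] p.1, DifferentiableOn ℂ (q t) (Metric.ball p.2 r) := by
    filter_upwards [mem_nhdsWithin_of_mem_nhds (ball_mem_nhds p.1 hr)] with t ht z hz
    exact (((hb t ht z hz).d2.sub (hb p.1 (mem_ball_self hr) z hz).d2).div_const
      _).differentiableWithinAt
  have hkd := hlu.differentiableOn hdiff hU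
  refine ⟨(hkd p.2 (mem_ball_self hr)).differentiableAt (ball_mem_nhds _ hr), ?_⟩
  have hd := (hlu.deriv hdiff hU).tendsto_at (mem_ball_self hr)
  rw [hasDerivAt_iff_tendsto_slope]
  refine hd.congr' ?_
  filter_upwards [mem_nhdsWithin_of_mem_nhds (ball_mem_nhds p.1 hr)] with t ht
  have e4 : deriv (q t) p.2 = (deriv (f t) p.2 - deriv (f p.1) p.2) / (t - p.1) := by
    have d1 := (hb t ht p.2 (mem_ball_self hr)).d2.hasDerivAt
    have d2 := (hb p.1 (mem_ball_self hr) p.2 (mem_ball_self hr)).d2.hasDerivAt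
    exact ((d1.sub d2).div_const _).deriv
  rw [Function.comp_apply, e4, slope_def_field]

/-- the derivative in the second variable is separately holomorphic -/
theorem SH.deriv2 (h : SH f p) : SH (fun t z => deriv (f t) z) p := by
  filter_upwards [h.eventually] with q hq
  refine ⟨hq.cont_d2, hq.mixed.2.differentiableAt, ?_⟩
  obtain ⟨r, hr, hb⟩ := hq.ball
  have h1 : DifferentiableOn ℂ (f q.1) (Metric.ball q.2 r) := fun z hz =>
    (hb q.1 (mem_ball_self hr) z hz).d2.differentiableWithinAt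
  exact (h1.deriv isOpen_ball).differentiableAt (ball_mem_nhds _ hr)

/-- the derivative in the first variable is separately holomorphic -/
theorem SH.deriv1 (h : SH f p) : SH (fun t z => deriv (fun s => f s z) t) p := by
  have h1 := h.swap.deriv2.swap
  rw [Prod.swap_swap] at h1
  exact h1

theorem SH.congr (h : SH f p) (hfg : ∀ᶠ q : ℂ × ℂ in 𝓝 p, f q.1 q.2 = g q.1 q.2) : SH g p := by
  filter_upwards [h, hfg.eventually_nhds] with q hq hq2
  refine ⟨hq.1.congr hq2, ?_, ?_⟩
  · refine hq.2.1.congr_of_eventuallyEq ?_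
    have hc : ContinuousAt (fun t : ℂ => ((t, q.2) : ℂ × ℂ)) q.1 := by fun_prop
    filter_upwards [hc.eventually hq2] with t ht
    exact ht.symm
  · refine hq.2.2.congr_of_eventuallyEq ?_
    have hc : ContinuousAt (fun z : ℂ => ((q.1, z) : ℂ × ℂ)) q.2 := by fun_prop
    filter_upwards [hc.eventually hq2] with t ht
    exact ht.symm

end Pool.Agent.Y685.H2
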