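import Mathlib
import Pool.Agent.TH494.Ell.Add2

/-!
# Derivations of `ℂ` and elliptic functions, without constancy of the invariants
-/

set_option autoImplicit false

open Filter
open scoped Topology PeriodPair

noncomputable section

namespace Pool.Agent.Y685

open H667R3 Pool.Agent.W245.EB Pool.Agent.TH813.Ell

variable (L : PeriodPair)

/-- the vertical component of a derivation at a point -/
def vv (D : Derivation ℚ ℂ ℂ) (e h z : ℂ) : ℂ :=
  (D (℘[L] z) + 2 * e * ℘[L] z - h * (L.g₂ / 3 - 2 * ℘[L] z ^ 2)) / ℘'[L] z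

/-- additive combination of the vertical component and `ζ` -/
def TT (D : Derivation ℚ ℂ ℂ) (e h z : ℂ) : ℂ := vv L D e h z + h * zt L z

/-- additive combination -/
def RR (D : Derivation ℚ ℂ ℂ) (e h z : ℂ) : ℂ :=
  D (zt L z) + e * zt L z - h / 2 * ℘'[L] z + vv L D e h z * ℘[L] z

variable {L}

/-- additivity from generic additivity -/
theorem add_of_gen (f : ℂ → ℂ) (hodd : ∀ u, f (-u) = -f u)
    (hlat : ∀ u, ∀ l ∈ L.lattice, f (u + l) = f u + f l)
    (hgen : ∀ u v, u ∉ L.lattice → 2 * v ∉ L.lattice → 2 * (u + v) ∉ L.lattice →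
      u - v ∉ L.lattice → f (u + v) = f u + f v)
    (htor : ∀ u v, 2 * u ∈ L.lattice → 2 * v ∈ L.lattice → f (u + v) = f u + f v) :
    ∀ u v, f (u + v) = f u + f v := by
  have hgen' : ∀ u v, 2 * v ∉ L.lattice → 2 * (u + v) ∉ L.lattice →
      u - v ∉ L.lattice → f (u + v) = f u + f v := by
    intro u v hv hs hd
    by_cases hu : u ∈ L.lattice
    · rw [add_comm u v, hlat v u hu, add_comm]
    · exact hgen u v hu hv hs hd
  have hnh : ∀ u v, 2 * (u + v) ∉ L.lattice → f (u + v) = f u + f v := by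
    intro u v hs
    obtain ⟨w, hw⟩ := exists_generic L {0, 2 * u, -(2 * u), 2 * v, -(2 * v), u - v}
    have w0 := hw 0 (by simp)
    have w1 := hw (2 * u) (by simp)
    have w2 := hw (-(2 * u)) (by simp)
    have w3 := hw (2 * v) (by simp)
    have w4 := hw (-(2 * v)) (by simp)
    have w5 := hw (u - v) (by simp)
    rw [add_zero] at w0
    have a1 : f (u + w) = f u + f w := by
      refine hgen' u w w0 ?_ ?_
      · rwa [show 2 * (u + w) = 2 * w + 2 * u by ring]
      · intro h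
        apply w2
        have := neg_mem (two_mem L h)
        rwa [show -(2 * (u - w)) = 2 * w + -(2 * u) by ring] at this
    have a2 : f (v + -w) = f v + f (-w) := by
      refine hgen' v (-w) ?_ ?_ ?_
      · intro h
        apply w0
        have := neg_mem h
        rwa [show -(2 * -w) = 2 * w by ring] at this
      · intro h
        apply w4
        have := neg_mem h
        rwa [show -(2 * (v + -w)) = 2 * w + -(2 * v) by ring] at this
      · intro h
        apply w3
        have := two_mem L h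
        rwa [show 2 * (v - -w) = 2 * w + 2 * v by ring] at this
    have a3 : f ((u + w) + (v + -w)) = f (u + w) + f (v + -w) := by
      refine hgen' _ _ ?_ ?_ ?_
      · intro h
        apply w4
        have := neg_mem h
        rwa [show -(2 * (v + -w)) = 2 * w + -(2 * v) by ring] at this
      · rwa [show 2 * (u + w + (v + -w)) = 2 * (u + v) by ring]
      · rwa [show u + w - (v + -w) = 2 * w + (u - v) by ring]
    rw [show u + w + (v + -w) = u + v by ring] at a3
    rw [a3, a1, a2, hodd]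
    ring
  intro u v
  by_cases hs : 2 * (u + v) ∈ L.lattice
  · by_cases hu : 2 * u ∈ L.lattice
    · have hv : 2 * v ∈ L.lattice := by
        have := sub_mem hs hu
        rwa [show 2 * (u + v) - 2 * u = 2 * v by ring] at this
      exact htor u v hu hv
    · have h := hnh (u + v) (-v) (by rwa [show u + v + -v = u by ring])
      rw [show u + v + -v = u by ring, hodd] at h
      rw [h]
      ring
  · exact hnh u v hs

theorem zt_half {u : ℂ} (hu : 2 * u ∈ L.lattice) : zt L u = eta L (2 * u) / 2 := by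
  have h1 : zt L (-u + 2 * u) = zt L (-u) + eta L (2 * u) := zt_add_lattice hu
  rw [zt_neg, show -u + 2 * u = u by ring] at h1
  linear_combination h1 / 2

theorem vv_half (D : Derivation ℚ ℂ ℂ) (e h : ℂ) {u : ℂ} (hu : 2 * u ∈ L.lattice) :
    vv L D e h u = 0 := by
  have h1 := wp'_half_eq_zero L hu
  rw [mul_div_cancel_left₀ u (two_ne_zero)] at h1
  rw [vv, h1, div_zero]

theorem wp'_of_half {u : ℂ} (hu : 2 * u ∈ L.lattice) : ℘'[L] u = 0 := by
  have h1 := wp'_half_eq_zero L hu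
  rwa [mul_div_cancel_left₀ u (two_ne_zero)] at h1

theorem vv_add_lattice (D : Derivation ℚ ℂ ℂ) (e h u : ℂ) {l : ℂ} (hl : l ∈ L.lattice) :
    vv L D e h (u + l) = vv L D e h u := by
  rw [vv, vv, wp_add_lattice L hl, wp'_add_lattice L hl]

theorem vv_neg (D : Derivation ℚ ℂ ℂ) (e h u : ℂ) : vv L D e h (-u) = -vv L D e h u := by
  rw [vv, vv, L.weierstrassP_neg, L.derivWeierstrassP_neg, div_neg]

theorem DD_nat (D : Derivation ℚ ℂ ℂ) (n : ℕ) : D (n : ℂ) = 0 := D.map_natCast n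

section

variable (D : Derivation ℚ ℂ ℂ) {e h : ℂ}

/-- the derivative of the equation of the curve -/
theorem D_curve' {x y g k : ℂ} (hg : D g = -4 * e * g - 6 * h * k)
    (hk : D k = -6 * e * k - h * g ^ 2 / 3) (hc : y ^ 2 = 4 * x ^ 3 - g * x - k) :
    2 * y * D y = (12 * x ^ 2 - g) * D x - (-4 * e * g - 6 * h * k) * x -
      (-6 * e * k - h * g ^ 2 / 3) := by
  have h1 := congrArg D hc
  have h2 : D (4 * x ^ 3) = 12 * x ^ 2 * D x := by
    have h4 : D (4 : ℂ) = 0 := by exact_mod_cast DD_nat D 4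
    rw [D_mul, h4, D_pow]
    norm_num
    ring
  rw [D_pow, map_sub, map_sub, D_mul D g x, hg, hk, h2] at h1
  norm_num at h1
  linear_combination h1

theorem D_wp' (hg2 : D L.g₂ = -4 * e * L.g₂ - 6 * h * L.g₃)
    (hg3 : D L.g₃ = -6 * e * L.g₃ - h * L.g₂ ^ 2 / 3) {u : ℂ} (hu : u ∉ L.lattice) :
    D (℘[L] u) = -2 * e * ℘[L] u + h * (L.g₂ / 3 - 2 * ℘[L] u ^ 2) + vv L D e h u * ℘'[L] u ∧
      D (℘'[L] u) = -3 * e * ℘'[L] u - 3 * h * (℘[L] u * ℘'[L] u) +
        vv L D e h u * (6 * ℘[L] u ^ 2 - L.g₂ / 2) := by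
  have hcur := L.derivWeierstrassP_sq u hu
  have hc := D_curve' D hg2 hg3 hcur
  by_cases hu2 : 2 * u ∈ L.lattice
  · have hy := wp'_of_half hu2
    rw [vv_half D e h hu2, hy, map_zero]
    rw [hy] at hc hcur
    refine ⟨?_, by ring⟩
    apply mul_left_cancel₀ (simple_root L hu hu2)
    linear_combination -hc - (6 * e + 6 * h * ℘[L] u) * hcur
  · have hy := wp'_ne_zero L hu2
    have h1 : D (℘[L] u) = -2 * e * ℘[L] u + h * (L.g₂ / 3 - 2 * ℘[L] u ^ 2) +
        vv L D e h u * ℘'[L] u := by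
      rw [vv, div_mul_cancel₀ _ hy]
      ring
    refine ⟨h1, ?_⟩
    rw [h1] at hc
    apply mul_left_cancel₀ hy
    linear_combination hc / 2 + (3 * e + 3 * h * ℘[L] u) * hcur

theorem alg_D' {x1 x2 y1 y2 x3 y3 g2 g3 lam f g : ℂ} (hΔ : x1 - x2 ≠ 0)
    (hl : 2 * lam * (x1 - x2) = y1 - y2) (c1 : y1 ^ 2 = 4 * x1 ^ 3 - g2 * x1 - g3)
    (c2 : y2 ^ 2 = 4 * x2 ^ 3 - g2 * x2 - g3) (hx : x3 = lam ^ 2 - x1 - x2)
    (hy : y3 = 2 * lam * (x1 - x3) - y1)
    (d1 : D x1 = -2 * e * x1 + h * (g2 / 3 - 2 * x1 ^ 2) + f * y1)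
    (d2 : D y1 = -3 * e * y1 - 3 * h * (x1 * y1) + f * (6 * x1 ^ 2 - g2 / 2))
    (d3 : D x2 = -2 * e * x2 + h * (g2 / 3 - 2 * x2 ^ 2) + g * y2)
    (d4 : D y2 = -3 * e * y2 - 3 * h * (x2 * y2) + g * (6 * x2 ^ 2 - g2 / 2)) :
    D lam = -e * lam + h * ((y3 - y1 - y2) / 2 + lam * x3) + f * (x1 - x3) + g * (x2 - x3) ∧
      D x3 = -2 * e * x3 + h * (g2 / 3 - 2 * x3 ^ 2) + (f + g - h * lam) * y3 := by
  have hk := alg_key hΔ hl c1 c2
  have e1 : y2 = y1 - 2 * lam * (x1 - x2) := by linear_combination hl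
  have e2 : g2 = 4 * (x1 ^ 2 + x1 * x2 + x2 ^ 2)
      - 2 * lam * (y1 + (y1 - 2 * lam * (x1 - x2))) := by
    rw [e1] at hk
    linear_combination hk
  have h1 : D lam = -e * lam + h * ((y3 - y1 - y2) / 2 + lam * x3) + f * (x1 - x3) +
      g * (x2 - x3) := by
    have h2 := congrArg D hl
    have hD2 : D (2 : ℂ) = 0 := by exact_mod_cast DD_nat D 2
    rw [D_mul, D_mul, map_sub, map_sub, hD2, d1, d2, d3, d4] at h2
    apply mul_left_cancel₀ hΔ
    rw [hy, hx]
    rw [e1, e2] at h2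
    rw [e1]
    linear_combination h2 / 2
  refine ⟨h1, ?_⟩
  have h3 : D x3 = 2 * lam * D lam - D x1 - D x2 := by
    rw [hx, map_sub, map_sub, D_pow]
    norm_num
  rw [h3, h1, d1, d3, hy, e1, e2, hx]
  ring

variable (hg2 : D L.g₂ = -4 * e * L.g₂ - 6 * h * L.g₃)
  (hg3 : D L.g₃ = -6 * e * L.g₃ - h * L.g₂ ^ 2 / 3)

include hg2 hg3 in
/-- the relations at the sum of two points, generic case -/
theorem generic' {u v : ℂ} (hu : u ∉ L.lattice) (hv : 2 * v ∉ L.lattice)
    (hs : u + v ∉ L.lattice) (hd : u - v ∉ L.lattice) :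
    ∃ lam : ℂ, zeta L (u + v) = zeta L u + zeta L v + lam ∧
      D lam = -e * lam + h * ((℘'[L] (u + v) - ℘'[L] u - ℘'[L] v) / 2 + lam * ℘[L] (u + v)) +
        vv L D e h u * (℘[L] u - ℘[L] (u + v)) + vv L D e h v * (℘[L] v - ℘[L] (u + v)) ∧
      D (℘[L] (u + v)) = -2 * e * ℘[L] (u + v) + h * (L.g₂ / 3 - 2 * ℘[L] (u + v) ^ 2) +
        (vv L D e h u + vv L D e h v - h * lam) * ℘'[L] (u + v) := by
  have hv' := two_mul_notMem_of L hv
  have hd' : v - u ∉ L.lattice := fun h => hd (by simpa using neg_mem h)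
  have hs' : v + u ∉ L.lattice := by rwa [add_comm]
  have hΔ : ℘[L] u - ℘[L] v ≠ 0 := by
    rw [sub_ne_zero, Ne, wp_eq_iff L hu hv']
    tauto
  have c1 := L.derivWeierstrassP_sq u hu
  have c2 := L.derivWeierstrassP_sq v hv'
  have hx0 := wp_add L hv hu hs' hd'
  have hy0 := wp'_add L hv hu hs' hd'
  have hl : 2 * ((℘'[L] u - ℘'[L] v) / (2 * (℘[L] u - ℘[L] v))) * (℘[L] u - ℘[L] v)
      = ℘'[L] u - ℘'[L] v := by
    field_simp
  obtain ⟨d1, d2⟩ := D_wp' D hg2 hg3 hu
  obtain ⟨d3, d4⟩ := D_wp' D hg2 hg3 hv'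
  rw [add_comm v u] at hx0 hy0
  have hx := alg_x hΔ hl c1 c2 hx0
  have hy := alg_y hΔ hl c1 c2 hx hy0
  obtain ⟨e1, e2⟩ := alg_D' D hΔ hl c1 c2 hx hy d1 d2 d3 d4
  exact ⟨_, zeta_add L hu hv' hs hd, e1, e2⟩

include hg2 hg3 in
theorem TT_add (u v : ℂ) : TT L D e h (u + v) = TT L D e h u + TT L D e h v := by
  refine add_of_gen (L := L) (TT L D e h) ?_ ?_ ?_ ?_ u v
  · intro u
    rw [TT, TT, vv_neg, zt_neg]
    ring
  · intro u l hl
    rw [TT, TT, TT, vv_add_lattice D e h u hl, zt_add_lattice hl, zt_of_mem hl,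
      vv_half D e h (two_mem L hl)]
    ring
  · intro u v hu hv hs hd
    have hs' := two_mul_notMem_of L hs
    have hv' := two_mul_notMem_of L hv
    obtain ⟨lam, e1, -, e3⟩ := generic' D hg2 hg3 hu hv hs' hd
    have hy := wp'_ne_zero L hs
    have h4 : vv L D e h (u + v) = vv L D e h u + vv L D e h v - h * lam := by
      apply mul_right_cancel₀ hy
      rw [vv, div_mul_cancel₀ _ hy, e3]
      ring
    rw [TT, TT, TT, h4, zt_of_notMem hs', zt_of_notMem hu, zt_of_notMem hv', e1]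
    ring
  · intro u v hu hv
    have hs : 2 * (u + v) ∈ L.lattice := by rw [mul_add]; exact add_mem hu hv
    rw [TT, TT, TT, vv_half D e h hu, vv_half D e h hv, vv_half D e h hs, zt_half hu, zt_half hv,
      zt_half hs, mul_add, eta_add L hu hv]
    ring

include hg2 hg3 in
theorem RR_add (u v : ℂ) : RR L D e h (u + v) = RR L D e h u + RR L D e h v := by
  have hD2 : D (2 : ℂ) = 0 := by exact_mod_cast DD_nat D 2
  refine add_of_gen (L := L) (RR L D e h) ?_ ?_ ?_ ?_ u v
  · intro u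
    rw [RR, RR, vv_neg, zt_neg, L.weierstrassP_neg, L.derivWeierstrassP_neg, map_neg]
    ring
  · intro u l hl
    rw [RR, RR, RR, vv_add_lattice D e h u hl, zt_add_lattice hl, zt_of_mem hl,
      vv_half D e h (two_mem L hl), wp_add_lattice L hl, wp'_add_lattice L hl,
      wp'_of_half (two_mem L hl), map_add]
    ring
  · intro u v hu hv hs hd
    have hs' := two_mul_notMem_of L hs
    have hv' := two_mul_notMem_of L hv
    obtain ⟨lam, e1, e2, e3⟩ := generic' D hg2 hg3 hu hv hs' hd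
    have hy := wp'_ne_zero L hs
    have h4 : vv L D e h (u + v) = vv L D e h u + vv L D e h v - h * lam := by
      apply mul_right_cancel₀ hy
      rw [vv, div_mul_cancel₀ _ hy, e3]
      ring
    rw [RR, RR, RR, h4, zt_of_notMem hs', zt_of_notMem hu, zt_of_notMem hv', e1, map_add, map_add,
      e2]
    ring
  · intro u v hu hv
    have hs : 2 * (u + v) ∈ L.lattice := by rw [mul_add]; exact add_mem hu hv
    have hd2 : ∀ x : ℂ, D (x / 2) = D x / 2 := by
      intro x
      have h1 := congrArg D (show x / 2 * 2 = x by ring)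
      rw [D_mul, hD2] at h1
      linear_combination h1 / 2
    rw [RR, RR, RR, vv_half D e h hu, vv_half D e h hv, vv_half D e h hs, zt_half hu, zt_half hv,
      zt_half hs, mul_add, eta_add L hu hv, wp'_of_half hu, wp'_of_half hv, wp'_of_half hs,
      hd2, hd2, hd2, map_add]
    ring

end

end Pool.Agent.Y685
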