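import Mathlib
import Pool.Agent.Y685.Flat
import Pool.Agent.TH813.EllRank

/-!
# Closures of sets, constant vectors, and linear relations
-/

set_option autoImplicit false

open Finset Module
open scoped Topology PeriodPair

noncomputable section

namespace Pool.Agent.Y685

open H667R3 Pool.Agent.W245.EB Pool.Agent.TH813.Ell
open Pool.Agent.TH813.Rel (DF MK)

variable {D δ : Derivation ℚ ℂ ℂ} {C : IntermediateField ℚ ℂ} {S T : Set ℂ}

/-- the numbers which are algebraic over `C(S)` -/
def clo (C : IntermediateField ℚ ℂ) (S : Set ℂ) : IntermediateField ℚ ℂ where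
  carrier := {x | ∀ D ∈ DF C, (∀ s ∈ S, D s = 0) → D x = 0}
  mul_mem' := by
    intro a b ha hb D hD hS
    rw [D_mul, ha D hD hS, hb D hD hS, mul_zero, mul_zero, add_zero]
  add_mem' := by
    intro a b ha hb D hD hS
    rw [map_add, ha D hD hS, hb D hD hS, add_zero]
  algebraMap_mem' := fun r D _ _ => D.map_algebraMap r
  inv_mem' := by
    intro a ha D hD hS
    rw [Derivation.leibniz_inv, ha D hD hS, smul_zero]

theorem mem_clo {x : ℂ} : x ∈ clo C S ↔ ∀ D ∈ DF C, (∀ s ∈ S, D s = 0) → D x = 0 := Iff.rfl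

theorem mem_clo_iff {x : ℂ} : x ∈ clo C S ↔ x ∈ (MK C).closure S := by
  rw [mem_cl_iff, mem_clo]

theorem subset_clo {x : ℂ} (hx : x ∈ S) : x ∈ clo C S := fun _ _ h => h x hx

theorem base_clo {x : ℂ} (hx : x ∈ C) : x ∈ clo C S := fun _ h _ => h x hx

theorem clo_le (h : ∀ s ∈ S, s ∈ clo C T) : clo C S ≤ clo C T :=
  fun _ hx D hD hT => hx D hD (fun s hs => h s hs D hD hT)

theorem mem_DF_clo : δ ∈ DF (clo C S) ↔ δ ∈ DF C ∧ ∀ s ∈ S, δ s = 0 := by
  constructor
  · intro h
    exact ⟨fun x hx => h x (base_clo hx), fun s hs => h s (subset_clo hs)⟩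
  · rintro ⟨h1, h2⟩ x hx
    exact hx δ h1 h2

/-- a derivation over the constants preserves a closed field if it maps the generators into it -/
theorem der_clo (hC : D ∈ DF C) (hS : ∀ s ∈ S, D s ∈ clo C S) {x : ℂ} (hx : x ∈ clo C S) :
    D x ∈ clo C S := by
  intro δ hδ hδS
  have h0 : δ ∈ DF (clo C S) := mem_DF_clo.2 ⟨hδ, hδS⟩
  have h1 : ⁅δ, D⁆ x = 0 := by
    refine hx _ (Pool.Agent.TH813.Rel.bracket_mem C hδ hC) (fun s hs => ?_)
    rw [Derivation.commutator_apply, h0 _ (hS s hs), hδS s hs, map_zero, sub_zero]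
  rw [Derivation.commutator_apply, h0 x hx, map_zero, sub_zero] at h1
  exact h1

/-- two derivations over the constants which agree on the generators agree -/
theorem der_ext (hD : D ∈ DF C) (hδ : δ ∈ DF C) (h : ∀ s ∈ S, D s = δ s) {x : ℂ}
    (hx : x ∈ clo C S) : D x = δ x := by
  have h1 := hx (D - δ) ((DF C).sub_mem hD hδ) (fun s hs => by
    rw [Derivation.sub_apply, h s hs, sub_self])
  rwa [Derivation.sub_apply, sub_eq_zero] at h1

/-- nonzero vectors with constant entries in a space which is stable under a derivation -/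
theorem exists_const_vec (D : Derivation ℚ ℂ ℂ) {ι : Type*} [Fintype ι] (W : Set (ι → ℂ))
    (hs : ∀ a ∈ W, ∀ i, a i ≠ 0 → (fun j => a j / a i) ∈ W)
    (hD : ∀ a ∈ W, (fun i => D (a i)) ∈ W) {a : ι → ℂ} (ha : a ∈ W) (ha0 : a ≠ 0) :
    ∃ c ∈ W, c ≠ 0 ∧ ∀ i, D (c i) = 0 := by
  classical
  have key : ∀ n : ℕ, ∀ a ∈ W, a ≠ 0 → (univ.filter (fun i => a i ≠ 0)).card ≤ n →
      ∃ c ∈ W, c ≠ 0 ∧ ∀ i, D (c i) = 0 := by
    intro n
    induction n with
    | zero =>
      intro a _ h0 hc
      exfalso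
      apply h0
      have h1 : univ.filter (fun i => a i ≠ 0) = ∅ := card_eq_zero.1 (Nat.le_zero.1 hc)
      funext i
      by_contra hi
      have : i ∈ univ.filter (fun i => a i ≠ 0) := by simp; exact hi
      rw [h1] at this
      exact absurd this (notMem_empty i)
    | succ n ih =>
      intro a ha h0 hc
      obtain ⟨i₀, hi₀⟩ := Function.ne_iff.1 h0
      have hi₀ : a i₀ ≠ 0 := hi₀
      set b : ι → ℂ := fun j => a j / a i₀ with hb
      have hbW : b ∈ W := hs a ha i₀ hi₀
      have hb1 : b i₀ = 1 := div_self hi₀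
      by_cases hz : (fun i => D (b i)) = 0
      · refine ⟨b, hbW, ?_, fun i => congrFun hz i⟩
        intro h
        rw [h] at hb1
        exact zero_ne_one hb1
      · refine ih _ (hD b hbW) hz ?_
        have hsub : univ.filter (fun i => D (b i) ≠ 0) ⊆
            (univ.filter (fun i => a i ≠ 0)).erase i₀ := by
          intro i hi
          rw [mem_filter] at hi
          rw [mem_erase, mem_filter]
          refine ⟨?_, mem_univ _, ?_⟩
          · rintro rfl
            apply hi.2
            rw [hb1, D.map_one_eq_zero]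
          · intro hai
            apply hi.2
            rw [hb]
            simp only
            rw [hai, zero_div, map_zero]
        have h1 := card_le_card hsub
        rw [card_erase_of_mem (by simp; exact hi₀)] at h1
        omega
  exact key _ a ha ha0 le_rfl

/-- linear relations between functionals on the space of derivations -/
theorem exists_rel {F : IntermediateField ℚ ℂ} {S : Set ℂ} (hS : S.Finite) {ι : Type*} [Fintype ι]
    (f : DF F →ₗ[ℂ] (ι → ℂ)) (h : ∀ D : DF F, (∀ x ∈ S, (D : Derivation ℚ ℂ ℂ) x = 0) → f D = 0)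
    (hr : (MK F).eRk S < (Fintype.card ι : ℕ)) :
    ∃ a : ι → ℂ, a ≠ 0 ∧ ∀ D, ∑ i, a i * f D i = 0 := by
  classical
  have : Fintype S := hS.fintype
  let g : DF F →ₗ[ℂ] (S → ℂ) :=
    { toFun := fun D s => (D : Derivation ℚ ℂ ℂ) s
      map_add' := fun D D' => rfl
      map_smul' := fun c D => rfl }
  have hg : ∀ D : DF F, g D = 0 ↔ ∀ x ∈ S, (D : Derivation ℚ ℂ ℂ) x = 0 := fun D =>
    ⟨fun h x hx => congrFun h ⟨x, hx⟩, fun h => funext fun s => h s s.2⟩
  have h1 := rank_of_ker S hS g hg
  rw [← h1] at hr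
  have h2 : finrank ℂ (LinearMap.range g) < Fintype.card ι := by exact_mod_cast hr
  have hker : LinearMap.ker g ≤ LinearMap.ker f := by
    intro D hD
    exact h D ((hg D).1 hD)
  let u : LinearMap.range g →ₗ[ℂ] (ι → ℂ) :=
    ((LinearMap.ker g).liftQ f hker) ∘ₗ (g.quotKerEquivRange.symm : LinearMap.range g →ₗ[ℂ] _)
  have h3 : LinearMap.range f ≤ LinearMap.range u := by
    rintro _ ⟨D, rfl⟩
    refine ⟨g.quotKerEquivRange (Submodule.Quotient.mk D), ?_⟩
    change ((LinearMap.ker g).liftQ f hker) (g.quotKerEquivRange.symm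
      (g.quotKerEquivRange (Submodule.Quotient.mk D))) = f D
    rw [LinearEquiv.symm_apply_apply]
    exact Submodule.liftQ_apply _ _ _
  have h4 : finrank ℂ (LinearMap.range f) < Fintype.card ι :=
    lt_of_le_of_lt ((Submodule.finrank_mono h3).trans (LinearMap.finrank_range_le u)) h2
  have h5 : LinearMap.range f < ⊤ := by
    rw [lt_top_iff_ne_top]
    intro h6
    rw [h6, finrank_top, finrank_fintype_fun_eq_card] at h4
    exact lt_irrefl _ h4
  obtain ⟨φ, hφ, hφ2⟩ := Submodule.exists_le_ker_of_lt_top _ h5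
  refine ⟨fun i => φ (Pi.single i 1), ?_, fun D => ?_⟩
  · intro h0
    apply hφ
    apply LinearMap.pi_ext'
    intro i
    ext
    exact congrFun h0 i
  · have h6 : φ (f D) = 0 := hφ2 ⟨D, rfl⟩
    rw [← h6]
    conv_rhs => rw [← Finset.univ_sum_single (f D)]
    rw [map_sum]
    refine sum_congr rfl (fun i _ => ?_)
    have : Pi.single i (f D i) = (f D i) • (Pi.single i (1 : ℂ) : ι → ℂ) := by
      rw [← Pi.single_smul, smul_eq_mul, mul_one]
    rw [this, map_smul, smul_eq_mul, mul_comm]

end Pool.Agent.Y685
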