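import Mathlib
import Pool.Agent.Y685.Clo
import Pool.Agent.TH813.EllRos2
import Pool.Agent.TH89.J2168
import Pool.Agent.W245.EB.CMz

/-!
# From a small rank to a relation between points which are rational over the field of periods
-/

set_option autoImplicit false

open Finset Module
open scoped Topology PeriodPair

noncomputable section

namespace Pool.Agent.Y685

open H667R3 Pool.Agent.W245.EB Pool.Agent.TH813.Ell
open Pool.Agent.TH813.Rel (DF MK)

variable {L : PeriodPair} {D δ : Derivation ℚ ℂ ℂ}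

/-- generators of the field of the periods -/
def Gen (L : PeriodPair) : Set ℂ := {L.g₂, L.ω₁, L.ω₂, eta L L.ω₁, eta L L.ω₂}

/-- the algebraic closure of the field of the invariants over the constants -/
abbrev K0 (L : PeriodPair) (D : Derivation ℚ ℂ ℂ) : IntermediateField ℚ ℂ := clo (Cst D) {L.g₂}

/-- the algebraic closure of the field of the periods over the constants -/
abbrev K1 (L : PeriodPair) (D : Derivation ℚ ℂ ℂ) : IntermediateField ℚ ℂ := clo (Cst D) (Gen L)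

theorem g_K0 : L.g₂ ∈ K0 L D := subset_clo rfl
theorem g_K1 : L.g₂ ∈ K1 L D := subset_clo (Or.inl rfl)
theorem ω₁_K1 : L.ω₁ ∈ K1 L D := subset_clo (Or.inr (Or.inl rfl))
theorem ω₂_K1 : L.ω₂ ∈ K1 L D := subset_clo (Or.inr (Or.inr (Or.inl rfl)))
theorem η₁_K1 : eta L L.ω₁ ∈ K1 L D := subset_clo (Or.inr (Or.inr (Or.inr (Or.inl rfl))))
theorem η₂_K1 : eta L L.ω₂ ∈ K1 L D := subset_clo (Or.inr (Or.inr (Or.inr (Or.inr rfl))))

theorem cst_K1 {x : ℂ} (hx : D x = 0) : x ∈ K1 L D := base_clo hx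
theorem cst_K0 {x : ℂ} (hx : D x = 0) : x ∈ K0 L D := base_clo hx

theorem K0_le : K0 L D ≤ K1 L D := clo_le (fun s hs => by
  rw [Set.mem_singleton_iff] at hs
  rw [hs]
  exact g_K1)

theorem D_DF : D ∈ DF (Cst D) := fun _ hx => hx

theorem aa_K1 : aa L ∈ K1 L D := sub_mem (ofNat_mem _ 3) (div_mem g_K1 (ofNat_mem _ 6))

theorem Dg_K0 (h : Nrm L D) : D L.g₂ ∈ K0 L D := by
  rw [h.hD]
  exact mul_mem (neg_mem (sub_mem (ofNat_mem _ 18) (mul_mem (div_mem (ofNat_mem _ 2)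
    (ofNat_mem _ 3)) g_K0))) g_K0

theorem D_K0 (h : Nrm L D) {x : ℂ} (hx : x ∈ K0 L D) : D x ∈ K0 L D := by
  refine der_clo D_DF (fun s hs => ?_) hx
  rw [Set.mem_singleton_iff] at hs
  rw [hs]
  exact Dg_K0 h

theorem D_K1 (h : Nrm L D) {x : ℂ} (hx : x ∈ K1 L D) : D x ∈ K1 L D := by
  refine der_clo D_DF (fun s hs => ?_) hx
  rcases hs with rfl | rfl | rfl | rfl | rfl
  · exact K0_le (Dg_K0 h)
  · rw [h.hω _ L.ω₁_mem_lattice]
    exact add_mem (mul_mem aa_K1 ω₁_K1) η₁_K1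
  · rw [h.hω _ L.ω₂_mem_lattice]
    exact add_mem (mul_mem aa_K1 ω₂_K1) η₂_K1
  · rw [h.hη _ L.ω₁_mem_lattice]
    exact sub_mem (mul_mem (neg_mem aa_K1) η₁_K1) (mul_mem (div_mem g_K1 (ofNat_mem _ 12)) ω₁_K1)
  · rw [h.hη _ L.ω₂_mem_lattice]
    exact sub_mem (mul_mem (neg_mem aa_K1) η₂_K1) (mul_mem (div_mem g_K1 (ofNat_mem _ 12)) ω₂_K1)

/-- the bracket with `D` of a derivation over `K1` -/
theorem br_K1 (h : Nrm L D) (hδ : δ ∈ DF (K1 L D)) : ⁅D, δ⁆ ∈ DF (K1 L D) := by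
  intro x hx
  rw [Derivation.commutator_apply, hδ x hx, hδ _ (D_K1 h hx), map_zero, sub_zero]

/-- Legendre's number -/
def Lg (L : PeriodPair) : ℂ := L.ω₁ * eta L L.ω₂ - L.ω₂ * eta L L.ω₁

theorem Lg_ne : Lg L ≠ 0 := leg_ne L

theorem D_Lg (h : Nrm L D) : D (Lg L) = 0 := by
  rw [Lg, map_sub, D_mul, D_mul, h.hω _ L.ω₁_mem_lattice, h.hω _ L.ω₂_mem_lattice,
    h.hη _ L.ω₁_mem_lattice, h.hη _ L.ω₂_mem_lattice]
  ring

theorem isInt_cst {c : ℂ} {a b : ℤ} (hc : c ^ 2 = a * c + b) : D c = 0 := by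
  have e1 := congrArg D hc
  have ha : D (a : ℂ) = 0 := D.map_intCast a
  have hb : D (b : ℂ) = 0 := D.map_intCast b
  rw [D_pow, map_add, D_mul, ha, hb] at e1
  by_contra hne
  have h2 : (2 * c - a) * D c = 0 := by
    push_cast at e1
    linear_combination e1
  have h3 : 2 * c - a = 0 := (mul_eq_zero.1 h2).resolve_right hne
  apply hne
  have h4 : c = a / 2 := by linear_combination h3 / 2
  rw [h4, D_half, ha, zero_div]

/-- there are no complex multiplications -/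
theorem noCM (h : Nrm L D) : NoCM L := by
  intro c hc
  obtain ⟨a, b, hab⟩ := PeriodPair.mem_lattice.1 (hc _ L.ω₁_mem_lattice)
  obtain ⟨a', b', hab'⟩ := PeriodPair.mem_lattice.1 (hc _ L.ω₂_mem_lattice)
  have hω1 := ω₁_ne_zero L
  have h1 : c ^ 2 = ((a + b' : ℤ) : ℂ) * c + ((a' * b - a * b' : ℤ) : ℂ) := by
    have h2 : (c ^ 2 - ((a + b' : ℤ) : ℂ) * c - ((a' * b - a * b' : ℤ) : ℂ)) * L.ω₁ = 0 := by
      push_cast
      linear_combination (-c + b') * hab - b * hab'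
    have := (mul_eq_zero.1 h2).resolve_right hω1
    linear_combination this
  have hDc := isInt_cst (D := D) h1
  have e1 := congrArg D hab
  have ha : D (a : ℂ) = 0 := D.map_intCast a
  have hb : D (b : ℂ) = 0 := D.map_intCast b
  rw [map_add, D_mul, D_mul, D_mul, ha, hb, hDc, h.hω _ L.ω₁_mem_lattice,
    h.hω _ L.ω₂_mem_lattice] at e1
  have e2 : b * Lg L = 0 := by
    unfold Lg
    linear_combination L.ω₁ * e1 - (aa L * L.ω₁ + eta L L.ω₁) * hab
  have e3 : (b : ℂ) = 0 := (mul_eq_zero.1 e2).resolve_right Lg_ne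
  refine ⟨a, ?_⟩
  rw [e3, zero_mul, add_zero] at hab
  exact (mul_right_cancel₀ hω1 hab).symm

/-- the points which are rational over the field of periods -/
def V1 (L : PeriodPair) (D : Derivation ℚ ℂ ℂ) : Submodule ℚ ℂ where
  carrier := {z | ∀ δ ∈ DF (K1 L D), L.g₃ = L.g₂ → om L δ z = 0}
  add_mem' := by
    intro a b ha hb δ hδ hg
    have h2 : δ L.g₂ = 0 := hδ _ g_K1
    rw [om_add L δ h2 (by rw [hg, h2]), ha δ hδ hg, hb δ hδ hg, add_zero]
  zero_mem' := fun δ _ _ => om_zero δ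
  smul_mem' := by
    intro c x hx δ hδ hg
    have h2 : δ L.g₂ = 0 := hδ _ g_K1
    have h3 : δ L.g₃ = 0 := by rw [hg, h2]
    rw [← omL_apply δ h2 h3, map_smul, omL_apply, hx δ hδ hg, smul_zero]

theorem V1_om (h : Nrm L D) {z : ℂ} (hz : z ∈ V1 L D) (hδ : δ ∈ DF (K1 L D)) : om L δ z = 0 :=
  hz δ hδ h.hg

theorem mem_V1 (h : Nrm L D) {z : ℂ} : z ∈ V1 L D ↔ ∀ δ ∈ DF (K1 L D), om L δ z = 0 :=
  ⟨fun hz _ hδ => V1_om h hz hδ, fun hz δ hδ _ => hz δ hδ⟩

/-- the rational multiples of the periods -/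
def PQ (L : PeriodPair) : Submodule ℚ ℂ := Submodule.span ℚ {L.ω₁, L.ω₂}

end Pool.Agent.Y685
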