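import Mathlib
import Pool.Agent.Y685.StepA

/-!
# From a small rank to a relation between points which are rational over the field of periods
-/

set_option autoImplicit false

open Finset Module
open scoped Topology PeriodPair

noncomputable section

namespace Pool.Agent.Y685

open H667R3 Pool.Agent.W245.EB Pool.Agent.TH813.Ell
open Pool.Agent.TH813.Rel (DF MK)

variable {L : PeriodPair} {D δ : Derivation ℚ ℂ ℂ}

/-- the flat functionals -/
def Pf (L : PeriodPair) (ω η : ℂ) (δ : Derivation ℚ ℂ ℂ) (z : ℂ) : ℂ :=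
  η * (δ z - om L δ z) - ω * et L δ z

theorem D_Pf {h : Nrm L D} (h2 : δ L.g₂ = 0) {z : ℂ} (hz : z ∈ Cm h) {ω η : ℂ}
    (hω : D ω = aa L * ω + η) (hη : D η = -(aa L) * η - L.g₂ / 12 * ω) :
    D (Pf L ω η δ z) = Pf L ω η ⁅D, δ⁆ z := by
  rw [Pf, map_sub, D_mul, D_mul, hω, hη, D_A h2 hz, D_B h2 hz, Pf]
  ring

theorem Pf_add (ω η : ℂ) (δ δ' : Derivation ℚ ℂ ℂ) (z : ℂ) :
    Pf L ω η (δ + δ') z = Pf L ω η δ z + Pf L ω η δ' z := by
  rw [Pf, Pf, Pf, om_add_der, et_add_der, Derivation.add_apply]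
  ring

theorem Pf_smul (ω η c : ℂ) (δ : Derivation ℚ ℂ ℂ) (z : ℂ) :
    Pf L ω η (c • δ) z = c * Pf L ω η δ z := by
  rw [Pf, Pf, om_smul_der, et_smul_der, Derivation.smul_apply, smul_eq_mul]
  ring

/-- the numbers attached to finitely many points -/
def EP (L : PeriodPair) {n : ℕ} (p : Fin n → ℂ) : Set ℂ :=
  Set.range p ∪ (Set.range (fun i => zt L (p i)) ∪ Set.range (fun i => ℘[L] (p i)))

theorem EP_finite {n : ℕ} (p : Fin n → ℂ) : (EP L p).Finite :=
  (Set.finite_range _).union ((Set.finite_range _).union (Set.finite_range _))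

theorem om_of_kill {z : ℂ} (h : δ (℘[L] z) = 0) : om L δ z = 0 := by
  unfold om
  rw [h, zero_div]

theorem Pf_of_kill {z : ℂ} (h : δ (℘[L] z) = 0) (h1 : δ z = 0) (h2 : δ (zt L z) = 0) (ω η : ℂ) :
    Pf L ω η δ z = 0 := by
  unfold Pf et
  rw [om_of_kill h, h1, h2]
  ring

/-- the periods which belong to a vector -/
abbrev Om (L : PeriodPair) (c c' : ℂ) : ℂ := c * L.ω₁ + c' * L.ω₂
/-- the quasi-periods which belong to a vector -/
abbrev Et (L : PeriodPair) (c c' : ℂ) : ℂ := c * eta L L.ω₁ + c' * eta L L.ω₂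

theorem D_Om (h : Nrm L D) {c c' : ℂ} (hc : D c = 0) (hc' : D c' = 0) :
    D (Om L c c') = aa L * Om L c c' + Et L c c' := by
  rw [Om, map_add, D_mul, D_mul, hc, hc', h.hω _ L.ω₁_mem_lattice, h.hω _ L.ω₂_mem_lattice, Et]
  ring

theorem D_Et (h : Nrm L D) {c c' : ℂ} (hc : D c = 0) (hc' : D c' = 0) :
    D (Et L c c') = -(aa L) * Et L c c' - L.g₂ / 12 * Om L c c' := by
  rw [Et, map_add, D_mul, D_mul, hc, hc', h.hη _ L.ω₁_mem_lattice, h.hη _ L.ω₂_mem_lattice, Om]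
  ring

theorem Om_K1 {c c' : ℂ} (hc : c ∈ K1 L D) (hc' : c' ∈ K1 L D) : Om L c c' ∈ K1 L D :=
  add_mem (mul_mem hc ω₁_K1) (mul_mem hc' ω₂_K1)

theorem Et_K1 {c c' : ℂ} (hc : c ∈ K1 L D) (hc' : c' ∈ K1 L D) : Et L c c' ∈ K1 L D :=
  add_mem (mul_mem hc η₁_K1) (mul_mem hc' η₂_K1)

/-- **Step 1**: relations with constant coefficients -/
theorem step1 (h : Nrm L D) {n : ℕ} {p : Fin n → ℂ} (hp : ∀ i, p i ∈ Cm h)
    (hr : (MK (K1 L D)).eRk (EP L p) < ((2 * n : ℕ) : ℕ∞)) :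
    ∃ c c' : Fin n → ℂ, (∀ i, D (c i) = 0) ∧ (∀ i, D (c' i) = 0) ∧ (c ≠ 0 ∨ c' ≠ 0) ∧
      ∀ δ ∈ DF (K1 L D), ∑ i, Pf L (Om L (c i) (c' i)) (Et L (c i) (c' i)) δ (p i) = 0 := by
  classical
  let f : DF (K1 L D) →ₗ[ℂ] (Fin n ⊕ Fin n → ℂ) :=
    { toFun := fun δ => Sum.elim (fun i => Pf L L.ω₁ (eta L L.ω₁) (δ : Derivation ℚ ℂ ℂ) (p i))
        (fun i => Pf L L.ω₂ (eta L L.ω₂) (δ : Derivation ℚ ℂ ℂ) (p i))
      map_add' := fun δ δ' => by
        funext k
        rcases k with i | i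
        · exact Pf_add _ _ _ _ _
        · exact Pf_add _ _ _ _ _
      map_smul' := fun c δ => by
        funext k
        rcases k with i | i
        · exact Pf_smul _ _ _ _ _
        · exact Pf_smul _ _ _ _ _ }
  obtain ⟨a, ha0, ha⟩ := exists_rel (EP_finite p) f (fun δ hδ => by
    have h1 : ∀ i ω η, Pf L ω η (δ : Derivation ℚ ℂ ℂ) (p i) = 0 := fun i ω η =>
      Pf_of_kill (hδ _ (Or.inr (Or.inr ⟨i, rfl⟩))) (hδ _ (Or.inl ⟨i, rfl⟩))
        (hδ _ (Or.inr (Or.inl ⟨i, rfl⟩))) ω η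
    funext k
    rcases k with i | i
    · exact h1 _ _ _
    · exact h1 _ _ _) (by
    rw [Fintype.card_sum, Fintype.card_fin, ← two_mul]
    exact hr)
  let W : Set (Fin n ⊕ Fin n → ℂ) := {a | ∀ δ, ∑ i, a i * f δ i = 0}
  obtain ⟨c, hcW, hc0, hcD⟩ := exists_const_vec D W (fun a ha i _ δ => by
      have := ha δ
      have e : ∑ j, a j / a i * f δ j = (∑ j, a j * f δ j) / a i := by
        rw [sum_div]
        exact sum_congr rfl (fun j _ => by ring)
      change ∑ j, a j / a i * f δ j = 0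
      rw [e, this, zero_div]) (fun a ha δ => by
      have h1 := congrArg D (ha δ)
      rw [map_zero, map_sum] at h1
      have hδ2 : (δ : Derivation ℚ ℂ ℂ) L.g₂ = 0 := δ.2 _ g_K1
      let δ' : DF (K1 L D) := ⟨⁅D, (δ : Derivation ℚ ℂ ℂ)⁆, br_K1 h δ.2⟩
      have h2 : ∀ k, D (f δ k) = f δ' k := by
        intro k
        rcases k with i | i
        · exact D_Pf hδ2 (hp i) (h.hω _ L.ω₁_mem_lattice) (h.hη _ L.ω₁_mem_lattice)
        · exact D_Pf hδ2 (hp i) (h.hω _ L.ω₂_mem_lattice) (h.hη _ L.ω₂_mem_lattice)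
      have h3 : ∀ k, D (a k * f δ k) = a k * f δ' k + D (a k) * f δ k := by
        intro k
        rw [D_mul, h2]
        ring
      rw [sum_congr rfl (fun k _ => h3 k), sum_add_distrib, ha δ', zero_add] at h1
      exact h1) ha ha0
  refine ⟨fun i => c (Sum.inl i), fun i => c (Sum.inr i), fun i => hcD _, fun i => hcD _, ?_,
    fun δ hδ => ?_⟩
  · by_contra hcon
    push Not at hcon
    apply hc0
    funext k
    rcases k with i | i
    · exact congrFun hcon.1 i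
    · exact congrFun hcon.2 i
  · have h1 := hcW ⟨δ, hδ⟩
    rw [Fintype.sum_sum_type, ← sum_add_distrib] at h1
    rw [← h1]
    refine sum_congr rfl (fun i _ => ?_)
    change _ = c (Sum.inl i) * Pf L L.ω₁ (eta L L.ω₁) δ (p i) +
      c (Sum.inr i) * Pf L L.ω₂ (eta L L.ω₂) δ (p i)
    unfold Pf
    ring

end Pool.Agent.Y685
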