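import Mathlib
import Pool.Agent.Y685.StepB

/-!
# From a small rank to a relation between points which are rational over the field of periods
-/

set_option autoImplicit false

open Finset Module
open scoped Topology PeriodPair

noncomputable section

namespace Pool.Agent.Y685

open H667R3 Pool.Agent.W245.EB Pool.Agent.TH813.Ell
open Pool.Agent.TH813.Rel (DF MK)

variable {L : PeriodPair} {D δ : Derivation ℚ ℂ ℂ}

theorem Pf_lin (h2 : δ L.g₂ = 0) (h3 : δ L.g₃ = 0) (ω η : ℂ) {n : ℕ} (q : Fin n → ℚ)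
    (p : Fin n → ℂ) : Pf L ω η δ (∑ j, q j • p j) = ∑ j, (q j : ℂ) * Pf L ω η δ (p j) := by
  have e0 : δ (∑ j, q j • p j) = ∑ j, (q j : ℂ) * δ (p j) := by
    rw [map_sum]
    exact sum_congr rfl (fun j _ => by rw [δ.map_smul, Rat.smul_def])
  unfold Pf
  rw [om_lin δ h2 h3, et_lin δ h2 h3, e0, mul_sub, mul_sum, mul_sum, mul_sum, ← sum_sub_distrib,
    ← sum_sub_distrib]
  exact sum_congr rfl (fun j _ => by ring)

/-- there is a functional which does not vanish at a given number -/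
theorem exists_psi {x : ℂ} (hx : x ≠ 0) : ∃ ψ : ℂ →ₗ[ℚ] ℚ, ψ x ≠ 0 := by
  by_contra hcon
  push Not at hcon
  exact hx ((Module.forall_dual_apply_eq_zero_iff ℚ x).1 hcon)

/-- the tensor of the vectors `c`, `p` lies in a subspace -/
def TR (V : Submodule ℚ ℂ) {ι : Type} [Fintype ι] (p x : ι → ℂ) : Prop :=
  ∀ ψ : ℂ →ₗ[ℚ] ℚ, ∑ i, ψ (x i) • p i ∈ V

theorem TR_comb {V : Submodule ℚ ℂ} {ι : Type} [Fintype ι] {p x y : ι → ℂ} (hx : TR V p x)
    (hy : TR V p y) (a b : ℂ) : TR V p (fun i => a * x i + b * y i) := by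
  intro ψ
  have h1 := hx (ψ ∘ₗ (LinearMap.mulLeft ℚ a))
  have h2 := hy (ψ ∘ₗ (LinearMap.mulLeft ℚ b))
  have h3 := V.add_mem h1 h2
  rw [← sum_add_distrib] at h3
  convert h3 using 1
  refine sum_congr rfl (fun i _ => ?_)
  rw [map_add, add_smul]
  rfl

/-- a relation between points which are rational over the field of periods -/
structure Rln (h : Nrm L D) {ι : Type} [Fintype ι] (v d d' : ι → ℂ) : Prop where
  hC : ∀ a, v a ∈ Cm h
  hV : ∀ a, v a ∈ V1 L D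
  hd : ∀ a, D (d a) = 0
  hd' : ∀ a, D (d' a) = 0
  mem : ∑ a, (Et L (d a) (d' a) * v a - Om L (d a) (d' a) * zt L (v a)) ∈ K1 L D

theorem sum_coord {n d : ℕ} {c : Fin n → ℂ} {e : Fin d → ℂ} {φ : Fin d → (ℂ →ₗ[ℚ] ℚ)}
    (hc : ∀ j, c j = ∑ k, (φ k (c j) : ℂ) * e k) (ψ : ℂ →ₗ[ℚ] ℚ) (j : Fin n) :
    ∑ k, ψ (e k) * φ k (c j) = ψ (c j) := by
  conv_rhs => rw [hc j]
  rw [map_sum]
  refine sum_congr rfl (fun k _ => ?_)
  rw [← Rat.smul_def, map_smul, smul_eq_mul, mul_comm]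

theorem sum_coord' {n d : ℕ} {c : Fin n → ℂ} {e : Fin d → ℂ} {φ : Fin d → (ℂ →ₗ[ℚ] ℚ)}
    (hc : ∀ j, c j = ∑ k, (φ k (c j) : ℂ) * e k) (x : Fin n → ℂ) :
    ∑ k, e k * ∑ j, (φ k (c j) : ℂ) * x j = ∑ j, c j * x j := by
  have h1 : ∀ k, e k * ∑ j, (φ k (c j) : ℂ) * x j = ∑ j, ((φ k (c j) : ℂ) * e k) * x j := by
    intro k
    rw [mul_sum]
    exact sum_congr rfl (fun j _ => by ring)
  rw [sum_congr rfl (fun k _ => h1 k), sum_comm]
  refine sum_congr rfl (fun j _ => ?_)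
  rw [← sum_mul, ← hc j]

theorem tensor_coord {n d : ℕ} {c : Fin n → ℂ} {e : Fin d → ℂ} {φ : Fin d → (ℂ →ₗ[ℚ] ℚ)}
    (hc : ∀ j, c j = ∑ k, (φ k (c j) : ℂ) * e k) (ψ : ℂ →ₗ[ℚ] ℚ) (p : Fin n → ℂ) :
    ∑ k, ψ (e k) • ∑ j, φ k (c j) • p j = ∑ j, ψ (c j) • p j := by
  have h1 : ∀ k, ψ (e k) • ∑ j, φ k (c j) • p j = ∑ j, (ψ (e k) * φ k (c j)) • p j := by
    intro k
    rw [smul_sum]
    exact sum_congr rfl (fun j _ => by rw [smul_smul])
  rw [sum_congr rfl (fun k _ => h1 k), sum_comm]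
  refine sum_congr rfl (fun j _ => ?_)
  rw [← sum_smul, sum_coord hc]

/-- the tensor of `c`, `p` is nonzero modulo a subspace -/
theorem not_TR {V : Submodule ℚ ℂ} {n : ℕ} {p c : Fin n → ℂ}
    (hind : LinearIndependent ℚ (fun i => V.mkQ (p i))) (hc : c ≠ 0) : ¬ TR V p c := by
  intro hT
  obtain ⟨j, hj⟩ := Function.ne_iff.1 hc
  obtain ⟨ψ, hψ⟩ := exists_psi hj
  have h1 := hT ψ
  have h2 : ∑ i, ψ (c i) • V.mkQ (p i) = 0 := by
    have := (Submodule.Quotient.mk_eq_zero V).2 h1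
    rw [← Submodule.mkQ_apply, map_sum] at this
    simpa only [map_smul] using this
  exact hψ (Fintype.linearIndependent_iff.1 hind _ h2 j)

/-- **Step 2** -/
theorem step2 (h : Nrm L D) {n : ℕ} {p : Fin n → ℂ} (hp : ∀ i, p i ∈ Cm h)
    (hind : LinearIndependent ℚ (fun i => (PQ L).mkQ (p i))) {c c' : Fin n → ℂ}
    (hc : ∀ i, D (c i) = 0) (hc' : ∀ i, D (c' i) = 0) (hne : c ≠ 0 ∨ c' ≠ 0)
    (hrel : ∀ δ ∈ DF (K1 L D), ∑ i, Pf L (Om L (c i) (c' i)) (Et L (c i) (c' i)) δ (p i) = 0) :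
    ∃ (ι : Type) (_ : Fintype ι) (v d d' : ι → ℂ), Rln h v d d' ∧
      (¬ TR (PQ L) v d ∨ ¬ TR (PQ L) v d') := by
  classical
  have hmem : ∀ {δ : Derivation ℚ ℂ ℂ}, δ ∈ DF (K1 L D) → δ L.g₂ = 0 ∧ δ L.g₃ = 0 := by
    intro δ hδ
    have h2 : δ L.g₂ = 0 := hδ _ g_K1
    exact ⟨h2, g3_of h h2⟩
  have hros := ros (L := L) (noCM h) (K1 L D) g_K1 (by rw [h.hg]; exact g_K1)
    (fun _ : Fin 0 => (0 : ℂ)) (fun _ : Fin 0 => (1 : ℂ)) (fun j => j.elim0) (fun j => j.elim0)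
    (fun i => Et L (c i) (c' i)) (fun i => Om L (c i) (c' i)) p
    (fun i => Et_K1 (cst_K1 (hc i)) (cst_K1 (hc' i)))
    (fun i => Om_K1 (cst_K1 (hc i)) (cst_K1 (hc' i)))
    (∑ i, (Et L (c i) (c' i) * p i - Om L (c i) (c' i) * zt L (p i))) (by
      intro δ hδ
      have h1 := hrel δ hδ
      simp only [zero_mul, sum_const_zero, zero_add]
      rw [map_sum, ← sub_eq_zero, ← sum_sub_distrib, ← h1]
      refine sum_congr rfl (fun i _ => ?_)
      have e1 : δ (Et L (c i) (c' i)) = 0 := hδ _ (Et_K1 (cst_K1 (hc i)) (cst_K1 (hc' i)))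
      have e2 : δ (Om L (c i) (c' i)) = 0 := hδ _ (Om_K1 (cst_K1 (hc i)) (cst_K1 (hc' i)))
      rw [map_sub, D_mul, D_mul, e1, e2, Pf, et]
      ring)
  have hT1 : TR (V1 L D) p (fun i => Et L (c i) (c' i)) := by
    intro ψ
    rw [mem_V1 h]
    intro δ hδ
    rw [om_lin δ (hmem hδ).1 (hmem hδ).2]
    exact (hros ψ δ hδ).2.1
  have hT2 : TR (V1 L D) p (fun i => Om L (c i) (c' i)) := by
    intro ψ
    rw [mem_V1 h]
    intro δ hδ
    rw [om_lin δ (hmem hδ).1 (hmem hδ).2]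
    exact (hros ψ δ hδ).2.2
  have hT3 : TR (V1 L D) p c := by
    convert TR_comb hT2 hT1 (eta L L.ω₂ / Lg L) (-(L.ω₂ / Lg L)) using 1
    funext i
    have := Lg_ne (L := L)
    field_simp
    unfold Lg
    ring
  have hT4 : TR (V1 L D) p c' := by
    convert TR_comb hT2 hT1 (-(eta L L.ω₁ / Lg L)) (L.ω₁ / Lg L) using 1
    funext i
    have := Lg_ne (L := L)
    field_simp
    unfold Lg
    ring
  obtain ⟨d1, e1, φ1, he1, hφ1⟩ := exists_coord (K := Cst D) c hc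
  obtain ⟨d2, e2, φ2, he2, hφ2⟩ := exists_coord (K := Cst D) c' hc'
  set w1 : Fin d1 → ℂ := fun k => ∑ j, φ1 k (c j) • p j with hw1
  set w2 : Fin d2 → ℂ := fun k => ∑ j, φ2 k (c' j) • p j with hw2
  have hw1V : ∀ k, w1 k ∈ V1 L D := fun k => hT3 (φ1 k)
  have hw2V : ∀ k, w2 k ∈ V1 L D := fun k => hT4 (φ2 k)
  refine ⟨Fin d1 ⊕ Fin d2, inferInstance, Sum.elim w1 w2, Sum.elim e1 (fun _ => 0),
    Sum.elim (fun _ => 0) e2, ⟨?_, ?_, ?_, ?_, ?_⟩, ?_⟩
  · rintro (k | k)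
    · exact Submodule.sum_mem _ (fun j _ => Submodule.smul_mem _ _ (hp j))
    · exact Submodule.sum_mem _ (fun j _ => Submodule.smul_mem _ _ (hp j))
  · rintro (k | k)
    · exact hw1V k
    · exact hw2V k
  · rintro (k | k)
    · exact he1 k
    · exact map_zero D
  · rintro (k | k)
    · exact map_zero D
    · exact he2 k
  · rw [Fintype.sum_sum_type]
    simp only [Sum.elim_inl, Sum.elim_inr]
    intro δ hδC hδS
    have hδ : δ ∈ DF (K1 L D) := mem_DF_clo.2 ⟨hδC, hδS⟩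
    obtain ⟨hg2, hg3⟩ := hmem hδ
    have q1 : ∀ k, δ (Et L (e1 k) 0 * w1 k - Om L (e1 k) 0 * zt L (w1 k)) =
        e1 k * ∑ j, (φ1 k (c j) : ℂ) * Pf L L.ω₁ (eta L L.ω₁) δ (p j) := by
      intro k
      have e3 : δ (Et L (e1 k) 0) = 0 := hδ _ (Et_K1 (cst_K1 (he1 k)) (cst_K1 (map_zero D)))
      have e4 : δ (Om L (e1 k) 0) = 0 := hδ _ (Om_K1 (cst_K1 (he1 k)) (cst_K1 (map_zero D)))
      have hwk : ∑ j, φ1 k (c j) • p j = w1 k := rfl
      rw [map_sub, D_mul, D_mul, e3, e4, ← Pf_lin hg2 hg3, hwk]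
      unfold Pf et
      rw [V1_om h (hw1V k) hδ]
      unfold Et Om
      ring
    have q2 : ∀ k, δ (Et L 0 (e2 k) * w2 k - Om L 0 (e2 k) * zt L (w2 k)) =
        e2 k * ∑ j, (φ2 k (c' j) : ℂ) * Pf L L.ω₂ (eta L L.ω₂) δ (p j) := by
      intro k
      have e3 : δ (Et L 0 (e2 k)) = 0 := hδ _ (Et_K1 (cst_K1 (map_zero D)) (cst_K1 (he2 k)))
      have e4 : δ (Om L 0 (e2 k)) = 0 := hδ _ (Om_K1 (cst_K1 (map_zero D)) (cst_K1 (he2 k)))
      have hwk : ∑ j, φ2 k (c' j) • p j = w2 k := rfl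
      rw [map_sub, D_mul, D_mul, e3, e4, ← Pf_lin hg2 hg3, hwk]
      unfold Pf et
      rw [V1_om h (hw2V k) hδ]
      unfold Et Om
      ring
    rw [map_add, map_sum, map_sum, sum_congr rfl (fun k _ => q1 k), sum_congr rfl (fun k _ => q2 k),
      sum_coord' hφ1, sum_coord' hφ2, ← sum_add_distrib, ← hrel δ hδ]
    refine sum_congr rfl (fun j _ => ?_)
    unfold Pf Om Et
    ring
  · rcases hne with hne | hne
    · left
      intro hT
      refine not_TR hind hne (fun ψ => ?_)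
      have h1 := hT ψ
      rw [Fintype.sum_sum_type] at h1
      simp only [Sum.elim_inl, Sum.elim_inr, map_zero, zero_smul, sum_const_zero, add_zero] at h1
      rwa [hw1, tensor_coord hφ1] at h1
    · right
      intro hT
      refine not_TR hind hne (fun ψ => ?_)
      have h1 := hT ψ
      rw [Fintype.sum_sum_type] at h1
      simp only [Sum.elim_inl, Sum.elim_inr, map_zero, zero_smul, sum_const_zero, zero_add] at h1
      rwa [hw2, tensor_coord hφ2] at h1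

end Pool.Agent.Y685
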