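import Mathlib
import Pool.Agent.Y685.StepC

/-!
# The action of `sl₂` on the relations
-/

set_option autoImplicit false

open Finset Module
open scoped Topology PeriodPair

noncomputable section

namespace Pool.Agent.Y685

open H667R3 Pool.Agent.W245.EB Pool.Agent.TH813.Ell
open Pool.Agent.TH813.Rel (DF MK)

variable {L : PeriodPair} {D δ : Derivation ℚ ℂ ℂ}

/-- the derivation acts on the period matrix by multiplication with a constant matrix of
trace zero -/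
structure IsX (L : PeriodPair) (D : Derivation ℚ ℂ ℂ) (x y z : ℂ) (δ : Derivation ℚ ℂ ℂ) :
    Prop where
  hC : δ ∈ DF (Cst D)
  x0 : D x = 0
  y0 : D y = 0
  z0 : D z = 0
  g : δ L.g₂ = 0
  w1 : δ L.ω₁ = x * L.ω₁ + z * L.ω₂
  w2 : δ L.ω₂ = y * L.ω₁ - x * L.ω₂
  e1 : δ (eta L L.ω₁) = x * eta L L.ω₁ + z * eta L L.ω₂
  e2 : δ (eta L L.ω₂) = y * eta L L.ω₁ - x * eta L L.ω₂

variable {x y z : ℂ}

theorem IsX.pres (X : IsX L D x y z δ) {u : ℂ} (hu : u ∈ K1 L D) : δ u ∈ K1 L D := by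
  have hx := cst_K1 (L := L) X.x0
  have hy := cst_K1 (L := L) X.y0
  have hz := cst_K1 (L := L) X.z0
  refine der_clo X.hC (fun s hs => ?_) hu
  rcases hs with rfl | rfl | rfl | rfl | rfl
  · rw [X.g]; exact zero_mem _
  · rw [X.w1]; exact add_mem (mul_mem hx ω₁_K1) (mul_mem hz ω₂_K1)
  · rw [X.w2]; exact sub_mem (mul_mem hy ω₁_K1) (mul_mem hx ω₂_K1)
  · rw [X.e1]; exact add_mem (mul_mem hx η₁_K1) (mul_mem hz η₂_K1)
  · rw [X.e2]; exact sub_mem (mul_mem hy η₁_K1) (mul_mem hx η₂_K1)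

theorem IsX.br (h : Nrm L D) (X : IsX L D x y z δ) : ⁅D, δ⁆ ∈ DF (K1 L D) := by
  have hω1 := h.hω _ L.ω₁_mem_lattice
  have hω2 := h.hω _ L.ω₂_mem_lattice
  have hη1 := h.hη _ L.ω₁_mem_lattice
  have hη2 := h.hη _ L.ω₂_mem_lattice
  have hs : ∀ u, δ (-(aa L) * u) = -(aa L) * δ u := fun u => by
    rw [neg_mul, map_neg, δ_aa_mul X.g, neg_mul]
  rw [mem_DF_clo]
  refine ⟨fun u hu => ?_, fun s hs' => ?_⟩
  · rw [Derivation.commutator_apply, X.hC u hu, mem_Cst.1 hu, map_zero, map_zero, sub_zero]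
  · rcases hs' with rfl | rfl | rfl | rfl | rfl
    · exact bracket_g h X.g
    · rw [Derivation.commutator_apply, X.w1, hω1, map_add, map_add, D_mul, D_mul, X.x0, X.z0,
        hω1, hω2, δ_aa_mul X.g, X.w1, X.e1]
      ring
    · rw [Derivation.commutator_apply, X.w2, hω2, map_sub, map_add, D_mul, D_mul, X.x0, X.y0,
        hω1, hω2, δ_aa_mul X.g, X.w2, X.e2]
      ring
    · rw [Derivation.commutator_apply, X.e1, hη1, map_add, map_sub, D_mul, D_mul, X.x0, X.z0,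
        hη1, hη2, hs, δ_smul X.g, X.w1, X.e1]
      ring
    · rw [Derivation.commutator_apply, X.e2, hη2, map_sub, map_sub, D_mul, D_mul, X.x0, X.y0,
        hη1, hη2, hs, δ_smul X.g, X.w2, X.e2]
      ring

/-- derivatives of rational points are rational -/
theorem om_K1 (h : Nrm L D) (hC : δ ∈ DF (Cst D)) (hK : ∀ u ∈ K1 L D, δ u ∈ K1 L D) {v : ℂ}
    (hv : v ∈ V1 L D) : om L δ v ∈ K1 L D ∧ ℘[L] v * om L δ v ∈ K1 L D := by
  have key : ∀ δ' ∈ DF (K1 L D), δ' (om L δ v) = 0 := by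
    intro δ' hδ'
    have h2 : δ' L.g₂ = 0 := hδ' _ g_K1
    have h3 : δ' L.g₃ = 0 := g3_of h h2
    rw [← om_bracket h2 h3 (V1_om h hv hδ')]
    apply V1_om h hv
    intro u hu
    rw [Derivation.commutator_apply, hδ' _ (hK u hu), hδ' u hu, map_zero, sub_zero]
  refine ⟨fun δ' h1 h2 => key δ' (mem_DF_clo.2 ⟨h1, h2⟩), fun δ' h1 h2 => ?_⟩
  have hδ' : δ' ∈ DF (K1 L D) := mem_DF_clo.2 ⟨h1, h2⟩
  have g2 : δ' L.g₂ = 0 := hδ' _ g_K1
  have g3 : δ' L.g₃ = 0 := g3_of h g2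
  by_cases hvl : v ∈ L.lattice
  · rw [om_of_mem L δ hvl, mul_zero, map_zero]
  · rw [D_mul, key δ' hδ', (wp_killed g2 g3 (V1_om h hv hδ') hvl).1, mul_zero, mul_zero, add_zero]

theorem IsX.d_Om (X : IsX L D x y z δ) {c c' : ℂ} (hc : D c = 0) (hc' : D c' = 0) :
    δ (Om L c c') = Om L (c * x + c' * y) (c * z - c' * x) := by
  rw [Y685.Om, map_add, D_mul, D_mul, X.w1, X.w2, X.hC c hc, X.hC c' hc', Y685.Om]
  ring

theorem IsX.d_Et (X : IsX L D x y z δ) {c c' : ℂ} (hc : D c = 0) (hc' : D c' = 0) :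
    δ (Et L c c') = Et L (c * x + c' * y) (c * z - c' * x) := by
  rw [Y685.Et, map_add, D_mul, D_mul, X.e1, X.e2, X.hC c hc, X.hC c' hc', Y685.Et]
  ring

/-- the derivative of the functional at a point -/
theorem D_J {h : Nrm L D} {v : ℂ} (hv : v ∈ Cm h) {c c' : ℂ} (hc : D c = 0) (hc' : D c' = 0) :
    D (Et L c c' * v - Om L c c' * zt L v) = Et L c c' * vv L D (aa L) 1 v +
      Om L c c' * (vv L D (aa L) 1 v * ℘[L] v - ℘'[L] v / 2) := by
  rw [map_sub, D_mul, D_mul, D_Et h hc hc', D_Om h hc hc', D_z hv, D_zt hv]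
  ring

/-- the derivative of the second expression which occurs in `D_J` -/
theorem δ_vw (h : Nrm L D) (h2 : δ L.g₂ = 0) (v : ℂ) :
    δ (vv L D (aa L) 1 v * ℘[L] v - ℘'[L] v / 2) =
      ℘[L] v * δ (vv L D (aa L) 1 v) + vv L D (aa L) 1 v * (om L δ v * ℘'[L] v) -
        om L δ v * (6 * ℘[L] v ^ 2 - L.g₂ / 2) / 2 := by
  rw [map_sub, D_mul, vv_δ_wp h h2, D_half, δ_wp' h h2]
  ring

/-- the derivative of the correction term -/
theorem D_G (h : Nrm L D) (hX : IsX L D x y z δ) {v : ℂ} (hv : v ∈ V1 L D) {c c' : ℂ}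
    (hc : D c = 0) (hc' : D c' = 0) :
    D (Et L c c' * om L δ v + Om L c c' * (℘[L] v * om L δ v)) =
      Et L c c' * δ (vv L D (aa L) 1 v) +
        Om L c c' * δ (vv L D (aa L) 1 v * ℘[L] v - ℘'[L] v / 2) := by
  have h0 : om L ⁅D, δ⁆ v = 0 := V1_om h hv (hX.br h)
  rw [map_add, D_mul, D_mul, D_Et h hc hc', D_Om h hc hc', D_wpom h hX.g, D_om h hX.g, h0,
    δ_vw h hX.g]
  ring

/-- **Step 3**: the relations are stable under `sl₂` -/
theorem Rln.act {h : Nrm L D} (hX : IsX L D x y z δ) {ι : Type} [Fintype ι] {v d d' : ι → ℂ}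
    (R : Rln h v d d') :
    Rln h v (fun a => d a * x + d' a * y) (fun a => d a * z - d' a * x) := by
  have hx := hX.x0
  have hy := hX.y0
  have hz := hX.z0
  have hd1 : ∀ a, D (d a * x + d' a * y) = 0 := fun a => by
    rw [map_add, D_mul, D_mul, hx, hy, R.hd, R.hd']; ring
  have hd2 : ∀ a, D (d a * z - d' a * x) = 0 := fun a => by
    rw [map_sub, D_mul, D_mul, hx, hz, R.hd, R.hd']; ring
  refine ⟨R.hC, R.hV, hd1, hd2, ?_⟩
  have hC := hX.hC
  have hK : ∀ u ∈ K1 L D, δ u ∈ K1 L D := fun u hu => hX.pres hu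
  set f : ℂ := ∑ a, (Et L (d a) (d' a) * v a - Om L (d a) (d' a) * zt L (v a)) with hf
  have hfK : f ∈ K1 L D := R.mem
  set f' : ℂ := ∑ a, (Et L (d a * x + d' a * y) (d a * z - d' a * x) * v a -
    Om L (d a * x + d' a * y) (d a * z - d' a * x) * zt L (v a)) with hf'
  set G : ℂ := ∑ a, (Et L (d a) (d' a) * om L δ (v a) +
    Om L (d a) (d' a) * (℘[L] (v a) * om L δ (v a))) with hG
  have hGK : G ∈ K1 L D := by
    refine sum_mem (fun a _ => add_mem (mul_mem ?_ ?_) (mul_mem ?_ ?_))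
    · exact Et_K1 (cst_K1 (R.hd a)) (cst_K1 (R.hd' a))
    · exact (om_K1 h hC hK (R.hV a)).1
    · exact Om_K1 (cst_K1 (R.hd a)) (cst_K1 (R.hd' a))
    · exact (om_K1 h hC hK (R.hV a)).2
  have hDf : D f = ∑ a, (Et L (d a) (d' a) * vv L D (aa L) 1 (v a) +
      Om L (d a) (d' a) * (vv L D (aa L) 1 (v a) * ℘[L] (v a) - ℘'[L] (v a) / 2)) := by
    rw [hf, map_sum]
    exact sum_congr rfl (fun a _ => D_J (R.hC a) (R.hd a) (R.hd' a))
  have hDf' : D f' = ∑ a, (Et L (d a * x + d' a * y) (d a * z - d' a * x) *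
      vv L D (aa L) 1 (v a) + Om L (d a * x + d' a * y) (d a * z - d' a * x) *
        (vv L D (aa L) 1 (v a) * ℘[L] (v a) - ℘'[L] (v a) / 2)) := by
    rw [hf', map_sum]
    exact sum_congr rfl (fun a _ => D_J (R.hC a) (hd1 a) (hd2 a))
  have hDG : D G = ∑ a, (Et L (d a) (d' a) * δ (vv L D (aa L) 1 (v a)) +
      Om L (d a) (d' a) * δ (vv L D (aa L) 1 (v a) * ℘[L] (v a) - ℘'[L] (v a) / 2)) := by
    rw [hG, map_sum]
    exact sum_congr rfl (fun a _ => D_G h hX (R.hV a) (R.hd a) (R.hd' a))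
  have hcomm : D (δ f) = δ (D f) := by
    have := hX.br h f hfK
    rw [Derivation.commutator_apply] at this
    linear_combination this
  have hδDf : δ (D f) = D f' + D G := by
    rw [hDf, hDf', hDG, map_sum, ← sum_add_distrib]
    refine sum_congr rfl (fun a _ => ?_)
    rw [map_add, D_mul, D_mul, hX.d_Et (R.hd a) (R.hd' a), hX.d_Om (R.hd a) (R.hd' a)]
    ring
  have h0 : δ f - f' - G ∈ K1 L D := by
    apply cst_K1
    rw [map_sub, map_sub, hcomm, hδDf]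
    ring
  have h1 : f' = δ f - G - (δ f - f' - G) := by ring
  rw [h1]
  exact sub_mem (sub_mem (hK f hfK) hGK) h0

/-- the derivations which are needed exist -/
structure Sl2 (L : PeriodPair) (D : Derivation ℚ ℂ ℂ) : Prop where
  E : ∃ δ, IsX L D 0 1 0 δ
  F : ∃ δ, IsX L D 0 0 1 δ
  H : ∃ δ, IsX L D 1 0 0 δ

/-- a relation which holds for both periods -/
theorem step3 {h : Nrm L D} (hS : Sl2 L D) {ι : Type} [Fintype ι] {v d d' : ι → ℂ}
    (R : Rln h v d d') (hne : ¬ TR (PQ L) v d ∨ ¬ TR (PQ L) v d') :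
    ∃ c : ι → ℂ, ¬ TR (PQ L) v c ∧ Rln h v c (fun _ => 0) ∧ Rln h v (fun _ => 0) c := by
  obtain ⟨δE, hE⟩ := hS.E
  obtain ⟨δF, hF⟩ := hS.F
  have aE : ∀ {d d' : ι → ℂ}, Rln h v d d' → Rln h v d' (fun _ => 0) := by
    intro d d' R
    have := R.act hE
    simpa using this
  have aF : ∀ {d d' : ι → ℂ}, Rln h v d d' → Rln h v (fun _ => 0) d := by
    intro d d' R
    have := R.act hF
    simpa using this
  rcases hne with hne | hne
  · exact ⟨d, hne, aE (aF R), aF R⟩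
  · exact ⟨d', hne, aE R, aF (aE R)⟩

/-- the relations in terms of the points -/
theorem step3' {h : Nrm L D} {ι : Type} [Fintype ι] {v c : ι → ℂ}
    (R : Rln h v c (fun _ => 0)) (R' : Rln h v (fun _ => 0) c) :
    ∑ a, c a * v a ∈ K1 L D ∧ ∑ a, c a * zt L (v a) ∈ K1 L D := by
  have h1 := R.mem
  have h2 := R'.mem
  have hL := Lg_ne (L := L)
  have hLK : Lg L ∈ K1 L D := sub_mem (mul_mem ω₁_K1 η₂_K1) (mul_mem ω₂_K1 η₁_K1)
  set A := ∑ a, c a * v a with hA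
  set B := ∑ a, c a * zt L (v a) with hB
  have e1 : ∑ a, (Et L (c a) 0 * v a - Om L (c a) 0 * zt L (v a)) =
      eta L L.ω₁ * A - L.ω₁ * B := by
    rw [hA, hB, mul_sum, mul_sum, ← sum_sub_distrib]
    exact sum_congr rfl (fun a _ => by unfold Et Om; ring)
  have e2 : ∑ a, (Et L 0 (c a) * v a - Om L 0 (c a) * zt L (v a)) =
      eta L L.ω₂ * A - L.ω₂ * B := by
    rw [hA, hB, mul_sum, mul_sum, ← sum_sub_distrib]
    exact sum_congr rfl (fun a _ => by unfold Et Om; ring)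
  rw [e1] at h1
  rw [e2] at h2
  have e3 : A = (L.ω₁ * (eta L L.ω₂ * A - L.ω₂ * B) - L.ω₂ * (eta L L.ω₁ * A - L.ω₁ * B)) /
      Lg L := by
    field_simp
    unfold Lg
    ring
  have e4 : B = (eta L L.ω₁ * (eta L L.ω₂ * A - L.ω₂ * B) -
      eta L L.ω₂ * (eta L L.ω₁ * A - L.ω₁ * B)) / Lg L := by
    field_simp
    unfold Lg
    ring
  refine ⟨?_, ?_⟩
  · rw [e3]
    exact div_mem (sub_mem (mul_mem ω₁_K1 h2) (mul_mem ω₂_K1 h1)) hLK
  · rw [e4]
    exact div_mem (sub_mem (mul_mem η₁_K1 h2) (mul_mem η₂_K1 h1)) hLK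

end Pool.Agent.Y685
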