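import Mathlib
import Pool.Agent.Y685.StepF

/-!
# A small rank gives algebraic points with algebraic combinations of logarithms
-/

set_option autoImplicit false

open Finset Module
open scoped Topology PeriodPair

noncomputable section

namespace Pool.Agent.Y685

open H667R3 Pool.Agent.W245.EB Pool.Agent.TH813.Ell
open Pool.Agent.TH813.Rel (DF MK)

variable {L : PeriodPair} {D δ ε : Derivation ℚ ℂ ℂ} {x y z : ℂ}

theorem om_linI (h : Nrm L D) (h2 : δ L.g₂ = 0) {ι : Type} [Fintype ι] (q : ι → ℚ) (v : ι → ℂ) :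
    om L δ (∑ j, q j • v j) = ∑ j, (q j : ℂ) * om L δ (v j) := by
  rw [← omL_apply δ h2 (g3_of h h2), map_sum]
  refine sum_congr rfl (fun j _ => ?_)
  rw [map_smul, omL_apply, Rat.smul_def]

theorem et_linI (h : Nrm L D) (h2 : δ L.g₂ = 0) {ι : Type} [Fintype ι] (q : ι → ℚ) (v : ι → ℂ) :
    et L δ (∑ j, q j • v j) = ∑ j, (q j : ℂ) * et L δ (v j) := by
  rw [← etL_apply δ h2 (g3_of h h2), map_sum]
  refine sum_congr rfl (fun j _ => ?_)
  rw [map_smul, etL_apply, Rat.smul_def]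

theorem sum_coordI {ι : Type} [Fintype ι] {d : ℕ} {c : ι → ℂ} {e : Fin d → ℂ}
    {φ : Fin d → (ℂ →ₗ[ℚ] ℚ)} (hc : ∀ j, c j = ∑ k, (φ k (c j) : ℂ) * e k) (x : ι → ℂ) :
    ∑ k, e k * ∑ j, (φ k (c j) : ℂ) * x j = ∑ j, c j * x j := by
  have h1 : ∀ k, e k * ∑ j, (φ k (c j) : ℂ) * x j = ∑ j, ((φ k (c j) : ℂ) * e k) * x j := by
    intro k
    rw [mul_sum]
    exact sum_congr rfl (fun j _ => by ring)
  rw [sum_congr rfl (fun k _ => h1 k), sum_comm]
  refine sum_congr rfl (fun j _ => ?_)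
  rw [← sum_mul, ← hc j]

/-- a combination of logarithms of algebraic points which is algebraic up to periods -/
structure Bad (h : Nrm L D) {s : ℕ} (e w : Fin s → ℂ) (a b : ℂ) : Prop where
  ind : LinearIndependent ℚ e
  he : ∀ k, D (e k) = 0
  ha : D a = 0
  hb : D b = 0
  hC : ∀ k, w k ∈ Cm h
  hom : ∀ k, ∀ ε ∈ DF (K0 L D), om L ε (w k) = 0
  hw : ∃ k, w k ∉ PQ L
  m1 : ∑ k, e k * w k - Om L a b ∈ K0 L D
  m2 : ∑ k, e k * zt L (w k) - Et L a b ∈ K0 L D

/-- Rosenlicht's theorem for an arbitrary finite index set -/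
theorem rosI (h : Nrm L D) {ι : Type} [Fintype ι] {v c : ι → ℂ} (hc : ∀ a, D (c a) = 0) (u : ℂ)
    (hu : ∀ ε ∈ DF (K0 L D), ε u = O1 L v c ε) (ψ : ℂ →ₗ[ℚ] ℚ) :
    ∀ ε ∈ DF (K0 L D), ∑ a, (ψ (c a) : ℂ) * om L ε (v a) = 0 := by
  classical
  intro ε hε
  let E := Fintype.equivFin ι
  have hros := ros (L := L) (noCM h) (K0 L D) g_K0 (by rw [h.hg]; exact g_K0)
    (fun _ : Fin 0 => (0 : ℂ)) (fun _ : Fin 0 => (1 : ℂ)) (fun j => j.elim0) (fun j => j.elim0)
    (fun i => c (E.symm i)) (fun _ => 0) (fun i => v (E.symm i))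
    (fun i => cst_K0 (hc _)) (fun i => zero_mem _) u (by
      intro δ hδ
      simp only [zero_mul, sum_const_zero, zero_add, add_zero]
      rw [hu δ hδ, O1]
      exact (E.symm.sum_comp (fun a => c a * om L δ (v a))).symm) ψ ε hε
  rw [← hros.2.1]
  exact (E.symm.sum_comp (fun a => (ψ (c a) : ℂ) * om L ε (v a))).symm

/-- **Part C** -/
theorem partC (h : Nrm L D) (hS : Sl2 L D) {n : ℕ} {p : Fin n → ℂ} (hp : ∀ i, p i ∈ Cm h)
    (hind : LinearIndependent ℚ (fun i => (PQ L).mkQ (p i)))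
    (hr : (MK (K1 L D)).eRk (EP L p) < ((2 * n : ℕ) : ℕ∞)) :
    ∃ (s : ℕ) (e w : Fin s → ℂ) (a b : ℂ), Bad h e w a b := by
  classical
  obtain ⟨c, c', hc, hc', hne, hrel⟩ := step1 h hp hr
  obtain ⟨ι, _, v, d, d', R, hne'⟩ := step2 h hp hind hc hc' hne hrel
  obtain ⟨c, hT, R1, R2⟩ := step3 hS R hne'
  obtain ⟨hK1, hK2⟩ := step3' R1 R2
  have hcc : ∀ a, D (c a) = 0 := R1.hd
  obtain ⟨t1, t2, ht1, ht2, hε⟩ := step4 h hS R1.hC R1.hV hcc rfl rfl hK1 hK2
  obtain ⟨s, e, φ, hei, heK, hφ⟩ := exists_coordI (K := Cst D) c hcc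
  set w : Fin s → ℂ := fun k => ∑ a, φ k (c a) • v a with hw
  have hom : ∀ k, ∀ ε ∈ DF (K0 L D), om L ε (w k) = 0 := by
    intro k ε hε'
    have h2 : ε L.g₂ = 0 := hε' _ g_K0
    have : om L ε (w k) = ∑ a, (φ k (c a) : ℂ) * om L ε (v a) := om_linI h h2 _ _
    rw [this]
    exact rosI h hcc _ (fun ε hε' => (hε ε hε').1) (φ k) ε hε'
  have heD : ∀ k, D (e k) = 0 := heK
  refine ⟨s, e, w, t1, t2, hei, heK, ht1, ht2, fun k => ?_, hom, ?_, ?_, ?_⟩
  · exact Submodule.sum_mem _ (fun a _ => Submodule.smul_mem _ _ (R1.hC a))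
  · by_contra hcon
    push Not at hcon
    apply hT
    intro ψ
    have h1 : ∑ k, ψ (e k) • w k = ∑ a, ψ (c a) • v a := by
      have h2 : ∀ k, ψ (e k) • w k = ∑ a, (ψ (e k) * φ k (c a)) • v a := by
        intro k
        rw [hw, smul_sum]
        exact sum_congr rfl (fun a _ => by rw [smul_smul])
      rw [sum_congr rfl (fun k _ => h2 k), sum_comm]
      refine sum_congr rfl (fun a _ => ?_)
      rw [← sum_smul]
      congr 1
      conv_rhs => rw [hφ a]
      rw [map_sum]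
      refine sum_congr rfl (fun k _ => ?_)
      rw [← Rat.smul_def, map_smul, smul_eq_mul, mul_comm]
    rw [← h1]
    exact Submodule.sum_mem _ (fun k _ => Submodule.smul_mem _ _ (hcon k))
  · have h1 : ∑ k, e k * w k = ∑ a, c a * v a := by
      rw [← sum_coordI hφ]
      refine sum_congr rfl (fun k _ => ?_)
      rw [hw]
      simp only [Rat.smul_def]
    rw [h1]
    intro ε hεC hεS
    have hε0 : ε ∈ DF (K0 L D) := mem_DF_clo.2 ⟨hεC, hεS⟩
    rw [(hε ε hε0).1, O1, ← sum_coordI hφ (fun a => om L ε (v a))]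
    refine sum_eq_zero (fun k _ => ?_)
    have := hom k ε hε0
    rw [hw, om_linI h (hε0 _ g_K0)] at this
    rw [this, mul_zero]
  · intro ε hεC hεS
    have hε0 : ε ∈ DF (K0 L D) := mem_DF_clo.2 ⟨hεC, hεS⟩
    have h3 := (hε ε hε0).2
    rw [map_sub, map_sum] at h3
    rw [map_sub, map_sum]
    have h4 : ∑ k, ε (e k * zt L (w k)) = ∑ a, c a * et L ε (v a) := by
      rw [← sum_coordI hφ (fun a => et L ε (v a))]
      refine sum_congr rfl (fun k _ => ?_)
      have h5 : et L ε (w k) = ∑ a, (φ k (c a) : ℂ) * et L ε (v a) :=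
        et_linI h (hε0 _ g_K0) _ _
      rw [← h5, D_mul, hεC _ (heD k), mul_zero, add_zero, et, hom k ε hε0, mul_zero, add_zero]
    have h6 : ∑ a, ε (c a * zt L (v a)) = ∑ a, c a * et L ε (v a) + O2 L v c ε := by
      rw [O2, ← sub_eq_add_neg, ← sum_sub_distrib]
      refine sum_congr rfl (fun a _ => ?_)
      rw [D_mul, hεC _ (hcc a), et]
      ring
    rw [h4]
    rw [h6] at h3
    linear_combination h3

end Pool.Agent.Y685
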