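import Mathlib
import Pool.Agent.Y776.Sys
import Pool.Agent.Y776.Chain
import Pool.Agent.Y776.TorA
import Pool.Agent.Y685.TauA
import Pool.Agent.TH813.EKCore

/-!
# A fixed curve: the system of functions
-/

set_option autoImplicit false

open Filter Finset
open scoped Topology PeriodPair

noncomputable section

namespace Pool.Agent.Y685

open H667R3 Pool.Agent.W245.EB Pool.Agent.TH813.Ell MvPolynomial
open Pool.Agent.TH813.Rel (DF MK)
open Pool.Agent.Y776 (Tf lg)

/-- names of the functions -/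
inductive Sf (n s : ℕ) : Type
  | g : Sf n s
  | z (i : Fin n) : Sf n s
  | ze (i : Fin n) : Sf n s
  | wp (i : Fin n) : Sf n s
  | wp' (i : Fin n) : Sf n s
  | t (l : Fin s) : Sf n s
  | e (l : Fin s) : Sf n s

/-- the names form a finite type -/
def Sf.toSum {n s : ℕ} : Sf n s → Unit ⊕ ((Fin 4 × Fin n) ⊕ (Fin 2 × Fin s))
  | .g => .inl ()
  | .z i => .inr (.inl (0, i))
  | .ze i => .inr (.inl (1, i))
  | .wp i => .inr (.inl (2, i))
  | .wp' i => .inr (.inl (3, i))
  | .t l => .inr (.inr (0, l))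
  | .e l => .inr (.inr (1, l))

theorem Sf.toSum_inj {n s : ℕ} : Function.Injective (Sf.toSum (n := n) (s := s)) := by
  intro u w h
  cases u <;> cases w <;> simp [Sf.toSum] at h ⊢ <;> exact h

instance {n s : ℕ} : Finite (Sf n s) := Finite.of_injective _ Sf.toSum_inj

instance {n s : ℕ} : Fintype (Sf n s) := Fintype.ofFinite _

variable {n s : ℕ}

/-- the functions -/
def Pf' (L : PeriodPair) (x : Fin (n + s) → ℂ) : Sf n s → ℂ
  | .g => L.g₂
  | .z i => x (Fin.castAdd s i)
  | .ze i => zeta L (x (Fin.castAdd s i))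
  | .wp i => ℘[L] (x (Fin.castAdd s i))
  | .wp' i => ℘'[L] (x (Fin.castAdd s i))
  | .t l => x (Fin.natAdd n l)
  | .e l => Complex.exp (x (Fin.natAdd n l))

/-- the derivatives in the direction of a point -/
def PA (j : Fin n) : Sf n s → MvPolynomial (Sf n s) ℚ
  | .g => 0
  | .z i => if j = i then 1 else 0
  | .ze i => if j = i then -X (.wp i) else 0
  | .wp i => if j = i then X (.wp' i) else 0
  | .wp' i => if j = i then 6 * X (.wp i) ^ 2 - X .g * C (1 / 2) else 0
  | .t _ => 0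
  | .e _ => 0

/-- the derivatives in the direction of an exponent -/
def PB (j : Fin s) : Sf n s → MvPolynomial (Sf n s) ℚ
  | .g => 0
  | .z _ => 0
  | .ze _ => 0
  | .wp _ => 0
  | .wp' _ => 0
  | .t l => if j = l then 1 else 0
  | .e l => if j = l then X (.e l) else 0

/-- the derivatives -/
def PF' : Fin (n + s) → Sf n s → MvPolynomial (Sf n s) ℚ :=
  fun j => Fin.addCases (fun j => PA j) (fun j => PB j) j

@[simp] theorem PF'_left (j : Fin n) : PF' (s := s) (Fin.castAdd s j) = PA j := by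
  simp [PF']

@[simp] theorem PF'_right (j : Fin s) : PF' (n := n) (Fin.natAdd n j) = PB j := by
  simp [PF']

/-- the domain -/
def Uf (L : PeriodPair) (n s : ℕ) : Set (Fin (n + s) → ℂ) :=
  {x | ∀ i : Fin n, x (Fin.castAdd s i) ∉ L.lattice}

theorem isOpen_Uf (L : PeriodPair) : IsOpen (Uf L n s) := by
  have h1 : Uf L n s = ⋂ i : Fin n, (fun x : Fin (n + s) → ℂ => x (Fin.castAdd s i)) ⁻¹'
      ((L.lattice : Set ℂ)ᶜ) := by
    ext x
    simp [Uf]
  rw [h1]
  exact isOpen_iInter_of_finite (fun i => (isOpen_compl L).preimage (continuous_apply _))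

/-- a function of one coordinate -/
theorem hasFDerivAt_coord {m : ℕ} {f : ℂ → ℂ} {f' : ℂ} {x : Fin m → ℂ} (j : Fin m)
    (h : HasDerivAt f f' (x j)) :
    HasFDerivAt (fun y : Fin m → ℂ => f (y j))
      (f' • (ContinuousLinearMap.proj j : (Fin m → ℂ) →L[ℂ] ℂ)) x := by
  have h1 : HasFDerivAt (fun y : Fin m → ℂ => y j)
      (ContinuousLinearMap.proj j : (Fin m → ℂ) →L[ℂ] ℂ) x :=
    (ContinuousLinearMap.proj (R := ℂ) (φ := fun _ : Fin m => ℂ) j).hasFDerivAt
  exact h.comp_hasFDerivAt x h1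

theorem Pf'_der (L : PeriodPair) {x : Fin (n + s) → ℂ} (hx : x ∈ Uf L n s) (s₀ : Sf n s) :
    HasFDerivAt (fun y => Pf' L y s₀) (∑ j, (aeval (Pf' L x) (PF' (n := n) (s := s) j s₀)) •
      (ContinuousLinearMap.proj j : (Fin (n + s) → ℂ) →L[ℂ] ℂ)) x := by
  classical
  have key : ∀ (j : Fin (n + s)) (c : ℂ), aeval (Pf' L x) (PF' (n := n) (s := s) j s₀) = c →
      (∀ j', j' ≠ j → aeval (Pf' L x) (PF' (n := n) (s := s) j' s₀) = 0) →
      (∑ j, (aeval (Pf' L x) (PF' (n := n) (s := s) j s₀)) •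
      (ContinuousLinearMap.proj j : (Fin (n + s) → ℂ) →L[ℂ] ℂ)) =
        c • (ContinuousLinearMap.proj j : (Fin (n + s) → ℂ) →L[ℂ] ℂ) := by
    intro j c h1 h2
    rw [Finset.sum_eq_single j, h1]
    · intro j' _ hj'
      rw [h2 j' hj']
      exact ContinuousLinearMap.ext (fun v => by simp)
    · intro h; exact absurd (mem_univ j) h
  have hd : ∀ (i : Fin n) (j' : Fin (n + s)), j' ≠ Fin.castAdd s i →
      (∃ i', i' ≠ i ∧ j' = Fin.castAdd s i') ∨ ∃ l, j' = Fin.natAdd n l := by
    intro i j'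
    induction j' using Fin.addCases with
    | left i' => exact fun h => Or.inl ⟨i', fun h' => h (by rw [h']), rfl⟩
    | right l => exact fun _ => Or.inr ⟨l, rfl⟩
  have he : ∀ (l : Fin s) (j' : Fin (n + s)), j' ≠ Fin.natAdd n l →
      (∃ i', j' = Fin.castAdd s i') ∨ ∃ l', l' ≠ l ∧ j' = Fin.natAdd n l' := by
    intro l j'
    induction j' using Fin.addCases with
    | left i' => exact fun _ => Or.inl ⟨i', rfl⟩
    | right l' => exact fun h => Or.inr ⟨l', fun h' => h (by rw [h']), rfl⟩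
  cases s₀ with
  | g =>
    have h0 : (∑ j, (aeval (Pf' L x) (PF' (n := n) (s := s) j .g)) •
      (ContinuousLinearMap.proj j : (Fin (n + s) → ℂ) →L[ℂ] ℂ)) = 0 := by
      refine sum_eq_zero (fun j _ => ?_)
      induction j using Fin.addCases with
      | left i => exact ContinuousLinearMap.ext (fun v => by simp [PA])
      | right l => exact ContinuousLinearMap.ext (fun v => by simp [PB])
    rw [h0]
    exact hasFDerivAt_const _ _
  | z i =>
    rw [key (Fin.castAdd s i) 1 (by simp [PA]) (by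
      intro j' hj'
      rcases hd i j' hj' with ⟨i', hi', rfl⟩ | ⟨l, rfl⟩
      · simp [PA, hi']
      · simp [PB])]
    exact hasFDerivAt_coord (f := fun u => u) (Fin.castAdd s i) (hasDerivAt_id _)
  | ze i =>
    rw [key (Fin.castAdd s i) (-℘[L] (x (Fin.castAdd s i))) (by simp [PA, Pf']) (by
      intro j' hj'
      rcases hd i j' hj' with ⟨i', hi', rfl⟩ | ⟨l, rfl⟩
      · simp [PA, hi']
      · simp [PB])]
    exact hasFDerivAt_coord (Fin.castAdd s i) (hasDerivAt_zeta L (hx i))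
  | wp i =>
    rw [key (Fin.castAdd s i) (℘'[L] (x (Fin.castAdd s i))) (by simp [PA, Pf']) (by
      intro j' hj'
      rcases hd i j' hj' with ⟨i', hi', rfl⟩ | ⟨l, rfl⟩
      · simp [PA, hi']
      · simp [PB])]
    exact hasFDerivAt_coord (Fin.castAdd s i) (hasDerivAt_weierstrassP L (hx i))
  | wp' i =>
    rw [key (Fin.castAdd s i) (6 * ℘[L] (x (Fin.castAdd s i)) ^ 2 - L.g₂ / 2) (by
      simp [PA, Pf', map_ofNat]
      ring) (by
      intro j' hj'
      rcases hd i j' hj' with ⟨i', hi', rfl⟩ | ⟨l, rfl⟩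
      · simp [PA, hi']
      · simp [PB])]
    exact hasFDerivAt_coord (Fin.castAdd s i) (H2.hasDerivAt_wp'_all L (hx i))
  | t l =>
    rw [key (Fin.natAdd n l) 1 (by simp [PB]) (by
      intro j' hj'
      rcases he l j' hj' with ⟨i', rfl⟩ | ⟨l', hl', rfl⟩
      · simp [PA]
      · simp [PB, hl'])]
    exact hasFDerivAt_coord (f := fun u => u) (Fin.natAdd n l) (hasDerivAt_id _)
  | e l =>
    rw [key (Fin.natAdd n l) (Complex.exp (x (Fin.natAdd n l))) (by simp [PB, Pf']) (by
      intro j' hj'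
      rcases he l j' hj' with ⟨i', rfl⟩ | ⟨l', hl', rfl⟩
      · simp [PA]
      · simp [PB, hl'])]
    exact hasFDerivAt_coord (Fin.natAdd n l) (Complex.hasDerivAt_exp _)

/-- compatibility with the exponential map of the curve -/
def Cm1 (L : PeriodPair) (D : Derivation ℚ ℂ ℂ) (z : ℂ) : Prop := om L D z = D z ∧ et L D z = 0

/-- the derivations which are compatible with the points and exponents -/
def CF (K : Subfield ℂ) (L : PeriodPair) (z : Fin n → ℂ) (t : Fin s → ℂ) :
    Submodule ℂ (Derivation ℚ ℂ ℂ) where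
  carrier := {D | (∀ x ∈ K, D x = 0) ∧ (∀ i, Cm1 L D (z i)) ∧ ∀ l, Tf D (t l) = 0}
  add_mem' := by
    rintro D D' ⟨h1, h2, h3⟩ ⟨h1', h2', h3'⟩
    refine ⟨fun x hx => ?_, fun i => ⟨?_, ?_⟩, fun l => ?_⟩
    · rw [Derivation.add_apply, h1 x hx, h1' x hx, add_zero]
    · rw [om_add_der, (h2 i).1, (h2' i).1, Derivation.add_apply]
    · have e1 := (h2 i).2
      have e2 := (h2' i).2
      unfold et at e1 e2 ⊢
      rw [om_add_der, Derivation.add_apply]
      linear_combination e1 + e2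
    · rw [Pool.Agent.Y776.Tf_add_der, h3, h3', add_zero]
  zero_mem' := by
    refine ⟨fun x _ => rfl, fun i => ⟨?_, ?_⟩, fun l => ?_⟩
    · simp [om]
    · simp [et, om]
    · simp [Tf, lg]
  smul_mem' := by
    rintro c D ⟨h1, h2, h3⟩
    refine ⟨fun x hx => ?_, fun i => ⟨?_, ?_⟩, fun l => ?_⟩
    · rw [Derivation.smul_apply, h1 x hx, smul_zero]
    · rw [om_smul_der, (h2 i).1, Derivation.smul_apply, smul_eq_mul]
    · have e1 := (h2 i).2
      unfold et at e1 ⊢
      rw [om_smul_der, Derivation.smul_apply, smul_eq_mul]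
      linear_combination c * e1
    · rw [Pool.Agent.Y776.Tf_smul_der, h3, mul_zero]

end Pool.Agent.Y685
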