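import Mathlib
import Pool.Agent.Y685.G1

/-!
# A fixed curve: compatible derivations
-/

set_option autoImplicit false

open Filter Finset
open scoped Topology PeriodPair ComplexConjugate

noncomputable section

namespace Pool.Agent.Y685

open H667R3 Pool.Agent.W245.EB Pool.Agent.TH813.Ell MvPolynomial
open Pool.Agent.TH813.Rel (DF MK)
open Pool.Agent.Y776 (Tf lg ET)

variable {n s : ℕ} {L : PeriodPair} {D δ : Derivation ℚ ℂ ℂ} {κ : ℂ}

/-- closedness of the form of the first kind -/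
theorem om_cl (h2 : D L.g₂ = 0) (h3 : D L.g₃ = 0) (k2 : δ L.g₂ = 0) (k3 : δ L.g₃ = 0) (v : ℂ) :
    D (om L δ v) - δ (om L D v) = om L ⁅D, δ⁆ v := by
  by_cases hv : 2 * v ∈ L.lattice
  · rw [om_of_two_mul_mem L _ hv, om_of_two_mul_mem L _ hv, om_of_two_mul_mem L _ hv]
    simp
  · have hv' := two_mul_notMem_of L hv
    have hy := wp'_ne_zero L hv
    obtain ⟨a1, a2⟩ := TH813.Ell.D_wp L D h2 h3 hv'
    obtain ⟨b1, b2⟩ := TH813.Ell.D_wp L δ k2 k3 hv'
    have e1 := congrArg D b1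
    have e2 := congrArg δ a1
    rw [D_mul, a2] at e1
    rw [D_mul, b2] at e2
    have e3 : om L ⁅D, δ⁆ v * ℘'[L] v = ⁅D, δ⁆ (℘[L] v) := by
      unfold om
      rw [div_mul_cancel₀ _ hy]
    rw [Derivation.commutator_apply] at e3
    apply mul_right_cancel₀ hy
    linear_combination -e3 - e1 + e2

theorem wpom_cl (h2 : D L.g₂ = 0) (h3 : D L.g₃ = 0) (k2 : δ L.g₂ = 0) (k3 : δ L.g₃ = 0) (v : ℂ) :
    D (℘[L] v * om L δ v) - δ (℘[L] v * om L D v) = ℘[L] v * om L ⁅D, δ⁆ v := by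
  rw [← om_cl h2 h3 k2 k3]
  by_cases hv : 2 * v ∈ L.lattice
  · rw [om_of_two_mul_mem L _ hv, om_of_two_mul_mem L _ hv]
    simp
  · have hv' := two_mul_notMem_of L hv
    obtain ⟨a1, a2⟩ := TH813.Ell.D_wp L D h2 h3 hv'
    obtain ⟨b1, b2⟩ := TH813.Ell.D_wp L δ k2 k3 hv'
    rw [D_mul, D_mul, a1, b1]
    ring

/-- flatness -/
theorem fl1 (h2 : D L.g₂ = 0) (h3 : D L.g₃ = 0) (k2 : δ L.g₂ = 0) (k3 : δ L.g₃ = 0) {z : ℂ}
    (hz : Cm1 L D z) : D (om L δ z - δ z) = om L ⁅D, δ⁆ z - ⁅D, δ⁆ z := by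
  have h1 := om_cl h2 h3 k2 k3 z
  rw [hz.1] at h1
  rw [map_sub, Derivation.commutator_apply]
  linear_combination h1

theorem fl2 (h2 : D L.g₂ = 0) (h3 : D L.g₃ = 0) (k2 : δ L.g₂ = 0) (k3 : δ L.g₃ = 0) {z : ℂ}
    (hz : Cm1 L D z) : D (et L δ z) = et L ⁅D, δ⁆ z := by
  have h1 := wpom_cl h2 h3 k2 k3 z
  have h4 := hz.2
  unfold et at h4 ⊢
  have h5 : δ (D (zt L z)) = -δ (℘[L] z * om L D z) := by
    rw [← map_neg]
    congr 1
    linear_combination h4
  rw [map_add, Derivation.commutator_apply]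
  linear_combination h1 + h5

/-- the points with which a derivation is compatible -/
def CmS (hE : Eig L κ) (h2 : D L.g₂ = 0) (h3 : D L.g₃ = 0) : Submodule (kL L) ℂ where
  carrier := {z | Cm1 L D z}
  add_mem' := by
    rintro u v ⟨a1, a2⟩ ⟨b1, b2⟩
    exact ⟨by rw [om_add L D h2 h3, a1, b1, map_add], by rw [et_add L D h2 h3, a2, b2, add_zero]⟩
  zero_mem' := ⟨by rw [om_zero, map_zero], et_zero D⟩
  smul_mem' := by
    rintro ⟨c, hc⟩ z ⟨a1, a2⟩
    have e0 : (⟨c, hc⟩ : kL L) • z = c * z := rfl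
    have e1 : D (c * z) = c * D z := by rw [D_mul, der_kL D hc]; ring
    have e2 : om L D (c * z) = D (c * z) := by rw [hE.om_mul D h2 h3 c hc, a1, e1]
    have e3 : xi L κ D z = 0 := by
      unfold xi
      rw [a1, a2]
      ring
    have e4 := hE.xi_mul D h2 h3 c hc z
    rw [e3, mul_zero] at e4
    unfold xi at e4
    rw [e2, sub_self, mul_zero, add_zero] at e4
    rw [Set.mem_ofPred_eq, e0]
    exact ⟨e2, e4⟩

/-- the points and exponents in one vector -/
theorem good_CF {K : Subfield ℂ} {z : Fin n → ℂ} {t : Fin s → ℂ}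
    (hz : ∀ i, 2 * z i ∉ L.lattice) {j₀ : Fin (n + s)}
    (h : Pool.Agent.Y776.Good PF' K (Pf' L (Fin.append z t)) j₀) :
    ∃ D ∈ CF K L z t, D (Fin.append z t j₀) = 1 := by
  classical
  obtain ⟨D, v, hk, hv, hD⟩ := Pool.Agent.Y776.good_der h
  have k1 : ∀ i, D (z i) = v (Fin.castAdd s i) := by
    intro i
    have := hD (.z i)
    rw [Fin.sum_univ_add] at this
    simpa [Pf', PA, PB, apply_ite] using this
  have k2 : ∀ i, D (zeta L (z i)) = -v (Fin.castAdd s i) * ℘[L] (z i) := by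
    intro i
    have := hD (.ze i)
    rw [Fin.sum_univ_add] at this
    simpa [Pf', PA, PB, apply_ite] using this
  have k3 : ∀ i, D (℘[L] (z i)) = v (Fin.castAdd s i) * ℘'[L] (z i) := by
    intro i
    have := hD (.wp i)
    rw [Fin.sum_univ_add] at this
    simpa [Pf', PA, PB, apply_ite] using this
  have k4 : ∀ l, D (t l) = v (Fin.natAdd n l) := by
    intro l
    have := hD (.t l)
    rw [Fin.sum_univ_add] at this
    simpa [Pf', PA, PB, apply_ite] using this
  have k5 : ∀ l, D (Complex.exp (t l)) = v (Fin.natAdd n l) * Complex.exp (t l) := by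
    intro l
    have := hD (.e l)
    rw [Fin.sum_univ_add] at this
    simpa [Pf', PA, PB, apply_ite] using this
  refine ⟨D, ⟨hk, fun i => ?_, fun l => ?_⟩, ?_⟩
  · have h1 : om L D (z i) = v (Fin.castAdd s i) := by
      unfold om
      rw [k3, mul_div_assoc, div_self (wp'_ne_zero L (hz i)), mul_one]
    refine ⟨by rw [h1, k1], ?_⟩
    unfold et
    rw [h1, zt_of_notMem (two_mul_notMem_of L (hz i)), k2]
    ring
  · unfold Tf lg
    rw [k4, k5, mul_div_assoc, div_self (Complex.exp_ne_zero _)]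
    ring
  · induction j₀ using Fin.addCases with
    | left i => rw [Fin.append_left, k1, hv]
    | right l => rw [Fin.append_right, k4, hv]

end Pool.Agent.Y685
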