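import Mathlib
import Pool.Agent.Y685.G2

/-!
# A fixed curve: a generic compatible derivation, and Ax's theorem
-/

set_option autoImplicit false

open Filter Finset
open scoped Topology PeriodPair ComplexConjugate

noncomputable section

namespace Pool.Agent.Y685

open H667R3 Pool.Agent.W245.EB Pool.Agent.TH813.Ell MvPolynomial
open Pool.Agent.TH813.Rel (DF MK)
open Pool.Agent.Y776 (Tf lg ET)

variable {n s : ℕ} {L : PeriodPair} {κ : ℂ}

/-- a compatible derivation which kills no combination of the points and of the exponents -/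
theorem exists_CF {K : Subfield ℂ} (hKc : (K : Set ℂ).Countable) (hE : Eig L κ) (h2 : L.g₂ ∈ K)
    (h3 : L.g₃ ∈ K) (hLK : ∀ w ∈ L.lattice, w ∈ K) (hkK : ∀ c ∈ kL L, c ∈ K)
    (hG : ∀ (z : Fin n → ℂ) (t : Fin s → ℂ) (j₀ : Fin (n + s)), (∀ i, z i ∉ L.lattice) →
      Fin.append z t j₀ ∉ K → Pool.Agent.Y776.Good PF' K (Pf' L (Fin.append z t)) j₀)
    {z : Fin n → ℂ} {t : Fin s → ℂ}
    (hz : ∀ c : Fin n → ℂ, (∀ i, c i ∈ kL L) → ∑ i, c i * z i ∈ K → c = 0)
    (ht : ∀ q : Fin s → ℚ, ∑ l, q l • t l ∈ K → q = 0) :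
    ∃ D ∈ CF K L z t,
      (∀ c : Fin n → ℂ, (∀ i, c i ∈ kL L) → D (∑ i, c i * z i) = 0 → c = 0) ∧
      ∀ q : Fin s → ℚ, D (∑ l, q l • t l) = 0 → q = 0 := by
  classical
  let ev : CF K L z t →ₗ[ℂ] (Fin n ⊕ Fin s → ℂ) :=
    { toFun := fun D => Sum.elim (fun i => (D : Derivation ℚ ℂ ℂ) (z i))
        (fun l => (D : Derivation ℚ ℂ ℂ) (t l))
      map_add' := fun D D' => by
        funext o
        rcases o with i | l <;> rfl
      map_smul' := fun c D => by
        funext o
        rcases o with i | l <;> rfl }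
  let C1 : Set (Fin n → ℂ) := {c | (∀ i, c i ∈ kL L) ∧ c ≠ 0}
  let S : Set (Fin n ⊕ Fin s → ℂ) := (fun c : Fin n → ℂ => Sum.elim c 0) '' C1 ∪
    (fun q : Fin s → ℚ => Sum.elim 0 (fun l => (q l : ℂ))) '' {q | q ≠ 0}
  have hC1 : C1.Countable := by
    have hk : (kL L : Set ℂ).Countable := hKc.mono (fun x hx => hkK x hx)
    refine (Set.countable_univ_pi (fun _ : Fin n => hk)).mono ?_
    intro c hc i _
    exact hc.1 i
  have hS : S.Countable := (hC1.image _).union ((Set.to_countable _).image _)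
  have hev1 : ∀ (c : Fin n → ℂ) (D : CF K L z t), (∀ i, c i ∈ kL L) →
      ∑ o, (Sum.elim c 0 : Fin n ⊕ Fin s → ℂ) o * ev D o =
      (D : Derivation ℚ ℂ ℂ) (∑ i, c i * z i) := by
    intro c D hc
    rw [Fintype.sum_sum_type, map_sum]
    simp only [Sum.elim_inl, Sum.elim_inr, Pi.zero_apply, zero_mul, sum_const_zero, add_zero]
    refine sum_congr rfl (fun i _ => ?_)
    rw [D_mul, der_kL _ (hc i)]
    change c i * (D : Derivation ℚ ℂ ℂ) (z i) = _
    ring
  have hev2 : ∀ (q : Fin s → ℚ) (D : CF K L z t),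
      ∑ o, (Sum.elim 0 (fun l => (q l : ℂ)) : Fin n ⊕ Fin s → ℂ) o * ev D o =
      (D : Derivation ℚ ℂ ℂ) (∑ l, q l • t l) := by
    intro q D
    rw [Fintype.sum_sum_type, map_sum]
    simp only [Sum.elim_inl, Sum.elim_inr, Pi.zero_apply, zero_mul, sum_const_zero, zero_add]
    refine sum_congr rfl (fun l _ => ?_)
    rw [Derivation.map_smul, Rat.smul_def]
    rfl
  have hL2 : ∀ x : ℂ, x ∉ K → 2 * x ∉ L.lattice := by
    intro x hx h
    apply hx
    have h4 : x = (2 * x) / 2 := by ring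
    rw [h4]
    exact div_mem (hLK _ h) (ofNat_mem K 2)
  have hzK : ∀ i, z i ∉ K := by
    intro i hi
    have h4 := hz (Pi.single i 1) (fun j => by
      by_cases hj : j = i
      · rw [hj, Pi.single_eq_same]; exact one_mem _
      · rw [Pi.single_eq_of_ne hj]; exact zero_mem _) (by
      rw [sum_eq_single i]
      · rw [Pi.single_eq_same, one_mul]; exact hi
      · intro j _ hj
        rw [Pi.single_eq_of_ne hj, zero_mul]
      · intro h; exact absurd (mem_univ i) h)
    have h5 := congrFun h4 i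
    rw [Pi.single_eq_same] at h5
    exact one_ne_zero h5
  obtain ⟨D₀, hD₀⟩ := Pool.Agent.Y776.exists_generic ev hS (by
    rintro _ (⟨c, ⟨hc, hc0⟩, rfl⟩ | ⟨q, hq, rfl⟩)
    · obtain ⟨i₀, hi₀⟩ := Function.ne_iff.1 hc0
      have hi₀' : c i₀ ≠ 0 := hi₀
      set x : ℂ := ∑ i, c i * z i with hx
      have hxK : x ∉ K := fun h => hc0 (hz c hc h)
      let z' : Fin n → ℂ := Function.update z i₀ x
      have hz'0 : z' i₀ = x := Function.update_self _ _ _
      have hz'1 : ∀ i, i ≠ i₀ → z' i = z i := fun i hi => Function.update_of_ne hi _ _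
      have hz'K : ∀ i, z' i ∉ K := by
        intro i
        by_cases hi : i = i₀
        · rw [hi, hz'0]; exact hxK
        · rw [hz'1 i hi]; exact hzK i
      obtain ⟨D, hD, hD1⟩ := good_CF (fun i => hL2 _ (hz'K i))
        (hG z' t (Fin.castAdd s i₀) (fun i hi => hz'K i (hLK _ hi)) (by
          rw [Fin.append_left, hz'0]; exact hxK))
      rw [Fin.append_left, hz'0] at hD1
      have hD2 : D L.g₂ = 0 := hD.1 _ h2
      have hD3 : D L.g₃ = 0 := hD.1 _ h3
      have hcm : ∀ i, i ≠ i₀ → z i ∈ CmS hE hD2 hD3 := by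
        intro i hi
        have := hD.2.1 i
        rw [hz'1 i hi] at this
        exact this
      have hcx : x ∈ CmS hE hD2 hD3 := by
        have := hD.2.1 i₀
        rw [hz'0] at this
        exact this
      have hc₀ : z i₀ ∈ CmS hE hD2 hD3 := by
        have h4 : (⟨c i₀, hc i₀⟩ : kL L) • z i₀ ∈ CmS hE hD2 hD3 := by
          have h5 : (⟨c i₀, hc i₀⟩ : kL L) • z i₀ =
              x - ∑ i ∈ univ.erase i₀, (⟨c i, hc i⟩ : kL L) • z i := by
            rw [hx, ← add_sum_erase univ _ (mem_univ i₀)]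
            change c i₀ * z i₀ = c i₀ * z i₀ + _ - ∑ i ∈ univ.erase i₀, c i * z i
            ring
          rw [h5]
          exact sub_mem hcx (sum_mem (fun i hi =>
            Submodule.smul_mem _ _ (hcm i (ne_of_mem_erase hi))))
        have h6 : (⟨c i₀, hc i₀⟩ : kL L) ≠ 0 := by
          intro h
          exact hi₀' (congrArg Subtype.val h)
        have h7 := Submodule.smul_mem _ (⟨c i₀, hc i₀⟩ : kL L)⁻¹ h4
        rwa [smul_smul, inv_mul_cancel₀ h6, one_smul] at h7
      refine ⟨⟨D, hD.1, fun i => ?_, hD.2.2⟩, ?_⟩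
      · by_cases hi : i = i₀
        · rw [hi]; exact hc₀
        · exact hcm i hi
      · change ∑ o, (Sum.elim c 0 : Fin n ⊕ Fin s → ℂ) o * _ ≠ 0
        rw [hev1 c _ hc]
        change D x ≠ 0
        rw [hD1]
        exact one_ne_zero
    · have hq' : q ≠ 0 := hq
      obtain ⟨l₀, hl₀⟩ := Function.ne_iff.1 hq'
      have hl₀' : q l₀ ≠ 0 := hl₀
      set x : ℂ := ∑ l, q l • t l with hx
      have hxK : x ∉ K := fun h => hq' (ht q h)
      let t' : Fin s → ℂ := Function.update t l₀ x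
      have ht'0 : t' l₀ = x := Function.update_self _ _ _
      obtain ⟨D, hD, hD1⟩ := good_CF (fun i => hL2 _ (hzK i))
        (hG z t' (Fin.natAdd n l₀) (fun i hi => hzK i (hLK _ hi)) (by
          rw [Fin.append_right, ht'0]; exact hxK))
      rw [Fin.append_right, ht'0] at hD1
      have hTx : Tf D x = 0 := by
        have := hD.2.2 l₀
        rwa [ht'0] at this
      have hTt : ∀ l, l ≠ l₀ → Tf D (t l) = 0 := by
        intro l hl
        have h1 := hD.2.2 l
        have h2 : t' l = t l := Function.update_of_ne hl _ _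
        rwa [h2] at h1
      have hT0 : Tf D (t l₀) = 0 := by
        rw [hx, Pool.Agent.Y776.Tf_lin, Finset.sum_eq_single l₀
          (fun l _ hl => by rw [hTt l hl, mul_zero])
          (fun h => absurd (Finset.mem_univ _) h)] at hTx
        refine (mul_eq_zero.1 hTx).resolve_left ?_
        exact_mod_cast hl₀'
      refine ⟨⟨D, hD.1, hD.2.1, fun l => ?_⟩, ?_⟩
      · by_cases hl : l = l₀
        · rw [hl]; exact hT0
        · exact hTt l hl
      · change ∑ o, (Sum.elim 0 (fun l => (q l : ℂ)) : Fin n ⊕ Fin s → ℂ) o * _ ≠ 0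
        rw [hev2]
        change D x ≠ 0
        rw [hD1]
        exact one_ne_zero)
  refine ⟨D₀, D₀.2, fun c hc h0 => ?_, fun q h0 => ?_⟩
  · by_contra hne
    have h4 := hD₀ _ (Or.inl ⟨c, ⟨hc, hne⟩, rfl⟩)
    apply h4
    change ∑ o, (Sum.elim c 0 : Fin n ⊕ Fin s → ℂ) o * _ = 0
    rw [hev1 c _ hc, h0]
  · by_contra hne
    have h4 := hD₀ _ (Or.inr ⟨q, hne, rfl⟩)
    apply h4
    change ∑ o, (Sum.elim 0 (fun l => (q l : ℂ)) : Fin n ⊕ Fin s → ℂ) o * _ = 0
    rw [hev2, h0]

end Pool.Agent.Y685
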