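import Mathlib
import Pool.Agent.Y685.G3

/-!
# Ax's theorem for a fixed curve and exponentials
-/

set_option autoImplicit false

open Filter Finset
open scoped Topology PeriodPair ComplexConjugate

noncomputable section

namespace Pool.Agent.Y685

open H667R3 Pool.Agent.W245.EB Pool.Agent.TH813.Ell MvPolynomial
open Pool.Agent.TH813.Rel (DF MK)
open Pool.Agent.Y776 (Tf lg ET)

variable {n s : ℕ} {L : PeriodPair} {κ : ℂ} {D : Derivation ℚ ℂ ℂ}

/-- the differentials which vanish on the compatible derivations -/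
def Fv (L : PeriodPair) (z : Fin n → ℂ) (t : Fin s → ℂ) (δ : Derivation ℚ ℂ ℂ) :
    Fin s ⊕ (Fin n ⊕ Fin n) → ℂ :=
  Sum.elim (fun l => Tf δ (t l)) (Sum.elim (fun i => om L δ (z i) - δ (z i))
    (fun i => et L δ (z i)))

theorem Fv_add (z : Fin n → ℂ) (t : Fin s → ℂ) (δ δ' : Derivation ℚ ℂ ℂ) :
    Fv L z t (δ + δ') = Fv L z t δ + Fv L z t δ' := by
  funext k
  rcases k with l | i | i
  · exact Pool.Agent.Y776.Tf_add_der _ _ _
  · change om L (δ + δ') (z i) - (δ + δ') (z i) = (om L δ (z i) - δ (z i)) + (om L δ' (z i) - δ' (z i))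
    rw [om_add_der, Derivation.add_apply]
    ring
  · exact et_add_der _ _ _

theorem Fv_smul (z : Fin n → ℂ) (t : Fin s → ℂ) (c : ℂ) (δ : Derivation ℚ ℂ ℂ) :
    Fv L z t (c • δ) = c • Fv L z t δ := by
  funext k
  rcases k with l | i | i
  · exact Pool.Agent.Y776.Tf_smul_der _ _ _
  · change om L (c • δ) (z i) - (c • δ) (z i) = c * (om L δ (z i) - δ (z i))
    rw [om_smul_der, Derivation.smul_apply, smul_eq_mul]
    ring
  · exact et_smul_der _ _ _

/-- **Ax's theorem** for a fixed curve and exponentials -/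
theorem ax_fixed (hE : Eig L κ) (h2 : D L.g₂ = 0) (h3 : D L.g₃ = 0) {z : Fin n → ℂ}
    {t : Fin s → ℂ} (hz : ∀ i, Cm1 L D (z i)) (ht : ∀ l, Tf D (t l) = 0)
    (hzD : ∀ c : Fin n → ℂ, (∀ i, c i ∈ kL L) → D (∑ i, c i * z i) = 0 → c = 0)
    (htD : ∀ q : Fin s → ℚ, D (∑ l, q l • t l) = 0 → q = 0) (hns : 0 < s + n) :
    ((s + 2 * n + 1 : ℕ) : ℕ∞) ≤ (MK (Cst D)).eRk (ET t ∪ EP L z) := by
  classical
  by_contra hcon
  push Not at hcon
  -- a coordinate which is not constant
  obtain ⟨x₀, hx₀, hx₀D⟩ : ∃ x₀ ∈ ET t ∪ EP L z, D x₀ ≠ 0 := by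
    rcases Nat.eq_zero_or_pos s with hs | hs
    · have hn : 0 < n := by omega
      refine ⟨z ⟨0, hn⟩, Or.inr (Or.inl ⟨_, rfl⟩), fun h0 => ?_⟩
      have h4 := hzD (Pi.single ⟨0, hn⟩ 1) (fun j => by
        by_cases hj : j = ⟨0, hn⟩
        · rw [hj, Pi.single_eq_same]; exact one_mem _
        · rw [Pi.single_eq_of_ne hj]; exact zero_mem _) (by
        rw [sum_eq_single (⟨0, hn⟩ : Fin n)]
        · rw [Pi.single_eq_same, one_mul]; exact h0
        · intro j _ hj
          rw [Pi.single_eq_of_ne hj, zero_mul]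
        · intro h; exact absurd (mem_univ _) h)
      have h5 := congrFun h4 ⟨0, hn⟩
      rw [Pi.single_eq_same] at h5
      exact one_ne_zero h5
    · refine ⟨t ⟨0, hs⟩, Or.inl (Or.inl ⟨_, rfl⟩), fun h0 => ?_⟩
      have h4 := htD (Pi.single ⟨0, hs⟩ 1) (by
        rw [sum_eq_single (⟨0, hs⟩ : Fin s)]
        · rw [Pi.single_eq_same, one_smul]; exact h0
        · intro j _ hj
          rw [Pi.single_eq_of_ne hj, zero_smul]
        · intro h; exact absurd (mem_univ _) h)
      have h5 := congrFun h4 ⟨0, hs⟩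
      rw [Pi.single_eq_same] at h5
      exact one_ne_zero h5
  have hFD : Fv L z t D = 0 := by
    funext k
    rcases k with l | i | i
    · exact ht l
    · change om L D (z i) - D (z i) = 0
      rw [(hz i).1, sub_self]
    · exact (hz i).2
  let f : DF (Cst D) →ₗ[ℂ] (Option (Fin s ⊕ (Fin n ⊕ Fin n)) → ℂ) :=
    { toFun := fun δ o => o.elim ((δ : Derivation ℚ ℂ ℂ) x₀) (Fv L z t (δ : Derivation ℚ ℂ ℂ))
      map_add' := fun δ δ' => by
        funext o
        rcases o with _ | k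
        · rfl
        · exact congrFun (Fv_add z t (δ : Derivation ℚ ℂ ℂ) (δ' : Derivation ℚ ℂ ℂ)) k
      map_smul' := fun c δ => by
        funext o
        rcases o with _ | k
        · rfl
        · exact congrFun (Fv_smul z t c (δ : Derivation ℚ ℂ ℂ)) k }
  obtain ⟨a, ha0, ha⟩ := exists_rel ((Pool.Agent.Y776.ET_finite t).union (EP_finite z)) f
    (fun δ hδ => by
    funext o
    rcases o with _ | l | i | i
    · exact hδ _ hx₀
    · exact Pool.Agent.Y776.Tf_of_kill (hδ _ (Or.inl (Or.inl ⟨l, rfl⟩)))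
        (hδ _ (Or.inl (Or.inr ⟨l, rfl⟩)))
    · change om L (δ : Derivation ℚ ℂ ℂ) (z i) - (δ : Derivation ℚ ℂ ℂ) (z i) = 0
      rw [om_of_kill (hδ _ (Or.inr (Or.inr (Or.inr ⟨i, rfl⟩)))),
        hδ _ (Or.inr (Or.inl ⟨i, rfl⟩)), sub_zero]
    · change et L (δ : Derivation ℚ ℂ ℂ) (z i) = 0
      unfold et
      rw [om_of_kill (hδ _ (Or.inr (Or.inr (Or.inr ⟨i, rfl⟩)))), mul_zero, add_zero]
      exact hδ _ (Or.inr (Or.inr (Or.inl ⟨i, rfl⟩)))) (by
    rw [Fintype.card_option, Fintype.card_sum, Fintype.card_sum, Fintype.card_fin,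
      Fintype.card_fin, ← two_mul]
    exact hcon)
  have haN : a none = 0 := by
    have h1 := ha ⟨D, D_DF⟩
    rw [Fintype.sum_option] at h1
    have h4 : ∀ k, f ⟨D, D_DF⟩ (some k) = 0 := fun k => congrFun hFD k
    simp only [h4, mul_zero, sum_const_zero, add_zero] at h1
    exact (mul_eq_zero.1 h1).resolve_right hx₀D
  let W : Set (Fin s ⊕ (Fin n ⊕ Fin n) → ℂ) :=
    {a | ∀ δ : DF (Cst D), ∑ k, a k * Fv L z t (δ : Derivation ℚ ℂ ℂ) k = 0}
  have haW : (fun k => a (some k)) ∈ W := by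
    intro δ
    have h1 := ha δ
    rw [Fintype.sum_option, haN, zero_mul, zero_add] at h1
    exact h1
  have ha' : (fun k => a (some k)) ≠ 0 := by
    intro h0
    apply ha0
    funext o
    rcases o with _ | k
    · exact haN
    · exact congrFun h0 k
  obtain ⟨c, hcW, hc0, hcD⟩ := exists_const_vec D W (fun a ha i _ δ => by
      have := ha δ
      have e : ∑ j, a j / a i * Fv L z t (δ : Derivation ℚ ℂ ℂ) j =
          (∑ j, a j * Fv L z t (δ : Derivation ℚ ℂ ℂ) j) / a i := by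
        rw [sum_div]
        exact sum_congr rfl (fun j _ => by ring)
      rw [e, this, zero_div]) (fun a ha δ => by
      have h1 := congrArg D (ha δ)
      rw [map_zero, map_sum] at h1
      have k2 : (δ : Derivation ℚ ℂ ℂ) L.g₂ = 0 := δ.2 _ h2
      have k3 : (δ : Derivation ℚ ℂ ℂ) L.g₃ = 0 := δ.2 _ h3
      let δ' : DF (Cst D) := ⟨⁅D, (δ : Derivation ℚ ℂ ℂ)⁆,
        Pool.Agent.TH813.Rel.bracket_mem _ D_DF δ.2⟩
      have h4 : ∀ k, D (Fv L z t (δ : Derivation ℚ ℂ ℂ) k) =
          Fv L z t (δ' : Derivation ℚ ℂ ℂ) k := by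
        intro k
        rcases k with l | i | i
        · exact Pool.Agent.Y776.D_Tf (ht l) _
        · exact fl1 h2 h3 k2 k3 (hz i)
        · exact fl2 h2 h3 k2 k3 (hz i)
      have h5 : ∀ k, D (a k * Fv L z t (δ : Derivation ℚ ℂ ℂ) k) =
          a k * Fv L z t (δ' : Derivation ℚ ℂ ℂ) k + D (a k) * Fv L z t (δ : Derivation ℚ ℂ ℂ) k := by
        intro k
        rw [D_mul, h4]
        ring
      rw [sum_congr rfl (fun k _ => h5 k), sum_add_distrib, ha δ', zero_add] at h1
      exact h1) haW ha'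
  -- the relation
  have hrel : ∀ δ ∈ DF (Cst D), ∑ l, c (.inl l) * Tf δ (t l) +
      (∑ i, c (.inr (.inl i)) * (om L δ (z i) - δ (z i)) +
        ∑ i, c (.inr (.inr i)) * et L δ (z i)) = 0 := by
    intro δ hδ
    have h1 := hcW ⟨δ, hδ⟩
    rw [Fintype.sum_sum_type, Fintype.sum_sum_type] at h1
    exact h1
  have hκ : D κ = 0 := hE.kill D h2 h3
  have hkL : ∀ c ∈ kL L, c ∈ Cst D := fun c hc => der_kL D hc
  obtain ⟨r1, r2⟩ := rosK hE (Cst D) h2 h3 hkL hκ (fun l => c (.inl l))
    (fun l => Complex.exp (t l)) (fun l => hcD _) (fun l => Complex.exp_ne_zero _)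
    (fun i => -c (.inr (.inl i)) + κ * c (.inr (.inr i))) (fun i => -c (.inr (.inr i))) z
    (fun i => add_mem (neg_mem (hcD _)) (mul_mem hκ (hcD _))) (fun i => neg_mem (hcD _))
    (∑ l, c (.inl l) * t l - ∑ i, c (.inr (.inl i)) * z i + ∑ i, c (.inr (.inr i)) * zt L (z i))
    (by
      intro δ hδ
      have h1 := hrel δ hδ
      have e : ∀ k x, δ (c k * x) = c k * δ x := fun k x => by
        rw [D_mul, hδ _ (hcD k)]
        ring
      rw [map_add, map_sub, map_sum, map_sum, map_sum]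
      simp only [e]
      have h4 : ∑ l, c (.inl l) * Tf δ (t l) = ∑ l, c (.inl l) * δ (t l) -
          ∑ l, c (.inl l) * (δ (Complex.exp (t l)) / Complex.exp (t l)) := by
        rw [← sum_sub_distrib]
        exact sum_congr rfl (fun l _ => by unfold Tf lg; ring)
      have h5 : ∑ i, c (.inr (.inl i)) * (om L δ (z i) - δ (z i)) =
          ∑ i, c (.inr (.inl i)) * om L δ (z i) - ∑ i, c (.inr (.inl i)) * δ (z i) := by
        rw [← sum_sub_distrib]
        exact sum_congr rfl (fun i _ => by ring)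
      have h6 : ∑ i, c (.inr (.inr i)) * et L δ (z i) =
          ∑ i, c (.inr (.inr i)) * δ (zt L (z i)) +
            ∑ i, c (.inr (.inr i)) * (℘[L] (z i) * om L δ (z i)) := by
        rw [← sum_add_distrib]
        exact sum_congr rfl (fun i _ => by unfold et; ring)
      have h7 : ∑ i, ((-c (.inr (.inl i)) + κ * c (.inr (.inr i))) * om L δ (z i) +
          -c (.inr (.inr i)) * ((℘[L] (z i) + κ) * om L δ (z i))) =
          -∑ i, c (.inr (.inl i)) * om L δ (z i) -
            ∑ i, c (.inr (.inr i)) * (℘[L] (z i) * om L δ (z i)) := by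
        rw [← sum_neg_distrib, ← sum_sub_distrib]
        exact sum_congr rfl (fun i _ => by ring)
      rw [h7]
      rw [h4, h5, h6] at h1
      linear_combination h1)
  -- the coefficients vanish
  have hD' : ∀ w ∈ Cst D, D w = 0 := fun w hw => hw
  have v1 : ∀ l, c (.inl l) = 0 := by
    intro l
    by_contra hne
    obtain ⟨ψ, hψ⟩ := exists_psi hne
    have h1 := r1 ψ D hD'
    have h4 : D (∑ l, ψ (c (.inl l)) • t l) = 0 := by
      rw [map_sum, ← h1]
      refine sum_congr rfl (fun l _ => ?_)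
      have h5 := ht l
      unfold Tf lg at h5
      rw [Derivation.map_smul, Rat.smul_def]
      rw [sub_eq_zero] at h5
      rw [← h5]
    exact hψ (congrFun (htD _ h4) l)
  have v2 : ∀ i, -c (.inr (.inl i)) + κ * c (.inr (.inr i)) = 0 := by
    intro i
    rw [← Module.forall_dual_apply_eq_zero_iff (kL L)]
    intro ψ
    have h1 := (r2 ψ D hD').1
    have h4 : D (∑ j, (ψ (-c (.inr (.inl j)) + κ * c (.inr (.inr j))) : ℂ) * z j) = 0 := by
      rw [map_sum, ← h1]
      refine sum_congr rfl (fun j _ => ?_)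
      rw [D_mul, der_kL D (ψ _).2, (hz j).1]
      ring
    exact Subtype.ext (congrFun (hzD _ (fun j => (ψ _).2) h4) i)
  have v3 : ∀ i, -c (.inr (.inr i)) = 0 := by
    intro i
    rw [← Module.forall_dual_apply_eq_zero_iff (kL L)]
    intro ψ
    have h1 := (r2 ψ D hD').2
    have h4 : D (∑ j, conj (ψ (-c (.inr (.inr j))) : ℂ) * z j) = 0 := by
      rw [map_sum, ← h1]
      refine sum_congr rfl (fun j _ => ?_)
      rw [D_mul, der_kL D (conj_mem_kL (ψ _).2), (hz j).1]
      ring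
    have h5 := congrFun (hzD _ (fun j => conj_mem_kL (ψ _).2) h4) i
    have h6 : (ψ (-c (.inr (.inr i))) : ℂ) = 0 := by
      have := congrArg conj h5
      simpa using this
    exact Subtype.ext h6
  apply hc0
  funext k
  rcases k with l | i | i
  · exact v1 l
  · have h4 := v2 i
    rw [neg_eq_zero.1 (v3 i), mul_zero, add_zero, neg_eq_zero] at h4
    exact h4
  · exact neg_eq_zero.1 (v3 i)

end Pool.Agent.Y685
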