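import Mathlib
import Pool.Agent.Y685.TauB
import Pool.Agent.Y685.Stm

/-!
# The derivatives in the lattice: statements A1, A2, A3, A4
-/

set_option autoImplicit false

open Filter Metric UpperHalfPlane
open scoped Topology Uniformity PeriodPair

noncomputable section

namespace Pool.Agent.Y685.H2

open H667R3 Pool.Agent.W245.EB Pool.Agent.Y685

variable {t : ℂ}

section kappa

variable {κ : ℂ} (hκ : ∀ z, z ∉ (LC t).lattice → Ht t z = Kt t z + κ * z)

include hκ

theorem wp_t (ht : 0 < t.im) {z : ℂ} (hz : z ∉ (LC t).lattice) :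
    HasDerivAt (fun s => ℘[LC s] z) (-Kt' t z - κ) t := by
  refine (hasDerivAt_wp_t ht hz).2.congr_deriv ?_
  have h1 : Ht t =ᶠ[𝓝 z] fun z => Kt t z + κ * z := by
    filter_upwards [(isOpen_compl (LC t)).mem_nhds hz] with w hw
    exact hκ w hw
  rw [h1.deriv_eq]
  have h2 := (hasDerivAt_Kt hz).add ((hasDerivAt_id z).const_mul κ)
  have h3 : deriv (fun z => Kt t z + κ * z) z = Kt' t z + κ * 1 := h2.deriv
  rw [h3]
  ring

theorem wp'_t (ht : 0 < t.im) {z : ℂ} (hz : z ∉ (LC t).lattice) :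
    HasDerivAt (fun s => ℘'[LC s] z) (-Kt'' t z) t := by
  refine (hasDerivAt_wp'_t ht hz).congr_deriv ?_
  have h1 : (fun w => deriv (fun s => ℘[LC s] w) t) =ᶠ[𝓝 z] fun z => -Kt' t z - κ := by
    filter_upwards [(isOpen_compl (LC t)).mem_nhds hz] with w hw
    exact (wp_t hκ ht hw).deriv
  rw [h1.deriv_eq]
  exact ((hasDerivAt_Kt' hz).neg.sub_const κ).deriv

end kappa

theorem exists_two (L : PeriodPair) : ∃ z w, z ∉ L.lattice ∧ w ∉ L.lattice ∧ ℘[L] z ≠ ℘[L] w := by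
  obtain ⟨z, hz, hz'⟩ := exists_wp_eq L 0
  obtain ⟨w, hw, hw'⟩ := exists_wp_eq L 1
  exact ⟨z, w, hz, hw, by rw [hz', hw']; exact zero_ne_one⟩

/-- differentiability of the invariants -/
theorem diff_g (ht : 0 < t.im) : DifferentiableAt ℂ (fun s => (LC s).g₂) t ∧
    DifferentiableAt ℂ (fun s => (LC s).g₃) t := by
  obtain ⟨z, w, hz, hw, hne⟩ := exists_two (LC t)
  have a1 := (SH_wp ht hz).d1
  have a2 := (SH_wp ht hw).d1
  have b1 := (SH_wp' ht hz).d1
  have b2 := (SH_wp' ht hw).d1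
  have hne' : ∀ᶠ s in 𝓝 t, ℘[LC s] z - ℘[LC s] w ≠ 0 :=
    (a1.fun_sub a2).continuousAt.eventually_ne (sub_ne_zero.2 hne)
  have h2 : DifferentiableAt ℂ (fun s => (LC s).g₂) t := by
    have h3 : DifferentiableAt ℂ (fun s => ((4 * ℘[LC s] z ^ 3 - ℘'[LC s] z ^ 2) -
        (4 * ℘[LC s] w ^ 3 - ℘'[LC s] w ^ 2)) / (℘[LC s] z - ℘[LC s] w)) t :=
      ((((a1.fun_pow 3).const_mul 4).fun_sub (b1.fun_pow 2)).fun_sub
        (((a2.fun_pow 3).const_mul 4).fun_sub (b2.fun_pow 2))).fun_div (a1.fun_sub a2)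
        (sub_ne_zero.2 hne)
    refine h3.congr_of_eventuallyEq ?_
    filter_upwards [hne', eventually_notMem' ht hz, eventually_notMem' ht hw] with s hs h4 h5
    have c1 := (LC s).derivWeierstrassP_sq z h4.2
    have c2 := (LC s).derivWeierstrassP_sq w h5.2
    rw [eq_div_iff hs]
    linear_combination c1 - c2
  refine ⟨h2, ?_⟩
  have h3 : DifferentiableAt ℂ (fun s => 4 * ℘[LC s] z ^ 3 - ℘'[LC s] z ^ 2 -
      (LC s).g₂ * ℘[LC s] z) t :=
    (((a1.fun_pow 3).const_mul 4).fun_sub (b1.fun_pow 2)).fun_sub (h2.fun_mul a1)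
  refine h3.congr_of_eventuallyEq ?_
  filter_upwards [eventually_notMem' ht hz] with s h4
  have c1 := (LC s).derivWeierstrassP_sq z h4.2
  linear_combination c1

/-- the derivatives of the invariants, and `κ = 0` -/
theorem main_id (ht : 0 < t.im) : (∀ z, z ∉ (LC t).lattice → Ht t z = Kt t z) ∧
    HasDerivAt (fun s => (LC s).g₂) (-4 * al t * (LC t).g₂ - 6 * be t * (LC t).g₃) t ∧
    HasDerivAt (fun s => (LC s).g₃) (-6 * al t * (LC t).g₃ - be t * (LC t).g₂ ^ 2 / 3) t := by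
  obtain ⟨κ, hκ⟩ := exists_kappa ht
  obtain ⟨d2, d3⟩ := diff_g ht
  set G2 := deriv (fun s => (LC s).g₂) t with hG2
  set G3 := deriv (fun s => (LC s).g₃) t with hG3
  set c2 := -4 * al t * (LC t).g₂ - 6 * be t * (LC t).g₃ with hc2
  set c3 := -6 * al t * (LC t).g₃ - be t * (LC t).g₂ ^ 2 / 3 with hc3
  have key : ∀ v : ℂ, 12 * κ * v ^ 2 + (G2 - c2) * v + (G3 - c3 - κ * (LC t).g₂) = 0 := by
    intro v
    obtain ⟨z, hz, rfl⟩ := exists_wp_eq (LC t) v
    have a := wp_t hκ ht hz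
    have b := wp'_t hκ ht hz
    have e1 := ((a.fun_pow 3).const_mul 4).fun_sub (b.fun_pow 2)
    have e2 := (d2.hasDerivAt.fun_mul a).fun_add d3.hasDerivAt
    have e3 : (fun s => 4 * ℘[LC s] z ^ 3 - ℘'[LC s] z ^ 2) =ᶠ[𝓝 t]
        fun s => (LC s).g₂ * ℘[LC s] z + (LC s).g₃ := by
      filter_upwards [eventually_notMem' ht hz] with s h4
      have c1 := (LC s).derivWeierstrassP_sq z h4.2
      linear_combination -c1
    have e4 := (e1.congr_of_eventuallyEq e3.symm).unique e2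
    have c1 := (LC t).derivWeierstrassP_sq z hz
    rw [← hG2, ← hG3] at e4
    rw [hc2, hc3]
    unfold Kt' Kt'' at e4
    push_cast at e4
    linear_combination -e4 + (6 * al t + 6 * be t * ℘[LC t] z) * c1
  have k0 := key 0
  have k1 := key 1
  have k2 := key (-1)
  have hκ0 : κ = 0 := by linear_combination (k1 + k2 - 2 * k0) / 24
  have hg2 : G2 = c2 := by linear_combination (k1 - k2) / 2
  have hg3 : G3 = c3 := by
    rw [hκ0] at k0
    linear_combination k0
  refine ⟨fun z hz => ?_, ?_, ?_⟩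
  · rw [hκ z hz, hκ0]; ring
  · rw [← hg2]; exact d2.hasDerivAt
  · rw [← hg3]; exact d3.hasDerivAt

theorem main_id' (ht : 0 < t.im) :
    ∀ z, z ∉ (LC t).lattice → Ht t z = Kt t z + 0 * z := fun z hz => by
  rw [(main_id ht).1 z hz]; ring

/-- A1 -/
theorem task_A1 : S_A1 := by
  intro t z ht hz
  refine (fderiv_zeta ht hz).congr_fderiv ?_
  rw [(main_id ht).1 z hz]
  ext
  · simp [Kt]
  · simp

/-- A2 -/
theorem task_A2 : S_A2 := by
  intro t z ht hz
  refine (SH_wp ht hz).strict.hasFDerivAt.congr_fderiv ?_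
  simp only
  rw [(wp_t (main_id' ht) ht hz).deriv, (LC t).deriv_weierstrassP]
  congr 2
  unfold Kt'
  ring

/-- A3 -/
theorem task_A3 : S_A3 := by
  intro t z ht hz
  refine (SH_wp' ht hz).strict.hasFDerivAt.congr_fderiv ?_
  simp only
  rw [(wp'_t (main_id' ht) ht hz).deriv, (hasDerivAt_wp'_all (LC t) hz).deriv]
  congr 2
  unfold Kt''
  ring

/-- A4 -/
theorem task_A4 : S_A4 := by
  intro t ht
  obtain ⟨hid, hg2, hg3⟩ := main_id ht
  obtain ⟨z, hz⟩ := exists_nm (LC t)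
  have hW := Wc_ne ht
  have hbe : be t * Wc t = 1 := by
    unfold be
    field_simp
  have hbe' : be t * (h2 t - t * h1 t) = 1 := hbe
  have hal : al t = -(be t * h1 t) := rfl
  have hnm : ∀ m n : ℤ, z + (m + n * t) ∉ (LC t).lattice := fun m n h =>
    hz ((add_mem_iff _ ((mem_LC ht).2 ⟨m, n, rfl⟩)).1 h)
  have e1 := hasDerivAt_mn ht hz 1 0
  have e2 := hasDerivAt_mn ht hz 0 1
  rw [hid _ (hnm 1 0), hid _ hz, Kt_shift ht hz] at e1
  rw [hid _ (hnm 0 1), hid _ hz, Kt_shift ht hz] at e2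
  have d1 : HasDerivAt h1 (-(al t * h1 t) - be t * ((LC t).g₂ / 12)) t := by
    have : HasDerivAt (fun s => ((1 : ℤ) : ℂ) * h1 s + ((0 : ℤ) : ℂ) * h2 s)
        (-(al t * h1 t) - be t * ((LC t).g₂ / 12)) t := by
      refine e1.congr_deriv ?_
      push_cast
      ring
    simpa using this
  have d2 : HasDerivAt h2 (-(al t * h2 t) - be t * ((LC t).g₂ / 12) * t) t := by
    have : HasDerivAt (fun s => ((0 : ℤ) : ℂ) * h1 s + ((1 : ℤ) : ℂ) * h2 s)
        (-(al t * h2 t) - be t * ((LC t).g₂ / 12) * t) t := by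
      refine e2.congr_deriv ?_
      push_cast
      ring
    simpa using this
  refine ⟨?_, hg2, hg3, ?_, hW⟩
  · refine d1.congr_deriv ?_
    rw [hal]
    ring
  · have d3 : HasDerivAt Wc (-(al t * h2 t) - be t * ((LC t).g₂ / 12) * t -
        (1 * h1 t + t * (-(al t * h1 t) - be t * ((LC t).g₂ / 12)))) t :=
      d2.sub ((hasDerivAt_id t).mul d1)
    refine d3.congr_deriv ?_
    rw [hal]
    linear_combination h1 t * hbe'

end Pool.Agent.Y685.H2
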