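import Mathlib
import Pool.Agent.Y685.TauC
import Pool.Agent.Y119.CB.Main

/-!
# Compatible derivations for all but countably many `τ`
-/

set_option autoImplicit false

open Filter UpperHalfPlane
open scoped Topology PeriodPair

noncomputable section

namespace Pool.Agent.Y685

open H667R3 Pool.Agent.W245.EB MvPolynomial

/-- names of the functions -/
inductive Sg (n : ℕ) : Type
  | tau : Sg n
  | h : Sg n
  | g2 : Sg n
  | g3 : Sg n
  | b : Sg n
  | z (i : Fin n) : Sg n
  | ze (i : Fin n) : Sg n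
  | wp (i : Fin n) : Sg n
  | wp' (i : Fin n) : Sg n

/-- the names form a finite type -/
def Sg.toSum {n : ℕ} : Sg n → Fin 5 ⊕ (Fin 4 × Fin n)
  | .tau => .inl 0
  | .h => .inl 1
  | .g2 => .inl 2
  | .g3 => .inl 3
  | .b => .inl 4
  | .z i => .inr (0, i)
  | .ze i => .inr (1, i)
  | .wp i => .inr (2, i)
  | .wp' i => .inr (3, i)

theorem Sg.toSum_inj {n : ℕ} : Function.Injective (Sg.toSum (n := n)) := by
  intro u w h
  cases u <;> cases w <;> simp [Sg.toSum] at h ⊢ <;> exact h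

instance {n : ℕ} : Finite (Sg n) := Finite.of_injective _ Sg.toSum_inj

variable {n : ℕ}

/-- the functions -/
def Ph (x : Fin (n + 1) → ℂ) : Sg n → ℂ
  | .tau => x 0
  | .h => h1 (x 0)
  | .g2 => (LC (x 0)).g₂
  | .g3 => (LC (x 0)).g₃
  | .b => be (x 0)
  | .z i => x i.succ
  | .ze i => zeta (LC (x 0)) (x i.succ)
  | .wp i => ℘[LC (x 0)] (x i.succ)
  | .wp' i => ℘'[LC (x 0)] (x i.succ)

section

variable (k : Type) [Field k] [CharZero k]

/-- the polynomial which represents `α` -/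
def Pal : MvPolynomial (Sg n) k := -(X .b * X .h)

/-- the derivatives in the direction of `τ` -/
def P0 : Sg n → MvPolynomial (Sg n) k
  | .tau => 1
  | .h => X .b * X .h ^ 2 - X .b * X .g2 * C (1 / 12)
  | .g2 => -4 * Pal k * X .g2 - 6 * X .b * X .g3
  | .g3 => -6 * Pal k * X .g3 - X .b * X .g2 ^ 2 * C (1 / 3)
  | .b => 0
  | .z _ => 0
  | .ze i => Pal k * (X (.z i) * X (.wp i) - X (.ze i)) + X .b * (X (.wp' i) * C (1 / 2) +
      X (.ze i) * X (.wp i) - X .g2 * C (1 / 12) * X (.z i))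
  | .wp i => -2 * Pal k * X (.wp i) + X .b * (X .g2 * C (1 / 3) - 2 * X (.wp i) ^ 2) -
      (Pal k * X (.z i) + X .b * X (.ze i)) * X (.wp' i)
  | .wp' i => -3 * Pal k * X (.wp' i) - 3 * X .b * (X (.wp i) * X (.wp' i)) -
      (Pal k * X (.z i) + X .b * X (.ze i)) * (6 * X (.wp i) ^ 2 - X .g2 * C (1 / 2))

/-- the derivatives in the direction of the point `z i` -/
def P1 (j : Fin n) : Sg n → MvPolynomial (Sg n) k
  | .tau => 0
  | .h => 0
  | .g2 => 0
  | .g3 => 0
  | .b => 0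
  | .z i => if j = i then 1 else 0
  | .ze i => if j = i then -X (.wp i) else 0
  | .wp i => if j = i then X (.wp' i) else 0
  | .wp' i => if j = i then 6 * X (.wp i) ^ 2 - X .g2 * C (1 / 2) else 0

end

/-- the domain -/
def Um (n : ℕ) : Set (Fin (n + 1) → ℂ) :=
  {x | 0 < (x 0).im ∧ ∀ i : Fin n, x i.succ ∉ (LC (x 0)).lattice}

theorem isOpen_Um : IsOpen (Um n) := by
  rw [isOpen_iff_mem_nhds]
  rintro x ⟨h0, hx⟩
  have h1 : ∀ᶠ y : Fin (n + 1) → ℂ in 𝓝 x, 0 < (y 0).im := by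
    have hc : Continuous fun y : Fin (n + 1) → ℂ => (y 0).im :=
      Complex.continuous_im.comp (continuous_apply 0)
    exact hc.continuousAt.eventually (lt_mem_nhds h0)
  have h2 : ∀ i : Fin n, ∀ᶠ y : Fin (n + 1) → ℂ in 𝓝 x, y i.succ ∉ (LC (y 0)).lattice := by
    intro i
    have hc : Continuous fun y : Fin (n + 1) → ℂ => ((y 0, y i.succ) : ℂ × ℂ) :=
      (continuous_apply 0).prodMk (continuous_apply _)
    have := (hc.tendsto x).eventually (H2.eventually_notMem h0 (hx i))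
    filter_upwards [this] with y hy
    exact hy.2
  filter_upwards [h1, eventually_all.2 h2] with y hy1 hy2
  exact ⟨hy1, hy2⟩

theorem hasFDerivAt_one {f : ℂ → ℂ} {c : ℂ} {x : Fin (n + 1) → ℂ} (h : HasDerivAt f c (x 0)) :
    HasFDerivAt (fun y : Fin (n + 1) → ℂ => f (y 0))
      (c • (ContinuousLinearMap.proj 0 : (Fin (n + 1) → ℂ) →L[ℂ] ℂ)) x :=
  h.comp_hasFDerivAt x (ContinuousLinearMap.proj (R := ℂ) (φ := fun _ : Fin (n + 1) => ℂ)
    0).hasFDerivAt

theorem hasFDerivAt_two {f : ℂ × ℂ → ℂ} {c d : ℂ} {x : Fin (n + 1) → ℂ} (i : Fin n)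
    (h : HasFDerivAt f (c • ContinuousLinearMap.fst ℂ ℂ ℂ + d • ContinuousLinearMap.snd ℂ ℂ ℂ)
      (x 0, x i.succ)) :
    HasFDerivAt (fun y : Fin (n + 1) → ℂ => f (y 0, y i.succ))
      (c • (ContinuousLinearMap.proj 0 : (Fin (n + 1) → ℂ) →L[ℂ] ℂ) +
        d • (ContinuousLinearMap.proj i.succ : (Fin (n + 1) → ℂ) →L[ℂ] ℂ)) x := by
  have h1 : HasFDerivAt (fun y : Fin (n + 1) → ℂ => ((y 0, y i.succ) : ℂ × ℂ))
      ((ContinuousLinearMap.proj 0 : (Fin (n + 1) → ℂ) →L[ℂ] ℂ).prod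
        (ContinuousLinearMap.proj i.succ)) x :=
    (ContinuousLinearMap.proj (R := ℂ) (φ := fun _ : Fin (n + 1) => ℂ) 0).hasFDerivAt.prodMk
      (ContinuousLinearMap.proj (R := ℂ) (φ := fun _ : Fin (n + 1) => ℂ) i.succ).hasFDerivAt
  have h2 := HasFDerivAt.comp (g := f) x h h1
  refine h2.congr_fderiv ?_
  ext
  simp

/-- the compatibility of a derivation with the functions at a point -/
structure Cmp (k : Subfield ℂ) (τ : ℂ) {n : ℕ} (z : Fin n → ℂ) (D : Derivation ℚ ℂ ℂ) : Prop where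
  hk : ∀ c ∈ k, D c = 0
  tau : D τ = 1
  h : D (h1 τ) = be τ * h1 τ ^ 2 - be τ * (LC τ).g₂ / 12
  g2 : D (LC τ).g₂ = -4 * al τ * (LC τ).g₂ - 6 * be τ * (LC τ).g₃
  g3 : D (LC τ).g₃ = -6 * al τ * (LC τ).g₃ - be τ * (LC τ).g₂ ^ 2 / 3
  b : D (be τ) = 0
  ze : ∀ i, D (zeta (LC τ) (z i)) = al τ * (z i * ℘[LC τ] (z i) - zeta (LC τ) (z i)) +
    be τ * (℘'[LC τ] (z i) / 2 + zeta (LC τ) (z i) * ℘[LC τ] (z i) - (LC τ).g₂ / 12 * z i) -
    ℘[LC τ] (z i) * D (z i)
  wp : ∀ i, D (℘[LC τ] (z i)) = -2 * al τ * ℘[LC τ] (z i) +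
    be τ * ((LC τ).g₂ / 3 - 2 * ℘[LC τ] (z i) ^ 2) -
    (al τ * z i + be τ * zeta (LC τ) (z i)) * ℘'[LC τ] (z i) + ℘'[LC τ] (z i) * D (z i)

theorem hasDerivAt_be {t : ℂ} (ht : 0 < t.im) : HasDerivAt be 0 t := by
  obtain ⟨-, -, -, h4, h5⟩ := H2.task_A4 t ht
  have := h4.fun_inv h5
  have h6 : HasDerivAt (fun y => (Wc y)⁻¹) 0 t := by
    refine this.congr_deriv ?_
    simp
  have h7 : be = fun y => (Wc y)⁻¹ := by
    funext y
    unfold be
    rw [one_div]
  rw [h7]
  exact h6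

theorem app_B (k : Subfield ℂ) (hk : (k : Set ℂ).Countable) (n : ℕ) :
    ∃ T : Set ℂ, T.Countable ∧ ∀ τ : ℂ, 0 < τ.im → τ ∉ T → ∀ z : Fin n → ℂ,
      (∀ i, z i ∉ (LC τ).lattice) → ∃ D : Derivation ℚ ℂ ℂ, Cmp k τ z D := by
  classical
  have : Fintype (Sg n) := Fintype.ofFinite _
  have hproj : ∀ (c0 : ℂ) (c1 : Fin n → ℂ),
      (∑ j, (Fin.cons c0 c1 : Fin (n + 1) → ℂ) j •
        (ContinuousLinearMap.proj j : (Fin (n + 1) → ℂ) →L[ℂ] ℂ)) =
      c0 • (ContinuousLinearMap.proj 0 : (Fin (n + 1) → ℂ) →L[ℂ] ℂ) +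
        ∑ j : Fin n, c1 j • (ContinuousLinearMap.proj j.succ : (Fin (n + 1) → ℂ) →L[ℂ] ℂ) := by
    intro c0 c1
    rw [Fin.sum_univ_succ]
    simp
  have hcons : ∀ (x : Fin (n + 1) → ℂ) (s : Sg n), (fun j : Fin (n + 1) =>
      aeval (Ph x) ((Fin.cons (P0 k) (P1 k) : Fin (n + 1) → Sg n → MvPolynomial (Sg n) k) j s)) =
      Fin.cons (aeval (Ph x) (P0 k s)) (fun j => aeval (Ph x) (P1 k j s)) := by
    intro x s
    funext j
    refine Fin.cases ?_ (fun i => ?_) j
    · simp
    · simp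
  obtain ⟨T, hT, hT2⟩ := Pool.Agent.Y119.CB.task_B n (Sg n) this k hk (Um n) isOpen_Um Ph
    (Fin.cons (P0 k) (P1 k)) (by
      rintro x ⟨h0, hx⟩ s
      have e1 := hproj (aeval (Ph x) (P0 k s)) (fun j => aeval (Ph x) (P1 k j s))
      have e2 : (∑ j, (aeval (Ph x)) ((Fin.cons (P0 k) (P1 k) :
          Fin (n + 1) → Sg n → MvPolynomial (Sg n) k) j s) •
          (ContinuousLinearMap.proj j : (Fin (n + 1) → ℂ) →L[ℂ] ℂ)) =
          aeval (Ph x) (P0 k s) • (ContinuousLinearMap.proj 0 : (Fin (n + 1) → ℂ) →L[ℂ] ℂ) +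
        ∑ j : Fin n, aeval (Ph x) (P1 k j s) •
          (ContinuousLinearMap.proj j.succ : (Fin (n + 1) → ℂ) →L[ℂ] ℂ) := by
        rw [← e1]
        refine Finset.sum_congr rfl (fun j _ => ?_)
        rw [← congrFun (hcons x s) j]
      rw [e2]
      obtain ⟨a1, a2, a3, a4, a5⟩ := H2.task_A4 (x 0) h0
      have key : ∀ (E : (Fin (n + 1) → ℂ) →L[ℂ] ℂ), (∀ v, E v = aeval (Ph x) (P0 k s) * v 0 +
          ∑ j : Fin n, aeval (Ph x) (P1 k j s) * v j.succ) → E =
          aeval (Ph x) (P0 k s) • (ContinuousLinearMap.proj 0 : (Fin (n + 1) → ℂ) →L[ℂ] ℂ) +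
          ∑ j : Fin n, aeval (Ph x) (P1 k j s) •
          (ContinuousLinearMap.proj j.succ : (Fin (n + 1) → ℂ) →L[ℂ] ℂ) := by
        intro E hE
        refine ContinuousLinearMap.ext (fun v => ?_)
        rw [hE v]
        simp
      cases s with
      | tau =>
        refine (hasFDerivAt_one (hasDerivAt_id (x 0))).congr_fderiv (key _ (fun v => ?_))
        simp [P0, P1]
      | h =>
        refine (hasFDerivAt_one a1).congr_fderiv (key _ (fun v => ?_))
        simp [P0, P1, Ph, map_ofNat, -mul_eq_mul_right_iff]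
        ring
      | g2 =>
        refine (hasFDerivAt_one a2).congr_fderiv (key _ (fun v => ?_))
        simp [P0, P1, Pal, Ph, map_ofNat, -mul_eq_mul_right_iff]
        unfold al
        ring
      | g3 =>
        refine (hasFDerivAt_one a3).congr_fderiv (key _ (fun v => ?_))
        simp [P0, P1, Pal, Ph, map_ofNat, -mul_eq_mul_right_iff]
        unfold al
        ring
      | b =>
        refine (hasFDerivAt_one (hasDerivAt_be h0)).congr_fderiv (key _ (fun v => ?_))
        simp [P0, P1]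
      | z i =>
        refine ((ContinuousLinearMap.proj (R := ℂ) (φ := fun _ : Fin (n + 1) => ℂ)
          i.succ).hasFDerivAt (x := x)).congr_fderiv (key _ (fun v => ?_))
        simp [P0, P1, apply_ite (aeval (Ph x)), ite_mul]
      | ze i =>
        have := hasFDerivAt_two i (c := al (x 0) * (x i.succ * ℘[LC (x 0)] (x i.succ) -
          zeta (LC (x 0)) (x i.succ)) + be (x 0) * (℘'[LC (x 0)] (x i.succ) / 2 +
          zeta (LC (x 0)) (x i.succ) * ℘[LC (x 0)] (x i.succ) -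
          (LC (x 0)).g₂ / 12 * x i.succ)) (d := -℘[LC (x 0)] (x i.succ)) (by
          refine (H2.task_A1 (x 0) (x i.succ) h0 (hx i)).congr_fderiv ?_
          refine ContinuousLinearMap.ext (fun v => ?_)
          simp
          ring)
        refine this.congr_fderiv (key _ (fun v => ?_))
        simp [P0, P1, Pal, Ph, apply_ite (aeval (Ph x)), ite_mul, map_ofNat,
          -mul_eq_mul_right_iff]
        unfold al
        ring
      | wp i =>
        have := hasFDerivAt_two i (H2.task_A2 (x 0) (x i.succ) h0 (hx i))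
        refine this.congr_fderiv (key _ (fun v => ?_))
        simp [P0, P1, Pal, Ph, apply_ite (aeval (Ph x)), ite_mul, map_ofNat,
          -mul_eq_mul_right_iff]
        unfold al
        ring
      | wp' i =>
        have := hasFDerivAt_two i (H2.task_A3 (x 0) (x i.succ) h0 (hx i))
        refine this.congr_fderiv (key _ (fun v => ?_))
        simp [P0, P1, Pal, Ph, apply_ite (aeval (Ph x)), ite_mul, map_ofNat,
          -mul_eq_mul_right_iff]
        unfold al
        ring) .tau (fun x => rfl)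
  refine ⟨T, hT, fun τ hτ hτT z hz => ?_⟩
  obtain ⟨D, v, h1, h2, h3⟩ := hT2 (Fin.cons τ z) ⟨by simpa using hτ, fun i => by
    simpa using hz i⟩ (by simpa using hτT)
  have h4 : ∀ s, D (Ph (Fin.cons τ z : Fin (n + 1) → ℂ) s) =
      aeval (Ph (Fin.cons τ z)) (P0 k s) +
        ∑ j : Fin n, v j.succ * aeval (Ph (Fin.cons τ z)) (P1 k j s) := by
    intro s
    rw [h3 s, Fin.sum_univ_succ, h2, one_mul]
    simp
  have hv : ∀ i : Fin n, D (z i) = v i.succ := by
    intro i
    have := h4 (.z i)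
    simpa [Ph, P0, P1, apply_ite] using this
  refine ⟨D, h1, ?_, ?_, ?_, ?_, ?_, fun i => ?_, fun i => ?_⟩
  · have := h4 .tau
    simpa [Ph, P0, P1] using this
  · have := h4 .h
    simp only [P0, P1, map_sub, map_mul, map_pow, aeval_X, aeval_C, Ph, map_zero, mul_zero,
          Finset.sum_const_zero, add_zero, map_div₀, map_one, map_ofNat, Fin.cons_zero] at this
    rw [this]
    ring
  · have := h4 .g2
    simp only [P0, P1, Pal, map_sub, map_mul, map_neg, aeval_X, Ph, map_zero, mul_zero,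
          Finset.sum_const_zero, add_zero, map_ofNat, Fin.cons_zero] at this
    rw [this]
    rfl
  · have := h4 .g3
    simp only [P0, P1, Pal, map_sub, map_mul, map_neg, map_pow, aeval_X, aeval_C, Ph, map_zero,
          mul_zero, Finset.sum_const_zero, add_zero, map_div₀, map_one, map_ofNat,
          Fin.cons_zero] at this
    rw [this]
    unfold al
    ring
  · have := h4 .b
    simpa [Ph, P0, P1] using this
  · have := h4 (.ze i)
    simp only [P0, P1, Pal, map_sub, map_mul, map_neg, map_pow, map_add, aeval_X, aeval_C, Ph,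
          map_zero, map_div₀, map_one, map_ofNat, apply_ite (aeval (Ph (Fin.cons τ z))), mul_ite,
          mul_zero, Finset.sum_ite_eq', Finset.mem_univ, if_true, Fin.cons_zero,
          Fin.cons_succ] at this
    rw [this, hv]
    unfold al
    ring
  · have := h4 (.wp i)
    simp only [P0, P1, Pal, map_sub, map_mul, map_neg, map_pow, map_add, aeval_X, aeval_C, Ph,
          map_zero, map_div₀, map_one, map_ofNat, apply_ite (aeval (Ph (Fin.cons τ z))), mul_ite,
          mul_zero, Finset.sum_ite_eq', Finset.mem_univ, if_true, Fin.cons_zero,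
          Fin.cons_succ] at this
    rw [this, hv]
    unfold al
    ring

end Pool.Agent.Y685
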