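import Mathlib
import Pool.Agent.Y685.App
import Pool.Agent.Y685.Clo
import Pool.Agent.Y119.MD.Main

/-!
# The constants of the derivation `d/dτ` in the field of `τ, η₁, g₂, g₃`
-/

set_option autoImplicit false

open Filter UpperHalfPlane
open scoped Topology PeriodPair

noncomputable section

namespace Pool.Agent.Y685

open H667R3 Pool.Agent.W245.EB MvPolynomial

/-- the functions `τ, η₁, g₂, g₃` -/
def yy (t : ℂ) : Fin 4 → ℂ := ![t, h1 t, (LC t).g₂, (LC t).g₃]

/-- the upper half plane as a subset of `ℂ` -/
def HP : Set ℂ := {t | 0 < t.im}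

theorem isOpen_HP : IsOpen HP := isOpen_lt continuous_const Complex.continuous_im

theorem convex_HP : Convex ℝ HP := convex_halfSpace_im_gt 0

theorem be_const {s t : ℂ} (hs : 0 < s.im) (ht : 0 < t.im) : be s = be t :=
  isOpen_HP.is_const_of_deriv_eq_zero convex_HP.isPreconnected
    (fun _ hx => (hasDerivAt_be hx).differentiableAt.differentiableWithinAt)
    (fun _ hx => (hasDerivAt_be hx).deriv) hs ht

section

variable {k : Type} [Field k] [Algebra k ℂ]

/-- the vector field on the functions -/
def vf (b : k) : Fin 4 → MvPolynomial (Fin 4) k :=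
  ![1, C b * X 1 ^ 2 - C (b / 12) * X 2,
    4 * (C b * X 1) * X 2 - C (6 * b) * X 3,
    6 * (C b * X 1) * X 3 - C (b / 3) * X 2 ^ 2]

/-- the derivation of the polynomial ring -/
def dP (b : k) : Derivation k (MvPolynomial (Fin 4) k) (MvPolynomial (Fin 4) k) :=
  mkDerivation k (vf b)

theorem hasDerivAt_yy {b : k} {t : ℂ} (ht : 0 < t.im) (hb : algebraMap k ℂ b = be t) (i : Fin 4) :
    HasDerivAt (fun s => yy s i) (aeval (yy t) (vf b i)) t := by
  obtain ⟨a1, a2, a3, -, -⟩ := H2.task_A4 t ht
  fin_cases i
  · refine (hasDerivAt_id t).congr_deriv ?_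
    simp [vf]
  · refine a1.congr_deriv ?_
    simp [vf, yy, hb, map_ofNat]
    ring
  · refine a2.congr_deriv ?_
    simp [vf, yy, hb, al, map_ofNat]
  · refine a3.congr_deriv ?_
    simp [vf, yy, hb, al, map_ofNat]
    ring

theorem hasDerivAt_poly {b : k} {t : ℂ} (ht : 0 < t.im) (hb : algebraMap k ℂ b = be t)
    (P : MvPolynomial (Fin 4) k) :
    HasDerivAt (fun s => aeval (yy s) P) (aeval (yy t) (dP b P)) t := by
  induction P using MvPolynomial.induction_on with
  | C a =>
    simp only [MvPolynomial.aeval_C, derivation_C, map_zero]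
    exact hasDerivAt_const _ _
  | add p q hp hq =>
    simp only [map_add]
    exact hp.add hq
  | mul_X p i hp =>
    have h1 := hp.mul (hasDerivAt_yy ht hb i)
    have h2 : (fun s => aeval (yy s) (p * X i)) = fun s => aeval (yy s) p * yy s i := by
      funext s
      rw [map_mul, aeval_X]
    rw [h2]
    refine h1.congr_deriv ?_
    rw [Derivation.leibniz, dP, mkDerivation_X, smul_eq_mul, smul_eq_mul, map_add, map_mul,
      map_mul, aeval_X]
    ring

/-- the derivation of `ℂ` on polynomials in the functions -/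
theorem D_poly {D : Derivation ℚ ℂ ℂ} {b : k} {t : ℂ} (hD : ∀ c : k, D (algebraMap k ℂ c) = 0)
    (hy : ∀ i, D (yy t i) = aeval (yy t) (vf b i)) (P : MvPolynomial (Fin 4) k) :
    D (aeval (yy t) P) = aeval (yy t) (dP b P) := by
  induction P using MvPolynomial.induction_on with
  | C a => rw [MvPolynomial.aeval_C, hD, derivation_C, map_zero]
  | add p q hp hq => rw [map_add, map_add, map_add, map_add, hp, hq]
  | mul_X p i hp =>
    rw [map_mul, aeval_X, Derivation.leibniz, Derivation.leibniz, hp, hy, dP, mkDerivation_X,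
      smul_eq_mul, smul_eq_mul, smul_eq_mul, smul_eq_mul, map_add, map_mul, map_mul, aeval_X]

end

/-- a nonzero polynomial in the functions vanishes only in a countable set -/
theorem countable_zeros_poly {P : MvPolynomial (Fin 4) ℂ} (hP : P ≠ 0) :
    {t : ℂ | 0 < t.im ∧ aeval (yy t) P = 0}.Countable := by
  have hd : DifferentiableOn ℂ (fun s => aeval (yy s) P) HP := fun t ht =>
    (hasDerivAt_poly (b := be t) ht rfl P).differentiableAt.differentiableWithinAt
  have ha : AnalyticOnNhd ℂ (fun s => aeval (yy s) P) HP := hd.analyticOnNhd isOpen_HP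
  obtain ⟨τ, hτ⟩ := Pool.Agent.Y119.MD.task_D P hP
  apply (HereditarilyLindelofSpace.isLindelof _).countable_of_isDiscrete
  rw [isDiscrete_iff_nhdsNE]
  intro c hc
  rw [← _root_.disjoint_iff, Filter.disjoint_principal_right]
  rcases (ha c hc.1).eventually_eq_zero_or_eventually_ne_zero with h | h
  · exfalso
    apply hτ
    have h2 := ha.eqOn_zero_of_preconnected_of_eventuallyEq_zero convex_HP.isPreconnected hc.1 h
      τ.im_pos
    have h3 : aeval (yy τ) P = 0 := h2
    rw [aeval_eq_eval] at h3
    exact h3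
  · filter_upwards [h] with x hx hx2
    exact hx hx2.2

end Pool.Agent.Y685
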