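import Mathlib
import Pool.Agent.Y685.StepG

/-!
# Normalization of the relation
-/

set_option autoImplicit false

open Finset Module
open scoped Topology PeriodPair

noncomputable section

namespace Pool.Agent.Y685

open H667R3 Pool.Agent.W245.EB Pool.Agent.TH813.Ell
open Pool.Agent.TH813.Rel (DF MK)

variable {L : PeriodPair} {D δ ε : Derivation ℚ ℂ ℂ}

/-- the normalized form of `Bad` -/
structure Bd (h : Nrm L D) {s : ℕ} (e w : Fin (s + 1) → ℂ) (a b : ℂ) (ψ : ℂ →ₗ[ℚ] ℚ) : Prop where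
  ψ0 : ψ (e 0) = 1
  ψs : ∀ i : Fin s, ψ (e i.succ) = 0
  ψa : ψ a = 0
  ψb : ψ b = 0
  he : ∀ k, D (e k) = 0
  ha : D a = 0
  hb : D b = 0
  hC : ∀ k, w k ∈ Cm h
  hom : ∀ k, ∀ ε ∈ DF (K0 L D), om L ε (w k) = 0
  hw : ∀ k, w k ∉ PQ L
  m1 : ∑ k, e k * w k - Om L a b ∈ K0 L D
  m2 : ∑ k, e k * zt L (w k) - Et L a b ∈ K0 L D

theorem Om_mem_PQ (q q' : ℚ) : Om L (q : ℂ) (q' : ℂ) ∈ PQ L := by
  refine add_mem ?_ ?_
  · rw [← Rat.smul_def]
    exact Submodule.smul_mem _ _ (Submodule.subset_span (Or.inl rfl))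
  · rw [← Rat.smul_def]
    exact Submodule.smul_mem _ _ (Submodule.subset_span (Or.inr rfl))

theorem mem_PQ_iff {x : ℂ} : x ∈ PQ L ↔ ∃ q q' : ℚ, x = Om L (q : ℂ) (q' : ℂ) := by
  constructor
  · intro hx
    obtain ⟨q, q', h⟩ := Submodule.mem_span_pair.1 hx
    exact ⟨q, q', by rw [← h, Rat.smul_def, Rat.smul_def]⟩
  · rintro ⟨q, q', rfl⟩
    exact Om_mem_PQ q q'

theorem om_Om (h : Nrm L D) (h2 : ε L.g₂ = 0) (q q' : ℚ) : om L ε (Om L (q : ℂ) (q' : ℂ)) = 0 := by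
  rw [Om, ← Rat.smul_def, ← Rat.smul_def, ← omL_apply ε h2 (g3_of h h2), map_add, map_smul,
    map_smul, omL_apply, omL_apply, om_of_mem L _ L.ω₁_mem_lattice, om_of_mem L _ L.ω₂_mem_lattice,
    smul_zero, smul_zero, add_zero]

theorem et_Om (h : Nrm L D) (h2 : ε L.g₂ = 0) (q q' : ℚ) :
    et L ε (Om L (q : ℂ) (q' : ℂ)) = ε (Et L (q : ℂ) (q' : ℂ)) := by
  have h3 : ∀ r : ℚ, ε (r : ℂ) = 0 := fun r => ε.map_algebraMap r
  rw [Om, ← Rat.smul_def, ← Rat.smul_def, ← etL_apply ε h2 (g3_of h h2), map_add, map_smul,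
    map_smul, etL_apply, etL_apply, et, et, om_of_mem L _ L.ω₁_mem_lattice,
    om_of_mem L _ L.ω₂_mem_lattice, zt_of_mem L.ω₁_mem_lattice, zt_of_mem L.ω₂_mem_lattice, Et,
    map_add, D_mul, D_mul, h3, h3, Rat.smul_def, Rat.smul_def]
  ring

/-- translations by rational multiples of periods -/
theorem shift (h : Nrm L D) {v : ℂ} (hv : ∀ ε ∈ DF (K0 L D), om L ε v = 0) (q q' : ℚ) :
    (∀ ε ∈ DF (K0 L D), om L ε (v + Om L (q : ℂ) (q' : ℂ)) = 0) ∧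
      zt L (v + Om L (q : ℂ) (q' : ℂ)) - zt L v - Et L (q : ℂ) (q' : ℂ) ∈ K0 L D := by
  have h1 : ∀ ε ∈ DF (K0 L D), om L ε (v + Om L (q : ℂ) (q' : ℂ)) = 0 := by
    intro ε hε
    have h2 : ε L.g₂ = 0 := hε _ g_K0
    rw [om_add L ε h2 (g3_of h h2), hv ε hε, om_Om h h2, add_zero]
  refine ⟨h1, fun ε hεC hεS => ?_⟩
  have hε : ε ∈ DF (K0 L D) := mem_DF_clo.2 ⟨hεC, hεS⟩
  have h2 : ε L.g₂ = 0 := hε _ g_K0
  have h3 : et L ε (v + Om L (q : ℂ) (q' : ℂ)) = et L ε v + et L ε (Om L (q : ℂ) (q' : ℂ)) := by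
    rw [← etL_apply ε h2 (g3_of h h2), map_add, etL_apply, etL_apply]
  rw [et_Om h h2, et, et, h1 ε hε, hv ε hε] at h3
  rw [map_sub, map_sub]
  linear_combination h3

/-- a functional -/
theorem exists_psi0 {s : ℕ} {e : Fin (s + 1) → ℂ} (he : LinearIndependent ℚ e) :
    ∃ ψ : ℂ →ₗ[ℚ] ℚ, ψ (e 0) = 1 ∧ ∀ i : Fin s, ψ (e i.succ) = 0 := by
  let B := Basis.span he
  obtain ⟨g, hg⟩ := LinearMap.exists_extend (B.coord 0)
  have h1 : ∀ i, g (e i) = if i = 0 then 1 else 0 := by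
    intro i
    have h2 : (B i : ℂ) = e i := congrArg Subtype.val (Basis.span_apply he i)
    have h3 := LinearMap.congr_fun hg (B i)
    rw [LinearMap.comp_apply, Submodule.subtype_apply, h2, B.coord_apply, B.repr_self] at h3
    rw [h3, Finsupp.single_apply]
  refine ⟨g, by rw [h1, if_pos rfl], fun i => ?_⟩
  rw [h1, if_neg (Fin.succ_ne_zero i)]

/-- **normalization** -/
theorem Bad.norm {h : Nrm L D} {s : ℕ} {e w : Fin s → ℂ} {a b : ℂ} (B : Bad h e w a b) :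
    ∃ (s' : ℕ) (e' w' : Fin (s' + 1) → ℂ) (a' b' : ℂ) (ψ : ℂ →ₗ[ℚ] ℚ), Bd h e' w' a' b' ψ := by
  classical
  obtain ⟨k₀, hk₀⟩ := B.hw
  set I := {k : Fin s // w k ∉ PQ L} with hI
  have : Nonempty I := ⟨⟨k₀, hk₀⟩⟩
  obtain ⟨s', hs'⟩ : ∃ s', Fintype.card I = s' + 1 :=
    Nat.exists_eq_succ_of_ne_zero Fintype.card_ne_zero
  let σ : Fin (s' + 1) ≃ I := (Fintype.equivFinOfCardEq hs').symm
  -- the points which are rational multiples of periods
  choose q q' hq using fun k : {k : Fin s // ¬ (w k ∉ PQ L)} => mem_PQ_iff.1 (not_not.1 k.2)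
  have hsplit : ∀ f : Fin s → ℂ, ∑ k, f k =
      ∑ j, f (σ j) + ∑ k : {k : Fin s // ¬ (w k ∉ PQ L)}, f k := by
    intro f
    rw [σ.sum_comp (fun k : I => f k)]
    exact (Fintype.sum_subtype_add_sum_subtype (fun k => w k ∉ PQ L) f).symm
  set a₁ : ℂ := a - ∑ k : {k : Fin s // ¬ (w k ∉ PQ L)}, e k * (q k : ℂ) with ha₁
  set b₁ : ℂ := b - ∑ k : {k : Fin s // ¬ (w k ∉ PQ L)}, e k * (q' k : ℂ) with hb₁
  have hind : LinearIndependent ℚ (fun j => e (σ j)) :=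
    B.ind.comp (fun j => ((σ j : I) : Fin s)) (Subtype.val_injective.comp σ.injective)
  obtain ⟨ψ, hψ0, hψs⟩ := exists_psi0 hind
  set α := ψ a₁ with hα
  set β := ψ b₁ with hβ
  have hrat : ∀ r : ℚ, D (r : ℂ) = 0 := fun r => D.map_algebraMap r
  have hDa₁ : D a₁ = 0 := by
    rw [ha₁, map_sub, B.ha, map_sum, sum_eq_zero, sub_zero]
    intro k _
    rw [D_mul, B.he, hrat]
    ring
  have hDb₁ : D b₁ = 0 := by
    rw [hb₁, map_sub, B.hb, map_sum, sum_eq_zero, sub_zero]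
    intro k _
    rw [D_mul, B.he, hrat]
    ring
  have h0 : ∀ ε ∈ DF (K0 L D), om L ε (0 : ℂ) = 0 := fun ε _ => om_zero ε
  let w' : Fin (s' + 1) → ℂ := Fin.cons (w (σ 0) + Om L ((-α : ℚ) : ℂ) ((-β : ℚ) : ℂ))
    (fun i => w (σ i.succ))
  have hw'0 : w' 0 = w (σ 0) + Om L ((-α : ℚ) : ℂ) ((-β : ℚ) : ℂ) := rfl
  have hw's : ∀ i : Fin s', w' i.succ = w (σ i.succ) := fun i => rfl
  obtain ⟨hsh1, hsh2⟩ := shift h (B.hom (σ 0)) (-α) (-β)
  refine ⟨s', fun j => e (σ j), w', a₁ - α * e (σ 0), b₁ - β * e (σ 0), ψ,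
    ⟨hψ0, hψs, ?_, ?_, fun k => B.he _, ?_, ?_, ?_, ?_, ?_, ?_, ?_⟩⟩
  · rw [← Rat.smul_def, map_sub, map_smul, hψ0, smul_eq_mul, mul_one, sub_self]
  · rw [← Rat.smul_def, map_sub, map_smul, hψ0, smul_eq_mul, mul_one, sub_self]
  · rw [map_sub, D_mul, hDa₁, B.he, hrat]
    ring
  · rw [map_sub, D_mul, hDb₁, B.he, hrat]
    ring
  · intro k
    refine Fin.cases ?_ (fun i => ?_) k
    · rw [hw'0]
      refine add_mem (B.hC _) ?_
      have hP : PQ L ≤ Cm h := by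
        rw [PQ, Submodule.span_le]
        rintro x (rfl | rfl)
        · exact lattice_le_Cm h L.ω₁_mem_lattice
        · exact lattice_le_Cm h L.ω₂_mem_lattice
      exact hP (Om_mem_PQ _ _)
    · rw [hw's]
      exact B.hC _
  · intro k
    refine Fin.cases ?_ (fun i => ?_) k
    · rw [hw'0]
      exact hsh1
    · rw [hw's]
      exact B.hom _
  · intro k
    refine Fin.cases ?_ (fun i => ?_) k
    · rw [hw'0]
      intro hcon
      apply (σ 0).2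
      exact (Submodule.add_mem_iff_left _ (Om_mem_PQ (-α) (-β))).1 hcon
    · rw [hw's]
      exact (σ i.succ).2
  · have e1 := B.m1
    have e2 : ∑ k, e (σ k) * w' k - Om L (a₁ - α * e (σ 0)) (b₁ - β * e (σ 0)) =
        ∑ k, e k * w k - Om L a b := by
      rw [hsplit (fun k => e k * w k), Fin.sum_univ_succ, Fin.sum_univ_succ (n := s')]
      simp only [hw'0, hw's]
      have e3 : ∑ k : {k : Fin s // ¬ (w k ∉ PQ L)}, e k * w k =
          (∑ k : {k : Fin s // ¬ (w k ∉ PQ L)}, e k * (q k : ℂ)) * L.ω₁ +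
          (∑ k : {k : Fin s // ¬ (w k ∉ PQ L)}, e k * (q' k : ℂ)) * L.ω₂ := by
        rw [sum_mul, sum_mul, ← sum_add_distrib]
        refine sum_congr rfl (fun k _ => ?_)
        rw [hq k, Om]
        ring
      rw [e3, ha₁, hb₁, Om, Om, Om]
      push_cast
      ring
    rw [e2]
    exact e1
  · have e1 := B.m2
    choose κ hκ using fun k : {k : Fin s // ¬ (w k ∉ PQ L)} =>
      (⟨_, (shift h h0 (q k) (q' k)).2, rfl⟩ : ∃ κ ∈ K0 L D, κ = zt L (0 + Om L (q k : ℂ) (q' k : ℂ)) -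
        zt L 0 - Et L (q k : ℂ) (q' k : ℂ))
    have e2 : ∑ k, e (σ k) * zt L (w' k) - Et L (a₁ - α * e (σ 0)) (b₁ - β * e (σ 0)) =
        ∑ k, e k * zt L (w k) - Et L a b +
          e (σ 0) * (zt L (w (σ 0) + Om L ((-α : ℚ) : ℂ) ((-β : ℚ) : ℂ)) - zt L (w (σ 0)) -
            Et L ((-α : ℚ) : ℂ) ((-β : ℚ) : ℂ)) -
          ∑ k : {k : Fin s // ¬ (w k ∉ PQ L)}, e k * κ k := by
      rw [hsplit (fun k => e k * zt L (w k)), Fin.sum_univ_succ, Fin.sum_univ_succ (n := s')]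
      simp only [hw'0, hw's]
      have e3 : ∑ k : {k : Fin s // ¬ (w k ∉ PQ L)}, e k * zt L (w k) =
          (∑ k : {k : Fin s // ¬ (w k ∉ PQ L)}, e k * (q k : ℂ)) * eta L L.ω₁ +
          (∑ k : {k : Fin s // ¬ (w k ∉ PQ L)}, e k * (q' k : ℂ)) * eta L L.ω₂ +
          ∑ k : {k : Fin s // ¬ (w k ∉ PQ L)}, e k * κ k := by
        rw [sum_mul, sum_mul, ← sum_add_distrib, ← sum_add_distrib]
        refine sum_congr rfl (fun k _ => ?_)
        rw [(hκ k).2, zt_zero, zero_add, ← hq k, Et]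
        ring
      rw [e3, ha₁, hb₁, Et, Et, Et]
      push_cast
      ring
    rw [e2]
    refine sub_mem (add_mem e1 (mul_mem (cst_K0 (B.he _)) hsh2)) (sum_mem (fun k _ => ?_))
    exact mul_mem (cst_K0 (B.he _)) (hκ k).1

end Pool.Agent.Y685
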