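import Mathlib

/-!
# Statements of further independent tasks
-/

set_option autoImplicit false

open Filter
open scoped Topology

noncomputable section

namespace Pool.Agent.Y685

/-- a system of specializations of a ring `R` of algebraic functions of `g₀` over the field of
constants `C` of a derivation `D` of `ℂ` with `D g₀ = E(g₀)`: for all `g` with `H(g) ≠ 0` and the
`d` roots `θ ∈ Rt g` there is a homomorphism `ev g θ : R → ℂ` over `C` with `g₀ ↦ g` -/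
structure Plc (C : IntermediateField ℚ ℂ) (g₀ : ℂ) (D : Derivation ℚ ℂ ℂ) (E : Polynomial C)
    (Z : Set ℂ) where
  /-- the degree -/
  d : ℕ
  /-- the roots over `g` -/
  Rt : ℂ → Set ℂ
  /-- the exceptional values of `g` -/
  H : Polynomial ℂ
  /-- the root which belongs to the identity -/
  θ₀ : ℂ
  /-- the ring -/
  R : Subring ℂ
  /-- the value of `x` at `(g, θ)` -/
  ev : ℂ → ℂ → ℂ → ℂ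
  H0 : H.eval g₀ ≠ 0
  hθ₀ : θ₀ ∈ Rt g₀
  hZ : Z ⊆ R
  hC : (C : Set ℂ) ⊆ R
  hg : g₀ ∈ R
  hD : ∀ x ∈ R, D x ∈ R
  hadd : ∀ g, H.eval g ≠ 0 → ∀ θ ∈ Rt g, ∀ x ∈ R, ∀ y ∈ R, ev g θ (x + y) = ev g θ x + ev g θ y
  hmul : ∀ g, H.eval g ≠ 0 → ∀ θ ∈ Rt g, ∀ x ∈ R, ∀ y ∈ R, ev g θ (x * y) = ev g θ x * ev g θ y
  hc : ∀ g, H.eval g ≠ 0 → ∀ θ ∈ Rt g, ∀ c ∈ C, ev g θ c = c
  hg₀ : ∀ g, H.eval g ≠ 0 → ∀ θ ∈ Rt g, ev g θ g₀ = g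
  hid : ∀ x ∈ R, ev g₀ θ₀ x = x
  /-- local branches of the roots -/
  hbr : ∀ (g : ℂ → ℂ) (t₁ : ℂ), AnalyticAt ℂ g t₁ → H.eval (g t₁) ≠ 0 →
    ∃ φ : Fin d → ℂ → ℂ, (∀ i, AnalyticAt ℂ (φ i) t₁) ∧ ∀ᶠ t in 𝓝 t₁,
      Function.Injective (fun i => φ i t) ∧ Rt (g t) = Set.range (fun i => φ i t)
  han : ∀ (g φ : ℂ → ℂ) (t₁ : ℂ), AnalyticAt ℂ g t₁ → AnalyticAt ℂ φ t₁ → H.eval (g t₁) ≠ 0 →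
    (∀ᶠ t in 𝓝 t₁, φ t ∈ Rt (g t)) → ∀ x ∈ R, AnalyticAt ℂ (fun t => ev (g t) (φ t) x) t₁
  hder : ∀ (g φ : ℂ → ℂ) (t₁ b : ℂ), AnalyticAt ℂ g t₁ → AnalyticAt ℂ φ t₁ → H.eval (g t₁) ≠ 0 →
    (∀ᶠ t in 𝓝 t₁, φ t ∈ Rt (g t)) → deriv g t₁ = b * (Polynomial.aeval (g t₁) E : ℂ) →
    ∀ x ∈ R, deriv (fun t => ev (g t) (φ t) x) t₁ = b * ev (g t₁) (φ t₁) (D x)
  /-- growth -/
  hbd : ∀ x ∈ R, ∃ (K : ℝ) (m : ℕ), ∀ g, H.eval g ≠ 0 → ∀ θ ∈ Rt g,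
    ‖ev g θ x‖ ≤ K * ((1 + ‖g‖) / ‖H.eval g‖ + (1 + ‖g‖)) ^ m

/-- P: existence of specializations -/
def S_P : Prop := ∀ (C : IntermediateField ℚ ℂ) (g₀ : ℂ) (D : Derivation ℚ ℂ ℂ)
  (E : Polynomial C) (Z : Set ℂ), Transcendental C g₀ → (∀ c ∈ C, D c = 0) →
  D g₀ = Polynomial.aeval g₀ E → Z.Finite →
  (∀ z ∈ Z, IsAlgebraic (IntermediateField.adjoin C {g₀}) z) → Nonempty (Plc C g₀ D E Z)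

/-- G: growth of solutions of linear differential equations (`S` is the sum of the squares of the
absolute values of all branches) -/
def S_G : Prop := ∀ Ψ : ℂ → ℂ, (∀ t : ℂ, 0 < t.im → DifferentiableAt ℂ Ψ t) →
  (∀ t : ℂ, 0 < t.im → Ψ (t + 1) = Ψ t) → (∃ K : ℝ, ∀ t : ℂ, 1 ≤ t.im → ‖Ψ t‖ ≤ K) →
  (∃ t : ℂ, 0 < t.im ∧ Ψ t ≠ 0) →
  ∀ (S K : ℂ → ℝ) (m : ℕ), (∀ t : ℂ, 0 < t.im → S (t + 1) = S t) →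
  (∀ t : ℂ, 0 < t.im → ContinuousAt K t) → (∃ c : ℝ, ∀ t : ℂ, 1 ≤ t.im → K t ≤ c) →
  (∀ t₁ : ℂ, 0 < t₁.im → Ψ t₁ ≠ 0 → ∃ (n : ℕ) (a : Fin n → ℂ → ℂ),
    (∀ i, AnalyticAt ℂ (a i) t₁) ∧ (∀ᶠ t in 𝓝 t₁, S t = ∑ i, ‖a i t‖ ^ 2) ∧
    ∑ i, ‖deriv (a i) t₁‖ * ‖a i t₁‖ ≤ K t₁ * (S t₁ + ‖Ψ t₁‖⁻¹ ^ m)) →
  (∀ t₁ : ℂ, 0 < t₁.im → Ψ t₁ = 0 → ∃ (c : ℝ) (n : ℕ), ∀ᶠ t in 𝓝[≠] t₁,
    S t ≤ c * ‖t - t₁‖ ^ (-(n : ℤ))) ∧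
  ∃ c T : ℝ, ∀ t : ℂ, T ≤ t.im → S t ≤ Real.exp (c * t.im)

end Pool.Agent.Y685
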