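import Mathlib
import Pool.Agent.Y685.E1C
import Pool.Agent.Y685.App

/-!
# The differential equations of the branches
-/

set_option autoImplicit false

open Finset Filter
open scoped Topology PeriodPair

noncomputable section

namespace Pool.Agent.Y685

open H667R3 Pool.Agent.W245.EB

/-- a system of branches over an open set -/
structure Flow (U : Set ℂ) {s : ℕ} (e : Fin (s + 1) → ℂ) (l : ℂ → ℂ)
    (X Y V u : Fin (s + 1) → ℂ → ℂ) (K₁ K₂ : ℂ → ℂ) : Prop where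
  op : IsOpen U
  im : ∀ t ∈ U, 0 < t.im
  l0 : ∀ t ∈ U, l t ≠ 0
  g2 : ∀ t ∈ U, (LC t).g₂ ≠ 0
  hl : ∀ t ∈ U, l t ^ 2 * (LC t).g₂ = (LC t).g₃
  ld : ∀ t ∈ U, DifferentiableAt ℂ l t
  ud : ∀ t ∈ U, ∀ i, DifferentiableAt ℂ (u i) t
  hu : ∀ t ∈ U, ∀ i, u i t ∉ (LC t).lattice
  hX : ∀ t ∈ U, ∀ i, ℘[LC t] (u i t) = l t ^ 2 * X i t
  hY : ∀ t ∈ U, ∀ i, ℘'[LC t] (u i t) = l t ^ 3 * Y i t
  Y0 : ∀ t ∈ U, ∀ i, Y i t ≠ 0
  dX : ∀ t ∈ U, ∀ i, HasDerivAt (X i) (be t * l t ^ 2 *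
    (-2 * (3 - (LC t).g₂ / l t ^ 4 / 6) * X i t + ((LC t).g₂ / l t ^ 4 / 3 - 2 * X i t ^ 2) +
      V i t * Y i t)) t
  dK₁ : ∀ t ∈ U, HasDerivAt K₁ (be t * l t ^ 2 * ((3 - (LC t).g₂ / l t ^ 4 / 6) * K₁ t + K₂ t +
    ∑ i, e i * V i t)) t
  dK₂ : ∀ t ∈ U, HasDerivAt K₂ (be t * l t ^ 2 * (-(3 - (LC t).g₂ / l t ^ 4 / 6) * K₂ t -
    (LC t).g₂ / l t ^ 4 / 12 * K₁ t + ∑ i, e i * (Y i t / 2 - V i t * X i t))) t

/-- composition with a curve -/
theorem comp_curve {F : ℂ × ℂ → ℂ} {c d : ℂ} {u : ℂ → ℂ} {u' t : ℂ}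
    (hF : HasFDerivAt F (c • ContinuousLinearMap.fst ℂ ℂ ℂ + d • ContinuousLinearMap.snd ℂ ℂ ℂ)
      (t, u t)) (hu : HasDerivAt u u' t) : HasDerivAt (fun s => F (s, u s)) (c + d * u') t := by
  have h1 : HasDerivAt (fun s => ((s, u s) : ℂ × ℂ)) (1, u') t := (hasDerivAt_id t).prodMk hu
  have h2 := HasFDerivAt.comp_hasDerivAt (l := F) t hF h1
  refine h2.congr_deriv ?_
  simp

namespace Flow

variable {U : Set ℂ} {s : ℕ} {e : Fin (s + 1) → ℂ} {l : ℂ → ℂ}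
  {X Y V u : Fin (s + 1) → ℂ → ℂ} {K₁ K₂ : ℂ → ℂ} {t : ℂ}

theorem rel (h : Flow U e l X Y V u K₁ K₂) (ht : t ∈ U) :
    al t + be t * h1 t = 0 ∧ al t * t + be t * h2 t = 1 ∧ be t * Wc t = 1 := by
  have hW := Wc_ne' (h.im t ht)
  refine ⟨by unfold al; ring, ?_, ?_⟩
  · have : be t * Wc t = 1 := by unfold be; field_simp
    unfold al
    unfold Wc at this
    linear_combination this
  · unfold be; field_simp

theorem dl (h : Flow U e l X Y V u K₁ K₂) (ht : t ∈ U) :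
    HasDerivAt l (l t * (-al t + be t * l t ^ 2 * (3 - (LC t).g₂ / l t ^ 4 / 6))) t := by
  obtain ⟨-, a2, a3, -, -⟩ := H2.task_A4 t (h.im t ht)
  have hl0 := h.l0 t ht
  have hg2 := h.g2 t ht
  have e1 := ((h.ld t ht).hasDerivAt.pow 2).mul a2
  have e2 : HasDerivAt (fun s => (LC s).g₃) _ t := e1.congr_of_eventuallyEq (by
    filter_upwards [h.op.mem_nhds ht] with r hr
    simp [h.hl r hr])
  have e3 := e2.unique a3
  have e4 : deriv l t = l t * (-al t + be t * l t ^ 2 * (3 - (LC t).g₂ / l t ^ 4 / 6)) := by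
    rw [← h.hl t ht] at e3
    have e5 : l t ^ 2 * (-4 * al t - 6 * be t * l t ^ 2) + 2 * l t * deriv l t =
        -6 * al t * l t ^ 2 - be t * (LC t).g₂ / 3 := by
      apply mul_left_cancel₀ hg2
      norm_num at e3
      linear_combination e3
    field_simp
    linear_combination 3 * e5
  rw [← e4]
  exact (h.ld t ht).hasDerivAt

theorem du (h : Flow U e l X Y V u K₁ K₂) (ht : t ∈ U) (i : Fin (s + 1)) :
    HasDerivAt (u i) (al t * u i t + be t * zeta (LC t) (u i t) + be t * l t * V i t) t := by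
  have hl0 := h.l0 t ht
  have hu := (h.ud t ht i).hasDerivAt
  have e1 := comp_curve (H2.task_A2 t (u i t) (h.im t ht) (h.hu t ht i)) hu
  have e2 := ((h.dl ht).pow 2).mul (h.dX t ht i)
  have e3 : HasDerivAt (fun s => ℘[LC s] (u i s)) _ t := e2.congr_of_eventuallyEq (by
    filter_upwards [h.op.mem_nhds ht] with r hr
    simp [h.hX r hr i])
  have e4 := e1.unique e3
  rw [h.hX t ht, h.hY t ht] at e4
  have hY0 := h.Y0 t ht i
  have e5 : deriv (u i) t = al t * u i t + be t * zeta (LC t) (u i t) + be t * l t * V i t := by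
    have h18 : 18 * l t ^ 3 * Y i t ≠ 0 :=
      mul_ne_zero (mul_ne_zero (by norm_num) (pow_ne_zero 3 hl0)) hY0
    apply mul_left_cancel₀ h18
    norm_num at e4
    field_simp at e4
    linear_combination e4
  rw [← e5]
  exact hu

theorem dz (h : Flow U e l X Y V u K₁ K₂) (ht : t ∈ U) (i : Fin (s + 1)) :
    HasDerivAt (fun s => zeta (LC s) (u i s)) (-al t * zeta (LC t) (u i t) -
      be t * (LC t).g₂ / 12 * u i t + be t * l t ^ 3 * (Y i t / 2 - X i t * V i t)) t := by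
  have e0 : HasFDerivAt (fun p : ℂ × ℂ => zeta (LC p.1) p.2)
      ((al t * (u i t * ℘[LC t] (u i t) - zeta (LC t) (u i t)) +
        be t * (℘'[LC t] (u i t) / 2 + zeta (LC t) (u i t) * ℘[LC t] (u i t) -
          (LC t).g₂ / 12 * u i t)) •
      ContinuousLinearMap.fst ℂ ℂ ℂ + (-℘[LC t] (u i t)) • ContinuousLinearMap.snd ℂ ℂ ℂ)
      (t, u i t) := by
    refine (H2.task_A1 t (u i t) (h.im t ht) (h.hu t ht i)).congr_fderiv ?_
    refine ContinuousLinearMap.ext (fun v => ?_)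
    simp
    ring
  have e1 := comp_curve e0 (h.du ht i)
  refine e1.congr_deriv ?_
  rw [h.hX t ht, h.hY t ht]
  ring

theorem dh2 (h : Flow U e l X Y V u K₁ K₂) (ht : t ∈ U) :
    HasDerivAt h2 (-al t * h2 t - be t * (LC t).g₂ / 12 * t) t := by
  obtain ⟨a1, -, -, a4, -⟩ := H2.task_A4 t (h.im t ht)
  have e1 := a4.add ((hasDerivAt_id t).mul a1)
  have e2 : HasDerivAt h2 _ t := e1.congr_of_eventuallyEq (by
    filter_upwards with r
    simp [Wc])
  refine e2.congr_deriv ?_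
  obtain ⟨r1, r2, -⟩ := h.rel ht
  simp only [id]
  linear_combination (-h1 t) * r2 + (h2 t) * r1 + h1 t * t * r1

theorem dh1 (h : Flow U e l X Y V u K₁ K₂) (ht : t ∈ U) :
    HasDerivAt h1 (-al t * h1 t - be t * (LC t).g₂ / 12) t := by
  obtain ⟨a1, -, -, -, -⟩ := H2.task_A4 t (h.im t ht)
  refine a1.congr_deriv ?_
  obtain ⟨r1, r2, -⟩ := h.rel ht
  linear_combination h1 t * r1

/-- the first component of the vector -/
def V1 (e : Fin (s + 1) → ℂ) (l : ℂ → ℂ) (u : Fin (s + 1) → ℂ → ℂ) (K₁ : ℂ → ℂ) (t : ℂ) : ℂ :=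
  ∑ i, e i * u i t - K₁ t / l t

/-- the second component of the vector -/
def V2 (e : Fin (s + 1) → ℂ) (l : ℂ → ℂ) (u : Fin (s + 1) → ℂ → ℂ) (K₂ : ℂ → ℂ) (t : ℂ) : ℂ :=
  ∑ i, e i * zeta (LC t) (u i t) - l t * K₂ t

theorem dV1 (h : Flow U e l X Y V u K₁ K₂) (ht : t ∈ U) :
    HasDerivAt (V1 e l u K₁) (al t * V1 e l u K₁ t + be t * V2 e l u K₂ t) t := by
  have hl0 := h.l0 t ht
  have e1 := (HasDerivAt.fun_sum (u := univ) (fun i _ => (h.du ht i).const_mul (e i))).sub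
    ((h.dK₁ t ht).div (h.dl ht) hl0)
  refine e1.congr_deriv ?_
  have e2 : ∑ i, e i * (al t * u i t + be t * zeta (LC t) (u i t) + be t * l t * V i t) =
      al t * ∑ i, e i * u i t + be t * ∑ i, e i * zeta (LC t) (u i t) +
        be t * l t * ∑ i, e i * V i t := by
    rw [mul_sum, mul_sum, mul_sum, ← sum_add_distrib, ← sum_add_distrib]
    exact sum_congr rfl (fun i _ => by ring)
  rw [e2, V1, V2]
  field_simp
  ring

theorem dV2 (h : Flow U e l X Y V u K₁ K₂) (ht : t ∈ U) :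
    HasDerivAt (V2 e l u K₂) (-al t * V2 e l u K₂ t -
      be t * (LC t).g₂ / 12 * V1 e l u K₁ t) t := by
  have hl0 := h.l0 t ht
  have e1 := (HasDerivAt.fun_sum (u := univ) (fun i _ => (h.dz ht i).const_mul (e i))).sub
    ((h.dl ht).mul (h.dK₂ t ht))
  refine e1.congr_deriv ?_
  have e2 : ∑ i, e i * (-al t * zeta (LC t) (u i t) - be t * (LC t).g₂ / 12 * u i t +
      be t * l t ^ 3 * (Y i t / 2 - X i t * V i t)) =
      -al t * ∑ i, e i * zeta (LC t) (u i t) - be t * (LC t).g₂ / 12 * ∑ i, e i * u i t +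
        be t * l t ^ 3 * ∑ i, e i * (Y i t / 2 - V i t * X i t) := by
    rw [mul_sum, mul_sum, mul_sum, ← sum_sub_distrib, ← sum_add_distrib]
    exact sum_congr rfl (fun i _ => by ring)
  rw [e2, V1, V2]
  field_simp
  ring

/-- the coordinates are locally constant -/
theorem const (h : Flow U e l X Y V u K₁ K₂) (hU : IsPreconnected U) {t₁ : ℂ} (ht₁ : t₁ ∈ U) :
    ∃ A B : ℂ, ∀ t ∈ U, V1 e l u K₁ t = A + B * t ∧ V2 e l u K₂ t = A * h1 t + B * h2 t := by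
  have hA : ∀ t ∈ U, HasDerivAt (fun t => be t * (V1 e l u K₁ t * h2 t - t * V2 e l u K₂ t)) 0 t := by
    intro t ht
    have e1 := (hasDerivAt_be (h.im t ht)).mul (((h.dV1 ht).mul (h.dh2 ht)).sub
      ((hasDerivAt_id t).mul (h.dV2 ht)))
    refine e1.congr_deriv ?_
    obtain ⟨r1, r2, -⟩ := h.rel ht
    simp only [id, Pi.mul_apply, Pi.sub_apply]
    linear_combination be t * V2 e l u K₂ t * r2
  have hB : ∀ t ∈ U, HasDerivAt (fun t => be t * (V2 e l u K₂ t - h1 t * V1 e l u K₁ t)) 0 t := by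
    intro t ht
    have e1 := (hasDerivAt_be (h.im t ht)).mul ((h.dV2 ht).sub ((h.dh1 ht).mul (h.dV1 ht)))
    refine e1.congr_deriv ?_
    obtain ⟨r1, r2, -⟩ := h.rel ht
    simp only [Pi.mul_apply, Pi.sub_apply]
    linear_combination (-be t * V2 e l u K₂ t) * r1
  have hA' : ∀ t ∈ U, be t * (V1 e l u K₁ t * h2 t - t * V2 e l u K₂ t) =
      be t₁ * (V1 e l u K₁ t₁ * h2 t₁ - t₁ * V2 e l u K₂ t₁) := fun t ht =>
    h.op.is_const_of_deriv_eq_zero hU
      (fun x hx => (hA x hx).differentiableAt.differentiableWithinAt)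
      (fun x hx => (hA x hx).deriv) ht ht₁
  have hB' : ∀ t ∈ U, be t * (V2 e l u K₂ t - h1 t * V1 e l u K₁ t) =
      be t₁ * (V2 e l u K₂ t₁ - h1 t₁ * V1 e l u K₁ t₁) := fun t ht =>
    h.op.is_const_of_deriv_eq_zero hU
      (fun x hx => (hB x hx).differentiableAt.differentiableWithinAt)
      (fun x hx => (hB x hx).deriv) ht ht₁
  refine ⟨be t₁ * (V1 e l u K₁ t₁ * h2 t₁ - t₁ * V2 e l u K₂ t₁),
    be t₁ * (V2 e l u K₂ t₁ - h1 t₁ * V1 e l u K₁ t₁), fun t ht => ?_⟩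
  obtain ⟨r1, r2, r3⟩ := h.rel ht
  rw [← hA' t ht, ← hB' t ht]
  unfold Wc at r3
  constructor
  · linear_combination (-V1 e l u K₁ t) * r3
  · linear_combination (-V2 e l u K₂ t) * r3

/-- the equations of the function -/
theorem df (h : Flow U e l X Y V u K₁ K₂) (ht : t ∈ U) (p q : ℂ) :
    HasDerivAt (fun t => u 0 t - p - q * t) (al t * (u 0 t - p - q * t) +
      be t * (zeta (LC t) (u 0 t) - p * h1 t - q * h2 t) + be t * l t * V 0 t) t := by
  have e1 := ((h.du ht 0).sub_const p).sub ((hasDerivAt_id t).const_mul q)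
  refine e1.congr_deriv ?_
  obtain ⟨r1, r2, -⟩ := h.rel ht
  linear_combination p * r1 + q * r2

theorem dZ (h : Flow U e l X Y V u K₁ K₂) (ht : t ∈ U) (p q : ℂ) :
    HasDerivAt (fun t => zeta (LC t) (u 0 t) - p * h1 t - q * h2 t)
      (-al t * (zeta (LC t) (u 0 t) - p * h1 t - q * h2 t) -
        be t * (LC t).g₂ / 12 * (u 0 t - p - q * t) +
        be t * l t ^ 3 * (Y 0 t / 2 - X 0 t * V 0 t)) t := by
  have e1 := ((h.dz ht 0).sub ((h.dh1 ht).const_mul p)).sub ((h.dh2 ht).const_mul q)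
  refine e1.congr_deriv ?_
  ring

end Flow

end Pool.Agent.Y685
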