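import Mathlib
import Pool.Agent.Y685.E1E

/-!
# The exceptional set and bounds
-/

set_option autoImplicit false

open Finset Filter
open scoped Topology PeriodPair

noncomputable section

namespace Pool.Agent.Y685

open H667R3 Pool.Agent.W245.EB

/-- the homogenized polynomial -/
def Hh (H : Polynomial ℂ) (t : ℂ) : ℂ :=
  ∑ k ∈ range (H.natDegree + 1), H.coeff k * (LC t).g₂ ^ (3 * k) *
    (LC t).g₃ ^ (2 * (H.natDegree - k))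

/-- the function whose zeros are the exceptional points -/
def Psi (H : Polynomial ℂ) (t : ℂ) : ℂ := (LC t).g₂ * (LC t).g₃ * Hh H t

theorem Hh_eq (H : Polynomial ℂ) {t : ℂ} (g3 : (LC t).g₃ ≠ 0) :
    Hh H t = (LC t).g₃ ^ (2 * H.natDegree) * H.eval (gh t) := by
  rw [Hh, Polynomial.eval_eq_sum_range, mul_sum]
  refine sum_congr rfl (fun k hk => ?_)
  have hk' : k ≤ H.natDegree := by
    rw [mem_range] at hk
    omega
  have e1 : (LC t).g₃ ^ (2 * H.natDegree) =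
      (LC t).g₃ ^ (2 * (H.natDegree - k)) * (LC t).g₃ ^ (2 * k) := by
    rw [← pow_add]
    congr 1
    omega
  rw [e1, gh, div_pow, ← pow_mul, ← pow_mul]
  field_simp

theorem Psi_ne {H : Polynomial ℂ} {t : ℂ} : Psi H t ≠ 0 ↔
    (LC t).g₂ ≠ 0 ∧ (LC t).g₃ ≠ 0 ∧ H.eval (gh t) ≠ 0 := by
  constructor
  · intro h
    have h1 : (LC t).g₂ ≠ 0 := fun h0 => h (by rw [Psi, h0, zero_mul, zero_mul])
    have h2 : (LC t).g₃ ≠ 0 := fun h0 => h (by rw [Psi, h0, mul_zero, zero_mul])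
    refine ⟨h1, h2, fun h0 => h ?_⟩
    rw [Psi, Hh_eq H h2, h0, mul_zero, mul_zero]
  · rintro ⟨h1, h2, h3⟩
    rw [Psi, Hh_eq H h2]
    exact mul_ne_zero (mul_ne_zero h1 h2) (mul_ne_zero (pow_ne_zero _ h2) h3)

theorem an_Hh (H : Polynomial ℂ) {t : ℂ} (ht : 0 < t.im) : AnalyticAt ℂ (Hh H) t := by
  have h1 : AnalyticAt ℂ (fun t => ∑ k ∈ range (H.natDegree + 1), H.coeff k *
      (LC t).g₂ ^ (3 * k) * (LC t).g₃ ^ (2 * (H.natDegree - k))) t :=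
    Finset.analyticAt_fun_sum _ (fun k _ =>
      (analyticAt_const.mul ((an_g2 ht).pow _)).mul ((an_g3 ht).pow _))
  exact h1

theorem an_Psi (H : Polynomial ℂ) {t : ℂ} (ht : 0 < t.im) : AnalyticAt ℂ (Psi H) t :=
  ((an_g2 ht).mul (an_g3 ht)).mul (an_Hh H ht)

theorem Hh_mob (H : Polynomial ℂ) {t t' c₀ : ℂ} {a b c d : ℤ} (M : Mob t t' c₀ a b c d) :
    Hh H t' = Hh H t / c₀ ^ (12 * H.natDegree) := by
  have hc := M.c0
  rw [Hh, Hh, sum_div]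
  refine sum_congr rfl (fun k hk => ?_)
  have hk' : k ≤ H.natDegree := by
    rw [mem_range] at hk
    omega
  rw [M.g2, M.g3, div_pow, div_pow, ← pow_mul, ← pow_mul]
  have e1 : c₀ ^ (12 * H.natDegree) = c₀ ^ (4 * (3 * k)) * c₀ ^ (6 * (2 * (H.natDegree - k))) := by
    rw [← pow_add]
    congr 1
    omega
  rw [e1]
  field_simp

theorem Psi_mob (H : Polynomial ℂ) {t t' c₀ : ℂ} {a b c d : ℤ} (M : Mob t t' c₀ a b c d) :
    Psi H t' = Psi H t / c₀ ^ (10 + 12 * H.natDegree) := by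
  have hc := M.c0
  rw [Psi, Psi, Hh_mob H M, M.g2, M.g3, pow_add]
  field_simp

theorem gh_mob {t t' c₀ : ℂ} {a b c d : ℤ} (M : Mob t t' c₀ a b c d) : gh t' = gh t := by
  have hc := M.c0
  rw [gh, gh, M.g2, M.g3]
  by_cases h3 : (LC t).g₃ = 0
  · rw [h3]
    simp
  · field_simp

theorem Mob_T {t : ℂ} (ht : 0 < t.im) : Mob t (t + 1) 1 1 1 0 1 where
  ht := ht
  ht' := by
    rw [Complex.add_im, Complex.one_im, add_zero]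
    exact ht
  det := by norm_num
  hc := by push_cast; ring
  ht2 := by push_cast; ring

theorem Psi_T (H : Polynomial ℂ) {t : ℂ} (ht : 0 < t.im) : Psi H (t + 1) = Psi H t := by
  rw [Psi_mob H (Mob_T ht)]
  simp

/-- a continuous function -/
def Mf (H : Polynomial ℂ) (t : ℂ) : ℝ :=
  1 + ‖(LC t).g₂‖ + ‖(LC t).g₃‖ + ‖h1 t‖ + ‖Hh H t‖ + ‖Psi H t‖

theorem Mf_ge (H : Polynomial ℂ) (t : ℂ) : 1 ≤ Mf H t ∧ ‖(LC t).g₂‖ ≤ Mf H t ∧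
    ‖(LC t).g₃‖ ≤ Mf H t ∧ ‖h1 t‖ ≤ Mf H t ∧ ‖Hh H t‖ ≤ Mf H t ∧ ‖Psi H t‖ ≤ Mf H t := by
  have a1 := norm_nonneg (LC t).g₂
  have a2 := norm_nonneg (LC t).g₃
  have a3 := norm_nonneg (h1 t)
  have a4 := norm_nonneg (Hh H t)
  have a5 := norm_nonneg (Psi H t)
  unfold Mf
  refine ⟨?_, ?_, ?_, ?_, ?_, ?_⟩ <;> linarith

theorem Mf_cont (H : Polynomial ℂ) {t : ℂ} (ht : 0 < t.im) : ContinuousAt (Mf H) t := by
  have a1 := (an_g2 ht).continuousAt.norm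
  have a2 := (an_g3 ht).continuousAt.norm
  have a3 := (an_h1 ht).continuousAt.norm
  have a4 := (an_Hh H ht).continuousAt.norm
  have a5 := (an_Psi H ht).continuousAt.norm
  exact ((((continuousAt_const.add a1).add a2).add a3).add a4).add a5

theorem Hh_le (H : Polynomial ℂ) {t : ℂ} {c : ℝ} (h2 : ‖(LC t).g₂‖ ≤ c) (h3 : ‖(LC t).g₃‖ ≤ c) :
    ‖Hh H t‖ ≤ ∑ k ∈ range (H.natDegree + 1), ‖H.coeff k‖ * c ^ (3 * k) *
      c ^ (2 * (H.natDegree - k)) := by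
  have hc : 0 ≤ c := (norm_nonneg _).trans h2
  refine (norm_sum_le _ _).trans (sum_le_sum (fun k _ => ?_))
  rw [norm_mul, norm_mul, norm_pow, norm_pow]
  gcongr

theorem Mf_bdd (hC : S_C1) (H : Polynomial ℂ) : ∃ c : ℝ, ∀ t : ℂ, 1 ≤ t.im → Mf H t ≤ c := by
  obtain ⟨c, hc⟩ := hC
  refine ⟨1 + c + c + c + (∑ k ∈ range (H.natDegree + 1), ‖H.coeff k‖ * c ^ (3 * k) *
      c ^ (2 * (H.natDegree - k))) + c * c * (∑ k ∈ range (H.natDegree + 1), ‖H.coeff k‖ *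
      c ^ (3 * k) * c ^ (2 * (H.natDegree - k))), fun t ht => ?_⟩
  obtain ⟨a1, a2, a3⟩ := hc t ht
  have a4 := Hh_le H a1 a2
  have hc0 : 0 ≤ c := (norm_nonneg _).trans a1
  have a5 : ‖Psi H t‖ ≤ c * c * (∑ k ∈ range (H.natDegree + 1), ‖H.coeff k‖ *
      c ^ (3 * k) * c ^ (2 * (H.natDegree - k))) := by
    rw [Psi, norm_mul, norm_mul]
    gcongr
  unfold Mf
  linarith

/-- the function which bounds everything -/
def Nf (H : Polynomial ℂ) (t : ℂ) : ℝ := Mf H t ^ 2 * ‖Psi H t‖⁻¹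

theorem Nf_ge (H : Polynomial ℂ) {t : ℂ} (h : Psi H t ≠ 0) : 1 ≤ Nf H t ∧ Mf H t ≤ Nf H t ∧
    ‖Psi H t‖⁻¹ ≤ Nf H t := by
  obtain ⟨a1, -, -, -, -, a6⟩ := Mf_ge H t
  have hp : 0 < ‖Psi H t‖ := norm_pos_iff.2 h
  have h1 : 1 ≤ Mf H t * ‖Psi H t‖⁻¹ := by
    rw [← div_eq_mul_inv, le_div_iff₀ hp, one_mul]
    exact a6
  have h2 : Mf H t ≤ Nf H t := by
    unfold Nf
    nlinarith
  refine ⟨a1.trans h2, h2, ?_⟩
  unfold Nf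
  have h3 : 0 < ‖Psi H t‖⁻¹ := inv_pos.2 hp
  nlinarith

variable {L : PeriodPair} {D : Derivation ℚ ℂ ℂ}
variable {s : ℕ} {e w : Fin (s + 1) → ℂ} {a b : ℂ} {ψ : ℂ →ₗ[ℚ] ℚ} {h : Nrm L D}
variable {pl : Plc (Cst D) L.g₂ D (EE D) (ZZ L e w a b)}

theorem Good.psi {t : ℂ} (G : Good pl t) : Psi pl.H t ≠ 0 := Psi_ne.2 ⟨G.g2, G.g3, G.H⟩

theorem good_iff {t : ℂ} (ht : 0 < t.im) : Good pl t ↔ Psi pl.H t ≠ 0 :=
  ⟨fun G => G.psi, fun h => ⟨ht, (Psi_ne.1 h).1, (Psi_ne.1 h).2.1, (Psi_ne.1 h).2.2⟩⟩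

theorem Good.gh_le {t : ℂ} (G : Good pl t) : 1 + ‖gh t‖ ≤ 2 * Nf pl.H t ^ 9 := by
  obtain ⟨n1, n2, n3⟩ := Nf_ge pl.H G.psi
  obtain ⟨m1, m2, m3, -, m5, -⟩ := Mf_ge pl.H t
  set N := Nf pl.H t
  have hg3 : 0 < ‖(LC t).g₃‖ := norm_pos_iff.2 G.g3
  have hg2 : 0 < ‖(LC t).g₂‖ := norm_pos_iff.2 G.g2
  have hi : ‖(LC t).g₃‖⁻¹ ≤ N ^ 3 := by
    have e1 : ‖(LC t).g₃‖⁻¹ = ‖(LC t).g₂‖ * ‖Hh pl.H t‖ * ‖Psi pl.H t‖⁻¹ := by
      have hH : 0 < ‖Hh pl.H t‖ := by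
        rw [norm_pos_iff, Hh_eq _ G.g3]
        exact mul_ne_zero (pow_ne_zero _ G.g3) G.H
      rw [Psi, norm_mul, norm_mul]
      field_simp
    rw [e1]
    calc _ ≤ N * N * N := by
          gcongr
          · exact m2.trans n2
          · exact m5.trans n2
      _ = N ^ 3 := by ring
  have e2 : ‖gh t‖ = ‖(LC t).g₂‖ ^ 3 * ‖(LC t).g₃‖⁻¹ ^ 2 := by
    rw [gh, norm_div, norm_pow, norm_pow, div_eq_mul_inv, inv_pow]
  have h1 : ‖gh t‖ ≤ N ^ 9 := by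
    rw [e2]
    calc _ ≤ N ^ 3 * (N ^ 3) ^ 2 := by
          gcongr
          exact m2.trans n2
      _ = N ^ 9 := by ring
  have h2 : 1 ≤ N ^ 9 := one_le_pow₀ n1
  linarith

theorem Good.H_le {t : ℂ} (G : Good pl t) :
    ‖pl.H.eval (gh t)‖⁻¹ ≤ Nf pl.H t ^ (2 * pl.H.natDegree + 3) := by
  obtain ⟨n1, n2, n3⟩ := Nf_ge pl.H G.psi
  obtain ⟨m1, m2, m3, -, m5, -⟩ := Mf_ge pl.H t
  set N := Nf pl.H t
  have hg3 : 0 < ‖(LC t).g₃‖ := norm_pos_iff.2 G.g3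
  have hg2 : 0 < ‖(LC t).g₂‖ := norm_pos_iff.2 G.g2
  have hH : 0 < ‖pl.H.eval (gh t)‖ := norm_pos_iff.2 G.H
  have e1 : ‖pl.H.eval (gh t)‖⁻¹ = ‖(LC t).g₃‖ ^ (2 * pl.H.natDegree) * (‖(LC t).g₂‖ *
      ‖(LC t).g₃‖ * ‖Psi pl.H t‖⁻¹) := by
    rw [Psi, Hh_eq _ G.g3, norm_mul, norm_mul, norm_mul, norm_pow]
    field_simp
  rw [e1]
  calc _ ≤ N ^ (2 * pl.H.natDegree) * (N * N * N) := by
        gcongr
        · exact m3.trans n2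
        · exact m2.trans n2
        · exact m3.trans n2
    _ = N ^ (2 * pl.H.natDegree + 3) := by ring

/-- bounds for all values -/
theorem tame_ev (pl : Plc (Cst D) L.g₂ D (EE D) (ZZ L e w a b)) {x : ℂ} (hx : x ∈ pl.R) :
    ∃ (c : ℝ) (m : ℕ), 0 ≤ c ∧ ∀ t, Good pl t → ∀ θ ∈ pl.Rt (gh t),
      ‖pl.ev (gh t) θ x‖ ≤ c * Nf pl.H t ^ m := by
  obtain ⟨K, m, hK⟩ := pl.hbd x hx
  refine ⟨|K| * 4 ^ m, (2 * pl.H.natDegree + 12) * m, by positivity, fun t G θ hθ => ?_⟩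
  obtain ⟨n1, n2, n3⟩ := Nf_ge pl.H G.psi
  have h1 := G.gh_le
  have h2 := G.H_le
  refine (hK (gh t) G.H θ hθ).trans ?_
  set N := Nf pl.H t
  have hN0 : 0 < N := by linarith
  have h3 : (1 + ‖gh t‖) / ‖pl.H.eval (gh t)‖ ≤ 2 * N ^ (2 * pl.H.natDegree + 12) := by
    rw [div_eq_mul_inv]
    calc _ ≤ (2 * N ^ 9) * N ^ (2 * pl.H.natDegree + 3) := by
          gcongr
      _ = 2 * N ^ (2 * pl.H.natDegree + 12) := by ring
  have h4 : 1 + ‖gh t‖ ≤ 2 * N ^ (2 * pl.H.natDegree + 12) := by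
    refine h1.trans ?_
    gcongr
    omega
  have h5 : (1 + ‖gh t‖) / ‖pl.H.eval (gh t)‖ + (1 + ‖gh t‖) ≤
      4 * N ^ (2 * pl.H.natDegree + 12) := by linarith
  have h6 : 0 ≤ (1 + ‖gh t‖) / ‖pl.H.eval (gh t)‖ + (1 + ‖gh t‖) := by positivity
  calc K * ((1 + ‖gh t‖) / ‖pl.H.eval (gh t)‖ + (1 + ‖gh t‖)) ^ m
      ≤ |K| * ((1 + ‖gh t‖) / ‖pl.H.eval (gh t)‖ + (1 + ‖gh t‖)) ^ m := by
        gcongr
        exact le_abs_self K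
    _ ≤ |K| * (4 * N ^ (2 * pl.H.natDegree + 12)) ^ m := by
        gcongr
    _ = |K| * 4 ^ m * N ^ ((2 * pl.H.natDegree + 12) * m) := by
        rw [mul_pow, ← pow_mul]
        ring

theorem Good.l_le {t : ℂ} (G : Good pl t) {l : ℂ} (hl : l ^ 2 * (LC t).g₂ = (LC t).g₃) :
    ‖l‖ ≤ Nf pl.H t ^ 4 := by
  obtain ⟨n1, n2, n3⟩ := Nf_ge pl.H G.psi
  obtain ⟨m1, m2, m3, -, m5, -⟩ := Mf_ge pl.H t
  set N := Nf pl.H t
  have hg3 : 0 < ‖(LC t).g₃‖ := norm_pos_iff.2 G.g3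
  have hg2 : 0 < ‖(LC t).g₂‖ := norm_pos_iff.2 G.g2
  have hH : 0 < ‖Hh pl.H t‖ := by
    rw [norm_pos_iff, Hh_eq _ G.g3]
    exact mul_ne_zero (pow_ne_zero _ G.g3) G.H
  have e1 : ‖l‖ ^ 2 = ‖(LC t).g₃‖ * (‖(LC t).g₃‖ * ‖Hh pl.H t‖ * ‖Psi pl.H t‖⁻¹) := by
    have e2 : ‖l‖ ^ 2 * ‖(LC t).g₂‖ = ‖(LC t).g₃‖ := by
      rw [← norm_pow, ← norm_mul, hl]
    rw [Psi, norm_mul, norm_mul]
    field_simp
    linear_combination e2
  have h1 : ‖l‖ ^ 2 ≤ N ^ 4 := by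
    rw [e1]
    calc _ ≤ N * (N * N * N) := by
          gcongr
          · exact m3.trans n2
          · exact m3.trans n2
          · exact m5.trans n2
      _ = N ^ 4 := by ring
  have h2 : (1 : ℝ) ≤ N ^ 4 := one_le_pow₀ n1
  have h3 : ‖l‖ ^ 2 ≤ (N ^ 4) ^ 2 := by nlinarith
  exact le_of_sq_le_sq h3 (by positivity)

end Pool.Agent.Y685
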