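import Mathlib
import Pool.Agent.Y685.E1F

/-!
# The branches of the function, their growth, and their values
-/

set_option autoImplicit false

open Finset Filter
open scoped Topology PeriodPair

noncomputable section

namespace Pool.Agent.Y685

open H667R3 Pool.Agent.W245.EB

variable {L : PeriodPair} {D : Derivation ℚ ℂ ℂ}
variable {s : ℕ} {e w : Fin (s + 1) → ℂ} {a b : ℂ} {ψ : ℂ →ₗ[ℚ] ℚ} {h : Nrm L D}

/-- the values over `(t, θ)` -/
def VV (pl : Plc (Cst D) L.g₂ D (EE D) (ZZ L e w a b)) (ψ : ℂ →ₗ[ℚ] ℚ) (t θ f Z : ℂ) : Prop :=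
  Val ψ t e (fun i => pl.ev (gh t) θ (℘[L] (w i))) (fun i => pl.ev (gh t) θ (℘'[L] (w i)))
    (pl.ev (gh t) θ (∑ k, e k * w k - Om L a b))
    (pl.ev (gh t) θ (∑ k, e k * zt L (w k) - Et L a b)) f Z

variable {pl : Plc (Cst D) L.g₂ D (EE D) (ZZ L e w a b)} {t θ f Z f' Z' : ℂ}

theorem VV.exists (B : Bd h e w a b ψ) (G : Good pl t) (hθ : θ ∈ pl.Rt (gh t)) :
    ∃ p : ℂ × ℂ, VV pl ψ t θ p.1 p.2 := by
  obtain ⟨l, u, A, B', hc⟩ := Ch.exists G.im G.g2 G.g3 (B.rels pl G.H hθ).Y2 e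
    (pl.ev (gh t) θ (∑ k, e k * w k - Om L a b))
    (pl.ev (gh t) θ (∑ k, e k * zt L (w k) - Et L a b))
  obtain ⟨f, Z, hv⟩ := hc.val ψ
  exact ⟨(f, Z), hv⟩

theorem VV.unique (B : Bd h e w a b ψ) (G : Good pl t) (hθ : θ ∈ pl.Rt (gh t))
    (h1 : VV pl ψ t θ f Z) (h2 : VV pl ψ t θ f' Z') :
    f' ^ 2 = f ^ 2 ∧ ‖f'‖ = ‖f‖ ∧ ‖Z'‖ = ‖Z‖ :=
  Val.unique G.im G.g3 (B.rels pl G.H hθ).Y0 B.ψ0 B.ψs h1 h2

theorem VV.mob {t' c₀ : ℂ} {a' b' c' d' : ℤ} (G : Good pl t) (M : Mob t t' c₀ a' b' c' d')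
    (h1 : VV pl ψ t θ f Z) : VV pl ψ t' θ (c₀ * f) (Z / c₀) := by
  have h2 := Val.mob G.g3 M h1
  unfold VV
  rw [gh_mob M]
  exact h2

/-- `β` has the same absolute value everywhere -/
theorem norm_be {t : ℂ} (ht : 0 < t.im) : ‖be t‖ = ‖be Complex.I‖ := by
  rw [be_const ht (by simp : 0 < Complex.I.im)]

theorem norm_al {t : ℂ} (ht : 0 < t.im) : ‖al t‖ = ‖be Complex.I‖ * ‖h1 t‖ := by
  rw [al, norm_neg, norm_mul, norm_be ht]

/-- branches with bounds for the derivatives -/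
theorem Bd.exists_branch (B : Bd h e w a b ψ)
    (pl : Plc (Cst D) L.g₂ D (EE D) (ZZ L e w a b)) :
    ∃ (c : ℝ) (m : ℕ), 0 ≤ c ∧ ∀ t₁, Good pl t₁ → ∀ φ : ℂ → ℂ, AnalyticAt ℂ φ t₁ →
      (∀ᶠ t in 𝓝 t₁, φ t ∈ pl.Rt (gh t)) → ∃ f Z : ℂ → ℂ, AnalyticAt ℂ f t₁ ∧
        AnalyticAt ℂ Z t₁ ∧ (∀ᶠ t in 𝓝 t₁, VV pl ψ t (φ t) (f t) (Z t)) ∧
        ‖deriv f t₁‖ ≤ c * Mf pl.H t₁ * (‖f t₁‖ + ‖Z t₁‖) + c * Nf pl.H t₁ ^ m ∧
        ‖deriv Z t₁‖ ≤ c * Mf pl.H t₁ * (‖f t₁‖ + ‖Z t₁‖) + c * Nf pl.H t₁ ^ m := by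
  obtain ⟨cX, mX, hcX, hX⟩ := tame_ev pl (pl.mX 0)
  obtain ⟨cY, mY, hcY, hY⟩ := tame_ev pl (pl.mY 0)
  obtain ⟨cV, mV, hcV, hV⟩ := tame_ev pl (pl.mV 0)
  set β := ‖be Complex.I‖ with hβ
  have hβ0 : 0 ≤ β := norm_nonneg _
  refine ⟨β * (1 + cV + cY + cX * cV), 12 + mX + mY + mV, by positivity,
    fun t₁ G φ hφ hR => ?_⟩
  obtain ⟨r, hr, l, u, F, hG⟩ := B.branch G hφ hR
  have ht₁ : t₁ ∈ Metric.ball t₁ r := Metric.mem_ball_self hr
  obtain ⟨A, A', hAA⟩ := F.const (convex_ball t₁ r).isPreconnected ht₁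
  have hCh : ∀ t ∈ Metric.ball t₁ r, Ch t e (fun i => pl.ev (gh t) (φ t) (℘[L] (w i)))
      (fun i => pl.ev (gh t) (φ t) (℘'[L] (w i)))
      (pl.ev (gh t) (φ t) (∑ k, e k * w k - Om L a b))
      (pl.ev (gh t) (φ t) (∑ k, e k * zt L (w k) - Et L a b)) (l t) (fun i => u i t) A A' :=
    fun t ht => ⟨F.hl t ht, F.hu t ht, F.hX t ht, F.hY t ht, (hAA t ht).1, (hAA t ht).2⟩
  obtain ⟨n1, n2, n3⟩ := Nf_ge pl.H G.psi
  obtain ⟨m1, m2, m3, m4, m5, m6⟩ := Mf_ge pl.H t₁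
  set M := Mf pl.H t₁
  set N := Nf pl.H t₁
  have hN0 : 0 ≤ N := by linarith
  have hM0 : 0 ≤ M := by linarith
  have hpow : ∀ k : ℕ, k ≤ 12 + mX + mY + mV → N ^ k ≤ N ^ (12 + mX + mY + mV) :=
    fun k hk => pow_le_pow_right₀ n1 hk
  by_cases hI : Iz ψ A A'
  · -- the main case
    refine ⟨fun t => u 0 t - ψ A - ψ A' * t, fun t => zeta (LC t) (u 0 t) - ψ A * h1 t -
      ψ A' * h2 t, ?_, ?_, ?_, ?_, ?_⟩
    · have hd : DifferentiableOn ℂ (fun t => u 0 t - ψ A - ψ A' * t) (Metric.ball t₁ r) :=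
        fun t ht => (F.df ht _ _).differentiableAt.differentiableWithinAt
      exact hd.analyticAt (Metric.ball_mem_nhds _ hr)
    · have hd : DifferentiableOn ℂ (fun t => zeta (LC t) (u 0 t) - ψ A * h1 t -
        ψ A' * h2 t) (Metric.ball t₁ r) :=
        fun t ht => (F.dZ ht _ _).differentiableAt.differentiableWithinAt
      exact hd.analyticAt (Metric.ball_mem_nhds _ hr)
    · filter_upwards [Metric.ball_mem_nhds t₁ hr] with t ht
      exact ⟨l t, fun i => u i t, A, A', hCh t ht, Or.inl ⟨hI, rfl, rfl⟩⟩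
    · rw [(F.df ht₁ _ _).deriv]
      set f := u 0 t₁ - ψ A - ψ A' * t₁
      set Z := zeta (LC t₁) (u 0 t₁) - ψ A * h1 t₁ - ψ A' * h2 t₁
      have hl := G.l_le (F.hl t₁ ht₁)
      have hV' := hV t₁ G (φ t₁) (hG t₁ ht₁).2
      have e1 : ‖al t₁ * f‖ ≤ β * M * ‖f‖ := by
        rw [norm_mul, norm_al G.im]
        gcongr
      have e2 : ‖be t₁ * Z‖ ≤ β * M * ‖Z‖ := by
        rw [norm_mul, norm_be G.im]
        have : β ≤ β * M := le_mul_of_one_le_right hβ0 m1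
        gcongr
      have e3 : ‖be t₁ * l t₁ * vl pl φ (vv L D (aa L) 1 (w 0)) t₁‖ ≤
          β * cV * N ^ (12 + mX + mY + mV) := by
        rw [norm_mul, norm_mul, norm_be G.im]
        calc β * ‖l t₁‖ * ‖vl pl φ (vv L D (aa L) 1 (w 0)) t₁‖ ≤ β * N ^ 4 * (cV * N ^ mV) := by
              gcongr
              exact hV'
          _ = β * cV * N ^ (4 + mV) := by ring
          _ ≤ _ := mul_le_mul_of_nonneg_left (hpow _ (by omega)) (by positivity)
      have e4 : ‖al t₁ * f + be t₁ * Z + be t₁ * l t₁ * vl pl φ (vv L D (aa L) 1 (w 0)) t₁‖ ≤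
          β * M * ‖f‖ + β * M * ‖Z‖ + β * cV * N ^ (12 + mX + mY + mV) :=
        (norm_add₃_le).trans (add_le_add (add_le_add e1 e2) e3)
      refine e4.trans ?_
      have e5 : β * M * ‖f‖ + β * M * ‖Z‖ ≤
          β * (1 + cV + cY + cX * cV) * M * (‖f‖ + ‖Z‖) := by
        have h1 : 1 ≤ 1 + cV + cY + cX * cV := by
          have := mul_nonneg hcX hcV
          linarith
        have h2 : 0 ≤ β * M * (‖f‖ + ‖Z‖) := by positivity
        nlinarith
      have e6 : β * cV * N ^ (12 + mX + mY + mV) ≤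
          β * (1 + cV + cY + cX * cV) * N ^ (12 + mX + mY + mV) := by
        gcongr
        have := mul_nonneg hcX hcV
        linarith
      linarith
    · rw [(F.dZ ht₁ _ _).deriv]
      set f := u 0 t₁ - ψ A - ψ A' * t₁
      set Z := zeta (LC t₁) (u 0 t₁) - ψ A * h1 t₁ - ψ A' * h2 t₁
      have hl := G.l_le (F.hl t₁ ht₁)
      have hV' := hV t₁ G (φ t₁) (hG t₁ ht₁).2
      have hX' := hX t₁ G (φ t₁) (hG t₁ ht₁).2
      have hY' := hY t₁ G (φ t₁) (hG t₁ ht₁).2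
      have e1 : ‖-al t₁ * Z‖ ≤ β * M * ‖Z‖ := by
        rw [norm_mul, norm_neg, norm_al G.im]
        gcongr
      have e2 : ‖be t₁ * (LC t₁).g₂ / 12 * f‖ ≤ β * M * ‖f‖ := by
        rw [norm_mul, norm_div, norm_mul, norm_be G.im]
        have h12 : ‖(12 : ℂ)‖ = 12 := by norm_num
        rw [h12]
        have h3 : β * ‖(LC t₁).g₂‖ / 12 ≤ β * M := by
          have h4 : β * ‖(LC t₁).g₂‖ ≤ β * M := by gcongr
          have h5 : 0 ≤ β * M := by positivity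
          linarith
        gcongr
      have e3 : ‖be t₁ * l t₁ ^ 3 * (vl pl φ (℘'[L] (w 0)) t₁ / 2 -
          vl pl φ (℘[L] (w 0)) t₁ * vl pl φ (vv L D (aa L) 1 (w 0)) t₁)‖ ≤
          β * (cY + cX * cV) * N ^ (12 + mX + mY + mV) := by
        rw [norm_mul, norm_mul, norm_be G.im, norm_pow]
        have h1 : ‖vl pl φ (℘'[L] (w 0)) t₁ / 2 -
            vl pl φ (℘[L] (w 0)) t₁ * vl pl φ (vv L D (aa L) 1 (w 0)) t₁‖ ≤
            cY * N ^ mY + (cX * N ^ mX) * (cV * N ^ mV) := by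
          refine (norm_sub_le _ _).trans (add_le_add ?_ ?_)
          · rw [norm_div]
            have h2' : ‖(2 : ℂ)‖ = 2 := by norm_num
            rw [h2']
            have h3 : ‖vl pl φ (℘'[L] (w 0)) t₁‖ ≤ cY * N ^ mY := hY'
            have h4 := norm_nonneg (vl pl φ (℘'[L] (w 0)) t₁)
            linarith
          · rw [norm_mul]
            gcongr
            · exact hX'
            · exact hV'
        calc β * ‖l t₁‖ ^ 3 * _ ≤ β * (N ^ 4) ^ 3 * (cY * N ^ mY + (cX * N ^ mX) *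
              (cV * N ^ mV)) := by
              gcongr
          _ = β * (cY * N ^ (12 + mY) + cX * cV * N ^ (12 + mX + mV)) := by ring
          _ ≤ β * (cY * N ^ (12 + mX + mY + mV) + cX * cV * N ^ (12 + mX + mY + mV)) :=
              mul_le_mul_of_nonneg_left (add_le_add (mul_le_mul_of_nonneg_left
                (hpow _ (by omega)) hcY) (mul_le_mul_of_nonneg_left (hpow _ (by omega))
                  (by positivity))) hβ0
          _ = _ := by ring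
      have e4 : ‖-al t₁ * Z - be t₁ * (LC t₁).g₂ / 12 * f + be t₁ * l t₁ ^ 3 *
          (vl pl φ (℘'[L] (w 0)) t₁ / 2 -
            vl pl φ (℘[L] (w 0)) t₁ * vl pl φ (vv L D (aa L) 1 (w 0)) t₁)‖ ≤
          β * M * ‖Z‖ + β * M * ‖f‖ + β * (cY + cX * cV) * N ^ (12 + mX + mY + mV) :=
        (norm_add_le _ _).trans (add_le_add ((norm_sub_le _ _).trans (add_le_add e1 e2)) e3)
      refine e4.trans ?_
      have e5 : β * M * ‖Z‖ + β * M * ‖f‖ ≤
          β * (1 + cV + cY + cX * cV) * M * (‖f‖ + ‖Z‖) := by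
        have h1 : 1 ≤ 1 + cV + cY + cX * cV := by
          have := mul_nonneg hcX hcV
          linarith
        have h2 : 0 ≤ β * M * (‖f‖ + ‖Z‖) := by positivity
        nlinarith
      have e6 : β * (cY + cX * cV) * N ^ (12 + mX + mY + mV) ≤
          β * (1 + cV + cY + cX * cV) * N ^ (12 + mX + mY + mV) := by
        gcongr
        linarith
      linarith
  · refine ⟨fun _ => 0, fun _ => 0, analyticAt_const, analyticAt_const, ?_, ?_, ?_⟩
    · filter_upwards [Metric.ball_mem_nhds t₁ hr] with t ht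
      exact ⟨l t, fun i => u i t, A, A', hCh t ht, Or.inr ⟨hI, rfl, rfl⟩⟩
    · rw [deriv_const, norm_zero]
      positivity
    · rw [deriv_const, norm_zero]
      positivity

end Pool.Agent.Y685
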