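import Mathlib
import Pool.Agent.Y685.E1H
import Pool.Agent.Y119.PG.Grow
import Pool.Agent.Y119.NW.Main
import Pool.Agent.Y119.IC.Bdd
import Pool.Agent.Y119.IC.Cusp

/-!
# The function vanishes
-/

set_option autoImplicit false

open Finset Filter UpperHalfPlane
open scoped Topology PeriodPair

noncomputable section

namespace Pool.Agent.Y685

open H667R3 Pool.Agent.W245.EB

theorem mob_SL (γ : Matrix.SpecialLinearGroup (Fin 2) ℤ) (τ : ℍ) :
    Mob (τ : ℂ) ((γ • τ : ℍ) : ℂ) (denom γ τ)⁻¹ (γ 0 0) (γ 0 1) (γ 1 0) (γ 1 1) := by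
  have hd : denom γ τ = (γ 1 0 : ℂ) * τ + (γ 1 1 : ℂ) := by
    rw [ModularGroup.denom_apply]
  have h0 : denom γ τ ≠ 0 := denom_ne_zero _ τ
  refine ⟨τ.im_pos, (γ • τ).im_pos, ?_, ?_, ?_⟩
  · have := γ.det_coe
    rw [Matrix.det_fin_two] at this
    linarith
  · rw [← hd, inv_mul_cancel₀ h0]
  · rw [coe_specialLinearGroup_apply, hd]
    simp
    ring

theorem tendsto_coe_ne (τ : ℍ) : Tendsto (fun t : ℍ => (t : ℂ)) (𝓝[≠] τ) (𝓝[≠] (τ : ℂ)) := by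
  refine tendsto_nhdsWithin_of_tendsto_nhds_of_eventually_within _ ?_ ?_
  · exact (UpperHalfPlane.continuous_coe.tendsto τ).mono_left nhdsWithin_le_nhds
  · filter_upwards [self_mem_nhdsWithin] with t ht h
    exact ht (UpperHalfPlane.ext h)

variable {L : PeriodPair} {D : Derivation ℚ ℂ ℂ}
variable {s : ℕ} {e w : Fin (s + 1) → ℂ} {a b : ℂ} {ψ : ℂ →ₗ[ℚ] ℚ} {h : Nrm L D}
variable {pl : Plc (Cst D) L.g₂ D (EE D) (ZZ L e w a b)} {t : ℂ}

theorem psi_isolated (hne : ∃ t, Good pl t) {t : ℂ} (ht : 0 < t.im) :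
    ∀ᶠ r in 𝓝[≠] t, Psi pl.H r ≠ 0 := by
  rcases (an_Psi pl.H ht).eventually_eq_zero_or_eventually_ne_zero with h1 | h1
  · exfalso
    obtain ⟨t₀, G⟩ := hne
    have ha : AnalyticOnNhd ℂ (Psi pl.H) HP := fun r hr => an_Psi pl.H hr
    have h2 := ha.eqOn_zero_of_preconnected_of_eventuallyEq_zero convex_HP.isPreconnected ht h1
      G.im
    exact G.psi h2
  · exact h1

/-- **the function vanishes** -/
theorem vanish (B : Bd h e w a b ψ) (hne : ∃ t, Good pl t) {t : ℂ} (G : Good pl t)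
    {θ f Z : ℂ} (hθ : θ ∈ pl.Rt (gh t)) (hV : VV pl ψ t θ f Z) : f = 0 := by
  -- growth
  obtain ⟨c, m, hc, hloc⟩ := SS_local (ψ := ψ) B pl
  obtain ⟨cM, hcM⟩ := Mf_bdd Pool.Agent.Y119.IC.task_C1 pl.H
  have hbd : ∃ K : ℝ, ∀ t : ℂ, 1 ≤ t.im → ‖Psi pl.H t‖ ≤ K :=
    ⟨cM, fun t ht => (Mf_ge pl.H t).2.2.2.2.2.trans (hcM t ht)⟩
  have hdiff : ∀ t : ℂ, 0 < t.im → DifferentiableAt ℂ (Psi pl.H) t :=
    fun t ht => (an_Psi pl.H ht).differentiableAt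
  have hper : ∀ t : ℂ, 0 < t.im → Psi pl.H (t + 1) = Psi pl.H t := fun t ht => Psi_T _ ht
  have hnz : ∃ t : ℂ, 0 < t.im ∧ Psi pl.H t ≠ 0 := by
    obtain ⟨t, G⟩ := hne
    exact ⟨t, G.im, G.psi⟩
  obtain ⟨hgr1, cG, TG, hgr2⟩ := Pool.Agent.Y119.PG.task_G (Psi pl.H) hdiff hper hbd hnz
    (SS pl ψ) (fun t => c * Mf pl.H t ^ (2 * m + 1 + 2 * m)) (2 * m) (fun t ht => SS_T B ht)
    (fun t ht => continuousAt_const.mul ((Mf_cont pl.H ht).pow _))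
    ⟨c * cM ^ (2 * m + 1 + 2 * m), fun t ht => by
      have h1 := (Mf_ge pl.H t).1
      have h2 := hcM t ht
      gcongr⟩ hloc
  -- the zeros have bounded imaginary parts
  obtain ⟨cc, nn, TT, hcc, hCu⟩ := Pool.Agent.Y119.IC.task_C2 (Psi pl.H) hdiff hper hbd hnz
  have hgoodT : ∀ τ : ℍ, TT ≤ τ.im → Psi pl.H τ ≠ 0 := by
    intro τ hτ h0
    have h1 := hCu τ hτ
    rw [h0, norm_zero] at h1
    have h2 : 0 < cc * Real.exp (-(nn * (τ : ℂ).im)) := mul_pos hcc (Real.exp_pos _)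
    linarith
  have hcont : Continuous (fun τ : ℍ => Psi pl.H τ) := by
    rw [continuous_iff_continuousAt]
    intro τ
    exact ContinuousAt.comp (f := fun τ : ℍ => (τ : ℂ)) (an_Psi pl.H τ.im_pos).continuousAt
      UpperHalfPlane.continuous_coe.continuousAt
  have hmob0 : ∀ (γ : Matrix.SpecialLinearGroup (Fin 2) ℤ) (τ : ℍ),
      Psi pl.H ((γ • τ : ℍ) : ℂ) = 0 ↔ Psi pl.H τ = 0 := by
    intro γ τ
    rw [Psi_mob pl.H (mob_SL γ τ), div_eq_zero_iff]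
    constructor
    · rintro (h1 | h1)
      · exact h1
      · exact absurd h1 (pow_ne_zero _ (mob_SL γ τ).c0)
    · exact fun h1 => Or.inl h1
  have key := Pool.Agent.Y119.NW.task_E2 pl.d {τ : ℍ | Psi pl.H τ = 0}
    (fun τ i => (pv pl ψ τ (EN pl τ i)).1 ^ 2)
    (isClosed_singleton.preimage hcont)
    (fun τ => (tendsto_coe_ne τ).eventually (psi_isolated hne τ.im_pos))
    (fun γ τ hτ => (hmob0 γ τ).2 hτ)
    ⟨TT, fun τ hτ => by
      by_contra hcon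
      exact hgoodT τ (not_le.1 hcon).le hτ⟩
    (by
      intro τ₁ hτ₁
      have G₁ : Good pl (τ₁ : ℂ) := (good_iff τ₁.im_pos).2 hτ₁
      obtain ⟨c₁, m₁, -, H⟩ := all_branches (ψ := ψ) B pl
      obtain ⟨φ, f, Z, hf, hZ, hev, -⟩ := H τ₁ G₁
      refine ⟨f, hf, ?_⟩
      have h1 := (UpperHalfPlane.continuous_coe.tendsto τ₁).eventually hev
      filter_upwards [h1] with t ht
      exact (F_perm B ht.1 ht.2.1 ht.2.2.1 ht.2.2.2).1)
    (by
      intro γ τ hτ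
      have G₁ : Good pl (τ : ℂ) := (good_iff τ.im_pos).2 hτ
      have G₂ : Good pl ((γ • τ : ℍ) : ℂ) :=
        (good_iff (γ • τ).im_pos).2 (fun h1 => hτ ((hmob0 γ τ).1 h1))
      have M := mob_SL γ τ
      obtain ⟨hE, hR⟩ := EN_spec G₁
      have h1 : ∀ i, VV pl ψ ((γ • τ : ℍ) : ℂ) (EN pl τ i)
          ((denom γ τ)⁻¹ * (pv pl ψ τ (EN pl τ i)).1)
          ((pv pl ψ τ (EN pl τ i)).2 / (denom γ τ)⁻¹) :=
        fun i => VV.mob G₁ M (pv_spec B G₁ (EN_mem G₁ i))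
      obtain ⟨σ, hσ⟩ := (F_perm B G₂ hE (by rw [gh_mob M, hR]) h1).1
      refine ⟨σ, fun i => ?_⟩
      rw [hσ i, mul_pow, inv_pow, zpow_neg]
      norm_cast)
    (by
      intro τ₁ hτ₁
      obtain ⟨C, n, h1⟩ := hgr1 τ₁ τ₁.im_pos hτ₁
      refine ⟨C, n, ?_⟩
      have h2 := (tendsto_coe_ne τ₁).eventually (h1.and (psi_isolated hne τ₁.im_pos))
      filter_upwards [h2] with t ht i
      exact (pv_le ((good_iff t.im_pos).2 ht.2) i).trans ht.1)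
    ⟨cG, max TG TT, fun τ hτ i => by
      have G₁ : Good pl (τ : ℂ) := (good_iff τ.im_pos).2 (hgoodT τ ((le_max_right _ _).trans hτ))
      exact (pv_le G₁ i).trans (hgr2 τ ((le_max_left _ _).trans hτ))⟩
    (by
      intro τ hτ i M hM
      have G₁ : Good pl (τ : ℂ) := (good_iff τ.im_pos).2 hτ
      exact Val.omit τ.im_pos (pv_spec B G₁ (EN_mem G₁ i)) hM)
  -- conclusion
  have h1 := key ⟨t, G.im⟩ G.psi
  rw [(EN_spec G).2] at hθ
  obtain ⟨i, rfl⟩ := hθ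
  have h2 : (pv pl ψ t (EN pl t i)).1 ^ 2 = 0 := h1 i
  have h3 := (VV.unique B G (EN_mem G i) (pv_spec B G (EN_mem G i)) hV).1
  rw [h2] at h3
  exact pow_eq_zero_iff two_ne_zero |>.1 h3

end Pool.Agent.Y685
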