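import Mathlib
import Pool.Agent.Y685.E1I
import Pool.Agent.Y685.ConstC

/-!
# There are no relations
-/

set_option autoImplicit false

open Finset Filter UpperHalfPlane
open scoped Topology PeriodPair

noncomputable section

namespace Pool.Agent.Y685

open H667R3 Pool.Agent.W245.EB Pool.Agent.TH813.Ell
open Pool.Agent.TH813.Rel (DF MK)

variable {k : Subfield ℂ} {τ l : ℂ} {n : ℕ} {z : Fin n → ℂ} {D : Derivation ℚ ℂ ℂ}

theorem Gp.gh_eq (h : Gp k τ l z D) : Y685.gh τ = h.Lh.g₂ := by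
  have hl := h.l0
  have hg := h.g2
  rw [h.gh, Y685.gh, ← h.hl]
  field_simp

/-- **there are no relations** -/
theorem Gp.no_Bad (hP : S_P) (h : Gp k τ l z D) {s : ℕ} {e w : Fin s → ℂ} {a b : ℂ} :
    ¬ Bad h.nrm e w a b := by
  intro B₀
  obtain ⟨s', e', w', a', b', ψ, B⟩ := B₀.norm
  obtain ⟨pl⟩ := B.exists_Plc hP
  have hl := h.l0
  have hgh := h.gh_eq
  have G : Good pl τ := ⟨h.im, h.g2, h.g3, by rw [hgh]; exact pl.H0⟩
  have hθ : pl.θ₀ ∈ pl.Rt (Y685.gh τ) := by rw [hgh]; exact pl.hθ₀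
  have hw : ∀ i, w' i ∉ h.Lh.lattice := fun i => two_mul_notMem_of _ (two_notMem (B.hw i))
  have hlw : ∀ i, l * (w' i / l) = w' i := fun i => by field_simp
  have hw2 : ∀ i, w' i / l ∉ (LC τ).lattice := fun i => by
    rw [← h.hm.notMem, hlw]
    exact hw i
  have hCh : Ch τ e' (fun i => pl.ev (Y685.gh τ) pl.θ₀ (℘[h.Lh] (w' i)))
      (fun i => pl.ev (Y685.gh τ) pl.θ₀ (℘'[h.Lh] (w' i)))
      (pl.ev (Y685.gh τ) pl.θ₀ (∑ k, e' k * w' k - Om h.Lh a' b'))
      (pl.ev (Y685.gh τ) pl.θ₀ (∑ k, e' k * zt h.Lh (w' k) - Et h.Lh a' b')) l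
      (fun i => w' i / l) a' b' := by
    refine ⟨h.hl, hw2, fun i => ?_, fun i => ?_, ?_, ?_⟩
    · rw [hgh, pl.hid _ (pl.mX i)]
      have h1 := h.hm.wp (w' i / l)
      rw [hlw] at h1
      rw [h1]
      field_simp
    · rw [hgh, pl.hid _ (pl.mY i)]
      have h1 := h.hm.wp' (w' i / l)
      rw [hlw] at h1
      rw [h1]
      field_simp
    · rw [hgh, pl.hid _ pl.mK₁, Om, h.o1, h.o2]
      have h2 : ∑ i, e' i * (w' i / l) = (∑ i, e' i * w' i) / l := by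
        rw [sum_div]
        exact sum_congr rfl (fun i _ => by ring)
      rw [h2]
      field_simp
      ring
    · rw [hgh, pl.hid _ pl.mK₂, Et, h.n1, h.n2]
      have h2 : ∑ i, e' i * zeta (LC τ) (w' i / l) = l * ∑ i, e' i * zt h.Lh (w' i) := by
        rw [mul_sum]
        refine sum_congr rfl (fun i _ => ?_)
        have h1 := h.hm.zeta (w' i / l)
        rw [hlw] at h1
        rw [zt_of_notMem (hw i), h1]
        field_simp
      rw [h2]
      field_simp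
      ring
  have hV : VV pl ψ τ pl.θ₀ (w' 0 / l - ψ a' - ψ b' * τ)
      (zeta (LC τ) (w' 0 / l) - ψ a' * h1 τ - ψ b' * h2 τ) :=
    ⟨l, fun i => w' i / l, a', b', hCh, Or.inl ⟨⟨⟨0, by rw [B.ψa]; norm_num⟩,
      ⟨0, by rw [B.ψb]; norm_num⟩⟩, rfl, rfl⟩⟩
  have h0 := vanish B ⟨τ, G⟩ G hθ hV
  rw [B.ψa, B.ψb] at h0
  apply B.hw 0
  have h1 : w' 0 = 0 := by
    have h2 : w' 0 / l = 0 := by
      push_cast at h0
      linear_combination h0
    rcases div_eq_zero_iff.1 h2 with h3 | h3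
    · exact h3
    · exact absurd h3 hl
  rw [h1]
  exact zero_mem _

/-- **the rank over the field of the periods** -/
theorem Gp.rank_ge (hP : S_P) (h : Gp k τ l z D) {m : ℕ} {p : Fin m → ℂ}
    (hp : ∀ i, p i ∈ Cm h.nrm) (hind : LinearIndependent ℚ (fun i => (PQ h.Lh).mkQ (p i))) :
    ((2 * m : ℕ) : ℕ∞) ≤ (MK (K1 h.Lh h.Dh)).eRk (EP h.Lh p) := by
  by_contra hcon
  obtain ⟨s, e, w, a, b, B⟩ := partC h.nrm h.sl2 hp hind (not_le.1 hcon)
  exact h.no_Bad hP B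

end Pool.Agent.Y685
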