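import Mathlib
import Pool.Agent.Y685.E1J

/-!
# Ranks over the constants
-/

set_option autoImplicit false

open Finset Filter Module
open scoped Topology PeriodPair

noncomputable section

namespace Pool.Agent.Y685

open H667R3 Pool.Agent.W245.EB Pool.Agent.TH813.Ell
open Pool.Agent.TH813.Rel (DF MK subset_cl rk_le_of_subset_cl)

variable {C C' : IntermediateField ℚ ℂ} {S A B : Set ℂ}

/-- the values of derivations on a set -/
def evS (C : IntermediateField ℚ ℂ) (S : Set ℂ) : DF C →ₗ[ℂ] (S → ℂ) where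
  toFun := fun D s => (D : Derivation ℚ ℂ ℂ) s
  map_add' := fun _ _ => rfl
  map_smul' := fun _ _ => rfl

theorem rank_evS (hS : S.Finite) :
    ((finrank ℂ (LinearMap.range (evS C S)) : ℕ) : ℕ∞) = (MK C).eRk S :=
  rank_of_ker S hS (evS C S) (fun _ =>
    ⟨fun h x hx => congrFun h ⟨x, hx⟩, fun h => funext fun s => h s s.2⟩)

/-- the rank decreases if the base field increases -/
theorem rank_mono_base (h : C ≤ C') (hS : S.Finite) : (MK C').eRk S ≤ (MK C).eRk S := by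
  have : Fintype S := hS.fintype
  rw [← rank_evS hS, ← rank_evS hS]
  have h1 : LinearMap.range (evS C' S) ≤ LinearMap.range (evS C S) := by
    rintro _ ⟨D, rfl⟩
    exact ⟨⟨D.1, fun x hx => D.2 x (h hx)⟩, rfl⟩
  exact_mod_cast Submodule.finrank_mono h1

/-- additivity of the rank -/
theorem rank_add (hA : A.Finite) (hB : B.Finite) :
    (MK C).eRk (A ∪ B) = (MK C).eRk A + (MK (clo C A)).eRk B := by
  have : Fintype A := hA.fintype
  have : Fintype B := hB.fintype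
  have hAB := hA.union hB
  have : Fintype ↥(A ∪ B) := hAB.fintype
  rw [← rank_evS hA, ← rank_evS hB, ← rank_evS hAB]
  let R := LinearMap.range (evS C (A ∪ B))
  let r : (↥(A ∪ B) → ℂ) →ₗ[ℂ] (A → ℂ) :=
    { toFun := fun v a => v ⟨a, Or.inl a.2⟩
      map_add' := fun _ _ => rfl
      map_smul' := fun _ _ => rfl }
  let q : (↥(A ∪ B) → ℂ) →ₗ[ℂ] (B → ℂ) :=
    { toFun := fun v a => v ⟨a, Or.inr a.2⟩
      map_add' := fun _ _ => rfl
      map_smul' := fun _ _ => rfl }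
  have h1 := LinearMap.finrank_range_add_finrank_ker (r.domRestrict R)
  have h2 : LinearMap.range (r.domRestrict R) = LinearMap.range (evS C A) := by
    ext v
    constructor
    · rintro ⟨⟨_, D, rfl⟩, rfl⟩
      exact ⟨D, rfl⟩
    · rintro ⟨D, rfl⟩
      exact ⟨⟨_, D, rfl⟩, rfl⟩
  let K := LinearMap.ker (r.domRestrict R)
  let f : K →ₗ[ℂ] (B → ℂ) := q ∘ₗ R.subtype ∘ₗ K.subtype
  have hf : Function.Injective f := by
    rw [injective_iff_map_eq_zero]
    rintro ⟨⟨v, hv⟩, hv2⟩ h0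
    have h3 : r v = 0 := hv2
    have h4 : q v = 0 := h0
    apply Subtype.ext
    apply Subtype.ext
    funext x
    rcases x.2 with hx | hx
    · exact congrFun h3 ⟨x, hx⟩
    · exact congrFun h4 ⟨x, hx⟩
  have h3 : LinearMap.range f = LinearMap.range (evS (clo C A) B) := by
    ext v
    constructor
    · rintro ⟨⟨⟨_, D, rfl⟩, hD⟩, rfl⟩
      have hD' : r (evS C (A ∪ B) D) = 0 := hD
      exact ⟨⟨D.1, mem_DF_clo.2 ⟨D.2, fun s hs => congrFun hD' ⟨s, hs⟩⟩⟩, rfl⟩
    · rintro ⟨D, rfl⟩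
      obtain ⟨h4, h5⟩ := mem_DF_clo.1 D.2
      refine ⟨⟨⟨evS C (A ∪ B) ⟨D.1, h4⟩, ⟨_, rfl⟩⟩, ?_⟩, rfl⟩
      rw [LinearMap.mem_ker]
      funext a
      exact h5 a a.2
  have h4 : finrank ℂ K = finrank ℂ (LinearMap.range (evS (clo C A) B)) := by
    rw [← h3, LinearMap.finrank_range_of_inj hf]
  have h5 : finrank ℂ (LinearMap.range (evS C (A ∪ B))) =
      finrank ℂ (LinearMap.range (evS C A)) + finrank ℂ (LinearMap.range (evS (clo C A) B)) := by
    rw [← h4, ← h2]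
    exact h1.symm
  rw [h5]
  push_cast
  rfl

theorem Gen_finite {L : PeriodPair} : (Gen L).Finite := by
  unfold Gen
  exact Set.toFinite _

variable {k : Subfield ℂ} {τ l : ℂ} {n : ℕ} {z : Fin n → ℂ} {D : Derivation ℚ ℂ ℂ}

theorem Gp.rank_Gen (h : Gp k τ l z D) : (4 : ℕ∞) ≤ (MK (Cst h.Dh)).eRk (Gen h.Lh) := by
  have hl := h.l0
  have hai : AlgebraicIndependent (Cst h.Dh) (yy τ) := by
    rw [h.Cst_Dh]
    exact h.Dy.algInd
  have hI : (MK (Cst h.Dh)).Indep (Set.range (yy τ)) := by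
    rw [AlgebraicIndependent.matroid_indep_iff]
    exact hai.coe_range
  have h2 : (Set.range (yy τ)).encard = 4 := by
    rw [← Set.image_univ, hai.injective.encard_image, Set.encard_univ]
    simp
  rw [← h2, ← hI.eRk_eq_encard]
  apply rk_le_of_subset_cl
  rintro _ ⟨i, rfl⟩
  rw [mem_cl_iff]
  intro δ hδ hS
  have d1 : δ l = 0 := by
    have := hS h.Lh.ω₁ (by right; left; rfl)
    rwa [h.o1] at this
  have d2 : δ (l * τ) = 0 := by
    have := hS h.Lh.ω₂ (by right; right; left; rfl)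
    rwa [h.o2] at this
  have d3 : δ (h1 τ / l) = 0 := by
    have := hS (eta h.Lh h.Lh.ω₁) (by right; right; right; left; rfl)
    rwa [h.n1] at this
  have d4 : δ h.Lh.g₂ = 0 := hS h.Lh.g₂ (by left; rfl)
  have m1 : ∀ u v : ℂ, δ u = 0 → δ v = 0 → δ (u * v) = 0 := fun u v hu hv => by
    rw [D_mul, hu, hv, mul_zero, mul_zero, add_zero]
  have m2 : δ (l⁻¹) = 0 := by rw [Derivation.leibniz_inv, d1, smul_zero]
  have g2 : δ (LC τ).g₂ = 0 := by
    have e1 : (LC τ).g₂ = h.Lh.g₂ * (l * l * (l * l)) := by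
      rw [h.gh]
      field_simp
    rw [e1]
    exact m1 _ _ d4 (m1 _ _ (m1 _ _ d1 d1) (m1 _ _ d1 d1))
  fin_cases i
  · have e1 : τ = l⁻¹ * (l * τ) := by field_simp
    change δ τ = 0
    rw [e1]
    exact m1 _ _ m2 d2
  · have e1 : h1 τ = l * (h1 τ / l) := by field_simp
    change δ (h1 τ) = 0
    rw [e1]
    exact m1 _ _ d1 d3
  · exact g2
  · change δ (LC τ).g₃ = 0
    rw [← h.hl, pow_two]
    exact m1 _ _ (m1 _ _ d1 d1) g2

/-- **the rank over the constants** -/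
theorem Gp.rank_total (hP : S_P) (h : Gp k τ l z D) {m : ℕ} {p : Fin m → ℂ}
    (hp : ∀ i, p i ∈ Cm h.nrm) (hind : LinearIndependent ℚ (fun i => (PQ h.Lh).mkQ (p i))) :
    ((4 + 2 * m : ℕ) : ℕ∞) ≤ (MK (Cst h.Dh)).eRk (Gen h.Lh ∪ EP h.Lh p) := by
  rw [rank_add Gen_finite (EP_finite p)]
  push_cast
  refine add_le_add h.rank_Gen ?_
  exact_mod_cast h.rank_ge hP hp hind

end Pool.Agent.Y685
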