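import Mathlib
import Pool.Agent.Y685.F1
import Pool.Agent.Y119.PG.PlcMain
import Pool.Agent.TH813.EKBase

/-!
# General lattices
-/

set_option autoImplicit false

open Finset Filter Module
open scoped Topology PeriodPair

noncomputable section

namespace Pool.Agent.Y685

open H667R3 Pool.Agent.W245.EB Pool.Agent.TH813.Ell
open Pool.Agent.TH813.Rel (DF MK subset_cl rk_le_of_subset_cl)

variable {L L' : PeriodPair} {C F : IntermediateField ℚ ℂ} {c : ℂ}

/-- the numbers attached to a lattice -/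
def GenL (L : PeriodPair) : Set ℂ :=
  {L.g₂, L.g₃, L.ω₁, L.ω₂, eta L L.ω₁, eta L L.ω₂}

theorem GenL_finite : (GenL L).Finite := by
  unfold GenL
  exact Set.toFinite _

/-- derivations which kill the numbers attached to a lattice kill all periods and quasi-periods -/
theorem kill_lattice {δ : Derivation ℚ ℂ ℂ} (h : ∀ x ∈ GenL L, δ x = 0) {ω : ℂ}
    (hω : ω ∈ L.lattice) : δ ω = 0 ∧ δ (eta L ω) = 0 := by
  obtain ⟨m, n, rfl⟩ := PeriodPair.mem_lattice.1 hω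
  have hm : δ (m : ℂ) = 0 := δ.map_intCast m
  have hn : δ (n : ℂ) = 0 := δ.map_intCast n
  have d1 : δ L.ω₁ = 0 := h _ (by right; right; left; rfl)
  have d2 : δ L.ω₂ = 0 := h _ (by right; right; right; left; rfl)
  have d3 : δ (eta L L.ω₁) = 0 := h _ (by right; right; right; right; left; rfl)
  have d4 : δ (eta L L.ω₂) = 0 := h _ (by right; right; right; right; right; rfl)
  have m1 := intCast_mul_mem L L.ω₁_mem_lattice m
  have m2 := intCast_mul_mem L L.ω₂_mem_lattice n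
  refine ⟨?_, ?_⟩
  · rw [map_add, D_mul, D_mul, hm, hn, d1, d2]
    ring
  · rw [eta_add _ m1 m2, eta_zsmul _ L.ω₁_mem_lattice, eta_zsmul _ L.ω₂_mem_lattice, map_add,
      D_mul, D_mul, hm, hn, d3, d4]
    ring

/-- the numbers attached to an isomorphic normalized lattice are algebraic over the numbers
attached to the lattice -/
theorem transfer {l : ℂ} (h : Hm L L' l) (hl : l ^ 2 * L.g₂ = L.g₃) (g2 : L.g₂ ≠ 0) {m : ℕ}
    (p : Fin m → ℂ) : Gen L' ∪ EP L' (fun i => l * p i) ⊆ (MK C).closure (GenL L ∪ EP L p) := by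
  intro x hx
  rw [mem_cl_iff]
  intro δ _ hS
  have hl0 := h.c0
  have hG : ∀ x ∈ GenL L, δ x = 0 := fun x hx => hS x (Or.inl hx)
  have hE : ∀ x ∈ EP L p, δ x = 0 := fun x hx => hS x (Or.inr hx)
  have m1 : ∀ u v : ℂ, δ u = 0 → δ v = 0 → δ (u * v) = 0 := fun u v hu hv => by
    rw [D_mul, hu, hv, mul_zero, mul_zero, add_zero]
  have dg2 : δ L.g₂ = 0 := hG _ (by left; rfl)
  have dg3 : δ L.g₃ = 0 := hG _ (by right; left; rfl)
  have dl : δ l = 0 := by
    have e1 := congrArg δ hl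
    rw [D_mul, D_pow, dg2, dg3] at e1
    norm_num at e1
    rcases e1 with h1 | h1 | h1
    · exact absurd h1 g2
    · exact absurd h1 hl0
    · exact h1
  have dl' : δ l⁻¹ = 0 := by rw [Derivation.leibniz_inv, dl, smul_zero]
  have dm : ∀ u, δ u = 0 → δ (u / l) = 0 := fun u hu => by
    rw [div_eq_mul_inv]
    exact m1 _ _ hu dl'
  have key : ∀ ω ∈ L'.lattice, δ ω = 0 ∧ δ (eta L' ω) = 0 := by
    intro ω hω
    have e1 : ω = l * (ω / l) := by field_simp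
    have e2 : ω / l ∈ L.lattice := by
      rw [← h.mem, ← e1]
      exact hω
    obtain ⟨k1, k2⟩ := kill_lattice hG e2
    constructor
    · rw [e1]
      exact m1 _ _ dl k1
    · rw [e1, h.eta e2]
      exact dm _ k2
  rcases hx with (rfl | rfl | rfl | rfl | rfl) | ⟨i, rfl⟩ | ⟨i, rfl⟩ | ⟨i, rfl⟩
  · rw [h.g₂]
    have : L.g₂ / l ^ 4 = L.g₂ / l / l / l / l := by field_simp
    rw [this]
    exact dm _ (dm _ (dm _ (dm _ dg2)))
  · exact (key _ L'.ω₁_mem_lattice).1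
  · exact (key _ L'.ω₂_mem_lattice).1
  · exact (key _ L'.ω₁_mem_lattice).2
  · exact (key _ L'.ω₂_mem_lattice).2
  · exact m1 _ _ dl (hE _ (Or.inl ⟨i, rfl⟩))
  · change δ (zt L' (l * p i)) = 0
    rw [h.zt]
    exact dm _ (hE _ (Or.inr (Or.inl ⟨i, rfl⟩)))
  · change δ (℘[L'] (l * p i)) = 0
    rw [h.wp]
    have : ℘[L] (p i) / l ^ 2 = ℘[L] (p i) / l / l := by field_simp
    rw [this]
    exact dm _ (dm _ (hE _ (Or.inr (Or.inr ⟨i, rfl⟩))))

/-- rational multiples of periods -/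
theorem mem_PQ_iff' {x : ℂ} : x ∈ PQ L ↔ ∃ N : ℕ, 0 < N ∧ (N : ℂ) * x ∈ L.lattice := by
  constructor
  · intro hx
    obtain ⟨q, q', rfl⟩ := mem_PQ_iff.1 hx
    refine ⟨q.den * q'.den, Nat.mul_pos q.pos q'.pos, ?_⟩
    rw [PeriodPair.mem_lattice]
    refine ⟨q.num * q'.den, q'.num * q.den, ?_⟩
    have hq : (q : ℂ) * q.den = q.num := by exact_mod_cast Rat.mul_den_eq_num q
    have hq' : (q' : ℂ) * q'.den = q'.num := by exact_mod_cast Rat.mul_den_eq_num q'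
    rw [Om]
    push_cast
    rw [← hq, ← hq']
    ring
  · rintro ⟨N, hN, h⟩
    have hN' : (N : ℂ) ≠ 0 := by
      have : N ≠ 0 := hN.ne'
      exact_mod_cast this
    obtain ⟨m, n, hmn⟩ := PeriodPair.mem_lattice.1 h
    rw [mem_PQ_iff]
    refine ⟨m / N, n / N, ?_⟩
    rw [Om]
    push_cast
    field_simp
    linear_combination -hmn

theorem Hm.PQ (h : Hm L L' c) {x : ℂ} : c * x ∈ Y685.PQ L' ↔ x ∈ Y685.PQ L := by
  rw [mem_PQ_iff', mem_PQ_iff']
  have h1 : ∀ N : ℕ, (N : ℂ) * (c * x) ∈ L'.lattice ↔ (N : ℂ) * x ∈ L.lattice := fun N => by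
    rw [← h.mem]
    have : (N : ℂ) * (c * x) = c * (N * x) := by ring
    rw [this]
  simp only [h1]

/-- independence modulo the periods -/
theorem indep_iff {m : ℕ} {p : Fin m → ℂ} :
    LinearIndependent ℚ (fun i => (PQ L).mkQ (p i)) ↔
      ∀ q : Fin m → ℚ, ∑ i, (q i : ℂ) * p i ∈ PQ L → ∀ i, q i = 0 := by
  rw [Fintype.linearIndependent_iff]
  refine forall_congr' (fun q => ?_)
  have h1 : ∑ i, q i • (PQ L).mkQ (p i) = (PQ L).mkQ (∑ i, (q i : ℂ) * p i) := by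
    rw [map_sum]
    refine sum_congr rfl (fun i _ => ?_)
    rw [← Rat.smul_def, map_smul]
  rw [h1]
  have h2 : (PQ L).mkQ (∑ i, (q i : ℂ) * p i) = 0 ↔ ∑ i, (q i : ℂ) * p i ∈ PQ L :=
    Submodule.Quotient.mk_eq_zero _
  rw [h2]

theorem Hm.indep (h : Hm L L' c) {m : ℕ} {p : Fin m → ℂ}
    (hp : LinearIndependent ℚ (fun i => (Y685.PQ L).mkQ (p i))) :
    LinearIndependent ℚ (fun i => (Y685.PQ L').mkQ (c * p i)) := by
  rw [indep_iff] at hp ⊢
  intro q hq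
  apply hp q
  rw [← h.PQ, mul_sum]
  have h1 : ∑ i, c * ((q i : ℂ) * p i) = ∑ i, (q i : ℂ) * (c * p i) :=
    sum_congr rfl (fun i _ => by ring)
  rw [h1]
  exact hq

theorem notMem_of_indep {m : ℕ} {p : Fin m → ℂ}
    (hp : LinearIndependent ℚ (fun i => (PQ L).mkQ (p i))) (i : Fin m) : p i ∉ PQ L := by
  intro h
  apply hp.ne_zero i
  exact (Submodule.Quotient.mk_eq_zero _).2 h

/-- countable fields which contain `2 π i` -/
theorem exists_field (F : IntermediateField ℚ ℂ) (hF : (F : Set ℂ).Countable) :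
    ∃ k : Subfield ℂ, (k : Set ℂ).Countable ∧ (F : Set ℂ) ⊆ k ∧
      (2 * Real.pi * Complex.I : ℂ) ∈ k := by
  refine ⟨Subfield.closure ((F : Set ℂ) ∪ {2 * Real.pi * Complex.I}), ?_, ?_, ?_⟩
  · have h1 : ((F : Set ℂ) ∪ {2 * Real.pi * Complex.I}).Countable :=
      hF.union (Set.countable_singleton _)
    have h2 := Subfield.cardinalMk_closure_le_max ((F : Set ℂ) ∪ {2 * Real.pi * Complex.I})
    rw [← Cardinal.le_aleph0_iff_set_countable]
    refine h2.trans (max_le ?_ le_rfl)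
    rwa [Cardinal.le_aleph0_iff_set_countable]
  · exact fun x hx => Subfield.subset_closure (Or.inl hx)
  · exact Subfield.subset_closure (Or.inr rfl)

theorem be_mem {k : Subfield ℂ} (hk : (2 * Real.pi * Complex.I : ℂ) ∈ k) {τ : ℂ}
    (hτ : 0 < τ.im) : be τ ∈ k := by
  obtain ⟨n, hn, h⟩ := legendre (LC τ)
  rw [LC_ω₁, LC_ω₂ hτ, one_mul] at h
  have h1 : Wc τ = n * (2 * Real.pi * Complex.I) := by
    rw [← h]
    rfl
  unfold be
  rw [h1, one_div]
  exact inv_mem (mul_mem (intCast_mem k n) hk)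

/-- **F2b** independence modulo periods, for all lattices outside a countable set -/
theorem rank_mod_periods (F : IntermediateField ℚ ℂ) (hF : (F : Set ℂ).Countable) :
    ∃ T : Set ℂ, T.Countable ∧ ∀ τ : ℂ, 0 < τ.im → τ ∉ T → ∀ (L : PeriodPair) (c : ℂ),
      Hm (LC τ) L c → ∀ (m : ℕ) (p : Fin m → ℂ),
      LinearIndependent ℚ (fun i => (PQ L).mkQ (p i)) →
      ∃ D : Derivation ℚ ℂ ℂ, F ≤ Cst D ∧ (2 * Real.pi * Complex.I : ℂ) ∈ Cst D ∧
        ((4 + 2 * m : ℕ) : ℕ∞) ≤ (MK (Cst D)).eRk (GenL L ∪ EP L p) := by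
  obtain ⟨k, hk, hFk, hpi⟩ := exists_field F hF
  obtain ⟨T₀, hT₀, hT₀'⟩ := algInd_yy k hk
  choose T hT hT' using fun m : ℕ => app_B k hk m
  refine ⟨T₀ ∪ ⋃ m, T m, hT₀.union (Set.countable_iUnion hT), fun τ hτ hτT L c hL m p hp => ?_⟩
  have hτ0 : τ ∉ T₀ := fun h => hτT (Or.inl h)
  have hτm : τ ∉ T m := fun h => hτT (Or.inr (Set.mem_iUnion.2 ⟨m, h⟩))
  have hL' := hL.symm
  have hz := hL'.indep hp
  have hzn : ∀ i, 2 * (c⁻¹ * p i) ∉ (LC τ).lattice := fun i => two_notMem (notMem_of_indep hz i)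
  obtain ⟨D, hD⟩ := hT' m τ hτ hτm (fun i => c⁻¹ * p i)
    (fun i => two_mul_notMem_of _ (hzn i))
  have hai := hT₀' τ hτ hτ0
  have g2 : (LC τ).g₂ ≠ 0 := hai.ne_zero 2
  obtain ⟨l, hl⟩ := IsAlgClosed.exists_pow_nat_eq ((LC τ).g₃ / (LC τ).g₂) two_pos
  have h : Gp k τ l (fun i => c⁻¹ * p i) D :=
    ⟨hτ, be_mem hpi hτ, hai, hD, by rw [hl, div_mul_cancel₀ _ g2]⟩
  have hc := hL.c0
  have htr : Hm L h.Lh (l * c⁻¹) := hL'.trans h.hm
  have hl2 : (l * c⁻¹) ^ 2 * L.g₂ = L.g₃ := by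
    rw [hL.g₂, hL.g₃, ← h.hl]
    field_simp
  have hg2 : L.g₂ ≠ 0 := by
    rw [hL.g₂]
    exact div_ne_zero g2 (pow_ne_zero 4 hc)
  have hkC : ∀ x ∈ k, x ∈ Cst h.Dh := fun x hx => by
    rw [h.Cst_Dh]
    exact hD.hk x hx
  refine ⟨h.Dh, fun x hx => hkC x (hFk hx), hkC _ hpi, ?_⟩
  have h1 := h.rank_total Pool.Agent.Y119.PG.task_P (p := fun i => l * (c⁻¹ * p i))
    (fun i => h.mem_Cm' (hzn i)) (h.hm.indep hz)
  refine h1.trans ?_
  have h2 := transfer (C := Cst h.Dh) htr hl2 hg2 p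
  have h3 : (fun i => l * (c⁻¹ * p i)) = fun i => l * c⁻¹ * p i := by
    funext i
    ring
  rw [h3]
  exact rk_le_of_subset_cl h2

end Pool.Agent.Y685
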