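import Mathlib
import Pool.Agent.Y685.F2

/-!
# All linearly independent points
-/

set_option autoImplicit false

open Finset Filter Module
open scoped Topology PeriodPair

noncomputable section

namespace Pool.Agent.Y685

open H667R3 Pool.Agent.W245.EB Pool.Agent.TH813.Ell
open Pool.Agent.TH813.Rel (DF MK subset_cl rk_le_of_subset_cl)

variable {L : PeriodPair} {C F : IntermediateField ℚ ℂ} {c : ℂ}

/-- the number `2 π i` -/
def tpi : ℂ := 2 * Real.pi * Complex.I

/-- `2 π i` is algebraic over the periods and quasi-periods -/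
theorem kill_tpi {δ : Derivation ℚ ℂ ℂ} (h : ∀ x ∈ GenL L, δ x = 0) : δ tpi = 0 := by
  obtain ⟨n, hn, h1⟩ := legendre L
  have hn' : (n : ℂ) ≠ 0 := by exact_mod_cast hn
  have h2 : δ (n * tpi) = 0 := by
    unfold tpi
    rw [← h1, map_sub, D_mul, D_mul, (kill_lattice h L.ω₁_mem_lattice).1,
      (kill_lattice h L.ω₂_mem_lattice).1, (kill_lattice h L.ω₁_mem_lattice).2,
      (kill_lattice h L.ω₂_mem_lattice).2]
    ring
  have h3 : δ (n : ℂ) = 0 := δ.map_intCast n
  rw [D_mul, h3, mul_zero, add_zero] at h2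
  exact (mul_eq_zero.1 h2).resolve_left hn'

/-- the rank over the base field -/
theorem rank_base {D : Derivation ℚ ℂ ℂ} (hF : F ≤ Cst D) (hpi : tpi ∈ Cst D) {m : ℕ}
    {p : Fin m → ℂ} (h : ((4 + 2 * m : ℕ) : ℕ∞) ≤ (MK (Cst D)).eRk (GenL L ∪ EP L p)) :
    (MK F).eRk {tpi} + ((4 + 2 * m : ℕ) : ℕ∞) ≤ (MK F).eRk (GenL L ∪ EP L p) := by
  have hfin : (GenL L ∪ EP L p).Finite := GenL_finite.union (EP_finite p)
  have h1 : (MK F).eRk ({tpi} ∪ (GenL L ∪ EP L p)) ≤ (MK F).eRk (GenL L ∪ EP L p) := by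
    apply rk_le_of_subset_cl
    rintro x (hx | hx)
    · rw [mem_cl_iff]
      intro δ _ hS
      rw [hx]
      exact kill_tpi (fun y hy => hS y (Or.inl hy))
    · exact subset_cl _ hx
  refine le_trans ?_ h1
  rw [rank_add (Set.finite_singleton _) hfin]
  refine add_le_add le_rfl (h.trans (rank_mono_base ?_ hfin))
  intro x hx
  exact hx D (fun y hy => hF hy) (fun s hs => by rw [hs]; exact hpi)

/-- rational multiples of periods -/
theorem et_Om' {δ : Derivation ℚ ℂ ℂ} (h2 : δ L.g₂ = 0) (h3 : δ L.g₃ = 0) (q q' : ℚ) :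
    et L δ (Om L (q : ℂ) (q' : ℂ)) = δ (Et L (q : ℂ) (q' : ℂ)) := by
  have hr : ∀ r : ℚ, δ (r : ℂ) = 0 := fun r => δ.map_algebraMap r
  rw [Om, ← Rat.smul_def, ← Rat.smul_def, ← etL_apply δ h2 h3, map_add, map_smul,
    map_smul, etL_apply, etL_apply, et, et, om_of_mem L _ L.ω₁_mem_lattice,
    om_of_mem L _ L.ω₂_mem_lattice, zt_of_mem L.ω₁_mem_lattice, zt_of_mem L.ω₂_mem_lattice, Et,
    map_add, D_mul, D_mul, hr, hr, Rat.smul_def, Rat.smul_def]
  ring

/-- derivations which kill the numbers of some points kill those of their span -/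
theorem kill_span {δ : Derivation ℚ ℂ ℂ} (h2 : δ L.g₂ = 0) (h3 : δ L.g₃ = 0) {n : ℕ}
    {p : Fin n → ℂ} (h : ∀ x ∈ EP L p, δ x = 0) {v : ℂ}
    (hv : v ∈ Submodule.span ℚ (Set.range p)) :
    δ v = 0 ∧ om L δ v = 0 ∧ et L δ v = 0 ∧ δ (zt L v) = 0 ∧ (v ∉ L.lattice → δ (℘[L] v) = 0) := by
  have k1 : δ v = 0 := by
    induction hv using Submodule.span_induction with
    | mem x hx =>
      obtain ⟨i, rfl⟩ := hx
      exact h _ (Or.inl ⟨i, rfl⟩)
    | zero => exact map_zero _
    | add x y _ _ hx hy => rw [map_add, hx, hy, add_zero]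
    | smul a x _ hx => rw [Derivation.map_smul, hx, smul_zero]
  have k2 : om L δ v = 0 := by
    rw [← omL_apply δ h2 h3]
    clear k1
    induction hv using Submodule.span_induction with
    | mem x hx =>
      obtain ⟨i, rfl⟩ := hx
      rw [omL_apply]
      exact om_of_kill (h _ (Or.inr (Or.inr ⟨i, rfl⟩)))
    | zero => exact map_zero _
    | add x y _ _ hx hy => rw [map_add, hx, hy, add_zero]
    | smul a x _ hx => rw [map_smul, hx, smul_zero]
  have k3 : et L δ v = 0 := by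
    rw [← etL_apply δ h2 h3]
    clear k1 k2
    induction hv using Submodule.span_induction with
    | mem x hx =>
      obtain ⟨i, rfl⟩ := hx
      have e1 : δ (zt L (p i)) = 0 := h _ (Or.inr (Or.inl ⟨i, rfl⟩))
      rw [etL_apply, et, e1, om_of_kill (h _ (Or.inr (Or.inr ⟨i, rfl⟩)))]
      ring
    | zero => exact map_zero _
    | add x y _ _ hx hy => rw [map_add, hx, hy, add_zero]
    | smul a x _ hx => rw [map_smul, hx, smul_zero]
  refine ⟨k1, k2, k3, ?_, fun hvL => (wp_killed h2 h3 k2 hvL).1⟩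
  rw [et, k2, mul_zero, add_zero] at k3
  exact k3

/-- a complement of the periods -/
theorem exists_z (V P : Submodule ℚ ℂ) [FiniteDimensional ℚ V] :
    ∃ (m : ℕ) (z : Fin m → ℂ), (∀ i, z i ∈ V) ∧ LinearIndependent ℚ (fun i => P.mkQ (z i)) ∧
      m + finrank ℚ (V ⊓ P : Submodule ℚ ℂ) = finrank ℚ V := by
  let f := P.mkQ.domRestrict V
  have h1 := LinearMap.finrank_range_add_finrank_ker f
  have h2 : finrank ℚ (LinearMap.ker f) = finrank ℚ (V ⊓ P : Submodule ℚ ℂ) := by
    have h3 : LinearMap.ker f = Submodule.comap V.subtype P := by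
      ext x
      rw [LinearMap.mem_ker, Submodule.mem_comap]
      exact Submodule.Quotient.mk_eq_zero _
    have h4 : Submodule.map V.subtype (LinearMap.ker f) = V ⊓ P := by
      rw [h3, Submodule.map_comap_subtype]
    rw [← h4, Submodule.finrank_map_subtype_eq V (LinearMap.ker f)]
  let B := finBasis ℚ (LinearMap.range f)
  choose v hv using fun i => (B i).2
  refine ⟨finrank ℚ (LinearMap.range f), fun i => (v i : ℂ), fun i => (v i).2, ?_, ?_⟩
  · have h4 : (fun i => P.mkQ ((v i : V) : ℂ)) = fun i => ((B i : LinearMap.range f) : ℂ ⧸ P) := by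
      funext i
      exact hv i
    rw [h4]
    exact B.linearIndependent.map' (LinearMap.range f).subtype (Submodule.ker_subtype _)
  · rw [← h2]
    exact h1

theorem finrank_PQ_le : finrank ℚ (PQ L) ≤ 2 := by
  classical
  unfold PQ
  have h1 := finrank_span_finset_le_card (R := ℚ) ({L.ω₁, L.ω₂} : Finset ℂ)
  have h2 : ((({L.ω₁, L.ω₂} : Finset ℂ) : Set ℂ)) = {L.ω₁, L.ω₂} := by push_cast; rfl
  rw [h2] at h1
  exact h1.trans Finset.card_le_two

instance : FiniteDimensional ℚ (PQ L) := by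
  unfold PQ
  exact FiniteDimensional.span_of_finite ℚ (Set.toFinite _)

theorem pair_le (x y : ℂ) : ({x, y} : Set ℂ).encard ≤ ((2 : ℕ) : ℕ∞) := by
  refine (Set.encard_insert_le _ _).trans ?_
  rw [Set.encard_singleton]
  norm_num

/-- arithmetic -/
theorem enat_aux {a N : ℕ∞} {k m n x : ℕ} (hN : N ≠ ⊤) (ha : a ≠ ⊤)
    (h : a + ((4 + 2 * m : ℕ) : ℕ∞) ≤ N + (x : ℕ)) (hx : x + 2 * k ≤ 4) (hk : m + k = n) :
    a + ((2 * n : ℕ) : ℕ∞) ≤ N := by
  obtain ⟨a, rfl⟩ := ENat.ne_top_iff_exists.1 ha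
  obtain ⟨N, rfl⟩ := ENat.ne_top_iff_exists.1 hN
  norm_cast at h ⊢
  omega

/-- **all independent points** -/
theorem rank_all (hfull : ∀ (m : ℕ) (z : Fin m → ℂ),
      LinearIndependent ℚ (fun i => (PQ L).mkQ (z i)) →
      (MK F).eRk {tpi} + ((4 + 2 * m : ℕ) : ℕ∞) ≤ (MK F).eRk (GenL L ∪ EP L z)) {n : ℕ}
    {p : Fin n → ℂ} (hp : LinearIndependent ℚ p) :
    (MK F).eRk {tpi} + ((2 * n : ℕ) : ℕ∞) ≤ (MK F).eRk ({L.g₂, L.g₃} ∪ EP L p) := by
  classical
  set V := Submodule.span ℚ (Set.range p) with hV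
  have hVf : FiniteDimensional ℚ V := FiniteDimensional.span_of_finite ℚ (Set.finite_range p)
  have hVn : finrank ℚ V = n := by
    rw [hV, finrank_span_eq_card hp, Fintype.card_fin]
  obtain ⟨m, z, hz, hind, hmr⟩ := exists_z V (PQ L)
  rw [hVn] at hmr
  have hm := hfull m z hind
  set r := finrank ℚ (V ⊓ PQ L : Submodule ℚ ℂ) with hr
  have hS : ({L.g₂, L.g₃} ∪ EP L p).Finite := (Set.toFinite _).union (EP_finite p)
  have hN : (MK F).eRk ({L.g₂, L.g₃} ∪ EP L p) ≠ ⊤ :=
    ne_top_of_le_ne_top (Set.encard_ne_top_iff.2 hS) ((MK F).eRk_le_encard _)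
  have ha : (MK F).eRk {tpi} ≠ ⊤ :=
    ne_top_of_le_ne_top (Set.encard_ne_top_iff.2 (Set.finite_singleton _))
      ((MK F).eRk_le_encard _)
  -- it suffices to control the periods
  have key : ∀ X : Set ℂ, X.Finite → (∀ δ : Derivation ℚ ℂ ℂ, δ L.g₂ = 0 → δ L.g₃ = 0 →
      (∀ x ∈ EP L p, δ x = 0) → (∀ x ∈ X, δ x = 0) → δ L.ω₁ = 0 ∧ δ L.ω₂ = 0 ∧
        δ (eta L L.ω₁) = 0 ∧ δ (eta L L.ω₂) = 0) →
      (MK F).eRk (GenL L ∪ EP L z) ≤ (MK F).eRk ({L.g₂, L.g₃} ∪ EP L p) + X.encard := by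
    intro X hX hkill
    refine le_trans ?_ ((MK F).eRk_union_le_eRk_add_encard _ X)
    apply rk_le_of_subset_cl
    intro x hx
    rw [mem_cl_iff]
    intro δ _ hδ
    have d2 : δ L.g₂ = 0 := hδ _ (Or.inl (Or.inl (Or.inl rfl)))
    have d3 : δ L.g₃ = 0 := hδ _ (Or.inl (Or.inl (Or.inr rfl)))
    have dE : ∀ x ∈ EP L p, δ x = 0 := fun x hx => hδ x (Or.inl (Or.inr hx))
    obtain ⟨k1, k2, k3, k4⟩ := hkill δ d2 d3 dE (fun x hx => hδ x (Or.inr hx))
    have kz : ∀ i, δ (z i) = 0 ∧ δ (zt L (z i)) = 0 ∧ δ (℘[L] (z i)) = 0 := by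
      intro i
      obtain ⟨a1, -, -, a4, a5⟩ := kill_span d2 d3 dE (hz i)
      exact ⟨a1, a4, a5 (two_mul_notMem_of _ (two_notMem (notMem_of_indep hind i)))⟩
    rcases hx with (rfl | rfl | rfl | rfl | rfl | rfl) | ⟨i, rfl⟩ | ⟨i, rfl⟩ | ⟨i, rfl⟩
    · exact d2
    · exact d3
    · exact k1
    · exact k2
    · exact k3
    · exact k4
    · exact (kz i).1
    · exact (kz i).2.1
    · exact (kz i).2.2
  have hr2 : r ≤ 2 := (Submodule.finrank_mono inf_le_right).trans finrank_PQ_le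
  rcases Nat.lt_or_ge r 1 with hr0 | hr1
  · -- no periods
    have hr0' : r = 0 := by omega
    have h1 := key {L.ω₁, L.ω₂, eta L L.ω₁, eta L L.ω₂} (Set.toFinite _)
      (fun δ _ _ _ hX => ⟨hX _ (by left; rfl), hX _ (by right; left; rfl),
        hX _ (by right; right; left; rfl), hX _ (by right; right; right; rfl)⟩)
    have h2 : ({L.ω₁, L.ω₂, eta L L.ω₁, eta L L.ω₂} : Set ℂ).encard ≤ ((4 : ℕ) : ℕ∞) := by
      refine (Set.encard_insert_le _ _).trans ?_
      refine (add_le_add_left ((Set.encard_insert_le _ _).trans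
        (add_le_add_left (pair_le _ _) 1)) 1).trans ?_
      norm_num
    exact enat_aux (k := 0) hN ha (hm.trans (h1.trans (add_le_add le_rfl h2))) (by omega)
      (by omega)
  · rcases Nat.lt_or_ge r 2 with hr1' | hr2'
    · -- one period
      have hr1'' : r = 1 := by omega
      have hne : (V ⊓ PQ L : Submodule ℚ ℂ) ≠ ⊥ := by
        intro h0
        rw [h0, finrank_bot] at hr
        omega
      obtain ⟨u, hu, hu0⟩ := Submodule.exists_mem_ne_zero_of_ne_bot hne
      obtain ⟨huV, huP⟩ := Submodule.mem_inf.1 hu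
      obtain ⟨q, q', hq⟩ := mem_PQ_iff.1 huP
      have hcase : ∃ v : ℂ, ∀ δ : Derivation ℚ ℂ ℂ, δ u = 0 → δ v = 0 →
          δ L.ω₁ = 0 ∧ δ L.ω₂ = 0 := by
        by_cases hq' : q' = 0
        · have hq0 : q ≠ 0 := by
            rintro rfl
            apply hu0
            rw [hq, hq', Om]
            push_cast
            ring
          refine ⟨L.ω₂, fun δ h1 h2 => ⟨?_, h2⟩⟩
          have hqC : (q : ℂ) ≠ 0 := by exact_mod_cast hq0
          have hr1 : δ (q : ℂ) = 0 := δ.map_algebraMap q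
          have hr2 : δ (q' : ℂ) = 0 := δ.map_algebraMap q'
          rw [hq, Om, map_add, D_mul, D_mul, h2, hr1, hr2] at h1
          have h3 : (q : ℂ) * δ L.ω₁ = 0 := by linear_combination h1
          exact (mul_eq_zero.1 h3).resolve_left hqC
        · refine ⟨L.ω₁, fun δ h1 h2 => ⟨h2, ?_⟩⟩
          have hqC : (q' : ℂ) ≠ 0 := by exact_mod_cast hq'
          have hr1 : δ (q : ℂ) = 0 := δ.map_algebraMap q
          have hr2 : δ (q' : ℂ) = 0 := δ.map_algebraMap q'
          rw [hq, Om, map_add, D_mul, D_mul, h2, hr1, hr2] at h1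
          have h3 : (q' : ℂ) * δ L.ω₂ = 0 := by linear_combination h1
          exact (mul_eq_zero.1 h3).resolve_left hqC
      obtain ⟨v, hv⟩ := hcase
      have h1 := key {v, tpi} (Set.toFinite _) (by
        intro δ d2 d3 dE hX
        obtain ⟨a1, a2, a3, a4, -⟩ := kill_span d2 d3 dE huV
        obtain ⟨k1, k2⟩ := hv δ a1 (hX _ (Or.inl rfl))
        have k3 : δ tpi = 0 := hX _ (Or.inr rfl)
        have e1 : (q : ℂ) * δ (eta L L.ω₁) + q' * δ (eta L L.ω₂) = 0 := by
          have hr1 : δ (q : ℂ) = 0 := δ.map_algebraMap q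
          have hr2 : δ (q' : ℂ) = 0 := δ.map_algebraMap q'
          have := et_Om' d2 d3 q q'
          rw [← hq, a3, Et, map_add, D_mul, D_mul, hr1, hr2] at this
          linear_combination -this
        have e2 : L.ω₁ * δ (eta L L.ω₂) - L.ω₂ * δ (eta L L.ω₁) = 0 := by
          obtain ⟨n', hn', h1⟩ := legendre L
          have h4 : δ (n' : ℂ) = 0 := δ.map_intCast n'
          have h2 : δ (n' * tpi) = 0 := by rw [D_mul, k3, h4]; ring
          unfold tpi at h2
          rw [← h1, map_sub, D_mul, D_mul, k1, k2] at h2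
          linear_combination h2
        refine ⟨k1, k2, ?_, ?_⟩
        · have e3 : u * δ (eta L L.ω₁) = 0 := by
            rw [hq, Om]
            linear_combination L.ω₁ * e1 - q' * e2
          exact (mul_eq_zero.1 e3).resolve_left hu0
        · have e3 : u * δ (eta L L.ω₂) = 0 := by
            rw [hq, Om]
            linear_combination L.ω₂ * e1 + q * e2
          exact (mul_eq_zero.1 e3).resolve_left hu0)
      have h2 : ({v, tpi} : Set ℂ).encard ≤ ((2 : ℕ) : ℕ∞) := pair_le _ _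
      exact enat_aux (k := 1) hN ha (hm.trans (h1.trans (add_le_add le_rfl h2))) (by omega)
        (by omega)
    · -- all periods
      have hr2'' : r = 2 := by omega
      have hle : PQ L ≤ V := by
        have h3 : (V ⊓ PQ L : Submodule ℚ ℂ) = PQ L :=
          Submodule.eq_of_le_of_finrank_le inf_le_right (by
            rw [← hr, hr2'']
            exact finrank_PQ_le)
        rw [← h3]
        exact inf_le_left
      have h1 := key ∅ Set.finite_empty (by
        intro δ d2 d3 dE _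
        have m1 : L.ω₁ ∈ V := hle (Submodule.subset_span (Or.inl rfl))
        have m2 : L.ω₂ ∈ V := hle (Submodule.subset_span (Or.inr rfl))
        obtain ⟨a1, a2, a3, a4, -⟩ := kill_span d2 d3 dE m1
        obtain ⟨b1, b2, b3, b4, -⟩ := kill_span d2 d3 dE m2
        rw [zt_of_mem L.ω₁_mem_lattice] at a4
        rw [zt_of_mem L.ω₂_mem_lattice] at b4
        exact ⟨a1, b1, a4, b4⟩)
      rw [Set.encard_empty] at h1
      exact enat_aux (k := 2) (x := 0) hN ha (by
        push_cast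
        exact_mod_cast hm.trans h1) (by omega) (by omega)

end Pool.Agent.Y685
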