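import Mathlib
import Pool.Agent.Y685.F3
import Pool.Agent.H340R2.LW

/-!
# The final statements
-/

set_option autoImplicit false

open Finset Filter Module
open scoped Topology PeriodPair

noncomputable section

namespace Pool.Agent.Y685

open H667R3 Pool.Agent.W245.EB Pool.Agent.TH813.Ell
open Pool.Agent.TH813.Rel (DF MK subset_cl rk_le_of_subset_cl le_iff)

/-- algebraic independence over a smaller ring -/
theorem ai_of_le {R K : Type} [Field R] [Field K] [Algebra R ℂ] [Algebra K ℂ]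
    (h : ∀ r : R, ∃ s : K, algebraMap K ℂ s = algebraMap R ℂ r) {ι : Type} {x : ι → ℂ}
    (hx : AlgebraicIndependent K x) : AlgebraicIndependent R x := by
  have hK : Function.Injective (algebraMap K ℂ) := (algebraMap K ℂ).injective
  choose f hf using h
  let F : R →+* K :=
    { toFun := f
      map_one' := hK (by rw [hf, map_one, map_one])
      map_mul' := fun a b => hK (by rw [hf, map_mul, map_mul, hf, hf])
      map_zero' := hK (by rw [hf, map_zero, map_zero])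
      map_add' := fun a b => hK (by rw [hf, map_add, map_add, hf, hf]) }
  let : Algebra R K := F.toAlgebra
  have : IsScalarTower R K ℂ := IsScalarTower.of_algebraMap_eq (fun r => (hf r).symm)
  exact hx.restrictScalars F.injective

/-- the image of a field -/
def FR (k : Type) [Field k] [Algebra k ℂ] : IntermediateField ℚ ℂ where
  carrier := Set.range (algebraMap k ℂ)
  mul_mem' := by
    rintro _ _ ⟨a, rfl⟩ ⟨b, rfl⟩
    exact ⟨a * b, map_mul _ _ _⟩
  add_mem' := by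
    rintro _ _ ⟨a, rfl⟩ ⟨b, rfl⟩
    exact ⟨a + b, map_add _ _ _⟩
  algebraMap_mem' := fun r => by
    have h0 : CharZero k := ((algebraMap k ℂ).charZero_iff (algebraMap k ℂ).injective).2
      inferInstance
    exact ⟨(r : k), by rw [map_ratCast, eq_ratCast]⟩
  inv_mem' := by
    rintro _ ⟨a, rfl⟩
    exact ⟨a⁻¹, map_inv₀ _ _⟩

theorem MK_FR (k : Type) [Field k] [Algebra k ℂ] : MK (FR k) = MK k := by
  refine Matroid.ext_indep rfl (fun I _ => ?_)
  rw [AlgebraicIndependent.matroid_indep_iff, AlgebraicIndependent.matroid_indep_iff]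
  constructor
  · intro h
    exact ai_of_le (fun r => ⟨⟨algebraMap k ℂ r, r, rfl⟩, rfl⟩) h
  · intro h
    exact ai_of_le (fun r => by
      obtain ⟨_, s, rfl⟩ := r
      exact ⟨s, rfl⟩) h

/-- the `j`-invariant of a lattice -/
def jv (L : PeriodPair) : ℂ := 1728 * L.g₂ ^ 3 / (L.g₂ ^ 3 - 27 * L.g₃ ^ 2)

theorem Hm.jv {L L' : PeriodPair} {c : ℂ} (h : Hm L L' c) : jv L' = jv L := by
  have hc := h.c0
  have h1 : L'.g₂ ^ 3 - 27 * L'.g₃ ^ 2 = (L.g₂ ^ 3 - 27 * L.g₃ ^ 2) / c ^ 12 := by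
    rw [h.g₂, h.g₃]
    field_simp
  rw [Y685.jv, Y685.jv, h1, h.g₂]
  by_cases h0 : L.g₂ ^ 3 - 27 * L.g₃ ^ 2 = 0
  · rw [h0]
    simp
  · field_simp

/-- every lattice is equivalent to some `ℤ + ℤ τ` -/
theorem exists_LC (L : PeriodPair) : ∃ τ c : ℂ, 0 < τ.im ∧ Hm (LC τ) L c := by
  have h1 : L.ω₁ ≠ 0 := ω₁_ne_zero L
  have h2 : (L.ω₂ / L.ω₁).im ≠ 0 := by
    intro h0
    have h3 := LinearIndependent.pair_iff.1 L.indep (-(L.ω₂ / L.ω₁).re) 1 (by
      have h4 : L.ω₂ / L.ω₁ = ((L.ω₂ / L.ω₁).re : ℂ) := by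
        apply Complex.ext
        · simp
        · simp [h0]
      have h5 : L.ω₂ = ((L.ω₂ / L.ω₁).re : ℂ) * L.ω₁ := by
        rw [← h4, div_mul_cancel₀ _ h1]
      rw [one_smul, neg_smul, Complex.real_smul, ← h5]
      ring)
    exact one_ne_zero h3.2
  rcases lt_or_gt_of_ne h2 with h3 | h3
  · refine ⟨-(L.ω₂ / L.ω₁), L.ω₁, by simpa using h3, h1, fun x => ?_⟩
    have him : 0 < (-(L.ω₂ / L.ω₁)).im := by simpa using h3
    rw [mem_LC him, PeriodPair.mem_lattice]
    constructor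
    · rintro ⟨m, n, h⟩
      refine ⟨m, -n, mul_left_cancel₀ h1 ?_⟩
      rw [← h]
      push_cast
      field_simp
    · rintro ⟨m, n, h⟩
      refine ⟨m, -n, ?_⟩
      rw [← h]
      push_cast
      field_simp
  · refine ⟨L.ω₂ / L.ω₁, L.ω₁, h3, h1, fun x => ?_⟩
    rw [mem_LC h3, PeriodPair.mem_lattice]
    constructor
    · rintro ⟨m, n, h⟩
      refine ⟨m, n, mul_left_cancel₀ h1 ?_⟩
      rw [← h]
      field_simp
    · rintro ⟨m, n, h⟩
      refine ⟨m, n, ?_⟩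
      rw [← h]
      field_simp

/-- **the main theorem**, in terms of ranks -/
theorem main_rank (k : Type) [Field k] [Algebra k ℂ] [Countable k] :
    ∃ J : Set ℂ, J.Countable ∧ ∀ L : PeriodPair, jv L ∉ J →
      (∀ (n : ℕ) (p : Fin n → ℂ), LinearIndependent ℚ p →
        (MK k).eRk {tpi} + ((2 * n : ℕ) : ℕ∞) ≤ (MK k).eRk ({L.g₂, L.g₃} ∪ EP L p)) ∧
      ∀ (m : ℕ) (z : Fin m → ℂ), LinearIndependent ℚ (fun i => (PQ L).mkQ (z i)) →
        (MK k).eRk {tpi} + ((4 + 2 * m : ℕ) : ℕ∞) ≤ (MK k).eRk (GenL L ∪ EP L z) := by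
  have hc : (FR k : Set ℂ).Countable := Set.countable_range (algebraMap k ℂ)
  obtain ⟨T, hT, hT'⟩ := rank_mod_periods (FR k) hc
  refine ⟨(fun τ => jv (LC τ)) '' T, hT.image _, fun L hL => ?_⟩
  obtain ⟨τ, c, hτ, hLc⟩ := exists_LC L
  have hτT : τ ∉ T := by
    intro h
    apply hL
    exact ⟨τ, h, hLc.jv.symm⟩
  have hfull : ∀ (m : ℕ) (z : Fin m → ℂ), LinearIndependent ℚ (fun i => (PQ L).mkQ (z i)) →
      (MK (FR k)).eRk {tpi} + ((4 + 2 * m : ℕ) : ℕ∞) ≤ (MK (FR k)).eRk (GenL L ∪ EP L z) := by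
    intro m z hz
    obtain ⟨D, h1, h2, h3⟩ := hT' τ hτ hτT L c hLc m z hz
    exact rank_base h1 h2 h3
  rw [← MK_FR k]
  exact ⟨fun n p hp => rank_all hfull hp, hfull⟩

end Pool.Agent.Y685
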