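import Mathlib
import Pool.Agent.Y685.F4

/-!
# The main theorem in terms of transcendence degrees
-/

set_option autoImplicit false

open Finset Filter Module
open scoped Topology PeriodPair

noncomputable section

namespace Pool.Agent.Y685

open H667R3 Pool.Agent.W245.EB Pool.Agent.TH813.Ell
open Pool.Agent.TH813.Rel (DF MK subset_cl rk_le_of_subset_cl le_iff toENat_trdeg cl_of_base
  cl_mul cl_inv)

section

variable {k : Type} [Field k] [Algebra k ℂ]

/-- comparison of transcendence degrees -/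
theorem trd_add_le {S T : Set ℂ} (hS : S.Finite) {m : ℕ}
    (h : (MK k).eRk S + (m : ℕ∞) ≤ (MK k).eRk T) :
    (m : Cardinal) + Algebra.trdeg k (IntermediateField.adjoin k S) ≤
      Algebra.trdeg k (IntermediateField.adjoin k T) := by
  have h1 : (MK k).eRk S < ⊤ := ((MK k).eRk_le_encard S).trans_lt hS.encard_lt_top
  obtain ⟨s, hs⟩ := ENat.ne_top_iff_exists.1 h1.ne
  have h2 : Algebra.trdeg k (IntermediateField.adjoin k S) = (s : Cardinal) := by
    rw [← Cardinal.toENat_eq_natCast, toENat_trdeg, hs]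
  rw [h2]
  have h3 : ((m + s : ℕ) : Cardinal) ≤ Algebra.trdeg k (IntermediateField.adjoin k T) := by
    rw [le_iff]
    rw [← hs] at h
    push_cast
    rwa [add_comm]
  exact_mod_cast h3

/-- `i` is algebraic -/
theorem I_cl (S : Set ℂ) : Complex.I ∈ (MK k).closure S := by
  have h0 : CharZero k := ((algebraMap k ℂ).charZero_iff (algebraMap k ℂ).injective).2
    inferInstance
  rw [Pool.Agent.TH813.Rel.mem_cl]
  have h1 : IsAlgebraic k Complex.I := by
    refine ⟨Polynomial.X ^ 2 + 1, ?_, by simp⟩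
    exact (Polynomial.monic_X_pow_add_C (1 : k) two_ne_zero).ne_zero
  exact h1.extendScalars (algebraMap k (Algebra.adjoin k S)).injective

theorem nat_cl (n : ℕ) (S : Set ℂ) : (n : ℂ) ∈ (MK k).closure S := by
  have := cl_of_base (k := k) S (n : k)
  rwa [map_natCast] at this

theorem pi_rank : (MK k).eRk {(Real.pi : ℂ)} ≤ (MK k).eRk {tpi} := by
  apply rk_le_of_subset_cl
  rintro _ rfl
  have h1 : (Real.pi : ℂ) = tpi * (((2 : ℕ) : ℂ) * Complex.I)⁻¹ := by
    unfold tpi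
    push_cast
    field_simp
  rw [h1]
  exact cl_mul (subset_cl _ rfl) (cl_inv (cl_mul (nat_cl 2 _) (I_cl _)))

end

/-- the numbers `g₂, g₃, pᵢ, ℘(pᵢ), ζ(pᵢ)` -/
def Numb (L : PeriodPair) {n : ℕ} (p : Fin n → ℂ) : Set ℂ :=
  {L.g₂, L.g₃} ∪ {x | ∃ i, x = p i ∨ x = ℘[L] (p i) ∨ x = zeta L (p i)}

theorem Numb_eq {L : PeriodPair} {n : ℕ} {p : Fin n → ℂ} (hp : ∀ i, p i ∉ L.lattice) :
    {L.g₂, L.g₃} ∪ EP L p = Numb L p := by
  unfold Numb EP
  congr 1
  ext x
  constructor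
  · rintro (⟨i, rfl⟩ | ⟨i, rfl⟩ | ⟨i, rfl⟩)
    · exact ⟨i, Or.inl rfl⟩
    · exact ⟨i, Or.inr (Or.inr (zt_of_notMem (hp i)))⟩
    · exact ⟨i, Or.inr (Or.inl rfl)⟩
  · rintro ⟨i, rfl | rfl | rfl⟩
    · exact Or.inl ⟨i, rfl⟩
    · exact Or.inr (Or.inr ⟨i, rfl⟩)
    · exact Or.inr (Or.inl ⟨i, zt_of_notMem (hp i)⟩)

/-- **the main theorem**, in terms of transcendence degrees -/
theorem main_trdeg (k : Type) [Field k] [Algebra k ℂ] [Countable k] :
    ∃ J : Set ℂ, J.Countable ∧ ∀ L : PeriodPair, jv L ∉ J → ∀ (n : ℕ) (p : Fin n → ℂ),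
      (∀ i, p i ∉ L.lattice) → LinearIndependent ℚ p →
      ((2 * n : ℕ) : Cardinal) + Algebra.trdeg k (IntermediateField.adjoin k {(Real.pi : ℂ)}) ≤
        Algebra.trdeg k (IntermediateField.adjoin k (Numb L p)) := by
  obtain ⟨J, hJ, h⟩ := main_rank k
  refine ⟨J, hJ, fun L hL n p hp hind => ?_⟩
  apply trd_add_le (Set.finite_singleton _)
  rw [← Numb_eq hp]
  exact (add_le_add pi_rank le_rfl).trans ((h L hL).1 n p hind)

end Pool.Agent.Y685
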