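import Mathlib
import Pool.Agent.Y685.G4
import Pool.Agent.Y776.Cpt
import Pool.Agent.Y776.Fin

/-!
# Countable closed fields, for families and for fixed curves
-/

set_option autoImplicit false

open Filter Finset
open scoped Topology PeriodPair ComplexConjugate

noncomputable section

namespace Pool.Agent.Y685

open H667R3 Pool.Agent.W245.EB Pool.Agent.TH813.Ell MvPolynomial
open Pool.Agent.TH813.Rel (DF MK)
open Pool.Agent.Y776 (Tf lg ET jf badT badE Gd Good countable_bad good_union exists_chain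
  countable_badT countable_badE T0 T0_spec be0 Grad grC)

/-- the values of `τ` with a given `j` -/
theorem tau_countable {K : Subfield ℂ} (hK : (K : Set ℂ).Countable) :
    {τ : ℂ | 0 < τ.im ∧ jf τ ∈ K}.Countable := by
  obtain ⟨T, hT, h⟩ := algInd_yy K hK
  refine hT.mono (fun τ hτ => by_contra fun hn => ?_)
  obtain ⟨hτ, hj⟩ := hτ
  have hai := h τ hτ hn
  rw [algebraicIndependent_iff] at hai
  have hd : (LC τ).g₂ ^ 3 - 27 * (LC τ).g₃ ^ 2 ≠ 0 := by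
    intro h0
    have h1 := hai (X 2 ^ 3 - C 27 * X 3 ^ 2) (by
      simp only [map_sub, map_mul, map_pow, aeval_X, aeval_C, yy, map_ofNat]
      simpa using h0)
    have h2 := congrArg (MvPolynomial.eval ![0, 0, 1, 0]) h1
    simp at h2
  have h1 := hai (C 1728 * X 2 ^ 3 - C ⟨jf τ, hj⟩ * (X 2 ^ 3 - C 27 * X 3 ^ 2)) (by
    simp only [map_sub, map_mul, map_pow, aeval_X, aeval_C, yy, map_ofNat]
    have h2 : jf τ * ((LC τ).g₂ ^ 3 - 27 * (LC τ).g₃ ^ 2) = 1728 * (LC τ).g₂ ^ 3 := by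
      unfold jf
      field_simp
    have h3 : algebraMap K ℂ ⟨jf τ, hj⟩ = jf τ := rfl
    rw [h3]
    simp
    linear_combination -h2)
  have h2 := congrArg (MvPolynomial.eval ![0, 0, 1, 0]) h1
  have h3 := congrArg (MvPolynomial.eval ![0, 0, 0, 1]) h1
  simp at h2 h3
  rw [h3] at h2
  simp at h2

/-- lattices with periods in a field -/
def LK (K : Subfield ℂ) : Set PeriodPair := {L | L.ω₁ ∈ K ∧ L.ω₂ ∈ K}

theorem countable_LK {K : Subfield ℂ} (hK : (K : Set ℂ).Countable) : (LK K).Countable := by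
  refine Set.MapsTo.countable_of_injOn (f := fun L : PeriodPair => (L.ω₁, L.ω₂))
    (t := (K : Set ℂ) ×ˢ (K : Set ℂ)) (fun L hL => ⟨hL.1, hL.2⟩) ?_ (hK.prod hK)
  rintro ⟨a, b, h⟩ - ⟨a', b', h'⟩ - he
  simp only [Prod.mk.injEq] at he
  obtain ⟨rfl, rfl⟩ := he
  rfl

/-- the exceptional points and exponents for the lattices over a field -/
def badF (K : Subfield ℂ) : Set ℂ := {x | ∃ L ∈ LK K, ∃ (n s : ℕ) (z : Fin n → ℂ) (t : Fin s → ℂ)
  (j₀ : Fin (n + s)), (∀ i, z i ∉ L.lattice) ∧ Fin.append z t j₀ = x ∧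
    ¬ Good PF' K (Pf' L (Fin.append z t)) j₀}

theorem countable_badF {K : Subfield ℂ} (hK : (K : Set ℂ).Countable) : (badF K).Countable := by
  have h1 : ∀ (L : PeriodPair) (n s : ℕ) (j₀ : Fin (n + s)), {c : ℂ | ∃ a ∈ Uf L n s, a j₀ = c ∧
      ¬ Good PF' K (Pf' L a) j₀}.Countable := by
    intro L n s j₀
    induction j₀ using Fin.addCases with
    | left i =>
      exact countable_bad PF' hK (isOpen_Uf L) (fun x hx s₀ => Pf'_der L hx s₀)
        (s₀ := (.z i : Sf n s)) (fun x => rfl)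
    | right l =>
      exact countable_bad PF' hK (isOpen_Uf L) (fun x hx s₀ => Pf'_der L hx s₀)
        (s₀ := (.t l : Sf n s)) (fun x => rfl)
  refine ((countable_LK hK).biUnion (fun L _ => Set.countable_iUnion (fun n =>
    Set.countable_iUnion (fun s => Set.countable_iUnion (fun j₀ => h1 L n s j₀))))).mono ?_
  rintro x ⟨L, hL, n, s, z, t, j₀, hz, rfl, hg⟩
  refine Set.mem_iUnion₂.2 ⟨L, hL, Set.mem_iUnion.2 ⟨n, Set.mem_iUnion.2 ⟨s,
    Set.mem_iUnion.2 ⟨j₀, Fin.append z t, ?_, rfl, hg⟩⟩⟩⟩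
  intro i
  rw [Fin.append_left]
  exact hz i

/-- the values of the functions of the lattices over a field -/
def valF (K : Subfield ℂ) : Set ℂ :=
  {x | ∃ L ∈ LK K, x = L.g₂ ∨ x = L.g₃ ∨ ∃ u ∈ K, x = ℘[L] u ∨ x = zt L u}

theorem countable_valF {K : Subfield ℂ} (hK : (K : Set ℂ).Countable) : (valF K).Countable := by
  have h1 : ∀ L : PeriodPair, ({L.g₂} ∪ ({L.g₃} ∪ (℘[L] '' (K : Set ℂ) ∪
      zt L '' (K : Set ℂ)))).Countable := fun L =>
    (Set.countable_singleton _).union ((Set.countable_singleton _).union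
      ((hK.image _).union (hK.image _)))
  refine ((countable_LK hK).biUnion (fun L _ => h1 L)).mono ?_
  rintro x ⟨L, hL, h⟩
  refine Set.mem_iUnion₂.2 ⟨L, hL, ?_⟩
  rcases h with rfl | rfl | ⟨u, hu, rfl | rfl⟩
  · exact Or.inl rfl
  · exact Or.inr (Or.inl rfl)
  · exact Or.inr (Or.inr (Or.inl ⟨u, hu, rfl⟩))
  · exact Or.inr (Or.inr (Or.inr ⟨u, hu, rfl⟩))

/-- a smaller field has less relations -/
theorem Good.mono {n : ℕ} {σ : Type} [Fintype σ] {P : Fin n → σ → MvPolynomial σ ℚ} {y : σ → ℂ}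
    {j₀ : Fin n} {K K' : Subfield ℂ} (h : K ≤ K') (hG : Good P K' y j₀) : Good P K y j₀ := by
  intro hmem
  apply hG
  refine Submodule.span_mono ?_ hmem
  rintro g ⟨H, hH, rfl⟩
  let f : K →+* K' := Subfield.inclusion h
  have ha : ∀ Q : MvPolynomial σ K, aeval y (MvPolynomial.map f Q) = aeval y Q := by
    intro Q
    rw [aeval_def, aeval_def, eval₂_map]
    rfl
  refine ⟨MvPolynomial.map f H, ?_, ?_⟩
  · rw [ha, hH]
  · funext l
    unfold grC
    refine Finset.sum_congr rfl (fun s _ => ?_)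
    rw [pderiv_map, ha]

/-- closed fields -/
structure Fld (K : Subfield ℂ) : Prop where
  cnt : (K : Set ℂ).Countable
  alg : ∀ x, IsAlgebraic K x → x ∈ K
  exp : ∀ x ∈ K, Complex.exp x ∈ K
  t0 : ∀ τ ∈ T0, jf τ ∈ K
  be : be0 ∈ K
  pi : 2 * Real.pi * Complex.I ∈ K
  gd : ∀ τ : ℂ, 0 < τ.im → jf τ ∉ K → ∀ (n : ℕ) (z : Fin n → ℂ),
        (∀ i, z i ∉ (LC τ).lattice) → Gd K τ z
  tau : ∀ τ : ℂ, 0 < τ.im → jf τ ∈ K → τ ∈ K
  g₂ : ∀ L ∈ LK K, L.g₂ ∈ K
  g₃ : ∀ L ∈ LK K, L.g₃ ∈ K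
  wp : ∀ L ∈ LK K, ∀ u ∈ K, ℘[L] u ∈ K
  zt : ∀ L ∈ LK K, ∀ u ∈ K, zt L u ∈ K
  good : ∀ L ∈ LK K, ∀ (n s : ℕ) (z : Fin n → ℂ) (t : Fin s → ℂ) (j₀ : Fin (n + s)),
    (∀ i, z i ∉ L.lattice) → Fin.append z t j₀ ∉ K → Good PF' K (Pf' L (Fin.append z t)) j₀

/-- **Countable closed fields** -/
theorem exists_Fld {S : Set ℂ} (hS : S.Countable) : ∃ K : Subfield ℂ, Fld K ∧ S ⊆ K := by
  obtain ⟨K, F, hmono, hF, hFc, hSF, hTF, halg⟩ := exists_chain
    (fun k => (jf '' badT k) ∪ (badE k ∪ ((Complex.exp '' (k : Set ℂ)) ∪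
      ({τ : ℂ | 0 < τ.im ∧ jf τ ∈ k} ∪ (badF k ∪ valF k)))))
    (fun k hk => ((countable_badT hk).image _).union ((countable_badE hk).union
      ((hk.image _).union ((tau_countable hk).union ((countable_badF hk).union
        (countable_valF hk))))))
    (S₀ := (jf '' T0) ∪ ({be0} ∪ ({2 * Real.pi * Complex.I} ∪ S)))
    ((T0_spec.1.image _).union ((Set.countable_singleton _).union
      ((Set.countable_singleton _).union hS)))
  have hLK : ∀ L ∈ LK F, ∃ i, L ∈ LK (K i) := by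
    rintro L ⟨h1, h2⟩
    obtain ⟨i, hi⟩ := (hF _).1 h1
    obtain ⟨j, hj⟩ := (hF _).1 h2
    exact ⟨max i j, hmono (le_max_left i j) hi, hmono (le_max_right i j) hj⟩
  have hLm : ∀ L i j, i ≤ j → L ∈ LK (K i) → L ∈ LK (K j) := fun L i j hij h =>
    ⟨hmono hij h.1, hmono hij h.2⟩
  refine ⟨F, ⟨hFc, halg, ?_, fun τ hτ => hSF (Or.inl ⟨τ, hτ, rfl⟩), hSF (Or.inr (Or.inl rfl)),
    hSF (Or.inr (Or.inr (Or.inl rfl))), ?_, ?_, ?_, ?_, ?_, ?_, ?_⟩,
    fun x hx => hSF (Or.inr (Or.inr (Or.inr hx)))⟩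
  · intro x hx
    obtain ⟨i, hi⟩ := (hF x).1 hx
    exact hTF i (Or.inr (Or.inr (Or.inl ⟨x, hi, rfl⟩)))
  · intro τ hτ hj n z hz
    refine ⟨fun s t => ?_, fun s t l hl => ?_⟩
    · refine good_union hmono (fun x hx => (hF x).1 hx) (fun i => ?_)
      by_contra hcon
      apply hj
      exact hTF i (Or.inl ⟨τ, ⟨hτ, n, z, s, t, hz, hcon⟩, rfl⟩)
    · refine good_union hmono (fun x hx => (hF x).1 hx) (fun i => ?_)
      by_contra hcon
      apply hl
      exact hTF i (Or.inr (Or.inl ⟨τ, n, z, s, t, l, hτ, hz, rfl, hcon⟩))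
  · intro τ hτ hj
    obtain ⟨i, hi⟩ := (hF _).1 hj
    exact hTF i (Or.inr (Or.inr (Or.inr (Or.inl ⟨hτ, hi⟩))))
  · intro L hL
    obtain ⟨i, hi⟩ := hLK L hL
    exact hTF i (Or.inr (Or.inr (Or.inr (Or.inr (Or.inr ⟨L, hi, Or.inl rfl⟩)))))
  · intro L hL
    obtain ⟨i, hi⟩ := hLK L hL
    exact hTF i (Or.inr (Or.inr (Or.inr (Or.inr (Or.inr ⟨L, hi, Or.inr (Or.inl rfl)⟩)))))
  · intro L hL u hu
    obtain ⟨i, hi⟩ := hLK L hL
    obtain ⟨j, hj⟩ := (hF _).1 hu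
    exact hTF (max i j) (Or.inr (Or.inr (Or.inr (Or.inr (Or.inr ⟨L,
      hLm L _ _ (le_max_left i j) hi, Or.inr (Or.inr ⟨u, hmono (le_max_right i j) hj,
        Or.inl rfl⟩)⟩)))))
  · intro L hL u hu
    obtain ⟨i, hi⟩ := hLK L hL
    obtain ⟨j, hj⟩ := (hF _).1 hu
    exact hTF (max i j) (Or.inr (Or.inr (Or.inr (Or.inr (Or.inr ⟨L,
      hLm L _ _ (le_max_left i j) hi, Or.inr (Or.inr ⟨u, hmono (le_max_right i j) hj,
        Or.inr rfl⟩)⟩)))))
  · intro L hL n s z t j₀ hz hx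
    obtain ⟨i₀, hi₀⟩ := hLK L hL
    refine good_union hmono (fun x hx => (hF x).1 hx) (fun i => ?_)
    apply Good.mono (hmono (le_max_left i i₀))
    by_contra hcon
    apply hx
    exact hTF (max i i₀) (Or.inr (Or.inr (Or.inr (Or.inr (Or.inl ⟨L,
      hLm L _ _ (le_max_right i i₀) hi₀, n, s, z, t, j₀, hz, rfl, hcon⟩)))))

end Pool.Agent.Y685
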