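import Mathlib
import Pool.Agent.Y685.G5
import Pool.Agent.Y776.FinB

/-!
# Ranks over a closed field: generic lattices and fixed lattices
-/

set_option autoImplicit false

open Filter Finset Module
open scoped Topology PeriodPair ComplexConjugate

noncomputable section

namespace Pool.Agent.Y685

open H667R3 Pool.Agent.W245.EB Pool.Agent.TH813.Ell
open Pool.Agent.TH813.Rel (DF MK subset_cl rk_le_of_subset_cl cl_of_base)
open Pool.Agent.Y776 (Tf lg ET jf badT badE Gd T0 T0_spec be0 be_eq k0 exists_cpt rank_gp noBad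
  ind_norm tau_notMem ratio_notMem yy_sub)

variable {n s : ℕ} {L : PeriodPair} {κ : ℂ}

/-- a field as an intermediate field -/
def IFd (K : Subfield ℂ) : IntermediateField ℚ ℂ := K.toIntermediateField (fun q => by
    rw [eq_ratCast]
    exact SubfieldClass.ratCast_mem K q)

theorem mem_IFd {K : Subfield ℂ} {x : ℂ} : x ∈ IFd K ↔ x ∈ K := Iff.rfl

/-- the generic rank, normalized lattices (after helper776, `exists_KK`) -/
theorem Fld.KK {K : Subfield ℂ} (hK : Fld K) : ∀ τ : ℂ, 0 < τ.im → jf τ ∉ K →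
      ∀ (n s : ℕ) (z : Fin n → ℂ) (t : Fin s → ℂ),
      (∀ q : Fin n → ℚ, ∀ a b : ℚ, ∑ i, (q i : ℂ) * z i = a + b * τ → q = 0) →
      (∀ q : Fin s → ℚ, ∑ i, q i • t i ∈ K → q = 0) →
      (LC τ).g₂ ≠ 0 ∧
      ∃ l : ℂ, l ≠ 0 ∧ l ^ 2 * (LC τ).g₂ = (LC τ).g₃ ∧ ∃ L' : PeriodPair, Hm (LC τ) L' l ∧
      ((4 + (s + 2 * n) : ℕ) : ℕ∞) ≤ (MK (IFd K)).eRk
        (Set.range (yy τ) ∪ (ET t ∪ EP L' (fun i => l * z i))) := by
  intro τ hτ hj n s z t hz ht
  have hbF : Y685.be τ ∈ K := by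
    rw [be_eq hτ]
    exact hK.be
  have hτT : τ ∉ T0 := fun h => hj (hK.t0 τ h)
  have hai := T0_spec.2 τ hτ hτT
  have hz2 : ∀ i, 2 * z i ∉ (LC τ).lattice := by
    intro i hi
    obtain ⟨a, b, hab⟩ := (mem_LC hτ).1 hi
    have h1 := hz (Pi.single i 2) a b (by
      rw [Finset.sum_eq_single i]
      · rw [Pi.single_eq_same]
        push_cast
        exact hab.symm
      · intro j _ hj
        rw [Pi.single_eq_of_ne hj]
        simp
      · intro h; exact absurd (Finset.mem_univ i) h)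
    have h2 := congrFun h1 i
    rw [Pi.single_eq_same] at h2
    exact two_ne_zero h2
  have hz1 : ∀ i, z i ∉ (LC τ).lattice := fun i => two_mul_notMem_of _ (hz2 i)
  obtain ⟨D, hcmp, hTf, hDind⟩ := exists_cpt (hK.gd τ hτ hj n z hz1) ht
  have hk0 : k0 ≤ K := by
    rw [k0, Subfield.closure_le]
    rintro _ rfl
    exact hK.be
  have hbk : Y685.be τ ∈ k0 := by
    rw [be_eq hτ]
    exact Subfield.subset_closure rfl
  have hg20 : (LC τ).g₂ ≠ 0 := hai.ne_zero 2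
  obtain ⟨l, hl⟩ := IsAlgClosed.exists_pow_nat_eq ((LC τ).g₃ / (LC τ).g₂) (n := 2) two_pos
  have hl' : l ^ 2 * (LC τ).g₂ = (LC τ).g₃ := by
    rw [hl]
    field_simp
  have hcmp0 : Cmp k0 τ z D := ⟨fun c hc => hcmp.hk c (hk0 hc), hcmp.tau, hcmp.h, hcmp.g2,
    hcmp.g3, hcmp.b, hcmp.ze, hcmp.wp⟩
  have h : Gp k0 τ l z D := ⟨hτ, hbk, hai, hcmp0, hl'⟩
  exact ⟨hg20, l, h.l0, hl', h.Lh, h.hm, rank_gp noBad h (F := IFd K) (fun x hx => hcmp.hk x hx)
    hTf hDind hz2 hz⟩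

/-- **Independent points and exponents, all lattices with `j` outside the field** (after
helper776, `exists_F`) -/
theorem Fld.gen {K : Subfield ℂ} (hK : Fld K) (L : PeriodPair) (hL : jv L ∉ K) :
      (∀ x ∈ K, L.ω₂ ≠ x * L.ω₁) ∧
      ∀ (s n : ℕ) (t : Fin s → ℂ) (p : Fin n → ℂ),
      (∀ q : Fin s → ℚ, ∑ i, q i • t i ∈ K → q = 0) →
      LinearIndependent ℚ (fun i => (PQ L).mkQ (p i)) →
      ((4 + (s + 2 * n) : ℕ) : ℕ∞) ≤ (MK (IFd K)).eRk (GenL L ∪ (ET t ∪ EP L p)) := by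
  obtain ⟨τ, c, hτ, hc⟩ := exists_LC L
  have hj : jf τ ∉ K := by
    change jv (LC τ) ∉ K
    rw [← hc.jv]
    exact hL
  have hF := hK.KK
  have hτF : τ ∉ IFd K := by
    obtain ⟨-, l, hl0, hl, L', hL', hrk⟩ := hF τ hτ hj 0 0 ![] ![]
      (fun _ _ _ _ => Subsingleton.elim _ _) (fun _ _ => Subsingleton.elim _ _)
    apply tau_notMem
    refine hrk.trans ((MK (IFd K)).eRk_mono ?_)
    rintro x (hx | (⟨i, -⟩ | ⟨i, -⟩) | ⟨i, -⟩ | ⟨i, -⟩ | ⟨i, -⟩)
    · exact hx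
    all_goals exact i.elim0
  refine ⟨fun x hx => ratio_notMem hτ hc hτF (mem_IFd.2 hx), fun s n t p ht hp => ?_⟩
  obtain ⟨g2, l, hl0, hl, L', hL', hrk⟩ := hF τ hτ hj n s (fun i => c⁻¹ * p i) t
    (ind_norm hτ hc hp) ht
  refine hrk.trans (rk_le_of_subset_cl ?_)
  have hc0 := hc.c0
  have htr : Hm L L' (l * c⁻¹) := hc.symm.trans hL'
  have hl2 : (l * c⁻¹) ^ 2 * L.g₂ = L.g₃ := by
    rw [hc.g₂, hc.g₃, ← hl]
    field_simp
  have hg2 : L.g₂ ≠ 0 := by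
    rw [hc.g₂]
    exact div_ne_zero g2 (pow_ne_zero 4 hc0)
  have h2 := transfer (C := IFd K) htr hl2 hg2 p
  have h3 : (fun i => l * (c⁻¹ * p i)) = fun i => l * c⁻¹ * p i := by
    funext i
    ring
  have hmono : (MK (IFd K)).closure (GenL L ∪ EP L p) ⊆
      (MK (IFd K)).closure (GenL L ∪ (ET t ∪ EP L p)) := by
    apply (MK (IFd K)).closure_subset_closure
    rintro x (hx | hx)
    · exact Or.inl hx
    · exact Or.inr (Or.inr hx)
  rintro x (hx | hx | hx)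
  · exact yy_sub hτ hc _ hx
  · exact subset_cl _ (Or.inr (Or.inl hx))
  · rw [h3] at hx
    exact hmono (h2 (Or.inr hx))

theorem tpi_rank {K : Subfield ℂ} (hK : Fld K) : (MK (IFd K)).eRk {tpi} = 0 := by
  rw [← nonpos_iff_eq_zero]
  have h1 : (MK (IFd K)).eRk {tpi} ≤ (MK (IFd K)).eRk ∅ := by
    apply rk_le_of_subset_cl
    rintro _ rfl
    exact cl_of_base (k := IFd K) _ ⟨tpi, hK.pi⟩
  rwa [(MK (IFd K)).eRk_empty] at h1

/-- lattices with `j` outside the field: all independent points -/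
theorem Fld.gen' {K : Subfield ℂ} (hK : Fld K) (L : PeriodPair) (hL : jv L ∉ K) {n : ℕ}
    {p : Fin n → ℂ} (hp : LinearIndependent ℚ p) :
    ((2 * n : ℕ) : ℕ∞) ≤ (MK (IFd K)).eRk ({L.g₂, L.g₃} ∪ EP L p) := by
  have h1 := rank_all (L := L) (F := IFd K) (fun m z hz => by
    rw [tpi_rank hK, zero_add]
    have h2 := (hK.gen L hL).2 0 m ![] z (fun _ _ => Subsingleton.elim _ _) hz
    rw [zero_add] at h2
    refine h2.trans ((MK (IFd K)).eRk_mono ?_)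
    rintro x (hx | (⟨i, -⟩ | ⟨i, -⟩) | hx)
    · exact Or.inl hx
    · exact i.elim0
    · exact i.elim0
    · exact Or.inr hx) hp
  rwa [tpi_rank hK, zero_add] at h1

/-- the lattice lies in the field -/
theorem lat_mem {K : Subfield ℂ} (hL : L ∈ LK K) {w : ℂ} (hw : w ∈ L.lattice) : w ∈ K := by
  obtain ⟨a, b, rfl⟩ := PeriodPair.mem_lattice.1 hw
  exact add_mem (mul_mem (intCast_mem K a) hL.1) (mul_mem (intCast_mem K b) hL.2)

theorem kL_mem {K : Subfield ℂ} (hL : L ∈ LK K) {c : ℂ} (hc : c ∈ kL L) : c ∈ K := by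
  obtain ⟨m, hm, h⟩ := mem_kL.1 hc
  have h1 := lat_mem hL (h _ L.ω₁_mem_lattice)
  have hm0 : (m : ℂ) ≠ 0 := by exact_mod_cast hm.ne'
  have hω := ω₁_ne_zero L
  have h2 : c = (m * c) * L.ω₁ / (m * L.ω₁) := by
    field_simp
  rw [h2]
  exact div_mem h1 (mul_mem (natCast_mem K m) hL.1)

/-- **Fixed lattices over the field** -/
theorem Fld.fix {K : Subfield ℂ} (hK : Fld K) (hL : L ∈ LK K) {z : Fin n → ℂ} {t : Fin s → ℂ}
    (hz : ∀ c : Fin n → ℂ, (∀ i, c i ∈ kL L) → ∑ i, c i * z i ∈ K → c = 0)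
    (ht : ∀ q : Fin s → ℚ, ∑ l, q l • t l ∈ K → q = 0) (hns : 0 < s + n) :
    ((s + 2 * n + 1 : ℕ) : ℕ∞) ≤ (MK (IFd K)).eRk (ET t ∪ EP L z) := by
  obtain ⟨κ, hE⟩ := exists_eig L
  obtain ⟨D, hD, hD1, hD2⟩ := exists_CF hK.cnt hE (hK.g₂ L hL) (hK.g₃ L hL)
    (fun w hw => lat_mem hL hw) (fun c hc => kL_mem hL hc)
    (fun z t j₀ hz hj => hK.good L hL n s z t j₀ hz hj) hz ht
  refine (ax_fixed hE (hD.1 _ (hK.g₂ L hL)) (hD.1 _ (hK.g₃ L hL)) hD.2.1 hD.2.2 hD1 hD2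
    hns).trans ?_
  exact rank_mono_base (fun x hx => hD.1 x hx)
    ((Pool.Agent.Y776.ET_finite t).union (EP_finite z))

end Pool.Agent.Y685
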