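import Mathlib
import Pool.Agent.Y685.G6
import Pool.Agent.TH813.EKPts
import Pool.Agent.TH813.EKPer

/-!
# Reduction of all failures to points over the closed field
-/

set_option autoImplicit false

open Filter Finset Module
open scoped Topology PeriodPair ComplexConjugate

noncomputable section

namespace Pool.Agent.Y685

open H667R3 Pool.Agent.W245.EB Pool.Agent.TH813.Ell
open Pool.Agent.TH813.Rel (DF MK subset_cl rk_le_of_subset_cl cl_of_base exists_derF mem_cl)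
open Pool.Agent.Y776 (jf)

variable {n : ℕ} {L L' : PeriodPair} {κ c : ℂ} {K : Subfield ℂ}

/-- the invariants do not both vanish -/
theorem inv_ne (L : PeriodPair) : ¬ (L.g₂ = 0 ∧ L.g₃ = 0) := by
  rintro ⟨h2, h3⟩
  have h0 : ∀ w ∈ L.lattice, w / 2 ∉ L.lattice → ℘[L] (w / 2) = 0 := by
    intro w hw hw2
    have h4 := L.derivWeierstrassP_sq (w / 2) hw2
    rw [wp'_half_eq_zero L hw, h2, h3] at h4
    have h5 : ℘[L] (w / 2) ^ 3 = 0 := by linear_combination -h4 / 4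
    exact pow_eq_zero_iff (three_ne_zero) |>.1 h5
  have h1 := h0 _ L.ω₁_mem_lattice (half₁ L)
  have h2' := h0 _ L.ω₂_mem_lattice (half₂ L)
  rcases (wp_eq_iff L (half₁ L) (half₂ L)).1 (h1.trans h2'.symm) with h | h
  all_goals first
    | exact half_sub_half_notMem L h
    | exact half_add_half_notMem L h

/-- derivations and roots -/
theorem der_root {δ : Derivation ℚ ℂ ℂ} {m : ℕ} (hm : 0 < m) {c A : ℂ} (hc : c ^ m = A)
    (hc0 : c ≠ 0) (hA : δ A = 0) : δ c = 0 := by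
  have h1 := congrArg δ hc
  rw [hA, Derivation.leibniz_pow, nsmul_eq_mul, smul_eq_mul] at h1
  rcases mul_eq_zero.1 h1 with h | h
  · exact absurd h (by exact_mod_cast hm.ne')
  · exact (mul_eq_zero.1 h).resolve_left (pow_ne_zero _ hc0)

theorem root_mem (hK : Fld K) {m : ℕ} (hm : 0 < m) {x : ℂ} (hx : x ^ m ∈ K) : x ∈ K := by
  apply hK.alg
  refine ⟨Polynomial.X ^ m - Polynomial.C ⟨x ^ m, hx⟩, ?_, ?_⟩
  · exact (Polynomial.monic_X_pow_sub_C _ hm.ne').ne_zero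
  · simp only [map_sub, map_pow, Polynomial.aeval_X, Polynomial.aeval_C]
    exact sub_self _

/-- a normalized lattice -/
theorem exists_norm (hK : Fld K) {L : PeriodPair} (hj : jv L ∈ K) :
    ∃ (L' : PeriodPair) (c : ℂ), Hm L L' c ∧ L' ∈ LK K ∧
      ∀ δ : Derivation ℚ ℂ ℂ, δ L.g₂ = 0 → δ L.g₃ = 0 → δ c = 0 := by
  obtain ⟨τ, c₀, hτ, h₀⟩ := exists_LC L
  have hc₀ := h₀.c0
  have hjτ : jf τ ∈ K := by
    change jv (LC τ) ∈ K
    rw [← h₀.jv]
    exact hj
  have hτK := hK.tau τ hτ hjτ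
  have hLC : LC τ ∈ LK K := ⟨by rw [LC_ω₁]; exact one_mem K, by rw [LC_ω₂ hτ]; exact hτK⟩
  have g2K := hK.g₂ _ hLC
  have g3K := hK.g₃ _ hLC
  obtain ⟨c, hc0, hcK, hcδ⟩ : ∃ c : ℂ, c ≠ 0 ∧ c * c₀ ∈ K ∧
      ∀ δ : Derivation ℚ ℂ ℂ, δ L.g₂ = 0 → δ L.g₃ = 0 → δ c = 0 := by
    have e2 := h₀.g₂
    have e3 := h₀.g₃
    by_cases h2 : L.g₂ = 0
    · have h3 : L.g₃ ≠ 0 := fun h3 => inv_ne L ⟨h2, h3⟩
      obtain ⟨c, hc⟩ := IsAlgClosed.exists_pow_nat_eq L.g₃ (n := 6) (by norm_num)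
      have hc0 : c ≠ 0 := by
        rintro rfl
        apply h3
        rw [← hc]
        norm_num
      refine ⟨c, hc0, root_mem hK (m := 6) (by norm_num) ?_, fun δ _ hδ =>
        der_root (m := 6) (by norm_num) hc hc0 hδ⟩
      have : (c * c₀) ^ 6 = (LC τ).g₃ := by
        rw [mul_pow, hc, e3]
        field_simp
      rw [this]
      exact g3K
    by_cases h3 : L.g₃ = 0
    · obtain ⟨c, hc⟩ := IsAlgClosed.exists_pow_nat_eq L.g₂ (n := 4) (by norm_num)
      have hc0 : c ≠ 0 := by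
        rintro rfl
        apply h2
        rw [← hc]
        norm_num
      refine ⟨c, hc0, root_mem hK (m := 4) (by norm_num) ?_, fun δ hδ _ =>
        der_root (m := 4) (by norm_num) hc hc0 hδ⟩
      have : (c * c₀) ^ 4 = (LC τ).g₂ := by
        rw [mul_pow, hc, e2]
        field_simp
      rw [this]
      exact g2K
    · obtain ⟨c, hc⟩ := IsAlgClosed.exists_pow_nat_eq (L.g₃ / L.g₂) (n := 2) (by norm_num)
      have hc0 : c ≠ 0 := by
        rintro rfl
        apply div_ne_zero h3 h2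
        rw [← hc]
        norm_num
      refine ⟨c, hc0, root_mem hK (m := 2) (by norm_num) ?_, fun δ hδ2 hδ3 =>
        der_root (m := 2) (by norm_num) hc hc0 ?_⟩
      · have h4 : (LC τ).g₂ ≠ 0 := by
          intro h
          apply h2
          rw [e2, h, zero_div]
        have : (c * c₀) ^ 2 = (LC τ).g₃ / (LC τ).g₂ := by
          rw [mul_pow, hc, e2, e3]
          field_simp
        rw [this]
        exact div_mem g3K g2K
      · rw [Derivation.leibniz_div, hδ2, hδ3]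
        simp
  refine ⟨scl L c hc0, c, Hm_scl L hc0, ⟨?_, ?_⟩, hcδ⟩
  · change c * L.ω₁ ∈ K
    have h1 := (h₀.symm.mem L.ω₁).2 L.ω₁_mem_lattice
    have h4 := mul_mem hcK (lat_mem hLC h1)
    have h5 : c * c₀ * (c₀⁻¹ * L.ω₁) = c * L.ω₁ := by field_simp
    rwa [h5] at h4
  · change c * L.ω₂ ∈ K
    have h1 := (h₀.symm.mem L.ω₂).2 L.ω₂_mem_lattice
    have h4 := mul_mem hcK (lat_mem hLC h1)
    have h5 : c * c₀ * (c₀⁻¹ * L.ω₂) = c * L.ω₂ := by field_simp
    rwa [h5] at h4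

section

variable {k : Type} [Field k] [Algebra k ℂ]

/-- comparison of the base fields -/
theorem base_le (hk : ∀ x : k, algebraMap k ℂ x ∈ K) {S : Set ℂ} (hS : S.Finite) :
    (MK (IFd K)).eRk S ≤ (MK k).eRk S := by
  rw [← MK_FR k]
  exact rank_mono_base (by rintro _ ⟨x, rfl⟩; exact hk x) hS

/-- the closure of a set inside a closed field -/
theorem clo_le_IFd (hK : Fld K) {C : IntermediateField ℚ ℂ} (hC : C ≤ IFd K) {A : Set ℂ}
    (hA : A ⊆ K) : clo C A ≤ IFd K := by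
  intro x hx
  by_contra hxK
  have htr : Transcendental (IFd K) x := fun h => hxK (hK.alg x h)
  have hai : AlgebraicIndependent (IFd K) (fun _ : Unit => x) :=
    algebraicIndependent_unique_type_iff.2 htr
  obtain ⟨D, hD, hD1⟩ := exists_derF (IFd K) hai (fun _ => 1)
  have h1 := hx D (fun y hy => hD y (hC hy)) (fun y hy => hD y (hA hy))
  rw [hD1 ()] at h1
  exact one_ne_zero h1

/-- the rank of a union -/
theorem union_ge (hK : Fld K) (hk : ∀ x : k, algebraMap k ℂ x ∈ K) {A B : Set ℂ}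
    (hA : A.Finite) (hB : B.Finite) (hAK : A ⊆ K) :
    (MK k).eRk A + (MK (IFd K)).eRk B ≤ (MK k).eRk (A ∪ B) := by
  rw [← MK_FR k, rank_add hA hB]
  refine add_le_add le_rfl (rank_mono_base (clo_le_IFd hK ?_ hAK) hB)
  rintro _ ⟨x, rfl⟩
  exact hk x

end

/-- the numbers killed by a derivation together with those of their points -/
def KSp (hE : Eig L κ) {δ : Derivation ℚ ℂ ℂ} (h2 : δ L.g₂ = 0) (h3 : δ L.g₃ = 0) :
    Submodule (kL L) ℂ where
  carrier := {v | δ v = 0 ∧ om L δ v = 0 ∧ et L δ v = 0}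
  add_mem' := by
    rintro u v ⟨a1, a2, a3⟩ ⟨b1, b2, b3⟩
    exact ⟨by rw [map_add, a1, b1, add_zero], by rw [om_add L δ h2 h3, a2, b2, add_zero],
      by rw [et_add L δ h2 h3, a3, b3, add_zero]⟩
  zero_mem' := ⟨map_zero _, om_zero δ, et_zero δ⟩
  smul_mem' := by
    rintro ⟨c, hc⟩ z ⟨a1, a2, a3⟩
    have e0 : (⟨c, hc⟩ : kL L) • z = c * z := rfl
    have e1 : δ (c * z) = 0 := by rw [D_mul, der_kL δ hc, a1]; ring
    have e2 : om L δ (c * z) = 0 := by rw [hE.om_mul δ h2 h3 c hc, a2, mul_zero]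
    have e3 : xi L κ δ z = 0 := by
      unfold xi
      rw [a1, a2, a3]
      ring
    have e4 := hE.xi_mul δ h2 h3 c hc z
    rw [e3, mul_zero] at e4
    unfold xi at e4
    rw [e2, e1, sub_self, mul_zero, add_zero] at e4
    rw [Set.mem_ofPred_eq, e0]
    exact ⟨e1, e2, e4⟩

theorem kill_spanK {δ : Derivation ℚ ℂ ℂ} (h2 : δ L.g₂ = 0) (h3 : δ L.g₃ = 0) {p : Fin n → ℂ}
    (h : ∀ x ∈ EP L p, δ x = 0) {v : ℂ} (hv : v ∈ Submodule.span (kL L) (Set.range p))
    (hvL : v ∉ L.lattice) : δ v = 0 ∧ δ (zt L v) = 0 ∧ δ (℘[L] v) = 0 := by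
  obtain ⟨κ, hE⟩ := exists_eig L
  have h1 : Submodule.span (kL L) (Set.range p) ≤ KSp hE h2 h3 := by
    rw [Submodule.span_le]
    rintro _ ⟨i, rfl⟩
    have e1 : om L δ (p i) = 0 := om_of_kill (h _ (Or.inr (Or.inr ⟨i, rfl⟩)))
    refine ⟨h _ (Or.inl ⟨i, rfl⟩), e1, ?_⟩
    unfold et
    rw [e1, mul_zero, add_zero]
    exact h _ (Or.inr (Or.inl ⟨i, rfl⟩))
  obtain ⟨a1, a2, a3⟩ := h1 hv
  refine ⟨a1, ?_, (wp_killed h2 h3 a2 hvL).1⟩
  rw [et, a2, mul_zero, add_zero] at a3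
  exact a3

end Pool.Agent.Y685
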