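import Mathlib
import Pool.Agent.Y685.G7

/-!
# All failures come from failures over a countable field
-/

set_option autoImplicit false

open Filter Finset Module
open scoped Topology PeriodPair ComplexConjugate

noncomputable section

namespace Pool.Agent.Y685

open H667R3 Pool.Agent.W245.EB Pool.Agent.TH813.Ell
open Pool.Agent.TH813.Rel (DF MK subset_cl rk_le_of_subset_cl cl_of_base exists_derF mem_cl)
open Pool.Agent.Y776 (jf ET ET_finite)

variable {n : ℕ} {L L' : PeriodPair} {κ c : ℂ} {K : Subfield ℂ}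

theorem Hm.kL (h : Hm L L' c) {a : ℂ} : a ∈ kL L' ↔ a ∈ kL L := by
  rw [mem_kL, mem_kL]
  have hc := h.c0
  constructor
  · rintro ⟨m, hm, ha⟩
    refine ⟨m, hm, fun w hw => ?_⟩
    have h1 := ha _ ((h.mem w).2 hw)
    rw [← h.mem]
    have h2 : c * ((m : ℂ) * a * w) = (m : ℂ) * a * (c * w) := by ring
    rw [h2]
    exact h1
  · rintro ⟨m, hm, ha⟩
    refine ⟨m, hm, fun w hw => ?_⟩
    have h1 := ha _ ((h.symm.mem w).2 hw)
    have h3 := (h.mem _).2 h1
    have h2 : c * ((m : ℂ) * a * (c⁻¹ * w)) = (m : ℂ) * a * w := by field_simp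
    rwa [h2] at h3

/-- independence over the field of multiplications in terms of coefficients -/
theorem li_iff {m : ℕ} {q : Fin m → ℂ} : LinearIndependent (kL L) q ↔
    ∀ a : Fin m → ℂ, (∀ i, a i ∈ kL L) → ∑ i, a i * q i = 0 → a = 0 := by
  rw [Fintype.linearIndependent_iff]
  constructor
  · intro h a ha h0
    have h1 := h (fun i => ⟨a i, ha i⟩) h0
    funext i
    exact congrArg Subtype.val (h1 i)
  · intro h g hg i
    have h1 := h (fun i => (g i : ℂ)) (fun i => (g i).2) hg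
    exact Subtype.ext (congrFun h1 i)

theorem sub_cl {C : IntermediateField ℚ ℂ} (h : Hm L L' c)
    (hcδ : ∀ δ : Derivation ℚ ℂ ℂ, δ L.g₂ = 0 → δ L.g₃ = 0 → δ c = 0) {p : Fin n → ℂ} {m : ℕ}
    {v : Fin m → ℂ} (hv : ∀ i, v i ∈ Submodule.span (kL L) (Set.range p))
    (hvL : ∀ i, v i ∉ L.lattice) :
    {L'.g₂, L'.g₃} ∪ EP L' (fun i => c * v i) ⊆ (MK C).closure ({L.g₂, L.g₃} ∪ EP L p) := by
  intro x hx
  rw [mem_cl_iff]
  intro δ _ hS
  have h2 : δ L.g₂ = 0 := hS _ (Or.inl (Or.inl rfl))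
  have h3 : δ L.g₃ = 0 := hS _ (Or.inl (Or.inr rfl))
  have hc := hcδ δ h2 h3
  have hd : ∀ (m : ℕ) (y : ℂ), δ y = 0 → δ (y / c ^ m) = 0 := by
    intro m y hy
    rw [Derivation.leibniz_div, hy, Derivation.leibniz_pow, hc]
    simp
  have hk : ∀ i, _ := fun i => kill_spanK h2 h3 (fun x hx => hS x (Or.inr hx)) (hv i) (hvL i)
  rcases hx with (rfl | rfl) | ⟨i, rfl⟩ | ⟨i, rfl⟩ | ⟨i, rfl⟩
  · rw [h.g₂]; exact hd 4 _ h2
  · rw [h.g₃]; exact hd 6 _ h3
  · change δ (c * v i) = 0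
    rw [D_mul, hc, (hk i).1]
    ring
  · change δ (zt L' (c * v i)) = 0
    rw [h.zt]
    have := hd 1 _ (hk i).2.1
    rwa [pow_one] at this
  · change δ (℘[L'] (c * v i)) = 0
    rw [h.wp]
    exact hd 2 _ (hk i).2.2

/-- **The reduction** -/
theorem reduce {k : Type} [Field k] [Algebra k ℂ] (hK : Fld K)
    (hk : ∀ x : k, algebraMap k ℂ x ∈ K) {L : PeriodPair} {n : ℕ} {p : Fin n → ℂ}
    (hp : LinearIndependent (kL L) p) {d : ℕ}
    (hd : (MK k).eRk ({L.g₂, L.g₃} ∪ EP L p) + d < ((2 * n : ℕ) : ℕ∞)) :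
    ∃ (L' : PeriodPair) (c : ℂ), Hm L L' c ∧ L' ∈ LK K ∧ ∃ (m : ℕ) (q : Fin m → ℂ),
      (∀ i, q i ∈ K) ∧ (∀ i, q i ∉ L'.lattice) ∧ LinearIndependent (kL L') q ∧
      (∀ i, c⁻¹ * q i ∈ Submodule.span (kL L) (Set.range p)) ∧
      (MK k).eRk ({L'.g₂, L'.g₃} ∪ EP L' q) + d < ((2 * m : ℕ) : ℕ∞) := by
  classical
  have hfin : ({L.g₂, L.g₃} ∪ EP L p).Finite := (Set.toFinite _).union (EP_finite p)
  have hj : jv L ∈ K := by
    by_contra hj
    have hpQ : LinearIndependent ℚ p := hp.restrict_scalars (fun a b hab => by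
      have h1 : ((algebraMap ℚ (kL L) a : kL L) : ℂ) = ((algebraMap ℚ (kL L) b : kL L) : ℂ) := by
        have h2 : algebraMap ℚ (kL L) a = algebraMap ℚ (kL L) b := by
          simpa [Algebra.smul_def] using hab
        rw [h2]
      simpa using h1)
    have h1 := (hK.gen' L hj hpQ).trans (base_le hk hfin)
    have h2 := lt_of_le_of_lt (le_self_add) hd
    exact absurd h1 (not_le.2 h2)
  obtain ⟨L', c, h, hL', hcδ⟩ := exists_norm hK hj
  have hc0 := h.c0
  have hkK : ∀ a ∈ kL L, a ∈ K := fun a ha => kL_mem hL' (h.kL.2 ha)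
  set X := Submodule.span (kL L) (Set.range p) with hX
  have hXf : FiniteDimensional (kL L) X :=
    FiniteDimensional.span_of_finite (kL L) (Set.finite_range p)
  have hXn : finrank (kL L) X = n := by
    rw [hX, finrank_span_eq_card hp, Fintype.card_fin]
  let cK : Submodule (kL L) ℂ :=
    { carrier := {x | c * x ∈ K}
      add_mem' := fun {a b} ha hb => by
        rw [Set.mem_ofPred_eq] at ha hb ⊢
        rw [mul_add]; exact add_mem ha hb
      zero_mem' := by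
        rw [Set.mem_ofPred_eq, mul_zero]; exact zero_mem K
      smul_mem' := fun a x hx => by
        rw [Set.mem_ofPred_eq] at hx ⊢
        have e : c * (a • x) = (a : ℂ) * (c * x) := by
          change c * ((a : ℂ) * x) = _
          ring
        rw [e]
        exact mul_mem (hkK _ a.2) hx }
  have hAX : X ⊓ cK ≤ X := inf_le_left
  obtain ⟨Y, hYX, hYA, hYn⟩ := exists_rel_compl hAX
  have hAf : FiniteDimensional (kL L) (X ⊓ cK : Submodule (kL L) ℂ) :=
    Submodule.finiteDimensional_of_le hAX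
  have hYf : FiniteDimensional (kL L) Y := Submodule.finiteDimensional_of_le hYX
  obtain ⟨m, hm, q, hq, hqA, hqL⟩ : ∃ m, m = finrank (kL L) (X ⊓ cK : Submodule (kL L) ℂ) ∧
      ∃ q : Fin m → ℂ, LinearIndependent (kL L) q ∧ (∀ i, q i ∈ X ⊓ cK) ∧
        ∀ i, q i ∉ L.lattice := ⟨_, rfl, exists_basis_off _⟩
  obtain ⟨y, hy, r, hr, hrY, hrL⟩ : ∃ y, y = finrank (kL L) Y ∧
      ∃ r : Fin y → ℂ, LinearIndependent (kL L) r ∧ (∀ i, r i ∈ Y) ∧
        ∀ i, r i ∉ L.lattice := ⟨_, rfl, exists_basis_off _⟩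
  have hqK : ∀ i, c * q i ∈ K := fun i => (hqA i).2
  -- the points outside the field
  have hrind : ∀ a : Fin y → ℂ, (∀ i, a i ∈ kL L') → ∑ i, a i * (c * r i) ∈ K → a = 0 := by
    intro a ha hs
    refine li_iff.1 hr a (fun i => h.kL.1 (ha i)) ?_
    have h1 : ∑ i, a i * r i ∈ Y := by
      have : ∑ i, a i * r i = ∑ i, (⟨a i, h.kL.1 (ha i)⟩ : kL L) • r i := rfl
      rw [this]
      exact sum_mem (fun i _ => Submodule.smul_mem _ _ (hrY i))
    have h2 : ∑ i, a i * r i ∈ cK := by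
      change c * ∑ i, a i * r i ∈ K
      rw [mul_sum]
      have : ∑ i, c * (a i * r i) = ∑ i, a i * (c * r i) := sum_congr rfl (fun i _ => by ring)
      rw [this]
      exact hs
    have h3 : ∑ i, a i * r i ∈ Y ⊓ (X ⊓ cK) := ⟨h1, hYX h1, h2⟩
    rw [hYA] at h3
    exact (Submodule.mem_bot _).1 h3
  have hyr : ((2 * y : ℕ) : ℕ∞) ≤ (MK (IFd K)).eRk (EP L' (fun i => c * r i)) := by
    rcases Nat.eq_zero_or_pos y with hy0 | hy0
    · have h0 : ((2 * y : ℕ) : ℕ∞) = 0 := by rw [hy0]; rfl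
      rw [h0]
      exact bot_le
    · have h1 := hK.fix (s := 0) hL' (z := fun i => c * r i) (t := ![]) hrind
        (fun _ _ => Subsingleton.elim _ _) (by omega)
      have h2 : (ET (![] : Fin 0 → ℂ) ∪ EP L' (fun i => c * r i)) = EP L' (fun i => c * r i) := by
        apply Set.union_eq_self_of_subset_left
        rintro x (⟨i, -⟩ | ⟨i, -⟩) <;> exact i.elim0
      rw [h2] at h1
      refine le_trans ?_ h1
      exact_mod_cast (by omega : 2 * y ≤ 0 + 2 * y + 1)
  -- the numbers in the field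
  set A' : Set ℂ := {L'.g₂, L'.g₃} ∪ EP L' (fun i => c * q i) with hA'
  have hA'K : A' ⊆ K := by
    rintro x ((rfl | rfl) | ⟨i, rfl⟩ | ⟨i, rfl⟩ | ⟨i, rfl⟩)
    · exact hK.g₂ _ hL'
    · exact hK.g₃ _ hL'
    · exact hqK i
    · exact hK.zt _ hL' _ (hqK i)
    · exact hK.wp _ hL' _ (hqK i)
  have hA'f : A'.Finite := (Set.toFinite _).union (EP_finite _)
  have h1 := union_ge hK hk hA'f (EP_finite (L := L') (fun i => c * r i)) hA'K
  have h2 : (MK k).eRk (A' ∪ EP L' (fun i => c * r i)) ≤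
      (MK k).eRk ({L.g₂, L.g₃} ∪ EP L p) := by
    rw [← MK_FR k]
    apply rk_le_of_subset_cl
    rintro x (hx | hx)
    · exact sub_cl h hcδ (fun i => (hqA i).1) hqL hx
    · exact sub_cl h hcδ (fun i => hYX (hrY i)) hrL (Or.inr hx)
  refine ⟨L', c, h, hL', m, fun i => c * q i, hqK, fun i => h.notMem.2 (hqL i), ?_, fun i => ?_, ?_⟩
  · rw [li_iff]
    intro a ha h0
    refine li_iff.1 hq a (fun i => h.kL.1 (ha i)) ?_
    have h3 : c * ∑ i, a i * q i = 0 := by
      rw [mul_sum, ← h0]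
      exact sum_congr rfl (fun i _ => by ring)
    exact (mul_eq_zero.1 h3).resolve_left hc0
  · have h3 : c⁻¹ * (c * q i) = q i := by field_simp
    rw [h3]
    exact (hqA i).1
  · have h3 := (add_le_add (le_refl ((MK k).eRk A')) hyr).trans (h1.trans h2)
    have hR : (MK k).eRk ({L.g₂, L.g₃} ∪ EP L p) ≠ ⊤ :=
      ne_top_of_le_ne_top (Set.encard_ne_top_iff.2 hfin) ((MK k).eRk_le_encard _)
    have hR' : (MK k).eRk A' ≠ ⊤ :=
      ne_top_of_le_ne_top (Set.encard_ne_top_iff.2 hA'f) ((MK k).eRk_le_encard _)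
    obtain ⟨R, hR⟩ := ENat.ne_top_iff_exists.1 hR
    obtain ⟨R', hR'⟩ := ENat.ne_top_iff_exists.1 hR'
    rw [← hR] at h3 hd
    rw [← hR'] at h3 ⊢
    have h4 : R' + 2 * y ≤ R := by exact_mod_cast h3
    have h5 : R + d < 2 * n := by exact_mod_cast hd
    have h6 : R' + d < 2 * m := by omega
    exact_mod_cast h6

end Pool.Agent.Y685
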