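import Mathlib
import Pool.Agent.Y685.G8
import Pool.Agent.Y685.F5

/-!
# All failures come from a countable set of failures
-/

set_option autoImplicit false

open Filter Finset Module
open scoped Topology PeriodPair ComplexConjugate

noncomputable section

namespace Pool.Agent.Y685

open H667R3 Pool.Agent.W245.EB Pool.Agent.TH813.Ell
open Pool.Agent.TH813.Rel (DF MK subset_cl rk_le_of_subset_cl cl_of_base toENat_trdeg)

/-- the transcendence degree of a finitely generated field -/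
theorem trd_eq (k : Type) [Field k] [Algebra k ℂ] {S : Set ℂ} (hS : S.Finite) :
    ∃ r : ℕ, (MK k).eRk S = (r : ℕ∞) ∧
      Algebra.trdeg k (IntermediateField.adjoin k S) = (r : Cardinal) := by
  have h1 : (MK k).eRk S < ⊤ := ((MK k).eRk_le_encard S).trans_lt hS.encard_lt_top
  obtain ⟨s, hs⟩ := ENat.ne_top_iff_exists.1 h1.ne
  refine ⟨s, hs.symm, ?_⟩
  rw [← Cardinal.toENat_eq_natCast, toENat_trdeg, hs]

theorem Numb_finite (L : PeriodPair) {n : ℕ} (p : Fin n → ℂ) : (Numb L p).Finite := by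
  have h1 : {x | ∃ i, x = p i ∨ x = ℘[L] (p i) ∨ x = zeta L (p i)} ⊆
      Set.range p ∪ (Set.range (fun i => ℘[L] (p i)) ∪ Set.range (fun i => zeta L (p i))) := by
    rintro x ⟨i, rfl | rfl | rfl⟩
    · exact Or.inl ⟨i, rfl⟩
    · exact Or.inr (Or.inl ⟨i, rfl⟩)
    · exact Or.inr (Or.inr ⟨i, rfl⟩)
  exact (Set.toFinite _).union (((Set.finite_range _).union ((Set.finite_range _).union
    (Set.finite_range _))).subset h1)

/-- **all failures of the elliptic Schanuel conjecture come from failures over a countable set** -/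
theorem failures (k : Type) [Field k] [Algebra k ℂ] [Countable k] :
    ∃ F : Set ℂ, F.Countable ∧ ∀ (d n : ℕ) (L : PeriodPair) (p : Fin n → ℂ),
      (∀ i, p i ∉ L.lattice) →
      (∀ a : Fin n → ℂ, (∀ i, a i ∈ kL L) → ∑ i, a i * p i = 0 → a = 0) →
      Algebra.trdeg k (IntermediateField.adjoin k (Numb L p)) + d < ((2 * n : ℕ) : Cardinal) →
      ∃ (c : ℂ) (L' : PeriodPair) (m : ℕ) (q : Fin m → ℂ), c ≠ 0 ∧
        (∀ x, c * x ∈ L'.lattice ↔ x ∈ L.lattice) ∧
        (∀ i, ∃ a : Fin n → ℂ, (∀ j, a j ∈ kL L) ∧ q i = c * ∑ j, a j * p j) ∧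
        (L'.ω₁ ∈ F ∧ L'.ω₂ ∈ F ∧ Numb L' q ⊆ F) ∧
        (∀ i, q i ∉ L'.lattice) ∧
        (∀ a : Fin m → ℂ, (∀ i, a i ∈ kL L') → ∑ i, a i * q i = 0 → a = 0) ∧
        Algebra.trdeg k (IntermediateField.adjoin k (Numb L' q)) + d <
          ((2 * m : ℕ) : Cardinal) := by
  obtain ⟨K, hK, hkK⟩ := exists_Fld (S := Set.range (algebraMap k ℂ)) (Set.countable_range _)
  refine ⟨K, hK.cnt, fun d n L p hpL hp hd => ?_⟩
  obtain ⟨r, hr, hr'⟩ := trd_eq k (Numb_finite L p)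
  rw [hr'] at hd
  have hd' : r + d < 2 * n := by exact_mod_cast hd
  obtain ⟨L', c, h, hL', m, q, hqK, hqL, hq, hqs, hqd⟩ := reduce (k := k) hK
    (fun x => hkK ⟨x, rfl⟩) (li_iff.2 hp) (d := d) (by
      rw [Numb_eq hpL, hr]
      exact_mod_cast hd')
  have hc0 := h.c0
  refine ⟨c, L', m, q, hc0, h.mem, fun i => ?_, ⟨hL'.1, hL'.2, ?_⟩, hqL, li_iff.1 hq, ?_⟩
  · obtain ⟨a, ha⟩ := (Submodule.mem_span_range_iff_exists_fun (kL L)).1 (hqs i)
    refine ⟨fun j => (a j : ℂ), fun j => (a j).2, ?_⟩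
    have h1 : ∑ j, (a j : ℂ) * p j = c⁻¹ * q i := ha
    rw [h1]
    field_simp
  · rintro x ((rfl | rfl) | ⟨i, rfl | rfl | rfl⟩)
    · exact hK.g₂ _ hL'
    · exact hK.g₃ _ hL'
    · exact hqK i
    · exact hK.wp _ hL' _ (hqK i)
    · have := hK.zt _ hL' _ (hqK i)
      rwa [zt_of_notMem (hqL i)] at this
  · obtain ⟨r', hr1, hr2⟩ := trd_eq k (Numb_finite L' q)
    rw [Numb_eq hqL, hr1] at hqd
    have h5 : r' + d < 2 * m := by exact_mod_cast hqd
    rw [hr2]
    exact_mod_cast h5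

end Pool.Agent.Y685
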