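import Mathlib

/-!
Heavy ball in dimension one: the map, and cycles which persist.
-/

set_option autoImplicit false

open Filter Topology

namespace Pool.Agent.Y685.HB

/-- The gradient (divided by `L`): piecewise linear with slopes `s1` and `s2`, break point `a`. -/
noncomputable def g (a s1 s2 : ℝ) (x : ℝ) : ℝ := s1 * x - (s1 - s2) * max (x - a) 0

/-- The heavy ball map on pairs `(x_t, x_{t+1})`. -/
noncomputable def F (β Γ a s1 s2 : ℝ) (w : ℝ × ℝ) : ℝ × ℝ :=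
  (w.2, (1 + β) * w.2 - β * w.1 - Γ * g a s1 s2 w.2)

/-- Linear recursion with one exceptional step. -/
def yy (A2 A1 β B p q : ℝ) : ℕ → ℝ
  | 0 => q
  | 1 => p
  | 2 => A2 * p - β * q - B
  | (n + 3) => A1 * yy A2 A1 β B p q (n + 2) - β * yy A2 A1 β B p q (n + 1)

lemma yy_lin (A2 A1 β B p q : ℝ) : ∀ n : ℕ,
    yy A2 A1 β B p q n = yy A2 A1 β 0 1 0 n * p + yy A2 A1 β 0 0 1 n * q + yy A2 A1 β B 0 0 n ∧
    yy A2 A1 β B p q (n + 1) = yy A2 A1 β 0 1 0 (n + 1) * p + yy A2 A1 β 0 0 1 (n + 1) * q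
      + yy A2 A1 β B 0 0 (n + 1)
  | 0 => by constructor <;> simp [yy]
  | 1 => by
      constructor
      · simp [yy]
      · simp [yy]; ring
  | (n + 2) => by
      obtain ⟨h1, h2⟩ := yy_lin A2 A1 β B p q (n + 1)
      refine ⟨h2, ?_⟩
      show A1 * yy A2 A1 β B p q (n + 2) - β * yy A2 A1 β B p q (n + 1) =
        (A1 * yy A2 A1 β 0 1 0 (n + 2) - β * yy A2 A1 β 0 1 0 (n + 1)) * p
        + (A1 * yy A2 A1 β 0 0 1 (n + 2) - β * yy A2 A1 β 0 0 1 (n + 1)) * q
        + (A1 * yy A2 A1 β B 0 0 (n + 2) - β * yy A2 A1 β B 0 0 (n + 1))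
      rw [h1, h2]; ring

lemma yy_cont {X : Type*} [TopologicalSpace X] {x0 : X} {A2 A1 β B p q : X → ℝ}
    (h2 : ContinuousAt A2 x0) (h1 : ContinuousAt A1 x0) (hβ : ContinuousAt β x0)
    (hB : ContinuousAt B x0) (hp : ContinuousAt p x0) (hq : ContinuousAt q x0) : ∀ n : ℕ,
    ContinuousAt (fun x => yy (A2 x) (A1 x) (β x) (B x) (p x) (q x) n) x0 ∧
    ContinuousAt (fun x => yy (A2 x) (A1 x) (β x) (B x) (p x) (q x) (n + 1)) x0
  | 0 => by constructor <;> simpa [yy]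
  | 1 => by
      constructor
      · simpa [yy]
      · simp only [yy]
        exact ((h2.mul hp).sub (hβ.mul hq)).sub hB
  | (n + 2) => by
      obtain ⟨k1, k2⟩ := yy_cont h2 h1 hβ hB hp hq (n + 1)
      refine ⟨k2, ?_⟩
      exact (h1.mul k2).sub (hβ.mul k1)

/-- The orbit of the heavy ball map follows the linear recursion while the break point
is not crossed. -/
lemma iter_eq {β Γ a s1 s2 p q : ℝ} {K : ℕ}
    (hp : a < p)
    (hn : ∀ n, 2 ≤ n → n ≤ K →
      yy (1 + β - Γ * s2) (1 + β - Γ * s1) β (Γ * (s1 - s2) * a) p q n < a) :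
    ∀ n, n ≤ K → (F β Γ a s1 s2)^[n] (q, p) =
      (yy (1 + β - Γ * s2) (1 + β - Γ * s1) β (Γ * (s1 - s2) * a) p q n,
       yy (1 + β - Γ * s2) (1 + β - Γ * s1) β (Γ * (s1 - s2) * a) p q (n + 1)) := by
  intro n
  induction n with
  | zero => intro _; simp [yy]
  | succ n ih =>
    intro h
    rw [Function.iterate_succ_apply', ih (by omega)]
    unfold F
    simp only
    congr 1
    rcases n with _ | n
    · simp only [yy, g]
      rw [max_eq_left (by linarith)]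
      ring
    · have := hn (n + 2) (by omega) h
      show _ = (1 + β - Γ * s1) * yy _ _ _ _ _ _ (n + 2) - β * yy _ _ _ _ _ _ (n + 1)
      simp only [g]
      rw [max_eq_right (by linarith)]
      ring

/-- Persistence of a nondegenerate cycle. -/
lemma persist {a s1 s2 Γ0 p0 q0 : ℝ} {K : ℕ}
    (hs2 : 0 < s2)
    (e1 : yy (2 - Γ0 * s2) (2 - Γ0 * s1) 1 (Γ0 * (s1 - s2) * a) p0 q0 K = q0)
    (e2 : yy (2 - Γ0 * s2) (2 - Γ0 * s1) 1 (Γ0 * (s1 - s2) * a) p0 q0 (K + 1) = p0)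
    (hD : yy (2 - Γ0 * s2) (2 - Γ0 * s1) 1 0 1 0 K * yy (2 - Γ0 * s2) (2 - Γ0 * s1) 1 0 0 1 (K + 1)
      - (yy (2 - Γ0 * s2) (2 - Γ0 * s1) 1 0 0 1 K - 1)
        * (yy (2 - Γ0 * s2) (2 - Γ0 * s1) 1 0 1 0 (K + 1) - 1) ≠ 0)
    (hp : a < p0)
    (hn : ∀ n, 2 ≤ n → n ≤ K →
      yy (2 - Γ0 * s2) (2 - Γ0 * s1) 1 (Γ0 * (s1 - s2) * a) p0 q0 n < a) (h2K : 2 ≤ K) :
    ∀ᶠ w : (ℝ × ℝ) × ℝ in 𝓝 ((1, 0), Γ0), w.1.2 ≤ s2 ∧ ∃ p q : ℝ, a < p ∧ q < a ∧
      (F w.1.1 w.2 a s1 s2)^[K] (q, p) = (q, p) := by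
  set x0 : (ℝ × ℝ) × ℝ := ((1, 0), Γ0) with hx0
  -- parameters as functions
  let bet : (ℝ × ℝ) × ℝ → ℝ := fun w => w.1.1
  let A2 : (ℝ × ℝ) × ℝ → ℝ := fun w => 1 + w.1.1 - w.2 * s2
  let A1 : (ℝ × ℝ) × ℝ → ℝ := fun w => 1 + w.1.1 - w.2 * s1
  let B : (ℝ × ℝ) × ℝ → ℝ := fun w => w.2 * (s1 - s2) * a
  have cb : ContinuousAt bet x0 := by fun_prop
  have c2 : ContinuousAt A2 x0 := by fun_prop
  have c1 : ContinuousAt A1 x0 := by fun_prop
  have cB : ContinuousAt B x0 := by fun_prop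
  have b0 : bet x0 = 1 := rfl
  have a20 : A2 x0 = 2 - Γ0 * s2 := by simp only [A2, hx0]; norm_num
  have a10 : A1 x0 = 2 - Γ0 * s1 := by simp only [A1, hx0]; norm_num
  have B0 : B x0 = Γ0 * (s1 - s2) * a := rfl
  let P : ℕ → (ℝ × ℝ) × ℝ → ℝ := fun n w => yy (A2 w) (A1 w) (bet w) 0 1 0 n
  let Q : ℕ → (ℝ × ℝ) × ℝ → ℝ := fun n w => yy (A2 w) (A1 w) (bet w) 0 0 1 n
  let R : ℕ → (ℝ × ℝ) × ℝ → ℝ := fun n w => yy (A2 w) (A1 w) (bet w) (B w) 0 0 n
  have cP : ∀ n, ContinuousAt (P n) x0 := fun n =>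
    (yy_cont c2 c1 cb continuousAt_const continuousAt_const continuousAt_const n).1
  have cQ : ∀ n, ContinuousAt (Q n) x0 := fun n =>
    (yy_cont c2 c1 cb continuousAt_const continuousAt_const continuousAt_const n).1
  have cR : ∀ n, ContinuousAt (R n) x0 := fun n =>
    (yy_cont c2 c1 cb cB continuousAt_const continuousAt_const n).1
  let D : (ℝ × ℝ) × ℝ → ℝ := fun w => P K w * Q (K + 1) w - (Q K w - 1) * (P (K + 1) w - 1)
  have cD : ContinuousAt D x0 :=
    ((cP K).mul (cQ (K + 1))).sub (((cQ K).sub continuousAt_const).mul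
      ((cP (K + 1)).sub continuousAt_const))
  have D0 : D x0 ≠ 0 := by
    simp only [D, P, Q, a20, a10, b0]
    exact hD
  let pf : (ℝ × ℝ) × ℝ → ℝ := fun w =>
    (- R K w * Q (K + 1) w + R (K + 1) w * (Q K w - 1)) / D w
  let qf : (ℝ × ℝ) × ℝ → ℝ := fun w =>
    (- P K w * R (K + 1) w + R K w * (P (K + 1) w - 1)) / D w
  have cp : ContinuousAt pf x0 :=
    (((cR K).neg.mul (cQ (K + 1))).add ((cR (K + 1)).mul ((cQ K).sub continuousAt_const))).div
      cD D0
  have cq : ContinuousAt qf x0 :=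
    (((cP K).neg.mul (cR (K + 1))).add ((cR K).mul ((cP (K + 1)).sub continuousAt_const))).div
      cD D0
  -- values at the base point
  have l1 := (yy_lin (A2 x0) (A1 x0) (bet x0) (B x0) p0 q0 K).1
  have l2 := (yy_lin (A2 x0) (A1 x0) (bet x0) (B x0) p0 q0 K).2
  have m1 : yy (A2 x0) (A1 x0) (bet x0) (B x0) p0 q0 K = q0 := by
    rw [a20, a10, b0, B0]; exact e1
  have m2 : yy (A2 x0) (A1 x0) (bet x0) (B x0) p0 q0 (K + 1) = p0 := by
    rw [a20, a10, b0, B0]; exact e2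
  have n1 : P K x0 * p0 + Q K x0 * q0 + R K x0 = q0 := by
    have := l1.symm.trans m1
    exact this
  have n2 : P (K + 1) x0 * p0 + Q (K + 1) x0 * q0 + R (K + 1) x0 = p0 := by
    have := l2.symm.trans m2
    exact this
  have p00 : pf x0 = p0 := by
    simp only [pf]
    rw [div_eq_iff D0]
    simp only [D]
    linear_combination (-(Q (K + 1) x0)) * n1 + (Q K x0 - 1) * n2
  have q00 : qf x0 = q0 := by
    simp only [qf]
    rw [div_eq_iff D0]
    simp only [D]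
    linear_combination (P (K + 1) x0 - 1) * n1 - (P K x0) * n2
  -- eventually
  have E1 : ∀ᶠ w in 𝓝 x0, D w ≠ 0 := cD.eventually_ne D0
  have E2 : ∀ᶠ w in 𝓝 x0, a < pf w :=
    cp.eventually_const_lt (by rw [p00]; exact hp)
  have E3 : ∀ᶠ w in 𝓝 x0, ∀ n ∈ Finset.Icc 2 K,
      yy (A2 w) (A1 w) (bet w) (B w) (pf w) (qf w) n < a := by
    rw [Filter.eventually_all_finset]
    intro n hn'
    rw [Finset.mem_Icc] at hn'
    refine (yy_cont c2 c1 cb cB cp cq n).1.eventually_lt_const ?_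
    beta_reduce
    rw [a20, a10, b0, B0, p00, q00]
    exact hn n hn'.1 hn'.2
  have E4 : ∀ᶠ w in 𝓝 x0, w.1.2 < s2 := by
    have : ContinuousAt (fun w : (ℝ × ℝ) × ℝ => w.1.2) x0 := by fun_prop
    exact this.eventually_lt_const (by simpa [hx0] using hs2)
  filter_upwards [E1, E2, E3, E4] with w h1 h2 h3 h4
  refine ⟨h4.le, pf w, qf w, h2, ?_, ?_⟩
  · -- q < a
    have k1 : P K w * pf w + Q K w * qf w + R K w = qf w := by
      have : (P K w * pf w + Q K w * qf w + R K w - qf w) * D w = 0 := by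
        simp only [pf, qf]
        field_simp
        simp only [D]
        ring
      rcases mul_eq_zero.1 this with h | h
      · linarith
      · exact absurd h h1
    have k2 := (yy_lin (A2 w) (A1 w) (bet w) (B w) (pf w) (qf w) K).1
    have k3 := h3 K (Finset.mem_Icc.2 ⟨h2K, le_rfl⟩)
    rw [k2] at k3
    calc qf w = P K w * pf w + Q K w * qf w + R K w := k1.symm
      _ < a := k3
  · have k1 : P K w * pf w + Q K w * qf w + R K w = qf w := by
      have : (P K w * pf w + Q K w * qf w + R K w - qf w) * D w = 0 := by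
        simp only [pf, qf]
        field_simp
        simp only [D]
        ring
      rcases mul_eq_zero.1 this with h | h
      · linarith
      · exact absurd h h1
    have k1' : P (K + 1) w * pf w + Q (K + 1) w * qf w + R (K + 1) w = pf w := by
      have : (P (K + 1) w * pf w + Q (K + 1) w * qf w + R (K + 1) w - pf w) * D w = 0 := by
        simp only [pf, qf]
        field_simp
        simp only [D]
        ring
      rcases mul_eq_zero.1 this with h | h
      · linarith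
      · exact absurd h h1
    have k2 := (yy_lin (A2 w) (A1 w) (bet w) (B w) (pf w) (qf w) K).1
    have k2' := (yy_lin (A2 w) (A1 w) (bet w) (B w) (pf w) (qf w) K).2
    have := iter_eq (β := w.1.1) (Γ := w.2) (a := a) (s1 := s1) (s2 := s2) (p := pf w) (q := qf w)
      (K := K) h2 (fun n hn1 hn2 => h3 n (Finset.mem_Icc.2 ⟨hn1, hn2⟩)) K le_rfl
    rw [this]
    refine Prod.ext ?_ ?_
    · exact k2.trans k1
    · exact k2'.trans k1'

end Pool.Agent.Y685.HB
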