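import Pool.Agent.Y685.HB1

/-!
Heavy ball in dimension one: existence of a nondegenerate cycle for momentum one.
-/

set_option autoImplicit false

open Filter Topology Real

namespace Pool.Agent.Y685.HB

lemma closedP {c θ : ℝ} : ∀ n : ℕ,
    yy (2 * c) (2 * cos θ) 1 0 1 0 (n + 1) * sin θ = 2 * c * sin (n * θ) - sin ((n - 1) * θ) ∧
    yy (2 * c) (2 * cos θ) 1 0 1 0 (n + 2) * sin θ
      = 2 * c * sin ((n + 1) * θ) - sin (n * θ)
  | 0 => by
      constructor
      · simp only [yy]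
        have : ((0 : ℕ) - 1 : ℝ) * θ = - θ := by push_cast; ring
        rw [this, sin_neg]; simp
      · simp only [yy]; simp
  | (n + 1) => by
      obtain ⟨h1, h2⟩ := closedP (c := c) (θ := θ) n
      constructor
      · push_cast
        rw [h2]; ring_nf
      · show (2 * cos θ * yy (2 * c) (2 * cos θ) 1 0 1 0 (n + 2)
          - 1 * yy (2 * c) (2 * cos θ) 1 0 1 0 (n + 1)) * sin θ = _
        have e1 : ((n + 1 : ℕ) + 1 : ℝ) * θ = (n + 1) * θ + θ := by push_cast; ring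
        have e2 : (n : ℝ) * θ = (n + 1) * θ - θ := by ring
        have e3 : ((n + 1 : ℕ) : ℝ) * θ = n * θ + θ := by push_cast; ring
        have e4 : (n - 1 : ℝ) * θ = n * θ - θ := by ring
        have k1 : sin (((n + 1 : ℕ) + 1 : ℝ) * θ) = 2 * cos θ * sin ((n + 1) * θ) - sin (n * θ) := by
          rw [e1, e2, sin_add, sin_sub]; ring
        have k2 : sin (((n + 1 : ℕ) : ℝ) * θ) = 2 * cos θ * sin (n * θ) - sin ((n - 1) * θ) := by
          rw [e3, e4, sin_add, sin_sub]; ring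
        rw [k1, k2]
        linear_combination (2 * cos θ) * h2 - h1

lemma closedQ {c θ : ℝ} : ∀ n : ℕ,
    yy (2 * c) (2 * cos θ) 1 0 0 1 (n + 1) * sin θ = - sin (n * θ) ∧
    yy (2 * c) (2 * cos θ) 1 0 0 1 (n + 2) * sin θ = - sin ((n + 1) * θ)
  | 0 => by
      constructor
      · simp only [yy]; simp
      · simp only [yy]; simp
  | (n + 1) => by
      obtain ⟨h1, h2⟩ := closedQ (c := c) (θ := θ) n
      constructor
      · push_cast
        rw [h2]
      · show (2 * cos θ * yy (2 * c) (2 * cos θ) 1 0 0 1 (n + 2)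
          - 1 * yy (2 * c) (2 * cos θ) 1 0 0 1 (n + 1)) * sin θ = _
        have e1 : ((n + 1 : ℕ) + 1 : ℝ) * θ = (n + 1) * θ + θ := by push_cast; ring
        have e2 : (n : ℝ) * θ = (n + 1) * θ - θ := by ring
        have k1 : sin (((n + 1 : ℕ) + 1 : ℝ) * θ) = 2 * cos θ * sin ((n + 1) * θ) - sin (n * θ) := by
          rw [e1, e2, sin_add, sin_sub]; ring
        rw [k1]
        linear_combination (2 * cos θ) * h2 - h1


lemma cycleY {θ φ B : ℝ} (hB : B = (1 + cos θ) * cos φ - 2 * cos (θ - φ)) : ∀ n : ℕ,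
    yy (1 + cos θ) (2 * cos θ) 1 B (cos φ) (cos (θ - φ)) (n + 1) = cos (n * θ - φ) ∧
    yy (1 + cos θ) (2 * cos θ) 1 B (cos φ) (cos (θ - φ)) (n + 2) = cos ((n + 1) * θ - φ)
  | 0 => by
      constructor
      · simp only [yy]; simp
      · simp only [yy]
        rw [hB]
        have : ((0 : ℕ) + 1 : ℝ) * θ - φ = θ - φ := by push_cast; ring
        rw [this]; ring
  | (n + 1) => by
      obtain ⟨h1, h2⟩ := cycleY hB n
      constructor
      · push_cast; rw [h2]
      · show 2 * cos θ * yy (1 + cos θ) (2 * cos θ) 1 B (cos φ) (cos (θ - φ)) (n + 2)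
          - 1 * yy (1 + cos θ) (2 * cos θ) 1 B (cos φ) (cos (θ - φ)) (n + 1) = _
        rw [h1, h2]
        have e1 : ((n + 1 : ℕ) + 1 : ℝ) * θ - φ = ((n + 1) * θ - φ) + θ := by push_cast; ring
        have e2 : (n : ℝ) * θ - φ = ((n + 1) * θ - φ) - θ := by ring
        rw [e1, e2, cos_add, cos_sub ((n + 1) * θ - φ)]
        ring

lemma cos_le_of_mem {u v : ℝ} (hv : 0 ≤ v) (h1 : v ≤ u) (h2 : u ≤ 2 * π - v) :
    cos u ≤ cos v := by
  rcases le_total u π with h | h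
  · exact cos_le_cos_of_nonneg_of_le_pi hv h h1
  · rw [← cos_two_pi_sub u]
    exact cos_le_cos_of_nonneg_of_le_pi hv (by linarith) (by linarith)

/-- A nondegenerate cycle for momentum `1`. -/
lemma base {Γ0 : ℝ} (h0 : 0 < Γ0) : ∃ (K : ℕ) (a s1 s2 p0 q0 : ℝ), 2 ≤ K ∧ 0 < a ∧ 0 < s2 ∧
    s2 ≤ s1 ∧ s1 ≤ 1 ∧
    yy (2 - Γ0 * s2) (2 - Γ0 * s1) 1 (Γ0 * (s1 - s2) * a) p0 q0 K = q0 ∧
    yy (2 - Γ0 * s2) (2 - Γ0 * s1) 1 (Γ0 * (s1 - s2) * a) p0 q0 (K + 1) = p0 ∧
    yy (2 - Γ0 * s2) (2 - Γ0 * s1) 1 0 1 0 K * yy (2 - Γ0 * s2) (2 - Γ0 * s1) 1 0 0 1 (K + 1)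
      - (yy (2 - Γ0 * s2) (2 - Γ0 * s1) 1 0 0 1 K - 1)
        * (yy (2 - Γ0 * s2) (2 - Γ0 * s1) 1 0 1 0 (K + 1) - 1) ≠ 0 ∧
    a < p0 ∧
    ∀ n, 2 ≤ n → n ≤ K →
      yy (2 - Γ0 * s2) (2 - Γ0 * s1) 1 (Γ0 * (s1 - s2) * a) p0 q0 n < a := by
  -- choice of K
  obtain ⟨K, hK3, hKΓ⟩ : ∃ K : ℕ, 3 ≤ K ∧ 2 - 2 * cos (2 * π / K) < Γ0 := by
    have t1 : Tendsto (fun K : ℕ => 2 - 2 * cos (2 * π / K)) atTop (𝓝 (2 - 2 * cos 0)) :=
      (((continuous_cos.tendsto 0).comp (tendsto_const_div_atTop_nhds_zero_nat (2 * π))).const_mul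
        2).const_sub 2
    rw [cos_zero] at t1
    have t2 := t1.eventually_lt_const (u := Γ0) (by linarith)
    obtain ⟨K, h1, h2⟩ := ((eventually_ge_atTop 3).and t2).exists
    exact ⟨K, h1, h2⟩
  have hK0 : (0 : ℝ) < K := by positivity
  have hK3' : (3 : ℝ) ≤ K := by exact_mod_cast hK3
  have hθ0 : 0 < 2 * π / K := by positivity
  have hθ1 : 2 * π / K < π := by
    rw [div_lt_iff₀ hK0]
    nlinarith [pi_pos]
  have hcos0 : cos (2 * π / K) < 1 := by
    rw [← cos_zero]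
    exact cos_lt_cos_of_nonneg_of_le_pi le_rfl hθ1.le hθ0
  -- choice of φ
  let th : ℝ → ℝ := fun φ => (2 * π + 2 * φ) / K
  have cth : Continuous th := by unfold th; fun_prop
  have th0 : th 0 = 2 * π / K := by simp [th]
  have ev : ∀ᶠ φ in 𝓝 (0 : ℝ), 0 < th φ - φ ∧ th φ < π ∧ 2 - 2 * cos (th φ) < Γ0 ∧
      0 < 1 - cos (th φ) ∧
      sin φ * sin (th φ) < (1 - cos (th φ)) / 2 * cos φ ∧
      (1 - cos (th φ)) * cos (th φ - φ) < (1 - cos (th φ)) * cos φ - 2 * sin (th φ) * sin φ ∧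
      0 < (1 - cos (th φ)) * cos φ - 2 * sin (th φ) * sin φ := by
    refine Filter.Eventually.and ?_ (Filter.Eventually.and ?_ (Filter.Eventually.and ?_
      (Filter.Eventually.and ?_ (Filter.Eventually.and ?_ (Filter.Eventually.and ?_ ?_)))))
    · refine (Continuous.continuousAt (by fun_prop)).eventually_const_lt ?_
      rw [th0]; linarith
    · refine (Continuous.continuousAt (by fun_prop)).eventually_lt_const ?_
      rw [th0]; linarith
    · refine (Continuous.continuousAt (f := fun φ => 2 - 2 * cos (th φ))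
        (by fun_prop)).eventually_lt_const ?_
      simp only [th0]; exact hKΓ
    · refine (Continuous.continuousAt (f := fun φ => 1 - cos (th φ))
        (by fun_prop)).eventually_const_lt ?_
      simp only [th0]; linarith
    · refine ContinuousAt.eventually_lt (Continuous.continuousAt (by fun_prop))
        (Continuous.continuousAt (by fun_prop)) ?_
      simp only [th0, sin_zero, cos_zero]; linarith
    · refine ContinuousAt.eventually_lt (Continuous.continuousAt (by fun_prop))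
        (Continuous.continuousAt (by fun_prop)) ?_
      simp only [th0, sin_zero, cos_zero, sub_zero, mul_zero]
      nlinarith
    · refine (Continuous.continuousAt (f := fun φ => (1 - cos (th φ)) * cos φ
        - 2 * sin (th φ) * sin φ) (by fun_prop)).eventually_const_lt ?_
      simp only [th0, sin_zero, cos_zero, sub_zero, mul_zero]
      linarith
  have ev2 : ∀ᶠ φ in 𝓝[>] (0 : ℝ), 0 < sin φ := by
    have : Set.Ioo (0 : ℝ) π ∈ 𝓝[>] (0 : ℝ) := Ioo_mem_nhdsGT pi_pos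
    filter_upwards [this] with φ hφ
    exact sin_pos_of_pos_of_lt_pi hφ.1 hφ.2
  obtain ⟨φ, ⟨g1, g2, g3, g4, g5, g6, g7⟩, hs, hφ0⟩ :=
    ((ev.filter_mono nhdsWithin_le_nhds).and (ev2.and self_mem_nhdsWithin)).exists
  have hφ0 : 0 < φ := hφ0
  set θ := th φ with hθ
  have hKθ : K * θ = 2 * π + 2 * φ := by
    rw [hθ]; simp only [th]; field_simp
  have hθpos : 0 < θ := by linarith
  have hsθ : 0 < sin θ := sin_pos_of_pos_of_lt_pi hθpos g2
  -- parameters
  set s1 : ℝ := (2 - 2 * cos θ) / Γ0 with hs1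
  set s2 : ℝ := (1 - cos θ) / Γ0 with hs2
  set a : ℝ := cos φ - 2 * sin θ * sin φ / (1 - cos θ) with ha
  have A2 : 2 - Γ0 * s2 = 1 + cos θ := by rw [hs2]; field_simp; ring
  have A1 : 2 - Γ0 * s1 = 2 * cos θ := by rw [hs1]; field_simp; ring
  have haa : (1 - cos θ) * a = (1 - cos θ) * cos φ - 2 * sin θ * sin φ := by
    rw [ha]; field_simp
  have B : Γ0 * (s1 - s2) * a = (1 + cos θ) * cos φ - 2 * cos (θ - φ) := by
    have : Γ0 * (s1 - s2) = 1 - cos θ := by rw [hs1, hs2]; field_simp; ring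
    rw [this, haa, cos_sub]; ring
  have ha0 : 0 < a := by
    rw [← haa] at g7
    exact (mul_pos_iff_of_pos_left g4).1 g7
  have hap : a < cos φ := by
    rw [ha]
    have : 0 < 2 * sin θ * sin φ / (1 - cos θ) := by positivity
    linarith
  have hqa : cos (θ - φ) < a := by
    rw [← haa] at g6
    exact lt_of_mul_lt_mul_left g6 g4.le
  obtain ⟨m, rfl⟩ : ∃ m, K = m + 1 := ⟨K - 1, by omega⟩
  have hmθ : (m : ℝ) * θ = 2 * π + 2 * φ - θ := by
    have : ((m + 1 : ℕ) : ℝ) * θ = m * θ + θ := by push_cast; ring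
    linarith
  refine ⟨m + 1, a, s1, s2, cos φ, cos (θ - φ), by omega, ha0, ?_, ?_, ?_, ?_, ?_, ?_, hap, ?_⟩
  · rw [hs2]; positivity
  · rw [hs1, hs2]
    exact div_le_div_of_nonneg_right (by linarith) h0.le
  · rw [hs1, div_le_one h0]; exact g3.le
  · rw [A2, A1, B, (cycleY rfl m).1, hmθ]
    rw [show 2 * π + 2 * φ - θ - φ = 2 * π - (θ - φ) by ring, cos_two_pi_sub]
  · rw [A2, A1, B, (cycleY rfl m).2]
    rw [show ((m : ℝ) + 1) * θ - φ = m * θ + θ - φ by ring, hmθ]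
    rw [show 2 * π + 2 * φ - θ + θ - φ = φ + 2 * π by ring, cos_add_two_pi]
  · rw [A2, A1]
    have c1 := (closedP (c := (1 + cos θ) / 2) (θ := θ) m).1
    have c2 := (closedP (c := (1 + cos θ) / 2) (θ := θ) m).2
    have c3 := (closedQ (c := (1 + cos θ) / 2) (θ := θ) m).1
    have c4 := (closedQ (c := (1 + cos θ) / 2) (θ := θ) m).2
    rw [show 2 * ((1 + cos θ) / 2) = 1 + cos θ by ring] at c1 c2 c3 c4
    have t1 : sin (m * θ) = sin (2 * φ) * cos θ - cos (2 * φ) * sin θ := by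
      rw [hmθ, show 2 * π + 2 * φ - θ = (2 * φ - θ) + 2 * π by ring, sin_add_two_pi, sin_sub]
    have t2 : sin ((m + 1) * θ) = sin (2 * φ) := by
      rw [show ((m : ℝ) + 1) * θ = m * θ + θ by ring, hmθ,
        show 2 * π + 2 * φ - θ + θ = 2 * φ + 2 * π by ring, sin_add_two_pi]
    have t3 : sin ((m - 1) * θ) = sin (m * θ) * cos θ - cos (m * θ) * sin θ := by
      rw [show ((m : ℝ) - 1) * θ = m * θ - θ by ring, sin_sub]
    have t4 : cos (m * θ) = cos (2 * φ) * cos θ + sin (2 * φ) * sin θ := by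
      rw [hmθ, show 2 * π + 2 * φ - θ = (2 * φ - θ) + 2 * π by ring, cos_add_two_pi, cos_sub]
    intro hD
    set P0 := yy (1 + cos θ) (2 * cos θ) 1 0 1 0 (m + 1)
    set P1 := yy (1 + cos θ) (2 * cos θ) 1 0 1 0 (m + 1 + 1)
    set Q0 := yy (1 + cos θ) (2 * cos θ) 1 0 0 1 (m + 1)
    set Q1 := yy (1 + cos θ) (2 * cos θ) 1 0 0 1 (m + 1 + 1)
    have c2' : P1 * sin θ = (1 + cos θ) * sin ((m + 1) * θ) - sin (m * θ) := c2
    have c4' : Q1 * sin θ = - sin ((m + 1) * θ) := c4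
    have key : (P0 * Q1 - (Q0 - 1) * (P1 - 1)) * sin θ * sin θ
        = 2 * sin θ * (2 * sin φ * ((1 - cos θ) / 2 * cos φ - sin φ * sin θ)) := by
      have : (P0 * Q1 - (Q0 - 1) * (P1 - 1)) * sin θ * sin θ
        = (P0 * sin θ) * (Q1 * sin θ) - (Q0 * sin θ - sin θ) * (P1 * sin θ - sin θ) := by ring
      rw [this, c1, c2', c3, c4', t3, t4, t2, t1]
      have h1 := sin_sq_add_cos_sq θ
      have h2 := sin_sq_add_cos_sq φ
      rw [sin_two_mul, cos_two_mul]
      have e1 : sin θ ^ 2 = 1 - cos θ ^ 2 := by linarith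
      have e2 : sin φ ^ 2 = 1 - cos φ ^ 2 := by linarith
      have e3 : sin θ ^ 3 = sin θ * (1 - cos θ ^ 2) := by rw [← e1]; ring
      ring_nf
      simp only [e3, e1, e2]
      ring
    rw [hD, zero_mul, zero_mul] at key
    have : 0 < 2 * sin θ * (2 * sin φ * ((1 - cos θ) / 2 * cos φ - sin φ * sin θ)) := by
      have : 0 < (1 - cos θ) / 2 * cos φ - sin φ * sin θ := by linarith
      positivity
    linarith
  · intro n hn1 hn2
    obtain ⟨j, rfl⟩ : ∃ j, n = j + 1 := ⟨n - 1, by omega⟩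
    rw [A2, A1, B, (cycleY rfl j).1]
    refine lt_of_le_of_lt (cos_le_of_mem g1.le ?_ ?_) hqa
    · have : (1 : ℝ) ≤ j := by exact_mod_cast (by omega : 1 ≤ j)
      nlinarith
    · have : (j : ℝ) ≤ m := by exact_mod_cast (by omega : j ≤ m)
      have := mul_le_mul_of_nonneg_right this hθpos.le
      rw [hmθ] at this
      linarith

end Pool.Agent.Y685.HB
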