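import Pool.Agent.Y685.HB2

/-!
Heavy ball in dimension one: uniform existence of cycles and elementary estimates.
-/

set_option autoImplicit false

open Filter Topology Real

namespace Pool.Agent.Y685.HB

/-- There is a cycle. -/
def Cyc (β κ Γ : ℝ) : Prop := ∃ (K : ℕ) (a s1 s2 p q : ℝ), 2 ≤ K ∧ 0 < a ∧ 0 < s2 ∧ κ ≤ s2 ∧
  s2 ≤ s1 ∧ s1 ≤ 1 ∧ a < p ∧ q < a ∧ (F β Γ a s1 s2)^[K] (q, p) = (q, p)

lemma cyc_unif {c : ℝ} (hc : 0 < c) : ∃ δ > 0, ∀ β κ Γ : ℝ, |β - 1| < δ → |κ| < δ →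
    c ≤ Γ → Γ ≤ 4 → Cyc β κ Γ := by
  have h := (isCompact_Icc (a := c) (b := 4)).eventually_forall_of_forall_eventually
    (x₀ := ((1, 0) : ℝ × ℝ)) (P := fun x y => Cyc x.1 x.2 y) (by
      intro Γ0 hΓ
      obtain ⟨K, a, s1, s2, p0, q0, hK, ha, hs2, hs, hs1, e1, e2, hD, hp, hn⟩ :=
        base (lt_of_lt_of_le hc hΓ.1)
      filter_upwards [persist hs2 e1 e2 hD hp hn hK] with w hw
      obtain ⟨h1, p, q, h2, h3, h4⟩ := hw
      exact ⟨K, a, s1, s2, p, q, hK, ha, hs2, h1, hs, hs1, h2, h3, h4⟩)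
  rw [Metric.eventually_nhds_iff] at h
  obtain ⟨δ, hδ, h⟩ := h
  refine ⟨δ, hδ, fun β κ Γ h1 h2 h3 h4 => ?_⟩
  refine h (y := (β, κ)) ?_ Γ ⟨h3, h4⟩
  rw [Prod.dist_eq, max_lt_iff]
  constructor
  · simpa [Real.dist_eq] using h1
  · simpa [Real.dist_eq] using h2

/-- Linear recursion of order two. -/
def lin (A β : ℝ) : ℕ → ℝ
  | 0 => 0
  | 1 => 1
  | (n + 2) => A * lin A β (n + 1) - β * lin A β n

lemma lin_cas (A β : ℝ) (n : ℕ) : lin A β (n + 1) ^ 2 - lin A β n * lin A β (n + 2) = β ^ n := by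
  induction n with
  | zero => simp [lin]
  | succ n ih =>
    have e1 : lin A β (n + 1 + 2) = A * lin A β (n + 2) - β * lin A β (n + 1) := rfl
    have e2 : lin A β (n + 2) = A * lin A β (n + 1) - β * lin A β n := rfl
    show lin A β (n + 2) ^ 2 - lin A β (n + 1) * lin A β (n + 1 + 2) = β ^ (n + 1)
    linear_combination β * ih - lin A β (n + 1) * e1 + lin A β (n + 2) * e2

/-- If all solutions of the recursion are eventually at most `s ^ n` for every `s > r`,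
then `β ≤ r ^ 2`. -/
lemma beta_le {A β r : ℝ} (hr : 0 ≤ r)
    (h : ∀ s, r < s → ∀ᶠ n : ℕ in atTop, |lin A β n| ≤ s ^ n) : β ≤ r ^ 2 := by
  by_contra hlt
  push Not at hlt
  have hβ : 0 < β := lt_of_le_of_lt (sq_nonneg r) hlt
  have h1 : r < √β := by
    rw [Real.lt_sqrt hr]; exact hlt
  obtain ⟨s, hs1, hs2⟩ := exists_between h1
  have hs0 : 0 < s := lt_of_le_of_lt hr hs1
  have hs3 : s ^ 2 < β := by
    rw [Real.lt_sqrt hs0.le] at hs2; exact hs2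
  have h2 : 1 < β / s ^ 2 := by rw [one_lt_div (by positivity)]; exact hs3
  have h3 := tendsto_pow_atTop_atTop_of_one_lt h2
  have h4 := h3.eventually_gt_atTop (2 * s ^ 2)
  obtain ⟨N, hN⟩ := eventually_atTop.1 (h s hs1)
  obtain ⟨n, hn1, hn2⟩ := (h4.and (eventually_ge_atTop N)).exists
  have k0 := hN n hn2
  have k1 := hN (n + 1) (by omega)
  have k2 := hN (n + 2) (by omega)
  have k3 := lin_cas A β n
  have k4 : β ^ n ≤ 2 * s ^ 2 * (s ^ 2) ^ n := by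
    rw [← k3]
    have a1 : lin A β (n + 1) ^ 2 ≤ (s ^ (n + 1)) ^ 2 := by
      rw [← sq_abs]; gcongr
    have a2 : - (lin A β n * lin A β (n + 2)) ≤ s ^ n * s ^ (n + 2) := by
      calc - (lin A β n * lin A β (n + 2)) ≤ |lin A β n * lin A β (n + 2)| := neg_le_abs _
        _ = |lin A β n| * |lin A β (n + 2)| := abs_mul _ _
        _ ≤ s ^ n * s ^ (n + 2) := by gcongr
    calc lin A β (n + 1) ^ 2 - lin A β n * lin A β (n + 2)
        ≤ (s ^ (n + 1)) ^ 2 + s ^ n * s ^ (n + 2) := by linarith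
      _ = 2 * s ^ 2 * (s ^ 2) ^ n := by ring
  rw [div_pow, lt_div_iff₀ (by positivity)] at hn1
  linarith

/-- Largest root. -/
lemma root_right {A β r : ℝ} (h : r ^ 2 - A * r + β < 0) : ∃ l, r < l ∧ l ^ 2 = A * l - β := by
  have hd : (2 * r - A) ^ 2 < A ^ 2 - 4 * β := by nlinarith
  have hd0 : 0 ≤ A ^ 2 - 4 * β := le_trans (sq_nonneg _) hd.le
  refine ⟨(A + √(A ^ 2 - 4 * β)) / 2, ?_, ?_⟩
  · have := Real.lt_sqrt_of_sq_lt hd
    linarith
  · have := Real.sq_sqrt hd0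
    nlinarith

lemma root_left {A β r : ℝ} (h : r ^ 2 + A * r + β < 0) : ∃ l, r < -l ∧ l ^ 2 = A * l - β := by
  obtain ⟨l, h1, h2⟩ := root_right (A := -A) (β := β) (r := r) (by linarith)
  exact ⟨-l, by simpa using h1, by linarith⟩

/-- The elementary estimates. -/
lemma estimates {c κ β Γ : ℝ} (hc : 0 < c) (hκ : 0 < κ) (h1 : c * √κ < 1)
    (hβ : β ≤ (1 - c * √κ) ^ 2)
    (hμ : 0 ≤ (1 - c * √κ) ^ 2 - (1 + β - Γ * κ) * (1 - c * √κ) + β)
    (hL : 0 ≤ (1 - c * √κ) ^ 2 + (1 + β - Γ) * (1 - c * √κ) + β) :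
    c ^ 2 ≤ Γ ∧ Γ ≤ 4 ∧ |β - 1| ≤ (c + 4 / c) * √κ := by
  set k := √κ with hk
  have hk0 : 0 < k := Real.sqrt_pos.2 hκ
  have hk2 : k ^ 2 = κ := Real.sq_sqrt hκ.le
  set δ := c * k with hδ
  have hδ0 : 0 < δ := by positivity
  have hr : 0 < 1 - δ := by linarith
  have hr1 : 1 - δ < 1 := by linarith
  set r := 1 - δ with hrdef
  have hδr : δ = 1 - r := by rw [hrdef]; ring
  have hβr : r - β ≥ r * δ := by rw [hδr]; nlinarith
  have hμ' : δ * (r - β) ≤ Γ * κ * r := by rw [hδr]; nlinarith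
  have hΓ1 : c ^ 2 ≤ Γ := by
    have : δ * (r * δ) ≤ Γ * κ * r := le_trans (mul_le_mul_of_nonneg_left hβr hδ0.le) hμ'
    have h3 : δ ^ 2 * r ≤ (Γ * κ) * r := by nlinarith
    have h4 : δ ^ 2 ≤ Γ * κ := le_of_mul_le_mul_right h3 hr
    rw [hδ, mul_pow, hk2] at h4
    exact le_of_mul_le_mul_right h4 hκ
  have hr2 : r ^ 2 ≤ r := by nlinarith
  have hΓ2 : Γ ≤ 4 := by
    have h5 : Γ * r ≤ 4 * r := by
      have : Γ * r ≤ r ^ 2 + r + β * r + β := by nlinarith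
      have h6 : β * r ≤ r ^ 2 * r := mul_le_mul_of_nonneg_right hβ hr.le
      have h7 : r ^ 2 * r ≤ r * 1 := by
        have : r ^ 2 * r ≤ r * r := mul_le_mul_of_nonneg_right hr2 hr.le
        nlinarith
      nlinarith
    exact le_of_mul_le_mul_right h5 hr
  refine ⟨hΓ1, hΓ2, ?_⟩
  have hβ1 : β ≤ 1 := by nlinarith
  rw [abs_of_nonpos (by linarith)]
  have h8 : δ * (r - β) ≤ 4 * κ := by
    have : Γ * κ * r ≤ 4 * κ * 1 := by
      have a1 : Γ * κ ≤ 4 * κ := mul_le_mul_of_nonneg_right hΓ2 hκ.le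
      have a2 : 0 ≤ Γ * κ := by nlinarith [sq_nonneg c]
      exact mul_le_mul a1 hr1.le hr.le (by positivity)
    linarith
  have h9 : r - β ≤ 4 / c * k := by
    have : δ * (r - β) ≤ δ * (4 / c * k) := by
      refine le_trans h8 (le_of_eq ?_)
      rw [hδ, ← hk2]; field_simp
    exact le_of_mul_le_mul_left this hδ0
  have : -(β - 1) = δ + (r - β) := by rw [hδr]; ring
  rw [this, hδ]
  linarith [h9]

end Pool.Agent.Y685.HB
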